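import Pool.Agent.Lib_MP_6b5565.Walks0

/-! [QG-A2a] walks: append, reverse, rotate (inductions on lists) -/

namespace QG6b

namespace Poly

variable (P : Poly)

theorem DWalk_append {F G : P.D} {l₁ l₂ : List P.D} :
    P.DWalk F (l₁ ++ l₂) G ↔ ∃ H, P.DWalk F l₁ H ∧ P.DWalk H l₂ G := by
  induction l₁ generalizing F with
  | nil =>
    constructor
    · intro w
      exact ⟨F, P.SF_refl F, w⟩
    · rintro ⟨H, h, w⟩
      exact P.DWalk_congr_left (P.SF_symm h) w
  | cons d l ih =>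
    constructor
    · rintro ⟨h, w⟩
      obtain ⟨H, w1, w2⟩ := ih.1 w
      exact ⟨H, ⟨h, w1⟩, w2⟩
    · rintro ⟨H, ⟨h, w1⟩, w2⟩
      exact ⟨h, ih.2 ⟨H, w1, w2⟩⟩

/-- the face after a nonempty walk is the face of `inv` of the last half-edge -/
theorem DWalk_last {F G d : P.D} {l : List P.D} (w : P.DWalk F (l ++ [d]) G) :
    P.SF (P.inv d) G := by
  obtain ⟨H, -, -, w2⟩ := P.DWalk_append.1 w
  exact w2

theorem DWalk_end_unique {F G G' : P.D} {l : List P.D} (w : P.DWalk F l G) (w' : P.DWalk F l G') :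
    P.SF G G' := by
  induction l generalizing F with
  | nil => exact P.SF_trans (P.SF_symm w) w'
  | cons d l ih => exact ih w.2 w'.2

/-- reversed walk -/
theorem DWalk_reverse {F G : P.D} {l : List P.D} (w : P.DWalk F l G) :
    P.DWalk G ((l.map P.inv).reverse) F := by
  induction l generalizing F with
  | nil => exact P.SF_symm w
  | cons d l ih =>
    rw [List.map_cons, List.reverse_cons]
    refine P.DWalk_append.2 ⟨P.inv d, ih w.2, P.SF_refl _, ?_⟩
    show P.SF (P.inv (P.inv d)) F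
    rw [P.inv_inv]
    exact P.SF_symm w.1

theorem Walk_iff {F G : P.D} {l : List (Step P)} :
    P.Walk F l G ↔ P.DWalk F (l.map Step.d) G ∧ ∀ s ∈ l, s.x ∈ P.seg s.d := by
  induction l generalizing F with
  | nil =>
    constructor
    · intro w
      exact ⟨w, fun s hs => absurd hs List.not_mem_nil⟩
    · intro w
      exact w.1
  | cons s l ih =>
    constructor
    · rintro ⟨h1, h2, w⟩
      obtain ⟨w1, w2⟩ := ih.1 w
      refine ⟨⟨h1, w1⟩, fun t ht => ?_⟩
      rcases List.mem_cons.1 ht with rfl | ht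
      · exact h2
      · exact w2 t ht
    · rintro ⟨⟨h1, w1⟩, h2⟩
      exact ⟨h1, h2 s List.mem_cons_self, ih.2 ⟨w1, fun t ht => h2 t (List.mem_cons_of_mem _ ht)⟩⟩

theorem Walk_append {F G : P.D} {l₁ l₂ : List (Step P)} :
    P.Walk F (l₁ ++ l₂) G ↔ ∃ H, P.Walk F l₁ H ∧ P.Walk H l₂ G := by
  constructor
  · intro w
    obtain ⟨w1, w2⟩ := P.Walk_iff.1 w
    rw [List.map_append] at w1
    obtain ⟨H, w3, w4⟩ := P.DWalk_append.1 w1
    exact ⟨H, P.Walk_iff.2 ⟨w3, fun s hs => w2 s (List.mem_append_left _ hs)⟩,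
      P.Walk_iff.2 ⟨w4, fun s hs => w2 s (List.mem_append_right _ hs)⟩⟩
  · rintro ⟨H, w1, w2⟩
    obtain ⟨w3, w4⟩ := P.Walk_iff.1 w1
    obtain ⟨w5, w6⟩ := P.Walk_iff.1 w2
    refine P.Walk_iff.2 ⟨?_, fun s hs => ?_⟩
    · rw [List.map_append]
      exact P.DWalk_append.2 ⟨H, w3, w5⟩
    · rcases List.mem_append.1 hs with h | h
      · exact w4 s h
      · exact w6 s h

/-- a closed walk can be started at any of its steps (cyclic rotation) -/
theorem DWalk_rotate {l₁ l₂ : List P.D} (h : ∃ F, P.DWalk F (l₁ ++ l₂) F) :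
    ∃ F, P.DWalk F (l₂ ++ l₁) F := by
  obtain ⟨F, w⟩ := h
  obtain ⟨H, w1, w2⟩ := P.DWalk_append.1 w
  exact ⟨H, P.DWalk_append.2 ⟨F, w2, w1⟩⟩

theorem Walk_rotate {l₁ l₂ : List (Step P)} (h : ∃ F, P.Walk F (l₁ ++ l₂) F) :
    ∃ F, P.Walk F (l₂ ++ l₁) F := by
  obtain ⟨F, w⟩ := h
  obtain ⟨H, w1, w2⟩ := P.Walk_append.1 w
  exact ⟨H, P.Walk_append.2 ⟨F, w2, w1⟩⟩

/-- crossing in the other direction has the same parity -/
theorem par_map_inv (l : List P.D) : P.par (l.map P.inv) = P.par l := by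
  funext e
  unfold par
  rw [List.countP_map]
  congr 2
  funext a
  have h1 : P.inv a = e ↔ a = P.inv e := by
    constructor
    · rintro rfl
      exact (P.inv_inv a).symm
    · rintro rfl
      exact P.inv_inv e
  have h2 : P.inv a = P.inv e ↔ a = e := P.inv_injective.eq_iff
  simp only [Function.comp, h1, h2, or_comm]

end Poly

end QG6b
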