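import Pool.Agent.Lib_MP_6b5565.A2a

/-! [QG-A2b] parity vectors are cocycles -/

namespace QG6b

namespace Poly

variable (P : Poly)

open Classical in
/-- indicator of the face of `e` -/
private noncomputable def ind (e d : P.D) : ZMod 2 := if P.SF e d then 1 else 0

private theorem ind_congr {a b : P.D} (h : P.SF a b) (e : P.D) : P.ind e a = P.ind e b := by
  unfold ind
  by_cases h1 : P.SF e a
  · rw [if_pos h1, if_pos (P.SF_trans h1 h)]
  · rw [if_neg h1, if_neg (fun h2 => h1 (P.SF_trans h2 (P.SF_symm h)))]

private theorem sum_eq (e d : P.D) :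
    ((if d = e then 1 else 0 : ZMod 2) + (if d = P.nxt e then 1 else 0)
      + (if d = P.prev e then 1 else 0)) = P.ind e d := by
  unfold ind SF
  by_cases h1 : d = e
  · have h2 : ¬ d = P.nxt e := fun h => P.nxt_ne e (h.symm.trans h1)
    have h3 : ¬ d = P.prev e := fun h => P.prev_ne e (h.symm.trans h1)
    rw [if_pos h1, if_neg h2, if_neg h3, if_pos (Or.inl h1)]
    simp
  · by_cases h2 : d = P.nxt e
    · have h3 : ¬ d = P.prev e := fun h => P.prev_ne_nxt e (h.symm.trans h2)
      rw [if_neg h1, if_pos h2, if_neg h3, if_pos (Or.inr (Or.inl h2))]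
      simp
    · by_cases h3 : d = P.prev e
      · rw [if_neg h1, if_neg h2, if_pos h3, if_pos (Or.inr (Or.inr h3))]
        simp
      · rw [if_neg h1, if_neg h2, if_neg h3, if_neg]
        · simp
        · rintro (h | h | h)
          · exact h1 h
          · exact h2 h
          · exact h3 h

private theorem par_cons' (d : P.D) (l : List P.D) (x : P.D) :
    P.par (d :: l) x = P.par l x + ((if d = x then 1 else 0) + (if P.inv d = x then 1 else 0)) := by
  unfold par
  rw [List.countP_cons]
  by_cases h1 : d = x
  · have h2 : ¬ P.inv d = x := fun h => P.inv_ne d (h.trans h1.symm)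
    rw [if_pos h1, if_neg h2]
    simp [h1]
  · by_cases h2 : P.inv d = x
    · have h3 : d = P.inv x := by rw [← h2, P.inv_inv]
      rw [if_neg h1, if_pos h2]
      simp [h3]
    · have h3 : ¬ d = P.inv x := fun h => h2 (by rw [h, P.inv_inv])
      rw [if_neg h1, if_neg h2]
      simp [h1, h3]

private theorem two_mul_zmod (a : ZMod 2) : a + a = 0 := by
  revert a; decide

private theorem par_face_aux (e : P.D) : ∀ (l : List P.D) (F G : P.D), P.DWalk F l G →
    P.par l e + P.par l (P.nxt e) + P.par l (P.prev e) = P.ind e F + P.ind e G := by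
  intro l
  induction l with
  | nil =>
    intro F G w
    have h : P.SF F G := w
    rw [P.ind_congr h e, two_mul_zmod]
    simp [par]
  | cons d l ih =>
    intro F G w
    have h1 : P.SF F d := w.1
    have h2 : P.DWalk (P.inv d) l G := w.2
    have h3 := ih (P.inv d) G h2
    rw [P.par_cons' d l e, P.par_cons' d l (P.nxt e), P.par_cons' d l (P.prev e), P.ind_congr h1 e]
    have h4 := P.sum_eq e d
    have h5 := P.sum_eq e (P.inv d)
    have h6 := two_mul_zmod (P.ind e (P.inv d))
    linear_combination h3 + h4 + h5 + h6

/-- KEY: a closed walk enters and leaves every face equally often, so its parity vector is a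
cocycle. (More generally for a walk from `F` to `G` the face sum is the indicator of the face of
`F` plus the indicator of the face of `G`; induction on `l`.) -/
theorem par_face {F : P.D} {l : List P.D} (w : P.DWalk F l F) (e : P.D) :
    P.par l e + P.par l (P.nxt e) + P.par l (P.prev e) = 0 := by
  rw [P.par_face_aux e l F F w, two_mul_zmod]

end Poly

end QG6b
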