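import Pool.Agent.Lib_MP_6b5565.Basic

/-! [QG-A2d] rotation around a vertex (`rot` is a permutation, `orbit`) -/

namespace QG6b

namespace Poly

variable (P : Poly)

private theorem rot_injective : Function.Injective P.rot :=
  Function.LeftInverse.injective (g := P.cw) P.cw_rot

private theorem tail_iterate_rot (a : P.D) (k : ℕ) : P.tail (P.rot^[k] a) = P.tail a := by
  induction k with
  | zero => rfl
  | succ k ih => rw [Function.iterate_succ_apply', P.tail_rot, ih]

private theorem mem_per (a : P.D) : a ∈ Function.periodicPts P.rot :=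
  (P.rot_injective).mem_periodicPts a

private theorem exists_iterate (a b : P.D) (h : P.tail a = P.tail b) :
    ∃ k < Function.minimalPeriod P.rot a, P.rot^[k] a = b := by
  obtain ⟨k, hk⟩ := P.orbit a b h
  refine ⟨k % Function.minimalPeriod P.rot a,
    Nat.mod_lt _ (Function.minimalPeriod_pos_of_mem_periodicPts (P.mem_per a)), ?_⟩
  rw [Function.iterate_mod_minimalPeriod_eq]
  exact hk

private theorem minPer (a : P.D) : Function.minimalPeriod P.rot a = P.deg (P.tail a) := by
  have h1 : Finset.univ.filter (fun d => P.tail d = P.tail a)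
      = (Finset.range (Function.minimalPeriod P.rot a)).image (fun k => P.rot^[k] a) := by
    ext d
    simp only [Finset.mem_filter, Finset.mem_univ, true_and, Finset.mem_image, Finset.mem_range]
    constructor
    · intro h
      exact P.exists_iterate a d h.symm
    · rintro ⟨k, -, rfl⟩
      exact P.tail_iterate_rot a k
  unfold deg
  rw [h1, Finset.card_image_of_injOn, Finset.card_range]
  intro i hi j hj h
  exact Function.iterate_injOn_Iio_minimalPeriod (by simpa using hi) (by simpa using hj) h

/-- rotation around a vertex: `rot` permutes the `deg v` half-edges at `v` cyclically -/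
theorem iterate_rot_deg (a : P.D) : P.rot^[P.deg (P.tail a)] a = a := by
  rw [← P.minPer a]
  exact Function.iterate_minimalPeriod

theorem iterate_rot_inj (a : P.D) {i j : ℕ} (hi : i < P.deg (P.tail a)) (hj : j < P.deg (P.tail a))
    (h : P.rot^[i] a = P.rot^[j] a) : i = j := by
  rw [← P.minPer a] at hi hj
  exact Function.iterate_injOn_Iio_minimalPeriod (by simpa using hi) (by simpa using hj) h

theorem exists_iterate_rot (a b : P.D) (h : P.tail a = P.tail b) :
    ∃ k < P.deg (P.tail a), P.rot^[k] a = b := by
  rw [← P.minPer a]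
  exact P.exists_iterate a b h

theorem iterate_cw_rot (a : P.D) {k l : ℕ} (h : k + l = P.deg (P.tail a)) :
    P.cw^[k] a = P.rot^[l] a := by
  have h1 : Function.LeftInverse P.cw P.rot := P.cw_rot
  have h2 : P.cw^[k] (P.rot^[k] (P.rot^[l] a)) = P.rot^[l] a := (h1.iterate k) _
  rw [← Function.iterate_add_apply, h, P.iterate_rot_deg] at h2
  exact h2

theorem three_le_deg (v : P.V) : 3 ≤ P.deg v := by
  obtain ⟨d, hd⟩ := P.surj v
  have h1 : ∀ e : P.D, P.rot e ≠ e := by
    intro e h
    apply P.head_ne_prev e
    rw [← P.head_rot, h]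
  have h2 : P.rot (P.rot d) ≠ d := by
    intro h
    have e1 : P.prev d = P.inv (P.rot d) := by
      show _ = P.inv (P.inv (P.prev d))
      rw [P.inv_inv]
    have e2 : P.prev (P.rot d) = P.inv d := by
      have : P.inv (P.prev (P.rot d)) = d := h
      rw [← this, P.inv_inv, this]
    have h3 : P.SF d (P.inv (P.rot d)) := by
      rw [← e1]; exact P.SF_prev d
    have h4 : P.SF (P.inv d) (P.inv (P.inv (P.rot d))) := by
      rw [P.inv_inv, ← e2]; exact P.SF_symm (P.SF_prev _)
    have h5 := P.SF_two h4 h3
    apply P.tail_ne_head (P.rot d)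
    rw [P.tail_rot]
    exact congrArg P.tail h5
  have h3 : ({d, P.rot d, P.rot (P.rot d)} : Finset P.D) ⊆
      Finset.univ.filter (fun e => P.tail e = v) := by
    intro e he
    simp only [Finset.mem_insert, Finset.mem_singleton] at he
    simp only [Finset.mem_filter, Finset.mem_univ, true_and]
    rcases he with rfl | rfl | rfl
    · exact hd
    · rw [P.tail_rot, hd]
    · rw [P.tail_rot, P.tail_rot, hd]
  have h4 : ({d, P.rot d, P.rot (P.rot d)} : Finset P.D).card = 3 := by
    rw [Finset.card_eq_three]
    exact ⟨_, _, _, (h1 d).symm, h2.symm, (h1 _).symm, rfl⟩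
  rw [← h4]
  exact Finset.card_le_card h3

end Poly

end QG6b
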