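import Pool.Agent.Lib_MP_6b5565.A3a

/-! [QG-A3b] lengths of closed polygons -/

namespace QG6b

private theorem olen_app (u v : List E3) (hu : u ≠ []) (hv : v ≠ []) :
    olen (u ++ v) = olen u + dist (u.getLast hu) (v.head hv) + olen v := by
  obtain ⟨c, v', rfl⟩ := List.exists_cons_of_ne_nil hv
  have h := olen_append' u.dropLast v' (u.getLast hu) c
  rw [List.dropLast_append_getLast hu] at h
  exact h

private theorem clen_ne (l : List E3) (hl : l ≠ []) : clen l = olen (l ++ [l.head hl]) := by
  obtain ⟨c, l', rfl⟩ := List.exists_cons_of_ne_nil hl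
  rfl

private theorem olen_single (a : E3) : olen [a] = 0 := rfl

theorem clen_nonneg (l : List E3) : 0 ≤ clen l := by
  cases l with
  | nil => exact le_refl _
  | cons a l => exact olen_nonneg _

/-- general form: `u`, `v` nonempty -/
private theorem clen_append_ne' (u v : List E3) (hu : u ≠ []) (hv : v ≠ []) :
    clen (u ++ v) = olen u + dist (u.getLast hu) (v.head hv) + olen v
      + dist (v.getLast hv) (u.head hu) := by
  have huv : u ++ v ≠ [] := List.append_ne_nil_of_left_ne_nil hu v
  rw [clen_ne _ huv, olen_app (u ++ v) _ huv (List.cons_ne_nil _ _), olen_app u v hu hv, olen_single,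
    add_zero]
  congr 1
  rw [List.head_cons, List.getLast_append_of_ne_nil _ hv, List.head_append_of_ne_nil hu]

theorem clen_rotate (l₁ l₂ : List E3) : clen (l₁ ++ l₂) = clen (l₂ ++ l₁) := by
  by_cases h1 : l₁ = []
  · subst h1; simp
  by_cases h2 : l₂ = []
  · subst h2; simp
  rw [clen_append_ne' l₁ l₂ h1 h2, clen_append_ne' l₂ l₁ h2 h1]
  ring

/-- deleting points does not increase the length of a closed polygon -/
theorem clen_sublist {l₁ l₂ : List E3} (h : l₁.Sublist l₂) : clen l₁ ≤ clen l₂ := by
  cases l₁ with
  | nil => exact clen_nonneg l₂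
  | cons a l =>
    obtain ⟨r₁, r₂, rfl, ha, hs⟩ := List.cons_sublist_iff.1 h
    obtain ⟨s, t, rfl⟩ := List.append_of_mem ha
    have e1 : s ++ a :: t ++ r₂ = s ++ (a :: (t ++ r₂)) := by simp
    rw [e1, clen_rotate]
    show olen (a :: (l ++ [a])) ≤ olen (a :: ((t ++ r₂ ++ s) ++ [a]))
    refine olen_sublist (List.Sublist.cons_cons a (List.Sublist.append ?_ (List.Sublist.refl _)))
    exact (hs.trans (List.sublist_append_right t r₂)).trans (List.sublist_append_left _ s)

/-- a closed polygon cut into two open ones -/
theorem clen_append (l₁ l₂ : List E3) (a b c d : E3) :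
    clen ((a :: l₁ ++ [b]) ++ (c :: l₂ ++ [d])) =
      olen (a :: l₁ ++ [b]) + dist b c + olen (c :: l₂ ++ [d]) + dist d a := by
  have hu : a :: l₁ ++ [b] ≠ [] := by simp
  have hv : c :: l₂ ++ [d] ≠ [] := by simp
  rw [clen_append_ne' _ _ hu hv]
  congr 3
  · congr 1
    exact List.getLast_append_singleton _
  · exact List.getLast_append_singleton _

/-- general form: `u`, `v` nonempty -/
theorem clen_append_ne (u v : List E3) (hu : u ≠ []) (hv : v ≠ []) :
    clen (u ++ v) = olen u + dist (u.getLast hu) (v.head hv) + olen v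
      + dist (v.getLast hv) (u.head hu) := clen_append_ne' u v hu hv

/-- `clen` only depends on the list up to deletion of immediate repetitions -/
theorem clen_dup (l₁ l₂ : List E3) (a : E3) : clen (l₁ ++ a :: a :: l₂) = clen (l₁ ++ a :: l₂) := by
  rw [clen_rotate, clen_rotate l₁]
  show olen (a :: a :: ((l₂ ++ l₁) ++ [a])) = olen (a :: ((l₂ ++ l₁) ++ [a]))
  rw [olen_cons_cons, dist_self, zero_add]

theorem clen_eq_zero {l : List E3} (h : clen l = 0) : ∀ a ∈ l, ∀ b ∈ l, a = b := by
  have key : ∀ x y : E3, [x, y].Sublist l → x = y := by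
    intro x y hs
    have h1 := clen_sublist hs
    have h2 : clen [x, y] = dist x y + (dist y x + 0) := rfl
    rw [h, h2] at h1
    have h3 := dist_nonneg (x := x) (y := y)
    have h4 := dist_nonneg (x := y) (y := x)
    exact dist_eq_zero.1 (by linarith)
  intro a ha b hb
  obtain ⟨s, t, rfl⟩ := List.append_of_mem ha
  rcases List.mem_append.1 hb with hb1 | hb1
  · have h1 : [b, a].Sublist (s ++ a :: t) := by
      have : [b, a] = [b] ++ [a] := rfl
      rw [this]
      exact (List.singleton_sublist.2 hb1).append (List.singleton_sublist.2 List.mem_cons_self)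
    exact (key b a h1).symm
  · rcases List.mem_cons.1 hb1 with hb2 | hb2
    · exact hb2.symm
    · have h1 : [a, b].Sublist (s ++ a :: t) :=
        ((List.singleton_sublist.2 hb2).cons_cons a).trans (List.sublist_append_right s _)
      exact key a b h1

end QG6b
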