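import Pool.Agent.Lib_MP_6b5565.A3b

/-! [QG-A3c] lengths of closed polygons given by functions -/

namespace QG6b

private theorem olen_map_range (n : ℕ) : ∀ f : ℕ → E3,
    olen ((List.range (n + 1)).map f) = ∑ t ∈ Finset.range n, dist (f t) (f (t + 1)) := by
  induction n with
  | zero =>
    intro f
    simp [olen]
  | succ n ih =>
    intro f
    have h1 : (List.range (n + 2)).map f = f 0 :: (List.range (n + 1)).map (fun t => f (t + 1)) := by
      rw [List.range_succ_eq_map, List.map_cons, List.map_map]
      rfl
    have h2 : (List.range (n + 1)).map (fun t => f (t + 1)) =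
        f 1 :: (List.range n).map (fun t => f (t + 2)) := by
      rw [List.range_succ_eq_map, List.map_cons, List.map_map]
      rfl
    have h3 := ih (fun t => f (t + 1))
    rw [h1, h2, olen_cons_cons, ← h2, h3, Finset.sum_range_succ']
    rw [add_comm]

private theorem clen_map_range (n : ℕ) (f : ℕ → E3) (h : f (n + 1) = f 0) :
    clen ((List.range (n + 1)).map f) = ∑ t ∈ Finset.range (n + 1), dist (f t) (f (t + 1)) := by
  rw [← olen_map_range]
  have h1 : (List.range (n + 1)).map f = f 0 :: (List.range n).map (fun t => f (t + 1)) := by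
    rw [List.range_succ_eq_map, List.map_cons, List.map_map]
    rfl
  have h2 : clen ((List.range (n + 1)).map f) = olen ((List.range (n + 1)).map f ++ [f 0]) := by
    rw [h1]
    rfl
  rw [h2, List.range_succ (n := n + 1), List.map_append, List.map_cons, List.map_nil, h]

/-- closed polygon given by a function on `ZMod m` (any starting point) -/
theorem clen_fun (m : ℕ) [NeZero m] (y : ZMod m → E3) (j : ZMod m) :
    clen ((List.range m).map (fun t => y (j + (t : ℕ)))) = ∑ i, dist (y i) (y (i + 1)) := by
  obtain ⟨n, rfl⟩ : ∃ n, m = n + 1 := ⟨m - 1, by have := NeZero.pos m; omega⟩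
  rw [clen_map_range n (fun t => y (j + (t : ℕ)))]
  · refine Finset.sum_bij (fun t _ => j + ((t : ℕ) : ZMod (n + 1))) (fun _ _ => Finset.mem_univ _)
      ?_ ?_ ?_
    · intro a ha b hb hab
      have h1 : ((a : ℕ) : ZMod (n + 1)) = ((b : ℕ) : ZMod (n + 1)) := add_left_cancel hab
      have h2 := congrArg ZMod.val h1
      rwa [ZMod.val_natCast, ZMod.val_natCast, Nat.mod_eq_of_lt (Finset.mem_range.1 ha),
        Nat.mod_eq_of_lt (Finset.mem_range.1 hb)] at h2
    · intro i _
      refine ⟨(i - j).val, Finset.mem_range.2 (ZMod.val_lt _), ?_⟩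
      rw [ZMod.natCast_zmod_val]
      ring
    · intro t _
      simp only [Nat.cast_add, Nat.cast_one, add_assoc]
  · have h : (((n + 1 : ℕ)) : ZMod (n + 1)) = 0 := ZMod.natCast_self (n + 1)
    simp only [h, Nat.cast_zero]

private theorem olen_replicate (a : E3) (l : List E3) (k : ℕ) :
    olen (List.replicate (k + 1) a ++ l) = olen (a :: l) := by
  induction k with
  | zero => rfl
  | succ k ih =>
    rw [List.replicate_succ, List.replicate_succ, List.cons_append, List.cons_append,
      olen_cons_cons, dist_self, zero_add, ← List.cons_append, ← List.replicate_succ, ih]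

private theorem olen_flatMap (L : List (E3 × ℕ)) (hL : ∀ p ∈ L, 1 ≤ p.2) :
    olen (L.flatMap (fun p => List.replicate p.2 p.1)) = olen (L.map Prod.fst) := by
  induction L with
  | nil => rfl
  | cons p L ih =>
    obtain ⟨a, k⟩ := p
    have hk : 1 ≤ k := hL (a, k) List.mem_cons_self
    obtain ⟨k, rfl⟩ : ∃ k', k = k' + 1 := ⟨k - 1, by omega⟩
    have ih' := ih fun p hp => hL p (List.mem_cons_of_mem _ hp)
    rw [List.flatMap_cons, olen_replicate, List.map_cons]
    cases L with
    | nil => rfl
    | cons q L =>
      obtain ⟨b, k'⟩ := q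
      have hk' : 1 ≤ k' := hL (b, k') (List.mem_cons_of_mem _ List.mem_cons_self)
      obtain ⟨k', rfl⟩ : ∃ k'', k' = k'' + 1 := ⟨k' - 1, by omega⟩
      rw [List.flatMap_cons, List.map_cons] at ih' ⊢
      rw [olen_cons_cons, ← ih']
      rw [List.replicate_succ, List.cons_append, olen_cons_cons]

private theorem clen_flatMap' (L : List (E3 × ℕ)) (hL : ∀ p ∈ L, 1 ≤ p.2) :
    clen (L.flatMap (fun p => List.replicate p.2 p.1)) = clen (L.map Prod.fst) := by
  cases L with
  | nil => rfl
  | cons p L =>
    obtain ⟨a, k⟩ := p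
    have hk : 1 ≤ k := hL (a, k) List.mem_cons_self
    obtain ⟨k, rfl⟩ : ∃ k', k = k' + 1 := ⟨k - 1, by omega⟩
    have h1 := olen_flatMap ((a, k + 1) :: L ++ [(a, 1)]) (by
      intro p hp
      rcases List.mem_append.1 hp with h | h
      · exact hL p h
      · rw [List.mem_singleton.1 h])
    have h2 : clen (((a, k + 1) :: L).flatMap (fun p : E3 × ℕ => List.replicate p.2 p.1)) =
        olen (((a, k + 1) :: L ++ [(a, 1)]).flatMap (fun p : E3 × ℕ => List.replicate p.2 p.1)) := by
      rw [List.flatMap_append, List.flatMap_cons, List.replicate_succ, List.cons_append]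
      rfl
    rw [h2, h1, List.map_append, List.map_cons]
    rfl

/-- repeated points do not matter: `k i ≥ 1` copies of `y i` -/
theorem clen_flatMap (m : ℕ) [NeZero m] (y : ZMod m → E3) (k : ZMod m → ℕ) (hk : ∀ i, 1 ≤ k i)
    (j : ZMod m) :
    clen ((List.range m).flatMap (fun t => List.replicate (k (j + (t : ℕ))) (y (j + (t : ℕ)))))
      = ∑ i, dist (y i) (y (i + 1)) := by
  rw [← clen_fun m y j]
  have h := clen_flatMap' ((List.range m).map (fun t => (y (j + (t : ℕ)), k (j + (t : ℕ))))) (by
    intro p hp
    obtain ⟨t, _, rfl⟩ := List.mem_map.1 hp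
    exact hk _)
  rw [List.flatMap_map, List.map_map] at h
  exact h

theorem clen_continuous (n : ℕ) : Continuous (fun f : Fin n → E3 => clen (List.ofFn f)) := by
  cases n with
  | zero =>
    simp only [List.ofFn_zero]
    exact continuous_const
  | succ m =>
    have h : ∀ f : Fin (m + 1) → E3, clen (List.ofFn f) = ∑ i : Fin (m + 1), dist (f i) (f (i + 1)) := by
      intro f
      have h1 := clen_fun (m + 1) (fun i : ZMod (m + 1) => f i) 0
      have h2 : List.ofFn f = (List.range (m + 1)).map
          (fun t => (fun i : ZMod (m + 1) => f i) (0 + (t : ℕ))) := by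
        apply List.ext_getElem
        · simp
        · intro i hi hi'
          rw [List.getElem_ofFn, List.getElem_map, List.getElem_range]
          have h3 : ((0 : ZMod (m + 1)) + ((i : ℕ) : ZMod (m + 1))).val = i := by
            rw [zero_add, ZMod.val_natCast, Nat.mod_eq_of_lt (by simpa using hi)]
          have h4 : (⟨i, by simpa using hi⟩ : Fin (m + 1)) =
              ((0 : ZMod (m + 1)) + ((i : ℕ) : ZMod (m + 1))) := Fin.ext h3.symm
          exact congrArg f h4
      rw [h2]
      exact h1
    simp only [h]
    exact continuous_finsetSum _ fun i _ => (continuous_apply i).dist (continuous_apply (i + 1))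

end QG6b
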