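import Pool.Agent.Lib_MP_6b5565.Walks0
import Pool.Agent.Lib_MP_6b5565.Cocycle

/-! [QG-A4a] connectedness -/

namespace QG6b

namespace Poly

variable (P : Poly)

/-- two colourings with the same coboundary differ by a constant (connectedness `conn`) -/
theorem Col_unique {p : P.D → ZMod 2} {c c' : P.V → ZMod 2} (h : P.Col p c) (h' : P.Col p c') :
    ∃ k, ∀ v, c' v = c v + k := by
  classical
  by_cases hV : Nonempty P.V
  · obtain ⟨v₀⟩ := hV
    refine ⟨c' v₀ + c v₀, fun v => ?_⟩
    have hc := P.conn v₀ v
    have h2 : (2 : ZMod 2) = 0 := rfl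
    induction hc with
    | refl => linear_combination (-c v₀) * h2
    | @tail b w _ hs ih =>
        obtain ⟨d, hd1, hd2⟩ := hs
        have e1 := h d
        have e2 := h' d
        unfold head at e1 e2
        rw [hd1, hd2] at e1 e2
        linear_combination e2 - e1 + ih + (c b - c' b) * h2
  · exact ⟨0, fun v => (hV ⟨v⟩).elim⟩

/-- [QG-A4a] the dual graph is connected: faces are connected through edges. Induction along the
vertex path of `conn`; around a vertex use `orbit`. -/
theorem dual_conn (a b : P.D) :
    Relation.ReflTransGen (fun x y => P.SF x y ∨ y = P.inv x) a b := by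
  set R : P.D → P.D → Prop := Relation.ReflTransGen (fun x y => P.SF x y ∨ y = P.inv x) with hR
  have hnxt : ∀ x, R a x → R a (P.nxt x) := fun x hx => hx.tail (Or.inl (P.SF_nxt x))
  have hinv : ∀ x, R a x → R a (P.inv x) := fun x hx => hx.tail (Or.inr rfl)
  have hrot : ∀ (k : ℕ) (x : P.D), R a x → R a ((fun a => P.inv (P.nxt (P.nxt a)))^[k] x) := by
    intro k
    induction k with
    | zero => intro x hx; exact hx
    | succ k ih =>
        intro x hx
        rw [Function.iterate_succ_apply']
        exact hinv _ (hnxt _ (hnxt _ (ih x hx)))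
  have key : ∀ v, (∀ d, P.tail d = v → R a d) := by
    intro v
    have hc := P.conn (P.tail a) v
    induction hc with
    | refl =>
        intro d hd
        obtain ⟨k, hk⟩ := P.orbit a d hd.symm
        rw [← hk]
        exact hrot k a Relation.ReflTransGen.refl
    | @tail u w _ hs ih =>
        obtain ⟨e, he1, he2⟩ := hs
        intro d hd
        obtain ⟨k, hk⟩ := P.orbit (P.inv e) d (by rw [he2, hd])
        rw [← hk]
        exact hrot k _ (hinv _ (ih e he1))
  exact key (P.tail b) b rfl

/-- the half-edge structure as a `Surf` -/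
theorem surf : Pool.Agent.SQ.Surf P.inv P.nxt P.tail where
  inv_inv := P.inv_inv
  inv_ne := P.inv_ne
  nxt3 := P.nxt3
  nxt_ne := P.nxt_ne
  conn := by
    intro S hS h1 h2 d
    obtain ⟨d₀, hd₀⟩ := hS
    have hc := P.dual_conn d₀ d
    induction hc with
    | refl => exact hd₀
    | @tail b w _ hs ih =>
        rcases hs with hs | hs
        · rcases hs with hs | hs | hs
          · rw [hs]; exact ih
          · rw [hs]; exact h2 _ ih
          · rw [hs]; exact h2 _ (h2 _ ih)
        · rw [hs]; exact h1 _ ih
  tail_rot := fun d => P.tail_rot d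
  tail_surj := P.surj

theorem Col_add {p q : P.D → ZMod 2} {c d : P.V → ZMod 2} (h : P.Col p c) (h' : P.Col q d) :
    P.Col (fun e => p e + q e) (fun v => c v + d v) := by
  intro e; have := h e; have := h' e; linear_combination h e + h' e

end Poly

end QG6b
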