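import Pool.Agent.Lib_MP_6b5565.Walks

/-! [QG-A4e] face angles and curvature -/

namespace QG6b

namespace Poly

variable (P : Poly)

private theorem a4e_not_col (d : P.D) :
    ¬ Collinear ℝ ({P.A (P.nxt d), P.A d, P.A (P.prev d)} : Set E3) := by
  have h := P.indep d
  rw [affineIndependent_iff_not_collinear_set] at h
  intro hc
  apply h
  have e : ({P.pos (P.tail d), P.pos (P.tail (P.nxt d)), P.pos (P.tail (P.nxt (P.nxt d)))} : Set E3) =
      {P.A (P.nxt d), P.A d, P.A (P.prev d)} := by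
    rw [Set.insert_comm]
    rfl
  rw [e]
  exact hc

theorem ang_pos (d : P.D) : 0 < P.ang d :=
  EuclideanGeometry.angle_pos_of_not_collinear (P.a4e_not_col d)

theorem ang_lt (d : P.D) : P.ang d < Real.pi :=
  EuclideanGeometry.angle_lt_pi_of_not_collinear (P.a4e_not_col d)

/-- angle sum of a face -/
theorem ang_face (d : P.D) : P.ang d + P.ang (P.nxt d) + P.ang (P.prev d) = Real.pi := by
  have hne : P.A d ≠ P.A (P.nxt d) := by
    intro h
    apply P.a4e_not_col d
    rw [h]
    simpa using collinear_pair ℝ (P.A (P.nxt d)) (P.A (P.prev d))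
  have h := EuclideanGeometry.angle_add_angle_add_angle_eq_pi (P.A (P.prev d)) hne
  have e1 : P.ang (P.nxt d) =
      EuclideanGeometry.angle (P.A (P.prev d)) (P.A (P.nxt d)) (P.A d) := by
    show EuclideanGeometry.angle (P.A (P.nxt (P.nxt d))) (P.A (P.nxt d)) (P.A (P.prev (P.nxt d))) = _
    rw [P.prev_nxt]
    rfl
  have e2 : P.ang (P.prev d) =
      EuclideanGeometry.angle (P.A d) (P.A (P.prev d)) (P.A (P.nxt d)) := by
    show EuclideanGeometry.angle (P.A (P.nxt (P.prev d))) (P.A (P.prev d))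
      (P.A (P.prev (P.prev d))) = _
    rw [P.nxt_prev, P.prev_prev]
  have e3 : P.ang d = EuclideanGeometry.angle (P.A (P.nxt d)) (P.A d) (P.A (P.prev d)) := rfl
  rw [e1, e2, e3]
  linarith

theorem tot_pos (v : P.V) : 0 < P.tot v := by
  obtain ⟨d, hd⟩ := P.surj v
  exact Finset.sum_pos (fun e _ => P.ang_pos e) ⟨d, by simp [hd]⟩

theorem tot_lt (v : P.V) : P.tot v < 2 * Real.pi := P.curv v

theorem kap_pos (v : P.V) : 0 < P.kap v := by
  unfold kap; linarith [P.tot_lt v]

theorem kap_lt (v : P.V) : P.kap v < 2 * Real.pi := by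
  unfold kap; linarith [P.tot_pos v]

/-- Gauss-Bonnet / Descartes: total curvature `4π` (sum of all face angles is `π |D| / 3`, `euler`) -/
theorem sum_kap : ∑ v, P.kap v = 4 * Real.pi := by
  have h1 : ∑ v, P.tot v = ∑ d, P.ang d := by
    unfold tot
    exact Finset.sum_fiberwise _ _ _
  let σ : Equiv.Perm P.D := ⟨P.nxt, P.prev, P.prev_nxt, P.nxt_prev⟩
  have h2 : ∑ d, P.ang (P.nxt d) = ∑ d, P.ang d := Equiv.sum_comp σ P.ang
  have h3 : ∑ d, P.ang (P.prev d) = ∑ d, P.ang d := Equiv.sum_comp σ.symm P.ang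
  have h4 : ∑ d : P.D, (P.ang d + P.ang (P.nxt d) + P.ang (P.prev d)) =
      (Fintype.card P.D : ℝ) * Real.pi := by
    rw [Finset.sum_congr rfl fun d _ => P.ang_face d, Finset.sum_const, Finset.card_univ,
      nsmul_eq_mul]
  rw [Finset.sum_add_distrib, Finset.sum_add_distrib, h2, h3] at h4
  have h5 : (6 : ℝ) * (Fintype.card P.V : ℝ) = (Fintype.card P.D : ℝ) + 12 := by
    exact_mod_cast P.euler
  unfold kap
  rw [Finset.sum_sub_distrib, h1, Finset.sum_const, Finset.card_univ, nsmul_eq_mul]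
  have h6 : (Fintype.card P.V : ℝ) = ((Fintype.card P.D : ℝ) + 12) / 6 := by linarith
  rw [h6]
  linarith

end Poly

end QG6b
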