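import Pool.Agent.Lib_MP_6b5565.A4a
import Pool.Agent.Lib_MP_6b5565.A4e

/-! [QG-A4f] curvature of colour classes -/

namespace QG6b

namespace Poly

variable (P : Poly)

theorem K_add' (Z : Finset P.V) (col : P.V → ZMod 2) (c : ZMod 2) :
    P.K Z col c + P.K Z col (c + 1) + ∑ v ∈ Z, P.kap v = 4 * Real.pi := by
  classical
  have hz : ∀ a b : ZMod 2, (b = a + 1 ↔ ¬ (b = a)) := by decide
  have h1 : P.K Z col c + P.K Z col (c + 1) =
      ∑ v ∈ Finset.univ.filter (fun v => v ∉ Z), P.kap v := by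
    unfold K
    have e1 : Finset.univ.filter (fun v => v ∉ Z ∧ col v = c) =
        (Finset.univ.filter (fun v => v ∉ Z)).filter (fun v => col v = c) := by
      rw [Finset.filter_filter]
    have e2 : Finset.univ.filter (fun v => v ∉ Z ∧ col v = c + 1) =
        (Finset.univ.filter (fun v => v ∉ Z)).filter (fun v => ¬ (col v = c)) := by
      rw [Finset.filter_filter]
      apply Finset.filter_congr
      intro v _
      rw [hz c (col v)]
    rw [e1, e2]
    exact Finset.sum_filter_add_sum_filter_not _ _ _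
  have h2 : ∑ v ∈ Z, P.kap v + ∑ v ∈ Finset.univ.filter (fun v => v ∉ Z), P.kap v =
      ∑ v, P.kap v := by
    have := Finset.sum_filter_add_sum_filter_not Finset.univ (fun v => v ∈ Z) P.kap
    rw [Finset.filter_mem_eq_inter, Finset.univ_inter] at this
    exact this
  rw [P.sum_kap] at h2
  linarith

/-- `K₀ + K₁ + κ(Z) = 4π` -/
theorem K_add (Z : Finset P.V) (col : P.V → ZMod 2) :
    P.K Z col 0 + P.K Z col 1 + ∑ v ∈ Z, P.kap v = 4 * Real.pi := by
  have h := P.K_add' Z col 0
  rw [zero_add] at h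
  exact h

theorem K_mono {Z Z' : Finset P.V} (h : Z ⊆ Z') (col : P.V → ZMod 2) (c : ZMod 2) :
    P.K Z' col c ≤ P.K Z col c := by
  unfold K
  refine Finset.sum_le_sum_of_subset_of_nonneg ?_ (fun v _ _ => (P.kap_pos v).le)
  intro v hv
  rw [Finset.mem_filter] at hv ⊢
  exact ⟨hv.1, fun hz => hv.2.1 (h hz), hv.2.2⟩

/-- larger visited sets are balanced more easily -/
theorem Bal_mono {Z Z' : Finset P.V} (h : Z ⊆ Z') {p : P.D → ZMod 2} (hb : P.Bal p Z) :
    P.Bal p Z' := by
  obtain ⟨c, hc, h1⟩ := hb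
  exact ⟨c, hc, fun k => le_trans (P.K_mono h c k) (h1 k)⟩

/-- `Bal` does not depend on the colouring -/
theorem Bal_iff {Z : Finset P.V} {p : P.D → ZMod 2} {c : P.V → ZMod 2} (hc : P.Col p c) :
    P.Bal p Z ↔ ∀ k, P.K Z c k ≤ 2 * Real.pi := by
  constructor
  · rintro ⟨c', hc', h1⟩ k
    obtain ⟨m, hm⟩ := P.Col_unique hc hc'
    have h2 := h1 (k + m)
    have h3 : P.K Z c' (k + m) = P.K Z c k := by
      unfold K
      congr 1
      apply Finset.filter_congr
      intro v _
      rw [hm v]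
      constructor
      · rintro ⟨h4, h5⟩
        exact ⟨h4, add_right_cancel h5⟩
      · rintro ⟨h4, h5⟩
        exact ⟨h4, by rw [h5]⟩
    rw [h3] at h2
    exact h2
  · intro h
    exact ⟨c, hc, h⟩

theorem K_le_four (Z : Finset P.V) (col : P.V → ZMod 2) (c : ZMod 2) :
    P.K Z col c ≤ 4 * Real.pi := by
  have h := P.K_add' Z col c
  have h1 : 0 ≤ P.K Z col (c + 1) := by
    unfold K
    exact Finset.sum_nonneg (fun v _ => (P.kap_pos v).le)
  have h2 : 0 ≤ ∑ v ∈ Z, P.kap v := Finset.sum_nonneg (fun v _ => (P.kap_pos v).le)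
  linarith

end Poly

end QG6b
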