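import Pool.Agent.Lib_MP_6b5565.Length
import Pool.Agent.Lib_MP_6b5565.H1

/-! [QG-B0] rotation and reversal of tracks -/

namespace QG6b

namespace Poly

variable (P : Poly)

theorem mem_vis {l : List E3} {v : P.V} : v ∈ P.vis l ↔ P.pos v ∈ l := by
  simp [vis]

theorem vis_sublist {l l' : List E3} (h : l.Sublist l') : P.vis l ⊆ P.vis l' := by
  intro v hv; rw [mem_vis] at *; exact h.subset hv

theorem vis_append (l l' : List E3) : P.vis (l ++ l') = P.vis l ∪ P.vis l' := by
  ext v; simp [mem_vis]

private theorem B0_par_perm {l l' : List P.D} (h : l.Perm l') : P.par l = P.par l' := by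
  funext e
  unfold par
  rw [h.countP_eq]

private theorem B0_vis_perm {l l' : List E3} (h : l.Perm l') : P.vis l = P.vis l' := by
  ext v
  rw [mem_vis, mem_vis, h.mem_iff]

private theorem B0_clen_reverse (l : List E3) : clen l.reverse = clen l := by
  cases l with
  | nil => rfl
  | cons a l =>
    rw [List.reverse_cons, clen_rotate]
    show olen (a :: l.reverse ++ [a]) = olen (a :: l ++ [a])
    have h := olen_reverse (a :: l ++ [a])
    rw [← h]
    simp

/-- [QG-B0a] a track without visited vertices has a nonzero parity vector -/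
theorem Good.not_par_zero {l : List (Step P)} (h : P.Good l) (hv : P.vis (l.map Step.x) = ∅) :
    ∃ e, P.par (l.map Step.d) e ≠ 0 := by
  by_contra hcon
  push Not at hcon
  obtain ⟨-, -, col, hcol, hK⟩ := h
  rw [hv] at hK
  have h0 : P.Col (P.par (l.map Step.d)) (fun _ => 0) := by
    intro d
    rw [hcon d, add_zero]
  obtain ⟨k, hk⟩ := P.Col_unique h0 hcol
  have h1 := P.K_add' ∅ col k
  have h2 : P.K ∅ col (k + 1) = 0 := by
    unfold K
    rw [Finset.sum_eq_zero]
    intro v hv'
    rw [Finset.mem_filter] at hv'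
    have h3 := hv'.2.2
    rw [hk v, zero_add] at h3
    exact absurd h3 (by
      intro h4
      have h5 : (1 : ZMod 2) = 0 := by
        have : k + 0 = k + 1 := by rw [add_zero]; exact h4
        exact (add_left_cancel this).symm
      exact absurd h5 (by decide))
  rw [h2, Finset.sum_empty, add_zero, add_zero] at h1
  have h3 := hK k
  have h4 := Real.pi_pos
  linarith

/-- [QG-B0b] rotation invariance -/
theorem Good.rotate {l₁ l₂ : List (Step P)} (h : P.Good (l₁ ++ l₂)) : P.Good (l₂ ++ l₁) := by
  obtain ⟨hne, hw, hb⟩ := h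
  refine ⟨?_, P.Walk_rotate hw, ?_⟩
  · intro h0
    apply hne
    rw [List.append_eq_nil_iff] at h0 ⊢
    exact ⟨h0.2, h0.1⟩
  · rw [P.B0_par_perm ((List.perm_append_comm (l₁ := l₂) (l₂ := l₁)).map Step.d),
      P.B0_vis_perm ((List.perm_append_comm (l₁ := l₂) (l₂ := l₁)).map Step.x)]
    exact hb

theorem len_rotate (l₁ l₂ : List (Step P)) : P.len (l₁ ++ l₂) = P.len (l₂ ++ l₁) := by
  unfold len
  rw [List.map_append, List.map_append, clen_rotate]

private theorem B0_mu_perm {l l' : List (Step P)} (h : l.Perm l') : P.mu l = P.mu l' := by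
  unfold mu
  rw [P.B0_vis_perm (h.map Step.x), h.length_eq, h.countP_eq]

theorem mu_rotate (l₁ l₂ : List (Step P)) : P.mu (l₁ ++ l₂) = P.mu (l₂ ++ l₁) :=
  P.B0_mu_perm List.perm_append_comm

theorem Best.rotate {l₁ l₂ : List (Step P)} (h : P.Best (l₁ ++ l₂)) : P.Best (l₂ ++ l₁) := by
  refine ⟨Good.rotate P h.1, fun l' hl' => ?_⟩
  rw [P.len_rotate l₂ l₁, P.mu_rotate l₂ l₁]
  exact h.2 l' hl'

/-- the reversed list of steps -/
def flip (s : Step P) : Step P := ⟨P.inv s.d, s.x⟩

private theorem B0_map_flip_x (l : List (Step P)) : (l.map P.flip).map Step.x = l.map Step.x := by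
  rw [List.map_map]
  rfl

private theorem B0_map_flip_d (l : List (Step P)) : (l.map P.flip).map Step.d = (l.map Step.d).map P.inv := by
  rw [List.map_map, List.map_map]
  rfl

theorem Walk_reverse {F G : P.D} {l : List (Step P)} (w : P.Walk F l G) :
    P.Walk G ((l.map P.flip).reverse) F := by
  rw [Walk_iff] at w ⊢
  constructor
  · rw [List.map_reverse, B0_map_flip_d]
    exact P.DWalk_reverse w.1
  · intro s hs
    rw [List.mem_reverse, List.mem_map] at hs
    obtain ⟨a, ha, rfl⟩ := hs
    show a.x ∈ P.seg (P.inv a.d)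
    rw [P.seg_inv]
    exact w.2 a ha

theorem Good.reverse {l : List (Step P)} (h : P.Good l) : P.Good ((l.map P.flip).reverse) := by
  obtain ⟨hne, ⟨F, hw⟩, hb⟩ := h
  refine ⟨?_, ⟨F, P.Walk_reverse hw⟩, ?_⟩
  · intro h0
    apply hne
    rwa [List.reverse_eq_nil_iff, List.map_eq_nil_iff] at h0
  · rw [P.B0_par_perm ((List.reverse_perm (l.map P.flip)).map Step.d),
      P.B0_vis_perm ((List.reverse_perm (l.map P.flip)).map Step.x), B0_map_flip_x, B0_map_flip_d, par_map_inv]
    exact hb

private theorem B0_len_flip (l : List (Step P)) : P.len ((l.map P.flip).reverse) = P.len l := by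
  unfold len
  rw [List.map_reverse, B0_clen_reverse, B0_map_flip_x]

private theorem B0_mu_flip (l : List (Step P)) : P.mu ((l.map P.flip).reverse) = P.mu l := by
  rw [P.B0_mu_perm (List.reverse_perm _)]
  unfold mu
  rw [B0_map_flip_x, List.length_map, List.countP_map]
  rfl

theorem Best.reverse {l : List (Step P)} (h : P.Best l) : P.Best ((l.map P.flip).reverse) := by
  refine ⟨Good.reverse P h.1, fun l' hl' => ?_⟩
  rw [P.B0_len_flip, P.B0_mu_flip]
  exact h.2 l' hl'

end Poly

end QG6b
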