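import Pool.Agent.Lib_MP_6b5565.B0

/-! [QG-B1] -/

namespace QG6b

namespace Poly

variable (P : Poly)

/-- the faces are connected by combinatorial walks -/
private theorem B1_walk (a b : P.D) : ∃ l, P.DWalk a l b := by
  have hc := P.dual_conn a b
  induction hc with
  | refl => exact ⟨[], P.SF_refl a⟩
  | @tail x y _ hs ih =>
    obtain ⟨l, hl⟩ := ih
    rcases hs with hs | hs
    · exact ⟨l, P.DWalk_congr_right hs hl⟩
    · subst hs
      exact ⟨l ++ [x], P.DWalk_append.2 ⟨x, hl, P.SF_refl x, P.SF_refl _⟩⟩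

/-- closed walks through any list of half-edges -/
private theorem B1_closed (F : P.D) : ∀ ds : List P.D, ∃ l, P.DWalk F l F ∧ ∀ d ∈ ds, d ∈ l := by
  intro ds
  induction ds with
  | nil => exact ⟨[], P.SF_refl F, fun d hd => absurd hd (List.not_mem_nil)⟩
  | cons d ds ih =>
    obtain ⟨l', hl', hd'⟩ := ih
    obtain ⟨l1, h1⟩ := P.B1_walk F d
    obtain ⟨l2, h2⟩ := P.B1_walk (P.inv d) F
    refine ⟨l1 ++ (d :: (l2 ++ l')), ?_, ?_⟩
    · refine P.DWalk_append.2 ⟨d, h1, P.SF_refl d, ?_⟩
      exact P.DWalk_append.2 ⟨F, h2, hl'⟩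
    · intro e he
      rcases List.mem_cons.1 he with he | he
      · subst he
        simp
      · have := hd' e he
        simp [this]

/-- [QG-B1] there is a balanced track: a closed walk crossing every half-edge, all points chosen at
the tails, visits all vertices. (From a base face go to the face of `d` (`dual_conn`), cross `d`
and `inv d`, go back; do this for all `d`.) -/
theorem exists_good : ∃ l, P.Good l := by
  have hV : 0 < Fintype.card P.V := by
    have := P.euler
    omega
  obtain ⟨v₀⟩ := Fintype.card_pos_iff.1 hV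
  obtain ⟨F, -⟩ := P.surj v₀
  obtain ⟨l, hl, hmem⟩ := P.B1_closed F (Finset.univ : Finset P.D).toList
  have hall : ∀ d : P.D, d ∈ l := fun d => hmem d (Finset.mem_toList.2 (Finset.mem_univ d))
  have hd : (l.map (fun d => (⟨d, P.A d⟩ : Step P))).map Step.d = l := by
    rw [List.map_map]
    exact List.map_id l
  have hvis : P.vis ((l.map (fun d => (⟨d, P.A d⟩ : Step P))).map Step.x) = Finset.univ := by
    ext v
    refine ⟨fun _ => Finset.mem_univ v, fun _ => ?_⟩
    rw [mem_vis, List.map_map]
    obtain ⟨d, hd⟩ := P.surj v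
    refine List.mem_map.2 ⟨d, hall d, ?_⟩
    show P.pos (P.tail d) = P.pos v
    rw [hd]
  refine ⟨l.map (fun d => (⟨d, P.A d⟩ : Step P)), ?_, ⟨F, ?_⟩, ?_⟩
  · intro h0
    rw [List.map_eq_nil_iff] at h0
    have := hall F
    rw [h0] at this
    exact absurd this (List.not_mem_nil)
  · rw [Walk_iff]
    refine ⟨by rw [hd]; exact hl, ?_⟩
    intro s hs
    obtain ⟨d, -, rfl⟩ := List.mem_map.1 hs
    exact left_mem_segment ℝ _ _
  · rw [hd, hvis]
    obtain ⟨c, hc⟩ := P.exists_col_walk hl
    refine ⟨c, hc, fun k => ?_⟩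
    unfold K
    rw [Finset.sum_eq_zero]
    · positivity
    · intro v hv
      rw [Finset.mem_filter] at hv
      exact absurd (Finset.mem_univ v) hv.2.1

end Poly

end QG6b
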