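import Pool.Agent.Lib_MP_6b5565.B0

/-! [QG-B2] -/

namespace QG6b

namespace Poly

variable (P : Poly)

theorem Walk_flatMap (m : ℕ) (X : Fin m → List (Step P)) (T : ℕ → P.D)
    (hW : ∀ j : Fin m, P.Walk (T j) (X j) (T (j + 1))) :
    P.Walk (T 0) ((List.finRange m).flatMap X) (T m) := by
  induction m generalizing T with
  | zero => exact P.SF_refl _
  | succ m ih =>
      rw [List.finRange_succ, List.flatMap_cons, List.flatMap_map]
      rw [P.Walk_append]
      refine ⟨T 1, hW 0, ?_⟩
      have h := ih (fun j => X j.succ) (fun j => T (j + 1)) (fun j => by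
        have := hW j.succ
        simpa using this)
      exact h

theorem par_flatMap (m : ℕ) (X : Fin m → List (Step P)) (d : P.D) :
    P.par (((List.finRange m).flatMap X).map Step.d) d = ∑ j, P.par ((X j).map Step.d) d := by
  induction m with
  | zero => simp [par_nil]
  | succ m ih =>
      rw [List.finRange_succ, List.flatMap_cons, List.flatMap_map, List.map_append, par_append,
        Fin.sum_univ_succ]
      congr 1
      exact ih (fun j => X j.succ)

theorem length_flatMap_fin (m : ℕ) {α : Type} (X : Fin m → List α) :
    ((List.finRange m).flatMap X).length = ∑ j, (X j).length := by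
  induction m with
  | zero => simp
  | succ m ih =>
      rw [List.finRange_succ, List.flatMap_cons, List.flatMap_map, List.length_append,
        Fin.sum_univ_succ]
      congr 1
      exact ih (fun j => X j.succ)

theorem flatMap_sublist {α β γ : Type} (l : List α) (X : α → List β) (Y : α → List β) (f : β → γ)
    (h : ∀ a ∈ l, ((X a).map f).Sublist ((Y a).map f)) :
    ((l.flatMap X).map f).Sublist ((l.flatMap Y).map f) := by
  induction l with
  | nil => simp
  | cons a l ih =>
      rw [List.flatMap_cons, List.flatMap_cons, List.map_append, List.map_append]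
      exact (h a (by simp)).append (ih (fun b hb => h b (by simp [hb])))

/-- [QG-B2] BLOCK LEMMA. A balanced track `l`, cut at crossings of the edge of `e` into `m` blocks
`B j` (walks from the face `T j` to the face `T (j+1)`, `T j ∈ {e, inv e}`, last point on the edge).
If `S` is a set of at least `nV` blocks, each with at least two steps, and every visited vertex is
visited in a block outside `S`, then there is a balanced track with fewer steps, the same visited
vertices, not longer.
Proof: `C j := []` if `T j = T (j+1)`, else the single step `⟨T j, last point of B j⟩`. The class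
`par (B j) + par (C j)` is the parity of the closed walk `B j ++ reverse (C j)`, so it has a
colouring (`exists_col_walk`); `exists_subset_sum` gives `J ⊆ S` nonempty with sum `0`; replace
`B j` by `C j` for `j ∈ J`: still a closed walk, the list of points is a sublist (`clen_sublist`),
same parity, same visited vertices. It is not empty: otherwise `par l = 0` and nothing is visited,
against `Good.not_par_zero`. -/
theorem block_reduce {l : List (Step P)} (hl : P.Good l) (e : P.D) (m : ℕ)
    (B : Fin m → List (Step P)) (T : ℕ → P.D) (hT : ∀ j, T j = e ∨ T j = P.inv e)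
    (hTm : T m = T 0)
    (hB : l = (List.finRange m).flatMap B)
    (hW : ∀ j : Fin m, P.Walk (T j) (B j) (T (j + 1)))
    (hlast : ∀ j, ∃ I s, B j = I ++ [s] ∧ s.x ∈ P.seg e)
    (S : Finset (Fin m)) (hS : P.nV ≤ S.card) (h2 : ∀ j ∈ S, 2 ≤ (B j).length)
    (hvis : ∀ v ∈ P.vis (l.map Step.x), ∃ j ∉ S, v ∈ P.vis ((B j).map Step.x)) :
    ∃ l', P.Good l' ∧ P.len l' ≤ P.len l ∧ l'.length < l.length ∧
      P.vis (l'.map Step.x) = P.vis (l.map Step.x) := by
  classical
  have z2 : (2 : ZMod 2) = 0 := rfl
  choose I s hI hs using hlast
  have hopp : ∀ j : ℕ, ¬ T j = T (j + 1) → T (j + 1) = P.inv (T j) := by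
    intro j hj
    rcases hT j with h1 | h1 <;> rcases hT (j + 1) with h3 | h3
    · exact absurd (h1.trans h3.symm) hj
    · rw [h3, h1]
    · rw [h3, h1, P.inv_inv]
    · exact absurd (h1.trans h3.symm) hj
  have hseg : ∀ j : ℕ, P.seg (T j) = P.seg e := by
    intro j
    rcases hT j with h1 | h1
    · rw [h1]
    · rw [h1, P.seg_inv]
  let C : Fin m → List (Step P) := fun j => if T j = T (j + 1) then [] else [⟨T j, (s j).x⟩]
  have hCW : ∀ j : Fin m, P.Walk (T j) (C j) (T (j + 1)) := by
    intro j
    by_cases h : T j = T (j + 1)
    · simp only [C, if_pos h]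
      exact Or.inl h.symm
    · simp only [C, if_neg h]
      refine ⟨P.SF_refl _, ?_, Or.inl ?_⟩
      · show (s j).x ∈ P.seg (T j)
        rw [hseg]
        exact hs j
      · exact hopp j h
  have hClen : ∀ j, (C j).length ≤ 1 := by
    intro j
    by_cases h : T j = T (j + 1)
    · simp only [C, if_pos h, List.length_nil]; omega
    · simp only [C, if_neg h, List.length_singleton]; omega
  have hCsub : ∀ j, ((C j).map Step.x).Sublist ((B j).map Step.x) := by
    intro j
    by_cases h : T j = T (j + 1)
    · simp only [C, if_pos h, List.map_nil]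
      exact List.nil_sublist _
    · simp only [C, if_neg h, List.map_cons, List.map_nil]
      rw [hI j, List.map_append]
      exact List.sublist_append_right _ _
  -- the classes
  let p : Fin m → P.D → ZMod 2 := fun j d => P.par ((B j).map Step.d) d + P.par ((C j).map Step.d) d
  have hp : ∀ j ∈ S, ∃ c, P.Col (p j) c := by
    intro j _
    have hBj := (P.Walk_iff.1 (hW j)).1
    by_cases h : T j = T (j + 1)
    · rw [← h] at hBj
      obtain ⟨c, hc⟩ := P.exists_col_walk hBj
      refine ⟨c, fun d => ?_⟩
      have := hc d
      simp only [p, C, if_pos h, List.map_nil, par_nil, add_zero]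
      exact this
    · have hw : P.DWalk (T j) ((B j).map Step.d ++ [P.inv (T j)]) (T j) := by
        rw [P.DWalk_append]
        refine ⟨T (j + 1), hBj, ?_, ?_⟩
        · exact Or.inl (hopp j h).symm
        · exact Or.inl (P.inv_inv _).symm
      obtain ⟨c, hc⟩ := P.exists_col_walk hw
      refine ⟨c, fun d => ?_⟩
      rw [hc d, par_append]
      simp only [p, C, if_neg h, List.map_cons, List.map_nil]
      congr 1
      have := congrFun (P.par_map_inv [T j]) d
      simpa using this
  obtain ⟨J, hJS, hJ, hJ0⟩ := P.exists_subset_sum S p hp hS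
  let X : Fin m → List (Step P) := fun j => if j ∈ J then C j else B j
  have hXW : ∀ j : Fin m, P.Walk (T j) (X j) (T (j + 1)) := by
    intro j
    by_cases h : j ∈ J
    · simp only [X, if_pos h]; exact hCW j
    · simp only [X, if_neg h]; exact hW j
  have hXsub : ∀ j, ((X j).map Step.x).Sublist ((B j).map Step.x) := by
    intro j
    by_cases h : j ∈ J
    · simp only [X, if_pos h]; exact hCsub j
    · simp only [X, if_neg h]; exact List.Sublist.refl _
  set l' := (List.finRange m).flatMap X with hl'
  have hw : P.Walk (T 0) l' (T 0) := by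
    have := P.Walk_flatMap m X T hXW
    rwa [hTm] at this
  have hsub : (l'.map Step.x).Sublist (l.map Step.x) := by
    rw [hB, hl']
    exact flatMap_sublist _ _ _ _ (fun j _ => hXsub j)
  have hpar : P.par (l'.map Step.d) = P.par (l.map Step.d) := by
    funext d
    rw [hB, hl', par_flatMap, par_flatMap]
    have e1 : ∀ j, P.par ((X j).map Step.d) d =
        P.par ((B j).map Step.d) d + if j ∈ J then p j d else 0 := by
      intro j
      by_cases h : j ∈ J
      · simp only [X, p, if_pos h]
        linear_combination (- P.par ((B j).map Step.d) d) * z2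
      · simp only [X, if_neg h, add_zero]
    rw [Finset.sum_congr rfl (fun j _ => e1 j), Finset.sum_add_distrib, Finset.sum_ite_mem,
      Finset.univ_inter, hJ0 d, add_zero]
  have hlen : l'.length < l.length := by
    rw [hB, hl', length_flatMap_fin, length_flatMap_fin]
    obtain ⟨j₀, hj₀⟩ := hJ
    refine Finset.sum_lt_sum (fun j _ => ?_) ⟨j₀, Finset.mem_univ _, ?_⟩
    · by_cases h : j ∈ J
      · simp only [X, if_pos h]
        have := hClen j
        have := h2 j (hJS h)
        omega
      · simp only [X, if_neg h]; exact le_rfl
    · simp only [X, if_pos hj₀]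
      have := hClen j₀
      have := h2 j₀ (hJS hj₀)
      omega
  have hvis' : P.vis (l'.map Step.x) = P.vis (l.map Step.x) := by
    refine Finset.Subset.antisymm (P.vis_sublist hsub) ?_
    intro v hv
    obtain ⟨j, hjS, hj⟩ := hvis v hv
    rw [mem_vis] at hj ⊢
    rw [List.mem_map] at hj ⊢
    obtain ⟨a, ha, hav⟩ := hj
    refine ⟨a, ?_, hav⟩
    rw [hl', List.mem_flatMap]
    refine ⟨j, List.mem_finRange j, ?_⟩
    have : j ∉ J := fun h => hjS (hJS h)
    simp only [X, if_neg this]
    exact ha
  refine ⟨l', ⟨?_, ⟨T 0, hw⟩, ?_⟩, ?_, hlen, hvis'⟩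
  · intro h0
    have hv0 : P.vis (l.map Step.x) = ∅ := by
      rw [← hvis', h0]
      ext v
      simp [mem_vis]
    obtain ⟨d, hd⟩ := Good.not_par_zero P hl hv0
    apply hd
    rw [← hpar, h0]
    exact P.par_nil d
  · rw [hpar, hvis']
    exact hl.2.2
  · exact clen_sublist hsub

end Poly

end QG6b
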