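import Pool.Agent.Lib_MP_6b5565.B0

/-! [QG-B3a] -/

namespace QG6b

namespace Poly

variable (P : Poly)

private theorem walk_congr_left' {F F' G : P.D} {l : List (Step P)} (h : P.SF F F')
    (w : P.Walk F l G) : P.Walk F' l G := by
  cases l with
  | nil => exact P.SF_trans (P.SF_symm h) w
  | cons s l => exact ⟨P.SF_trans (P.SF_symm h) w.1, w.2⟩

private theorem par_backtrack (d : P.D) (l : List P.D) :
    P.par (d :: P.inv d :: l) = P.par l := by
  funext e
  have h1 : P.par (d :: P.inv d :: l) e = P.par [d] e + (P.par [P.inv d] e + P.par l e) := by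
    rw [← P.par_append, ← P.par_append]
    rfl
  have h2 : (P.inv d = e ∨ P.inv d = P.inv e) ↔ (d = e ∨ d = P.inv e) := by
    constructor
    · rintro (h | h)
      · right
        rw [← h, P.inv_inv]
      · left
        rw [← P.inv_inv d, h, P.inv_inv]
    · rintro (h | h)
      · right
        rw [h]
      · left
        rw [h, P.inv_inv]
  rw [h1, P.par_singleton, P.par_singleton, if_congr h2 rfl rfl, ← add_assoc,
    CharTwo.add_self_eq_zero, zero_add]

/-- [QG-B3a] delete an immediate backtracking: the two steps cross the same edge in opposite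
directions, and the vertices visited by them are visited elsewhere -/
theorem backtrack_reduce {l : List (Step P)} {s s' : Step P} (h : P.Good (s :: s' :: l))
    (hd : s'.d = P.inv s.d)
    (hv : ∀ v, (P.pos v = s.x ∨ P.pos v = s'.x) → P.pos v ∈ l.map Step.x) :
    P.Good l ∧ P.len l ≤ P.len (s :: s' :: l) := by
  have hpar : P.par ((s :: s' :: l).map Step.d) = P.par (l.map Step.d) := by
    rw [List.map_cons, List.map_cons, hd]
    exact P.par_backtrack s.d _
  have hvis : P.vis ((s :: s' :: l).map Step.x) = P.vis (l.map Step.x) := by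
    ext v
    rw [P.mem_vis, P.mem_vis]
    constructor
    · intro hm
      rw [List.map_cons, List.map_cons, List.mem_cons, List.mem_cons] at hm
      rcases hm with hm | hm | hm
      · exact hv v (Or.inl hm)
      · exact hv v (Or.inr hm)
      · exact hm
    · intro hm
      exact List.mem_cons_of_mem _ (List.mem_cons_of_mem _ hm)
  have hne : l ≠ [] := by
    intro hl
    have hv0 : P.vis ((s :: s' :: l).map Step.x) = ∅ := by
      rw [hvis, hl]
      ext v
      rw [P.mem_vis]
      simp
    obtain ⟨e, he⟩ := Good.not_par_zero P h hv0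
    apply he
    rw [hpar, hl]
    exact P.par_nil e
  refine ⟨⟨hne, ?_, ?_⟩, ?_⟩
  · obtain ⟨F, hF, -, -, -, w⟩ := h.2.1
    rw [hd, P.inv_inv] at w
    exact ⟨F, P.walk_congr_left' (P.SF_symm hF) w⟩
  · have hb := h.2.2
    rwa [hpar, hvis] at hb
  · unfold len
    rw [List.map_cons, List.map_cons]
    exact clen_sublist (((List.Sublist.refl _).cons _).cons _)

end Poly

end QG6b
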