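import Pool.Agent.Lib_MP_6b5565.Block

/-!
# Cyc: closed tracks as lists, rotation, deletion of backtrackings, the block lemma for lists
-/

open Finset

set_option linter.unusedSectionVars false

namespace Pool.Agent.SQ

section cyc

variable {D V : Type*} [Fintype D] [DecidableEq D] [Fintype V] [DecidableEq V]
variable {E : Type*} [PseudoMetricSpace E]

/-- closed tracks -/
def cyc (inv nxt : D → D) : List (D × E) → Prop
  | [] => True
  | s :: t => chain inv nxt (lastD s.1 t) (s :: t)

/-- length of a closed track -/
def clen : List (D × E) → ℝ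
  | [] => 0
  | s :: t => plen (lastX s.2 t) (s :: t)

theorem cyc_iff (inv nxt : D → D) {l : List (D × E)} (hl : l ≠ []) (a : D) :
    cyc inv nxt l ↔ chain inv nxt (lastD a l) l := by
  cases l with
  | nil => exact absurd rfl hl
  | cons s t => rfl

theorem clen_eq {l : List (D × E)} (hl : l ≠ []) (p : E) : clen l = plen (lastX p l) l := by
  cases l with
  | nil => exact absurd rfl hl
  | cons s t => rfl

theorem clen_nonneg (l : List (D × E)) : 0 ≤ clen l := by
  cases l with
  | nil => exact le_rfl
  | cons s t => exact plen_nonneg _ _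

theorem cyc_swap (inv nxt : D → D) (l m : List (D × E)) :
    cyc inv nxt (l ++ m) → cyc inv nxt (m ++ l) := by
  intro h
  rcases eq_or_ne l [] with rfl | hl
  · simpa using h
  rcases eq_or_ne m [] with rfl | hm
  · simpa using h
  obtain ⟨s, t, rfl⟩ := List.exists_cons_of_ne_nil hl
  have h1 : (s :: t) ++ m ≠ [] := by simp
  have h2 : m ++ (s :: t) ≠ [] := by simp
  rw [cyc_iff inv nxt h1 s.1, lastD_append, chain_append] at h
  rw [cyc_iff inv nxt h2 s.1, lastD_append, chain_append]
  obtain ⟨h3, h4⟩ := h
  refine ⟨?_, ?_⟩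
  · rw [lastD_indep (lastD s.1 m) (lastD (lastD s.1 (s :: t)) m) hl]
    exact h4
  · rw [lastD_indep _ (lastD s.1 (s :: t)) hm]
    exact h3

theorem clen_swap (l m : List (D × E)) : clen (l ++ m) = clen (m ++ l) := by
  rcases eq_or_ne l [] with rfl | hl
  · simp
  rcases eq_or_ne m [] with rfl | hm
  · simp
  obtain ⟨s, t, rfl⟩ := List.exists_cons_of_ne_nil hl
  have h1 : (s :: t) ++ m ≠ [] := by simp
  have h2 : m ++ (s :: t) ≠ [] := by simp
  have hA : ∀ q, lastX q (s :: t) = lastX s.2 (s :: t) := fun q => lastX_indep _ _ hl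
  have hB : ∀ q, lastX q m = lastX s.2 m := fun q => lastX_indep _ _ hm
  rw [clen_eq h1 s.2, clen_eq h2 s.2, lastX_append, lastX_append, plen_append, plen_append,
    hA, hB, hA, hB, hB (lastX s.2 (s :: t))]
  ring

theorem par_swap (inv : D → D) (l m : List (D × E)) (d : D) :
    par inv (l ++ m) d = par inv (m ++ l) d := by
  rw [par_append, par_append, add_comm]

variable {inv nxt : D → D} {tail : D → V}

theorem adj_face (hS : Surf inv nxt tail) {a b c : D} (hab : adj inv nxt a b)
    (hbc : adj inv nxt (inv b) c) : adj inv nxt a c := by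
  unfold adj at *
  have h3 := hS.nxt3 a
  rcases hab with h | h | h <;> rw [h] at hbc <;> simp only [hS.inv_inv] at hbc
  · exact hbc
  · rw [h3] at hbc
    rcases hbc with h1 | h1 | h1
    · exact Or.inr (Or.inl h1)
    · exact Or.inr (Or.inr h1)
    · exact Or.inl h1
  · rw [h3] at hbc
    rcases hbc with h1 | h1 | h1
    · exact Or.inr (Or.inr h1)
    · exact Or.inl h1
    · exact Or.inr (Or.inl h1)

/-- deletion of an immediate backtracking -/
theorem backtrack (hS : Surf inv nxt tail) {s s' : D × E} {t : List (D × E)}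
    (hc : cyc inv nxt (s :: s' :: t)) (hb : s'.1 = inv s.1) :
    cyc inv nxt t ∧ clen t ≤ clen (s :: s' :: t) ∧
      ∀ d, par inv t d = par inv (s :: s' :: t) d := by
  refine ⟨?_, ?_, ?_⟩
  · cases t with
    | nil => trivial
    | cons u t =>
      have hl : u :: t ≠ [] := by simp
      have h1 : s :: s' :: u :: t ≠ [] := by simp
      rw [cyc_iff inv nxt h1 s.1] at hc
      rw [cyc_iff inv nxt hl s'.1]
      obtain ⟨h2, h3, h4, h5⟩ := hc
      refine ⟨?_, h5⟩
      have h6 : lastD s.1 (s :: s' :: u :: t) = lastD s'.1 (u :: t) := rfl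
      rw [h6] at h2
      rw [hb] at h4
      exact adj_face hS h2 h4
  · cases t with
    | nil => exact clen_nonneg _
    | cons u t =>
      have hl : u :: t ≠ [] := by simp
      have h1 : s :: s' :: u :: t ≠ [] := by simp
      rw [clen_eq h1 s.2, clen_eq hl s'.2]
      change dist (lastX s'.2 (u :: t)) u.2 + plen u.2 t ≤
        dist (lastX s'.2 (u :: t)) s.2 + (dist s.2 s'.2 + (dist s'.2 u.2 + plen u.2 t))
      linarith [dist_triangle (lastX s'.2 (u :: t)) s.2 u.2, dist_triangle s.2 s'.2 u.2]
  · intro d
    have h1 : (s :: s' :: t : List (D × E)) = [s] ++ ([s'] ++ t) := rfl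
    rw [h1, par_append, par_append]
    have h2 : par inv [s'] d = par inv [s] d := by
      unfold par
      simp only [List.map_cons, List.map_nil, List.sum_cons, List.sum_nil, add_zero]
      rw [hb]
      have h3 : inv s.1 = d ↔ s.1 = inv d := by
        constructor
        · intro h
          rw [← h, hS.inv_inv]
        · intro h
          rw [h, hS.inv_inv]
      have h4 : inv s.1 = inv d ↔ s.1 = d := by
        constructor
        · intro h
          rw [← hS.inv_inv s.1, h, hS.inv_inv]
        · intro h
          rw [h]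
      by_cases h5 : s.1 = d ∨ s.1 = inv d
      · rw [if_pos h5, if_pos]
        rcases h5 with h5 | h5
        · exact Or.inr (h4.2 h5)
        · exact Or.inl (h3.2 h5)
      · rw [if_neg h5, if_neg]
        rintro (h6 | h6)
        · exact h5 (Or.inr (h3.1 h6))
        · exact h5 (Or.inl (h4.1 h6))
    rw [h2]
    have h3 := z2_add_self (par inv [s] d)
    linear_combination -h3

/-- cutting a list after the marked steps -/
def cutM (mark : D × E → Bool) : List (D × E) → List (D × E) → List (Blk D E)
  | _, [] => []
  | acc, s :: t => if mark s = true then (acc, s) :: cutM mark [] t else cutM mark (acc ++ [s]) t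

/-- the last step is marked -/
def lastM (mark : D × E → Bool) : List (D × E) → Prop
  | [] => False
  | [s] => mark s = true
  | _ :: t => lastM mark t

theorem cutM_flat (mark : D × E → Bool) (l acc : List (D × E)) (h : lastM mark l) :
    (cutM mark acc l).flatMap (fun b => b.1 ++ [b.2]) = acc ++ l := by
  induction l generalizing acc with
  | nil => exact absurd h id
  | cons s t ih =>
    unfold cutM
    cases t with
    | nil =>
      have h1 : mark s = true := h
      rw [if_pos h1]
      simp [cutM]
    | cons u t =>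
      have h1 : lastM mark (u :: t) := h
      by_cases h2 : mark s = true
      · rw [if_pos h2, List.flatMap_cons, ih [] h1]
        simp
      · rw [if_neg h2, ih _ h1]
        simp

theorem cutM_mark (mark : D × E → Bool) (l acc : List (D × E)) :
    ∀ b ∈ cutM mark acc l, mark b.2 = true := by
  induction l generalizing acc with
  | nil =>
    intro b hb
    simp [cutM] at hb
  | cons s t ih =>
    intro b hb
    unfold cutM at hb
    by_cases h2 : mark s = true
    · rw [if_pos h2, List.mem_cons] at hb
      rcases hb with rfl | hb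
      · exact h2
      · exact ih [] b hb
    · rw [if_neg h2] at hb
      exact ih _ b hb

theorem cutM_length (mark : D × E → Bool) (l acc : List (D × E)) :
    (cutM mark acc l).length = (l.filter mark).length := by
  induction l generalizing acc with
  | nil => simp [cutM]
  | cons s t ih =>
    unfold cutM
    by_cases h2 : mark s = true
    · rw [if_pos h2, List.length_cons, ih, List.filter_cons_of_pos h2, List.length_cons]
    · rw [if_neg h2, ih, List.filter_cons_of_neg h2]

theorem orig_getD (L : List (Blk D E)) (b₀ : Blk D E) :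
    orig (fun i => L.getD i b₀) L.length = L.flatMap (fun b => b.1 ++ [b.2]) := by
  unfold orig
  have h1 : (List.range L.length).map (fun i => L.getD i b₀) = L := by
    apply List.ext_getElem
    · simp
    · intro i h1 h2
      simp [List.getD_eq_getElem?_getD, h2]
  conv_rhs => rw [← h1]
  rw [List.flatMap_map]

theorem orig_split (b : ℕ → Blk D E) {k m : ℕ} (hk : k ≤ m) :
    ∃ T, orig b m = orig b k ++ T ∧ ∀ j, k ≤ j → j < m → ∀ s ∈ (b j).1 ++ [(b j).2], s ∈ T := by
  induction m with
  | zero =>
    have : k = 0 := by omega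
    subst this
    exact ⟨[], by simp, fun j _ hj => by omega⟩
  | succ m ih =>
    rcases Nat.lt_or_eq_of_le hk with h1 | h1
    · obtain ⟨T, hT, hT'⟩ := ih (by omega)
      refine ⟨T ++ ((b m).1 ++ [(b m).2]), ?_, ?_⟩
      · rw [orig_succ, hT, List.append_assoc]
      · intro j hj1 hj2 s hs
        rw [List.mem_append]
        rcases Nat.lt_or_eq_of_le (Nat.lt_succ_iff.1 hj2) with h2 | h2
        · exact Or.inl (hT' j hj1 h2 s hs)
        · rw [h2] at hs
          exact Or.inr hs
    · subst h1
      exact ⟨[], by simp, fun j _ hj => by omega⟩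

theorem mem_orig (b : ℕ → Blk D E) {k j : ℕ} (hj : j < k) {s : D × E}
    (hs : s ∈ (b j).1 ++ [(b j).2]) : s ∈ orig b k := by
  unfold orig
  rw [List.mem_flatMap]
  exact ⟨j, List.mem_range.2 hj, hs⟩

/-- the conclusion of a shortening step -/
def Shorter (inv nxt : D → D) (l l' : List (D × E)) (Z : Finset E) : Prop :=
  cyc inv nxt l' ∧ l'.length < l.length ∧ clen l' ≤ clen l ∧ (∀ d, par inv l' d = par inv l d) ∧
    (∀ s ∈ l', s ∈ l) ∧ ∀ z ∈ Z, ∃ s ∈ l', s.2 = z

/-- **the block lemma for lists** -/
theorem list_reduce (hS : Surf inv nxt tail) (hE : 6 * Fintype.card V = Fintype.card D + 12)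
    (h : D) (mark : D × E → Bool) (hmark : ∀ s, mark s = true → s.1 = h ∨ s.1 = inv h)
    (l : List (D × E)) (hc : cyc inv nxt l) (Z : Finset E) (hZ : ∀ z ∈ Z, ∃ s ∈ l, s.2 = z)
    (hcard : Fintype.card V + 2 * Z.card ≤ (l.filter mark).length) :
    ∃ l', Shorter inv nxt l l' Z := by
  classical
  have hVpos : 0 < Fintype.card V := by omega
  -- a marked step
  have hne : l.filter mark ≠ [] := by
    intro h1
    rw [h1] at hcard
    simp at hcard
    omega
  obtain ⟨s₀, hs₀⟩ := List.exists_mem_of_ne_nil _ hne
  rw [List.mem_filter] at hs₀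
  obtain ⟨l₁, l₂, hl⟩ := List.append_of_mem hs₀.1
  -- rotate
  set r : List (D × E) := l₂ ++ (l₁ ++ [s₀]) with hr
  have hl' : l = (l₁ ++ [s₀]) ++ l₂ := by rw [hl]; simp
  have hrc : cyc inv nxt r := by
    rw [hl'] at hc
    exact cyc_swap inv nxt _ _ hc
  have hrlen : clen r = clen l := by
    rw [hl', hr]
    exact clen_swap _ _
  have hrpar : ∀ d, par inv r d = par inv l d := by
    intro d
    rw [hl', hr]
    exact par_swap inv _ _ d
  have hrmem : ∀ s, s ∈ r ↔ s ∈ l := by
    intro s
    rw [hl', hr]
    simp only [List.mem_append]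
    tauto
  have hrlength : r.length = l.length := by
    rw [hl', hr]
    simp
    omega
  have hrmark : (r.filter mark).length = (l.filter mark).length := by
    rw [hl', hr, List.filter_append, List.filter_append (l₁ := l₁ ++ [s₀]), List.length_append,
      List.length_append, add_comm]
  have hlast : lastM mark r := by
    have h1 : ∀ (m : List (D × E)), lastM mark (m ++ [s₀]) := by
      intro m
      induction m with
      | nil => exact hs₀.2
      | cons u m ih =>
        cases m with
        | nil => exact ih
        | cons v m => exact ih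
    rw [hr, ← List.append_assoc]
    exact h1 _
  have hrne : r ≠ [] := by
    rw [hr]
    simp
  -- the blocks
  set L := cutM mark [] r with hL
  have hflat : L.flatMap (fun b => b.1 ++ [b.2]) = r := by
    rw [hL, cutM_flat mark r [] hlast]
    rfl
  set m := L.length with hm
  have hmcard : m = (l.filter mark).length := by
    rw [hm, hL, cutM_length, hrmark]
  set b : ℕ → Blk D E := fun i => L.getD i ([], (h, s₀.2)) with hbdef
  have horig : orig b m = r := by
    rw [hbdef, hm, orig_getD, hflat]
  have hmpos : 0 < m := by omega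
  let c : ℕ → D := fun i => Nat.casesOn i (b (m - 1)).2.1 (fun i => (b i).2.1)
  have hb2 : ∀ i, (b i).2.1 = h ∨ (b i).2.1 = inv h := by
    intro i
    by_cases hi : i < m
    · refine hmark _ ?_
      have h1 : b i ∈ L := by
        rw [hbdef]
        simp only [List.getD_eq_getElem?_getD]
        rw [List.getElem?_eq_getElem hi]
        exact List.getElem_mem hi
      exact cutM_mark mark r [] _ h1
    · left
      rw [hbdef]
      simp only [List.getD_eq_getElem?_getD]
      rw [List.getElem?_eq_none (by omega)]
      rfl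
  have hck : ∀ k, k ≤ m → lastD (c 0) (orig b k) = c k := by
    intro k hk
    cases k with
    | zero => rfl
    | succ k =>
      rw [orig_succ, lastD_append, lastD_append]
      rfl
  have hcm : lastD (c 0) r = c 0 := by
    rw [← horig]
    obtain ⟨k, hk⟩ : ∃ k, m = k + 1 := ⟨m - 1, by omega⟩
    rw [hck m le_rfl, hk]
    change (b k).2.1 = (b (m - 1)).2.1
    rw [hk]
    simp
  have hchain : chain inv nxt (c 0) (orig b m) := by
    rw [cyc_iff inv nxt hrne (c 0), hcm] at hrc
    rw [horig]
    exact hrc
  have hchk : ∀ k, k ≤ m → chain inv nxt (c 0) (orig b k) := by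
    intro k hk
    obtain ⟨T, hT, -⟩ := orig_split b hk
    rw [hT, chain_append] at hchain
    exact hchain.1
  have hB : Blocks inv nxt h b m c :=
    { pos := hmpos
      c0 := rfl
      cs := fun i => rfl
      edge := hb2
      chn := fun i hi => by
        have h1 := hchk (i + 1) hi
        rw [orig_succ, chain_append, hck i hi.le] at h1
        exact h1.2 }
  -- protected blocks
  have hprot : ∀ z ∈ Z, ∃ i, i < m ∧ ∃ s ∈ (b i).1 ++ [(b i).2], s.2 = z := by
    intro z hz
    obtain ⟨s, hs, hsz⟩ := hZ z hz
    rw [← hrmem, ← horig] at hs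
    unfold orig at hs
    rw [List.mem_flatMap] at hs
    obtain ⟨i, hi, hs'⟩ := hs
    exact ⟨i, List.mem_range.1 hi, s, hs', hsz⟩
  choose! β hβ1 hβ2 using hprot
  let Pz : Finset ℕ := Z.image β
  have hPz : Pz.card ≤ Z.card := Finset.card_image_le
  have hdecT : DecidablePred fun i => (b i).1 = [] ∧ ¬ (b i).2.1 = c i :=
    fun _ => Classical.propDecidable _
  let Tr : Finset ℕ := (range m).filter fun i => (b i).1 = [] ∧ ¬ (b i).2.1 = c i
  let U : Finset ℕ := (range m).filter fun i => i ∉ Pz ∧ i ∉ Tr
  have hU : ∀ i ∈ U, i < m ∧ ¬ ((b i).1 = [] ∧ ¬ (b i).2.1 = c i) := by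
    intro i hi
    rw [mem_filter, mem_range] at hi
    refine ⟨hi.1, fun h1 => hi.2.2 ?_⟩
    rw [mem_filter, mem_range]
    exact ⟨hi.1, h1⟩
  by_cases hUc : Fintype.card V ≤ U.card
  · -- deletion of blocks
    obtain ⟨l', h1, h2, h3, h4, h5, h6, h7⟩ := hB.reduce hS hE U hU hUc _ rfl
    rw [horig] at h3 h4 h5 h6
    have hp : lastX (b (m - 1)).2.2 r = (b (m - 1)).2.2 := by
      rw [← horig]
      obtain ⟨k, hk⟩ : ∃ k, m = k + 1 := ⟨m - 1, by omega⟩
      rw [hk, orig_succ, lastX_append, lastX_append]
      simp [lastX]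
    refine ⟨l', ?_, by rw [← hrlength]; exact h4, ?_, fun d => by rw [h3, hrpar],
      fun s hs => (hrmem s).1 (h6 s hs), ?_⟩
    · rcases eq_or_ne l' [] with rfl | hne'
      · trivial
      · rw [cyc_iff inv nxt hne' (c 0), h2]
        exact h1
    · rcases eq_or_ne l' [] with rfl | hne'
      · exact clen_nonneg _
      · rw [← hrlen, clen_eq hne' (b (m - 1)).2.2, clen_eq hrne (b (m - 1)).2.2, hp]
        have h8 := plen_change (b (m - 1)).2.2 (lastX (b (m - 1)).2.2 l') l'
        linarith
    · intro z hz
      obtain ⟨s, hs, hsz⟩ := hβ2 z hz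
      refine ⟨s, h7 (β z) (hβ1 z hz) ?_ s hs, hsz⟩
      intro h8
      rw [mem_filter] at h8
      exact h8.2.1 (Finset.mem_image_of_mem _ hz)
  · -- an unprotected backtracking
    have hTP : Pz.card < (Tr \ Pz).card := by
      have h1 : (range m).card ≤ U.card + (Pz.card + (Tr \ Pz).card) := by
        refine (Finset.card_le_card (t := U ∪ (Pz ∪ (Tr \ Pz))) ?_).trans
          ((Finset.card_union_le _ _).trans (add_le_add le_rfl (Finset.card_union_le _ _)))
        intro i hi
        rw [mem_union, mem_union, mem_sdiff, mem_filter]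
        by_cases h2 : i ∈ Pz
        · exact Or.inr (Or.inl h2)
        · by_cases h3 : i ∈ Tr
          · exact Or.inr (Or.inr ⟨h3, h2⟩)
          · exact Or.inl ⟨hi, h2, h3⟩
      rw [card_range] at h1
      omega
    let prd : ℕ → ℕ := fun i => if i = 0 then m - 1 else i - 1
    have hprd : ∃ i ∈ Tr \ Pz, prd i ∉ Pz := by
      by_contra hno
      push Not at hno
      have h1 : (Tr \ Pz).card ≤ Pz.card := by
        refine Finset.card_le_card_of_injOn prd hno ?_
        intro i hi j hj hij
        rw [Finset.mem_coe, mem_sdiff, mem_filter, mem_range] at hi hj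
        have hi' := hi.1.1
        have hj' := hj.1.1
        simp only [prd] at hij
        split_ifs at hij <;> omega
      omega
    obtain ⟨i, hi, hip⟩ := hprd
    rw [mem_sdiff, mem_filter, mem_range] at hi
    obtain ⟨⟨him, hi1, hi2⟩, hiP⟩ := hi
    have hopp := hB.opp hS hi2
    -- the rotated list
    have hkey : ∃ T : List (D × E), ∃ s s' : D × E, s'.1 = inv s.1 ∧
        (∃ A B, r = A ++ B ∧ B ++ A = s :: s' :: T) ∧
        ∀ j, j < m → j ≠ i → j ≠ prd i → ∀ u ∈ (b j).1 ++ [(b j).2], u ∈ T := by
      rcases Nat.eq_zero_or_pos i with h0 | h0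
      · subst h0
        have hm2 : 2 ≤ m := by
          by_contra h1
          have h2 : m = 1 := by omega
          apply hi2
          change (b 0).2.1 = (b (m - 1)).2.1
          rw [h2]
        obtain ⟨k, hk⟩ : ∃ k, m = k + 2 := ⟨m - 2, by omega⟩
        obtain ⟨T, hT, hT'⟩ := orig_split b (k := 1) (m := k + 1) (by omega)
        have h1 : orig b 1 = [(b 0).2] := by
          rw [orig_succ]
          simp [orig, hi1]
        refine ⟨T ++ (b (k + 1)).1, (b (k + 1)).2, (b 0).2, ?_, ?_, ?_⟩
        · rw [hopp]
          change inv (b (m - 1)).2.1 = _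
          rw [hk]
          rfl
        · refine ⟨(b 0).2 :: (T ++ (b (k + 1)).1), [(b (k + 1)).2], ?_, rfl⟩
          rw [← horig, hk, orig_succ, hT, h1]
          simp
        · intro j hj1 hj2 hj3 u hu
          have hj4 : j ≠ k + 1 := by
            intro h5
            apply hj3
            simp only [prd, if_true]
            omega
          rw [List.mem_append]
          exact Or.inl (hT' j (by omega) (by omega) u hu)
      · obtain ⟨k, rfl⟩ : ∃ k, i = k + 1 := ⟨i - 1, by omega⟩
        obtain ⟨T, hT, hT'⟩ := orig_split b (k := k + 2) (m := m) (by omega)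
        refine ⟨T ++ (orig b k ++ (b k).1), (b k).2, (b (k + 1)).2, hopp, ?_, ?_⟩
        · refine ⟨orig b k ++ (b k).1, (b k).2 :: (b (k + 1)).2 :: T, ?_, ?_⟩
          · rw [← horig, hT, orig_succ, orig_succ, hi1]
            simp
          · simp
        · intro j hj1 hj2 hj3 u hu
          have hj4 : j ≠ k := by
            intro h5
            apply hj3
            simp only [prd]
            rw [if_neg (by omega)]
            omega
          rw [List.mem_append, List.mem_append]
          rcases Nat.lt_or_ge j k with h5 | h5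
          · exact Or.inr (Or.inl (mem_orig b h5 hu))
          · exact Or.inl (hT' j (by omega) hj1 u hu)
    obtain ⟨T, s, s', hss, ⟨A, B, hAB, hBA⟩, hT⟩ := hkey
    have h1 : cyc inv nxt (s :: s' :: T) := by
      rw [← hBA]
      rw [hAB] at hrc
      exact cyc_swap inv nxt _ _ hrc
    obtain ⟨h2, h3, h4⟩ := backtrack hS h1 hss
    have h5 : clen (s :: s' :: T) = clen l := by
      rw [← hBA, ← hrlen, hAB]
      exact clen_swap _ _
    have h6 : ∀ d, par inv (s :: s' :: T) d = par inv l d := by
      intro d
      rw [← hBA, ← hrpar, hAB]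
      exact par_swap inv _ _ d
    have h7 : (s :: s' :: T).length = l.length := by
      rw [← hBA, ← hrlength, hAB]
      simp
      omega
    have h8 : ∀ u, u ∈ (s :: s' :: T) ↔ u ∈ l := by
      intro u
      rw [← hBA, ← hrmem, hAB, List.mem_append, List.mem_append]
      exact or_comm
    refine ⟨T, h2, ?_, by rw [← h5]; exact h3, fun d => by rw [h4, h6], ?_, ?_⟩
    · rw [← h7]
      simp
    · intro u hu
      rw [← h8]
      exact List.mem_cons_of_mem _ (List.mem_cons_of_mem _ hu)
    · intro z hz
      obtain ⟨u, hu, huz⟩ := hβ2 z hz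
      refine ⟨u, hT (β z) (hβ1 z hz) ?_ ?_ u hu, huz⟩
      · intro h9
        apply hiP
        rw [← h9]
        exact Finset.mem_image_of_mem _ hz
      · intro h9
        apply hip
        rw [← h9]
        exact Finset.mem_image_of_mem _ hz

end cyc

end Pool.Agent.SQ
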