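import Pool.Agent.Lib_MP_6b5565.B2
import Pool.Agent.Lib_MP_6b5565.B3a
import Pool.Agent.Lib_MP_6b5565.Cyc

/-! [QG-B3b] -/

namespace QG6b

open Pool.Agent

namespace Poly

variable (P : Poly)

/-- dictionary between the two conventions for tracks -/
def toSQ (s : Step P) : P.D × E3 := (P.inv s.d, s.x)

/-- dictionary between the two conventions for tracks -/
def ofSQ (t : P.D × E3) : Step P := ⟨P.inv t.1, t.2⟩

theorem toSQ_ofSQ (t : P.D × E3) : P.toSQ (P.ofSQ t) = t := by
  simp only [toSQ, ofSQ, P.inv_inv]

theorem ofSQ_toSQ (s : Step P) : P.ofSQ (P.toSQ s) = s := by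
  simp only [toSQ, ofSQ, P.inv_inv]

theorem adj_iff (a b : P.D) : SQ.adj P.inv P.nxt a (P.inv b) ↔ P.SF a b := by
  unfold SQ.adj SF prev
  constructor
  · rintro (h | h | h)
    · exact Or.inl (P.inv_injective h)
    · exact Or.inr (Or.inl (P.inv_injective h))
    · exact Or.inr (Or.inr (P.inv_injective h))
  · rintro (h | h | h)
    · exact Or.inl (by rw [h])
    · exact Or.inr (Or.inl (by rw [h]))
    · exact Or.inr (Or.inr (by rw [h]))

theorem dwalk_iff_chain (l : List (Step P)) (F G : P.D) :
    P.DWalk F (l.map Step.d) G ↔ SQ.chain P.inv P.nxt F (l.map P.toSQ) ∧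
      P.SF (SQ.lastD F (l.map P.toSQ)) G := by
  induction l generalizing F with
  | nil =>
      exact ⟨fun h => ⟨trivial, h⟩, fun h => h.2⟩
  | cons s l ih =>
      have h1 := ih (P.inv s.d)
      show P.SF F s.d ∧ P.DWalk (P.inv s.d) (l.map Step.d) G ↔
        (SQ.adj P.inv P.nxt F (P.inv s.d) ∧ SQ.chain P.inv P.nxt (P.inv s.d) (l.map P.toSQ)) ∧
          P.SF (SQ.lastD (P.inv s.d) (l.map P.toSQ)) G
      rw [h1, P.adj_iff, and_assoc]

theorem chain_congr {a b : P.D} (h : P.SF a b) {l : List (P.D × E3)}
    (hc : SQ.chain P.inv P.nxt a l) : SQ.chain P.inv P.nxt b l := by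
  cases l with
  | nil => trivial
  | cons s l =>
      refine ⟨?_, hc.2⟩
      have h1 := hc.1
      have h2 : P.inv (P.inv s.1) = s.1 := P.inv_inv _
      rw [← h2, P.adj_iff] at h1 ⊢
      exact P.SF_trans (P.SF_symm h) h1

theorem cyc_of_walk {l : List (Step P)} (h : ∃ F, P.DWalk F (l.map Step.d) F) :
    SQ.cyc P.inv P.nxt (l.map P.toSQ) := by
  obtain ⟨F, hF⟩ := h
  rw [dwalk_iff_chain] at hF
  rcases eq_or_ne l [] with rfl | hl
  · trivial
  · have hl' : l.map P.toSQ ≠ [] := by simpa using hl
    rw [SQ.cyc_iff P.inv P.nxt hl' F]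
    exact P.chain_congr (P.SF_symm hF.2) hF.1

theorem walk_of_cyc {l : List (P.D × E3)} (hl : l ≠ []) (h : SQ.cyc P.inv P.nxt l) :
    ∃ F, P.DWalk F ((l.map P.ofSQ).map Step.d) F := by
  obtain ⟨s, t, rfl⟩ := List.exists_cons_of_ne_nil hl
  rw [SQ.cyc_iff P.inv P.nxt hl s.1] at h
  refine ⟨SQ.lastD s.1 (s :: t), ?_⟩
  rw [dwalk_iff_chain]
  have e : ((s :: t).map P.ofSQ).map P.toSQ = s :: t := by
    rw [List.map_map]
    have : P.toSQ ∘ P.ofSQ = id := by
      funext u
      exact P.toSQ_ofSQ u
    rw [this, List.map_id]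
  rw [e]
  refine ⟨h, Or.inl ?_⟩
  exact SQ.lastD_indep _ _ hl

theorem plen_eq (p : E3) (l : List (Step P)) :
    SQ.plen p (l.map P.toSQ) = olen (p :: l.map Step.x) := by
  induction l generalizing p with
  | nil => rfl
  | cons s l ih =>
      show dist p s.x + SQ.plen s.x (l.map P.toSQ) = dist p s.x + olen (s.x :: l.map Step.x)
      rw [ih]

theorem lastX_eq (p : E3) (l : List (Step P)) (s : Step P) :
    SQ.lastX p ((l ++ [s]).map P.toSQ) = s.x := by
  rw [List.map_append, SQ.lastX_append]
  rfl

theorem clen_eq_SQ (l : List (Step P)) : SQ.clen (l.map P.toSQ) = P.len l := by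
  rcases List.eq_nil_or_concat l with rfl | ⟨t, s, rfl⟩
  · rfl
  · rw [List.concat_eq_append]
    have hne : (t ++ [s]).map P.toSQ ≠ [] := by simp
    rw [SQ.clen_eq hne s.x, lastX_eq, plen_eq]
    unfold len
    cases t with
    | nil => rfl
    | cons u t =>
        have e1 : clen (((u :: t) ++ [s]).map Step.x) =
            olen ((u.x :: t.map Step.x) ++ s.x :: [u.x]) := by
          simp [clen]
        have e2 : s.x :: ((u :: t) ++ [s]).map Step.x = s.x :: u.x :: (t.map Step.x ++ [s.x]) := by
          simp
        rw [e1, e2, olen_append, olen_cons_cons, olen_cons_cons]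
        simp only [olen, List.cons_append]
        rw [add_zero, add_comm]

theorem par_eq_SQ (l : List (Step P)) (d : P.D) :
    SQ.par P.inv (l.map P.toSQ) d = P.par (l.map Step.d) d := by
  induction l with
  | nil => rfl
  | cons s l ih =>
      unfold SQ.par at ih ⊢
      rw [List.map_cons, List.map_cons, List.sum_cons, ih, List.map_cons, ← List.singleton_append,
        par_append, par_singleton]
      congr 1
      have h : ((P.toSQ s).1 = d ∨ (P.toSQ s).1 = P.inv d) ↔ (s.d = d ∨ s.d = P.inv d) := by
        show (P.inv s.d = d ∨ P.inv s.d = P.inv d) ↔ _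
        constructor
        · rintro (h | h)
          · right
            rw [← h, P.inv_inv]
          · left
            exact P.inv_injective h
        · rintro (h | h)
          · right
            rw [h]
          · left
            rw [h, P.inv_inv]
      by_cases h1 : s.d = d ∨ s.d = P.inv d
      · rw [if_pos h1, if_pos (h.2 h1)]
      · rw [if_neg h1, if_neg (fun h2 => h1 (h.1 h2))]

/-- [QG-B3b] an edge crossed at least `3 nV` times: the track can be reduced.
Rotate so that the last step crosses the edge; blocks = maximal pieces ending with a crossing of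
the edge. For every visited vertex choose one block visiting it: the protected blocks (at most
`nV`). Unprotected blocks with one step: if the (cyclically) preceding block is unprotected, use
`backtrack_reduce` (the two steps are the last step of the preceding block and this one), so we may
assume that it is protected, hence there are at most `nV` of them. The remaining at least `nV`
unprotected blocks have at least two steps: `block_reduce`. -/
theorem reduce_edge {l : List (Step P)} (hl : P.Good l) (e : P.D)
    (h : 3 * P.nV ≤ (l.map Step.d).countP (fun a => a = e ∨ a = P.inv e)) :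
    ∃ l', P.Good l' ∧ P.len l' ≤ P.len l ∧ l'.length < l.length := by
  classical
  obtain ⟨hne, ⟨F, hF⟩, hbal⟩ := hl
  have hF1 := (P.Walk_iff.1 hF)
  have hc : SQ.cyc P.inv P.nxt (l.map P.toSQ) := P.cyc_of_walk ⟨F, hF1.1⟩
  let Z : Finset E3 := (P.vis (l.map Step.x)).image P.pos
  have hZcard : Z.card ≤ P.nV := by
    refine Finset.card_image_le.trans ?_
    exact Finset.card_le_univ _
  have hZ : ∀ z ∈ Z, ∃ s ∈ l.map P.toSQ, s.2 = z := by
    intro z hz
    rw [Finset.mem_image] at hz
    obtain ⟨v, hv, rfl⟩ := hz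
    rw [mem_vis, List.mem_map] at hv
    obtain ⟨s, hs, hsv⟩ := hv
    exact ⟨P.toSQ s, List.mem_map_of_mem hs, hsv⟩
  let mark : P.D × E3 → Bool := fun s => decide (s.1 = e ∨ s.1 = P.inv e)
  have hmark : ∀ s, mark s = true → s.1 = e ∨ s.1 = P.inv e := fun s hs => of_decide_eq_true hs
  have hcount : ((l.map P.toSQ).filter mark).length =
      (l.map Step.d).countP (fun a => a = e ∨ a = P.inv e) := by
    rw [← List.countP_eq_length_filter, List.countP_map, List.countP_map]
    apply List.countP_congr
    intro s _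
    simp only [mark, Function.comp, toSQ, decide_eq_true_eq]
    constructor
    · rintro (h | h)
      · right
        rw [← h, P.inv_inv]
      · left
        exact P.inv_injective h
    · rintro (h | h)
      · right
        rw [h]
      · left
        rw [h, P.inv_inv]
  obtain ⟨l', h1, h2, h3, h4, h5, h6⟩ := SQ.list_reduce P.surf P.euler e mark hmark
    (l.map P.toSQ) hc Z hZ (by
      rw [hcount]
      have : Fintype.card P.V = P.nV := rfl
      omega)
  have hll : ∀ k : List (P.D × E3), (k.map P.ofSQ).map P.toSQ = k := by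
    intro k
    rw [List.map_map]
    have : P.toSQ ∘ P.ofSQ = id := by
      funext u
      exact P.toSQ_ofSQ u
    rw [this, List.map_id]
  have hpar : P.par ((l'.map P.ofSQ).map Step.d) = P.par (l.map Step.d) := by
    funext d
    rw [← P.par_eq_SQ, ← P.par_eq_SQ, hll]
    exact h4 d
  have hvis : P.vis ((l'.map P.ofSQ).map Step.x) = P.vis (l.map Step.x) := by
    ext v
    rw [mem_vis, mem_vis]
    constructor
    · intro hv
      rw [List.map_map, List.mem_map] at hv
      obtain ⟨t, ht, htv⟩ := hv
      have := h5 t ht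
      rw [List.mem_map] at this ⊢
      obtain ⟨s, hs, hst⟩ := this
      refine ⟨s, hs, ?_⟩
      rw [← hst] at htv
      exact htv
    · intro hv
      obtain ⟨s, hs, hsv⟩ := h6 (P.pos v) (by
        rw [Finset.mem_image]
        exact ⟨v, by rw [mem_vis]; exact hv, rfl⟩)
      rw [List.map_map, List.mem_map]
      exact ⟨s, hs, hsv⟩
  have hne' : l' ≠ [] := by
    intro h0
    have hv0 : P.vis (l.map Step.x) = ∅ := by
      rw [← hvis, h0]
      ext v
      simp [mem_vis]
    obtain ⟨d, hd⟩ := Good.not_par_zero P ⟨hne, ⟨F, hF⟩, hbal⟩ hv0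
    apply hd
    rw [← hpar, h0]
    exact P.par_nil d
  refine ⟨l'.map P.ofSQ, ⟨by simpa using hne', ?_, ?_⟩, ?_, ?_⟩
  · obtain ⟨G, hG⟩ := P.walk_of_cyc hne' h1
    refine ⟨G, P.Walk_iff.2 ⟨hG, ?_⟩⟩
    intro s hs
    rw [List.mem_map] at hs
    obtain ⟨t, ht, rfl⟩ := hs
    have := h5 t ht
    rw [List.mem_map] at this
    obtain ⟨u, hu, hut⟩ := this
    rw [← hut, ofSQ_toSQ]
    exact hF1.2 u hu
  · rw [hpar, hvis]
    exact hbal
  · rw [← P.clen_eq_SQ, ← P.clen_eq_SQ, hll]
    exact h3
  · rw [List.length_map]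
    rw [List.length_map] at h2
    exact h2

end Poly

end QG6b
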