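import Pool.Agent.Lib_MP_6b5565.B3b
import Pool.Agent.Lib_MP_6b5565.A1

/-! [QG-B3c] -/

namespace QG6b

namespace Poly

variable (P : Poly)

private theorem b3c_count (l : List P.D) :
    ∑ e : P.D, l.countP (fun a => a = e ∨ a = P.inv e) = 2 * l.length := by
  induction l with
  | nil => simp
  | cons a l ih =>
    simp only [List.countP_cons, List.length_cons]
    rw [Finset.sum_add_distrib, ih]
    have h1 : ∑ e : P.D, (if decide (a = e ∨ a = P.inv e) = true then 1 else 0) = 2 := by
      have h2 : ∀ e : P.D, (if decide (a = e ∨ a = P.inv e) = true then 1 else 0) =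
          if e ∈ ({a, P.inv a} : Finset P.D) then 1 else 0 := by
        intro e
        congr 1
        simp only [decide_eq_true_eq, Finset.mem_insert, Finset.mem_singleton, eq_iff_iff]
        constructor
        · rintro (h | h)
          · exact Or.inl h.symm
          · exact Or.inr (by rw [h, P.inv_inv])
        · rintro (h | h)
          · exact Or.inl h.symm
          · exact Or.inr (by rw [h, P.inv_inv])
      rw [Finset.sum_congr rfl (fun e _ => h2 e), Finset.sum_ite_mem, Finset.univ_inter,
        Finset.sum_const, Finset.card_pair (P.inv_ne a).symm]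
      rfl
    rw [h1]
    ring

/-- [QG-B3c] double counting: the sum over all half-edges `e` of the number of crossings of the
edge of `e` is `2 * l.length`, and `|D| ≤ 6 nV` -/
theorem reduce_all {l : List (Step P)} (hl : P.Good l) :
    ∃ l', P.Good l' ∧ P.len l' ≤ P.len l ∧ l'.length ≤ 9 * P.nV ^ 2 := by
  obtain ⟨n, hn⟩ : ∃ n, n = l.length := ⟨_, rfl⟩
  induction n using Nat.strong_induction_on generalizing l with
  | _ n ih =>
    by_cases h : ∃ e : P.D, 3 * P.nV ≤ (l.map Step.d).countP (fun a => a = e ∨ a = P.inv e)
    · obtain ⟨e, he⟩ := h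
      obtain ⟨l₁, h1, h2, h3⟩ := P.reduce_edge hl e he
      obtain ⟨l', h4, h5, h6⟩ := ih l₁.length (by omega) h1 rfl
      exact ⟨l', h4, h5.trans h2, h6⟩
    · push Not at h
      refine ⟨l, hl, le_refl _, ?_⟩
      have h1 := P.b3c_count (l.map Step.d)
      rw [List.length_map] at h1
      have h2 : ∑ e : P.D, (l.map Step.d).countP (fun a => a = e ∨ a = P.inv e) ≤
          ∑ _e : P.D, 3 * P.nV := Finset.sum_le_sum fun e _ => (h e).le
      rw [h1, Finset.sum_const, Finset.card_univ, smul_eq_mul] at h2
      have h3 : Fintype.card P.D ≤ 6 * P.nV := by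
        have := P.euler
        unfold nV
        omega
      have h4 : Fintype.card P.D * (3 * P.nV) ≤ 6 * P.nV * (3 * P.nV) := Nat.mul_le_mul_right _ h3
      nlinarith

end Poly

end QG6b
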