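import Pool.Agent.Lib_MP_6b5565.B0

/-! [QG-B4] -/

namespace QG6b

namespace Poly

variable (P : Poly)

/-- the track with half-edges `ds` and points `x` -/
private def trk (ds : List P.D) (x : Fin ds.length → E3) : List (Step P) :=
  List.ofFn fun i => (⟨ds.get i, x i⟩ : Step P)

private theorem trk_d (ds : List P.D) (x : Fin ds.length → E3) : (P.trk ds x).map Step.d = ds := by
  unfold trk
  rw [List.map_ofFn]
  exact List.ofFn_get ds

private theorem trk_x (ds : List P.D) (x : Fin ds.length → E3) :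
    (P.trk ds x).map Step.x = List.ofFn x := by
  unfold trk
  rw [List.map_ofFn]
  rfl

private theorem exists_trk (ds : List P.D) (l : List (Step P)) (h : l.map Step.d = ds) :
    ∃ x : Fin ds.length → E3, P.trk ds x = l := by
  subst h
  refine ⟨fun i => (l.get (i.cast (by rw [List.length_map]))).x, ?_⟩
  unfold trk
  refine List.ext_getElem ?_ ?_
  · rw [List.length_ofFn, List.length_map]
  · intro n h1 h2
    rw [List.getElem_ofFn]
    simp

private theorem good_iff (ds : List P.D) (x : Fin ds.length → E3) :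
    P.Good (P.trk ds x) ↔ (ds ≠ [] ∧ (∃ F, P.DWalk F ds F)) ∧ (∀ i, x i ∈ P.seg (ds.get i)) ∧
      ∃ Z : Finset P.V, P.Bal (P.par ds) Z ∧ ∀ v ∈ Z, ∃ i, x i = P.pos v := by
  have h1 : (P.trk ds x ≠ []) ↔ ds ≠ [] := by
    rw [not_iff_not]
    constructor
    · intro h
      have := P.trk_d ds x
      rw [h] at this
      exact this.symm
    · intro h
      have h2 : (P.trk ds x).length = ds.length := List.length_ofFn
      have h3 : ds.length = 0 := by rw [h]; rfl
      exact List.length_eq_zero_iff.1 (h2.trans h3)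
  have h2 : (∀ s ∈ P.trk ds x, s.x ∈ P.seg s.d) ↔ ∀ i, x i ∈ P.seg (ds.get i) := by
    unfold trk
    constructor
    · intro h i
      exact h _ ((List.mem_ofFn' _ _).2 ⟨i, rfl⟩)
    · intro h s hs
      obtain ⟨i, rfl⟩ := (List.mem_ofFn' _ _).1 hs
      exact h i
  have h3 : P.Bal (P.par ds) (P.vis (List.ofFn x)) ↔
      ∃ Z : Finset P.V, P.Bal (P.par ds) Z ∧ ∀ v ∈ Z, ∃ i, x i = P.pos v := by
    constructor
    · intro h
      refine ⟨_, h, fun v hv => ?_⟩
      rw [mem_vis] at hv
      exact (List.mem_ofFn' _ _).1 hv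
    · rintro ⟨Z, hZ, hv⟩
      refine P.Bal_mono (fun v hv' => ?_) hZ
      rw [mem_vis]
      exact (List.mem_ofFn' _ _).2 (hv v hv')
  unfold Good
  rw [h1, P.trk_d ds x, P.trk_x ds x, h3]
  simp only [P.Walk_iff, P.trk_d ds x, h2]
  constructor
  · rintro ⟨h4, ⟨F, h5, h6⟩, h7⟩
    exact ⟨⟨h4, F, h5⟩, h6, h7⟩
  · rintro ⟨⟨h4, F, h5⟩, h6, h7⟩
    exact ⟨h4, ⟨F, h5, h6⟩, h7⟩

private theorem seg_compact (d : P.D) : IsCompact (P.seg d) := by
  unfold seg
  rw [← convexHull_pair]
  exact (Set.toFinite _).isCompact_convexHull ℝ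

private theorem good_compact (ds : List P.D) :
    IsCompact {x : Fin ds.length → E3 | P.Good (P.trk ds x)} := by
  classical
  simp only [P.good_iff ds]
  by_cases h0 : ds ≠ [] ∧ ∃ F, P.DWalk F ds F
  · have e : {x : Fin ds.length → E3 | (ds ≠ [] ∧ ∃ F, P.DWalk F ds F) ∧
        (∀ i, x i ∈ P.seg (ds.get i)) ∧
        ∃ Z : Finset P.V, P.Bal (P.par ds) Z ∧ ∀ v ∈ Z, ∃ i, x i = P.pos v}
        = (Set.univ.pi fun i => P.seg (ds.get i)) ∩
          ⋃ Z : Finset P.V, {x | P.Bal (P.par ds) Z ∧ ∀ v ∈ Z, ∃ i, x i = P.pos v} := by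
      ext x
      simp only [Set.mem_ofPred_eq, Set.mem_inter_iff, Set.mem_univ_pi, Set.mem_iUnion]
      exact ⟨fun h => h.2, fun h => ⟨h0, h⟩⟩
    rw [e]
    refine (isCompact_univ_pi fun i => P.seg_compact _).inter_right ?_
    refine isClosed_iUnion_of_finite fun Z => ?_
    by_cases hZ : P.Bal (P.par ds) Z
    · have e2 : {x : Fin ds.length → E3 | P.Bal (P.par ds) Z ∧ ∀ v ∈ Z, ∃ i, x i = P.pos v}
          = ⋂ v ∈ Z, ⋃ i, {x | x i = P.pos v} := by
        ext x
        simp only [Set.mem_ofPred_eq, hZ, true_and, Set.mem_iInter, Set.mem_iUnion]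
      rw [e2]
      refine isClosed_biInter fun v _ => isClosed_iUnion_of_finite fun i => ?_
      exact isClosed_eq (continuous_apply i) continuous_const
    · have e2 : {x : Fin ds.length → E3 | P.Bal (P.par ds) Z ∧ ∀ v ∈ Z, ∃ i, x i = P.pos v} = ∅ := by
        ext x
        simp [hZ]
      rw [e2]
      exact isClosed_empty
  · have e : {x : Fin ds.length → E3 | (ds ≠ [] ∧ ∃ F, P.DWalk F ds F) ∧
        (∀ i, x i ∈ P.seg (ds.get i)) ∧
        ∃ Z : Finset P.V, P.Bal (P.par ds) Z ∧ ∀ v ∈ Z, ∃ i, x i = P.pos v} = ∅ := by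
      ext x
      simp only [Set.mem_ofPred_eq, Set.mem_empty_iff_false, iff_false]
      exact fun h => h0 h.1
    rw [e]
    exact isCompact_empty

/-- [QG-B4] compactness for a fixed list of half-edges: the points vary in a compact set (product
of closed edges), the length is continuous, and `Good` is a closed condition: for fixed `ds` it
says that the set of visited vertices contains one of finitely many sets `Z₀` (`Bal_mono`), and
`{x | pos v ∈ list}` is a finite union of closed sets. -/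
theorem exists_min_fixed (ds : List P.D) (h : ∃ l, P.Good l ∧ l.map Step.d = ds) :
    ∃ l, P.Good l ∧ l.map Step.d = ds ∧ ∀ l', P.Good l' → l'.map Step.d = ds → P.len l ≤ P.len l' := by
  obtain ⟨l0, hl0, hd0⟩ := h
  obtain ⟨x0, hx0⟩ := P.exists_trk ds l0 hd0
  have hne : {x : Fin ds.length → E3 | P.Good (P.trk ds x)}.Nonempty :=
    ⟨x0, by rw [Set.mem_ofPred_eq, hx0]; exact hl0⟩
  obtain ⟨x, hx, hmin⟩ := (P.good_compact ds).exists_isMinOn hne
    (clen_continuous ds.length).continuousOn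
  refine ⟨P.trk ds x, hx, P.trk_d ds x, fun l' hl' hd' => ?_⟩
  obtain ⟨x', hx'⟩ := P.exists_trk ds l' hd'
  have h1 : x' ∈ {x : Fin ds.length → E3 | P.Good (P.trk ds x)} := by
    rw [Set.mem_ofPred_eq, hx']
    exact hl'
  have h2 := hmin h1
  simp only [Set.mem_ofPred_eq] at h2
  rw [← hx']
  unfold len
  rw [P.trk_x, P.trk_x]
  exact h2

end Poly

end QG6b
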