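import Pool.Agent.Lib_MP_6b5565.B1
import Pool.Agent.Lib_MP_6b5565.B3c
import Pool.Agent.Lib_MP_6b5565.B4

/-! [QG-B5] -/

namespace QG6b

namespace Poly

variable (P : Poly)

/-- [QG-B5] -/
theorem exists_min : ∃ l, P.Good l ∧ ∀ l', P.Good l' → P.len l ≤ P.len l' := by
  classical
  have hfin : {ds : List P.D | ds.length ≤ 9 * P.nV ^ 2 ∧ ∃ l, P.Good l ∧ l.map Step.d = ds}.Finite :=
    (List.finite_length_le P.D (9 * P.nV ^ 2)).subset fun ds h => h.1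
  have hex : ∀ ds : List P.D, (∃ l, P.Good l ∧ l.map Step.d = ds) →
      ∃ l, P.Good l ∧ l.map Step.d = ds ∧ ∀ l', P.Good l' → l'.map Step.d = ds → P.len l ≤ P.len l' :=
    fun ds h => P.exists_min_fixed ds h
  choose! f hf using hex
  have hred : ∀ l, P.Good l → ∃ l', P.Good l' ∧ P.len l' ≤ P.len l ∧
      l'.map Step.d ∈ {ds : List P.D | ds.length ≤ 9 * P.nV ^ 2 ∧ ∃ l, P.Good l ∧ l.map Step.d = ds} := by
    intro l hl
    obtain ⟨l', h1, h2, h3⟩ := P.reduce_all hl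
    exact ⟨l', h1, h2, by simpa using h3, l', h1, rfl⟩
  obtain ⟨l0, hl0⟩ := P.exists_good
  obtain ⟨l1, -, -, h1⟩ := hred l0 hl0
  obtain ⟨ds, hds, hmin⟩ := Set.exists_min_image _ (fun ds => P.len (f ds)) hfin ⟨_, h1⟩
  refine ⟨f ds, (hf ds hds.2).1, fun l' hl' => ?_⟩
  obtain ⟨l2, g1, g2, g3⟩ := hred l' hl'
  calc P.len (f ds) ≤ P.len (f (l2.map Step.d)) := hmin _ g3
    _ ≤ P.len l2 := (hf _ g3.2).2.2 l2 g1 rfl
    _ ≤ P.len l' := g2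

/-- [QG-B5] lexicographic minimum of `mu` among the shortest ones (`WellFounded.min`) -/
theorem exists_best : ∃ l, P.Best l := by
  obtain ⟨l0, hl0, hmin0⟩ := P.exists_min
  have hwf : WellFounded ((· < ·) : (ℕ ×ₗ ℕ ×ₗ ℕ) → (ℕ ×ₗ ℕ ×ₗ ℕ) → Prop) := wellFounded_lt
  obtain ⟨_, ⟨l, ⟨hl, hlmin⟩, rfl⟩, hmu⟩ := hwf.has_min
    (P.mu '' {l | P.Good l ∧ ∀ l', P.Good l' → P.len l ≤ P.len l'}) ⟨_, l0, ⟨hl0, hmin0⟩, rfl⟩
  refine ⟨l, hl, fun l' hl' => ⟨hlmin l' hl', fun he => ?_⟩⟩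
  refine not_lt.1 (hmu _ ⟨l', ⟨hl', fun l'' hl'' => ?_⟩, rfl⟩)
  rw [he]
  exact hlmin l'' hl''

end Poly

end QG6b
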