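import Pool.Agent.Lib_MP_6b5565.A3a
import Pool.Agent.Lib_MP_6b5565_geo.Plane

/-! [QG-C1] PUSH-OFF: a path `p → z → q` can be shortened by cutting the corner through a fan of total angle less than `π` -/

namespace QG6b

open EuclideanGeometry

private theorem olen_eq_sum : ∀ L : List E3, olen L =
    ∑ i ∈ Finset.range (L.length - 1), dist (L.getD i 0) (L.getD (i + 1) 0)
  | [] => by simp [olen]
  | [_] => by simp [olen]
  | a :: b :: l => by
    have ih := olen_eq_sum (b :: l)
    rw [olen, ih]
    have h1 : (a :: b :: l).length - 1 = ((b :: l).length - 1) + 1 := by simp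
    rw [h1, Finset.sum_range_succ', add_comm]
    simp

private theorem angList_eq_sum (z : E3) : ∀ L : List E3, angList z L =
    ∑ i ∈ Finset.range (L.length - 1), ∠ (L.getD i 0) z (L.getD (i + 1) 0)
  | [] => by simp [angList]
  | [_] => by simp [angList]
  | a :: b :: l => by
    have ih := angList_eq_sum z (b :: l)
    rw [angList, ih]
    have h1 : (a :: b :: l).length - 1 = ((b :: l).length - 1) + 1 := by simp
    rw [h1, Finset.sum_range_succ', add_comm]
    simp

/-- Plane computation. Let `φ_0 = 0, φ_1, ..., φ_(k+1) = α < π` be the partial sums of the angles,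
`h > 0` small, and take the points at distance `r_i = h / cos (φ_i - α/2)` from `z` on the rays to
`p, c_1, ..., c_k, q`. By the law of cosines consecutive ones have distance
`h (tan (φ_(i+1) - α/2) - tan (φ_i - α/2))`, so the sum is `2 h tan (α/2)`, while
`r_0 + r_(k+1) = 2 h / cos (α/2)` is larger (`sin (α/2) < 1`). With `r_0 ≤ dist p z`,
`r_(k+1) ≤ dist q z` add the remaining pieces of `[p,z]`, `[z,q]` (triangle inequality). `h` is
chosen so small that all `r_i < η * dist c_i z`. -/
theorem push_off (z p q : E3) (cs : List E3) (hp : p ≠ z) (hq : q ≠ z) (hcs : ∀ c ∈ cs, c ≠ z)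
    (h : angList z (p :: (cs ++ [q])) < Real.pi) (η : ℝ) (hη : 0 < η) :
    ∃ ρ : ℕ → ℝ, (∀ i, 0 < ρ i ∧ ρ i < η) ∧
      olen (p :: (cs.mapIdx (fun i c => z + ρ i • (c - z)) ++ [q])) < dist p z + dist z q := by
  set L : List E3 := p :: (cs ++ [q]) with hL
  have hLl : L.length = cs.length + 2 := by simp [hL]
  have hmem : ∀ i ≤ cs.length + 1, L.getD i 0 ∈ L := by
    intro i hi
    rw [List.getD_eq_getElem _ _ (by rw [hLl]; omega)]
    exact List.getElem_mem _
  have hne : ∀ i ≤ cs.length + 1, L.getD i 0 - z ≠ 0 := by
    intro i hi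
    rw [sub_ne_zero]
    have := hmem i hi
    rw [hL] at this
    simp only [List.mem_cons, List.mem_append, List.not_mem_nil, or_false] at this
    rcases this with h1 | h1 | h1
    · rw [← hL] at h1
      rw [h1]
      exact hp
    · exact hcs _ h1
    · rw [← hL] at h1
      rw [h1]
      exact hq
  have hA : ∑ i ∈ Finset.range (cs.length + 1), InnerProductGeometry.angle (L.getD i 0 - z) (L.getD (i + 1) 0 - z) < Real.pi := by
    rw [angList_eq_sum, hLl] at h
    exact h
  obtain ⟨r, hr, H⟩ := Pool.Agent.QGeo.pushOff z (Nat.succ_pos cs.length) (fun i => L.getD i 0 - z) hne hA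
    (s := 1) (t := 1) one_pos one_pos hη
  refine ⟨fun i => if i < cs.length then r (i + 1) else η / 2, ?_, ?_⟩
  · intro i
    dsimp only
    split_ifs with hi
    · exact hr (i + 1) (by omega)
    · constructor <;> linarith
  · set f : ℕ → E3 → E3 := fun i c => z + (if i < cs.length then r (i + 1) else η / 2) • (c - z) with hf
    set L' : List E3 := p :: (cs.mapIdx f ++ [q]) with hL'
    have hLl' : L'.length = cs.length + 2 := by simp [hL']
    rw [olen_eq_sum, hLl']
    have h0 : L'.getD 0 0 = p := by simp [hL']
    have hm : L'.getD (cs.length + 1) 0 = q := by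
      rw [hL', List.getD_cons_succ]
      simp
    have h0' : L.getD 0 0 = p := by simp [hL]
    have hm' : L.getD (cs.length + 1) 0 = q := by
      rw [hL, List.getD_cons_succ]
      simp
    have key := H (fun i => L'.getD i 0) (by simp only [h0, h0']; module) (by simp only [Nat.succ_eq_add_one, hm, hm']; module) ?_
    · simp only [h0, Nat.succ_eq_add_one, hm] at key
      exact key
    · intro i hi hi2
      obtain ⟨k, rfl⟩ : ∃ k, i = k + 1 := ⟨i - 1, by omega⟩
      have hk : k < cs.length := by omega
      rw [hL', hL, List.getD_cons_succ, List.getD_cons_succ]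
      rw [List.getD_append _ _ _ _ (by simpa using hk), List.getD_append _ _ _ _ hk,
        List.getD_eq_getElem _ _ (by simpa using hk), List.getD_eq_getElem _ _ hk, List.getElem_mapIdx]
      simp only [hf, if_pos hk]

end QG6b
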