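import Pool.Agent.Lib_MP_6b5565.C2a
import Pool.Agent.Lib_MP_6b5565.Tri

/-! [QG-C2c] fans of angle at least `π` -/

namespace QG6b

open EuclideanGeometry

namespace Poly

variable (P : Poly)

private theorem c2c_zero {d : P.D} {p : E3} (hp : p ∈ P.seg d) (hpA : p ≠ P.A d) :
    ∠ p (P.A d) (P.B d) = 0 := by
  have h : p ∈ segment ℝ (P.A d) (P.B d) := hp
  rw [segment_eq_image'] at h
  obtain ⟨t, ht, rfl⟩ := h
  have ht0 : t ≠ 0 := by
    rintro rfl
    apply hpA
    simp
  have htp : 0 < t := lt_of_le_of_ne ht.1 (Ne.symm ht0)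
  have hne : P.B d - P.A d ≠ 0 := sub_ne_zero.2 (P.A_ne_B d).symm
  unfold EuclideanGeometry.angle
  simp only [vsub_eq_sub]
  have e : P.A d + t • (P.B d - P.A d) - P.A d = t • (P.B d - P.A d) := by abel
  rw [e, InnerProductGeometry.angle_smul_left_of_pos _ _ htp,
    InnerProductGeometry.angle_self hne]

private theorem c2c_le1 {d : P.D} {p : E3} (hp : p ∈ P.tri d) (hpA : p ≠ P.A d) :
    ∠ p (P.A d) (P.B d) < Real.pi := by
  have h := P.ang_split hp hpA
  have h2 := EuclideanGeometry.angle_nonneg p (P.A d) (P.B (P.rot d))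
  linarith [P.ang_lt d]

private theorem c2c_le2 {d : P.D} {p : E3} (hp : p ∈ P.tri d) (hpA : p ≠ P.A d) :
    ∠ p (P.A d) (P.B (P.rot d)) < Real.pi := by
  have h := P.ang_split hp hpA
  have h2 := EuclideanGeometry.angle_nonneg p (P.A d) (P.B d)
  linarith [P.ang_lt d]

/-- a fan of angle at least `π` has a half-edge strictly inside: `k = 1` and an end direction on
the crossed edge, or `k = 2` and both end directions on the two crossed edges, give an angle less
than `π` (angles of one face are less than `π`, `ang_split`). -/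
theorem fan_inner_cw {v : P.V} {a : P.D} (ha : P.tail a = v) {k : ℕ} (hk : 1 ≤ k) {p q : E3}
    (hp : p ∈ P.tri a) (hq : q ∈ P.tri (P.cw^[k] a)) (hpz : p ≠ P.pos v) (hqz : q ≠ P.pos v)
    (h : Real.pi ≤ P.fang v p (P.cwD a k) q) :
    (k = 1 → p ∉ P.seg a ∧ q ∉ P.seg a) ∧ (k = 2 → ¬ (p ∈ P.seg a ∧ q ∈ P.seg (P.cw a))) := by
  rw [P.fang_cwD ha k hk] at h
  have hA : P.pos v = P.A a := by rw [← ha]; rfl
  have hA1 : P.pos v = P.A (P.cw a) := by rw [← ha, ← P.tail_cw a]; rfl
  constructor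
  · rintro rfl
    simp only [Finset.Ico_self, Finset.sum_empty, add_zero, Nat.sub_self, Function.iterate_zero,
      id_eq] at h
    rw [Function.iterate_one] at hq
    constructor
    · intro hs
      have h1 : ∠ p (P.pos v) (P.B a) = 0 := by
        rw [hA]
        exact P.c2c_zero hs (by rw [← hA]; exact hpz)
      have h2 := P.c2c_le2 hq (by rw [← hA1]; exact hqz)
      rw [P.rot_cw, ← hA1, EuclideanGeometry.angle_comm] at h2
      linarith
    · intro hs
      have h1 : ∠ (P.B a) (P.pos v) q = 0 := by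
        rw [hA, EuclideanGeometry.angle_comm]
        exact P.c2c_zero hs (by rw [← hA]; exact hqz)
      have h2 := P.c2c_le1 hp (by rw [← hA]; exact hpz)
      rw [← hA] at h2
      linarith
  · rintro rfl ⟨hs, hs'⟩
    simp only [Nat.Ico_succ_singleton, Finset.sum_singleton, Function.iterate_one,
      Nat.add_one_sub_one, Nat.reduceAdd, Nat.reduceSub] at h
    have h1 : ∠ p (P.pos v) (P.B a) = 0 := by
      rw [hA]
      exact P.c2c_zero hs (by rw [← hA]; exact hpz)
    have h2 : ∠ (P.B (P.cw a)) (P.pos v) q = 0 := by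
      rw [hA1, EuclideanGeometry.angle_comm]
      exact P.c2c_zero hs' (by rw [← hA1]; exact hqz)
    linarith [P.ang_lt (P.cw a)]

theorem fan_inner_ccw {v : P.V} {a : P.D} (ha : P.tail a = v) {k : ℕ} (hk : 1 ≤ k) {p q : E3}
    (hp : p ∈ P.tri a) (hq : q ∈ P.tri (P.rot^[k] a)) (hpz : p ≠ P.pos v) (hqz : q ≠ P.pos v)
    (h : Real.pi ≤ P.fang v p (P.ccwD a k) q) :
    (k = 1 → p ∉ P.seg (P.rot a) ∧ q ∉ P.seg (P.rot a)) ∧
      (k = 2 → ¬ (p ∈ P.seg (P.rot a) ∧ q ∈ P.seg (P.rot (P.rot a)))) := by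
  rw [P.fang_ccwD ha k hk] at h
  have hA : P.pos v = P.A a := by rw [← ha]; rfl
  have hA1 : P.pos v = P.A (P.rot a) := by rw [← ha, ← P.tail_rot a]; rfl
  have hA2 : P.pos v = P.A (P.rot (P.rot a)) := by
    rw [← ha, ← P.tail_rot a, ← P.tail_rot (P.rot a)]; rfl
  constructor
  · rintro rfl
    simp only [Finset.Ico_self, Finset.sum_empty, add_zero, Function.iterate_one] at h
    rw [Function.iterate_one] at hq
    constructor
    · intro hs
      have h1 : ∠ p (P.pos v) (P.B (P.rot a)) = 0 := by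
        rw [hA1]
        exact P.c2c_zero hs (by rw [← hA1]; exact hpz)
      have h2 := P.c2c_le1 hq (by rw [← hA1]; exact hqz)
      rw [← hA1, EuclideanGeometry.angle_comm] at h2
      linarith
    · intro hs
      have h1 : ∠ (P.B (P.rot a)) (P.pos v) q = 0 := by
        rw [hA1, EuclideanGeometry.angle_comm]
        exact P.c2c_zero hs (by rw [← hA1]; exact hqz)
      have h2 := P.c2c_le2 hp (by rw [← hA]; exact hpz)
      rw [← hA] at h2
      linarith
  · rintro rfl ⟨hs, hs'⟩
    have e2 : P.rot^[2] a = P.rot (P.rot a) := rfl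
    rw [e2] at h
    simp only [Nat.Ico_succ_singleton, Finset.sum_singleton, Function.iterate_one,
      Nat.add_one_sub_one, Nat.reduceAdd, Nat.reduceSub] at h
    have h1 : ∠ p (P.pos v) (P.B (P.rot a)) = 0 := by
      rw [hA1]
      exact P.c2c_zero hs (by rw [← hA1]; exact hpz)
    have h2 : ∠ (P.B (P.rot (P.rot a))) (P.pos v) q = 0 := by
      rw [hA2, EuclideanGeometry.angle_comm]
      exact P.c2c_zero hs' (by rw [← hA2]; exact hqz)
    linarith [P.ang_lt (P.rot a)]

end Poly

end QG6b
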