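import Pool.Agent.Lib_MP_6b5565.CycDefs
import Pool.Agent.Lib_MP_6b5565.Tri

/-! [QG-C3a] -/

namespace QG6b

open EuclideanGeometry

namespace Poly

variable (P : Poly)

/-- a nonzero parity means a crossing -/
private theorem exists_of_par_ne {l : List P.D} {e : P.D} (h : P.par l e ≠ 0) :
    ∃ a ∈ l, a = e ∨ a = P.inv e := by
  by_contra hc
  push Not at hc
  apply h
  unfold par
  rw [List.countP_eq_zero.2]
  · simp
  · intro a ha
    have := hc a ha
    simp [this.1, this.2]

/-- all crossings at one edge: the parity vanishes -/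
private theorem par_zero_of_one_edge {F : P.D} {l : List P.D} (w : P.DWalk F l F) (d : P.D)
    (hd : ∀ a ∈ l, a = d ∨ a = P.inv d) (e : P.D) : P.par l e = 0 := by
  have h1 : ∀ x, x ≠ d → x ≠ P.inv d → P.par l x = 0 := by
    intro x hx1 hx2
    by_contra hc
    obtain ⟨a, ha, hax⟩ := P.exists_of_par_ne hc
    rcases hax with rfl | rfl
    · rcases hd _ ha with h | h
      · exact hx1 h
      · exact hx2 h
    · rcases hd _ ha with h | h
      · apply hx2
        rw [← h, P.inv_inv]
      · exact hx1 (P.inv_injective h)
  have h2 : P.par l d = 0 := by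
    have hf := P.par_face w d
    rw [h1 (P.nxt d) (P.nxt_ne d) ?_, h1 (P.prev d) (P.prev_ne d) ?_] at hf
    · simpa using hf
    · intro h
      exact P.not_SF_inv d (by rw [← h]; exact P.SF_prev d)
    · intro h
      exact P.not_SF_inv d (by rw [← h]; exact P.SF_nxt d)
  by_cases he1 : e = d
  · rw [he1]; exact h2
  · by_cases he2 : e = P.inv d
    · rw [he2, P.par_inv]; exact h2
    · exact h1 e he1 he2

/-- a colouring constant off `z` is not balanced -/
private theorem not_bal_const {p : P.D → ZMod 2} {z : P.V} {c : P.V → ZMod 2} (hc : P.Col p c)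
    (hz : ∀ v, v ≠ z → c v = 0) : ¬ P.Bal p {z} := by
  intro hb
  have h1 := (P.Bal_iff hc).1 hb 0
  have h2 := P.K_add {z} c
  have h3 : P.K {z} c 1 = 0 := by
    unfold K
    rw [Finset.filter_eq_empty_iff.2]
    · simp
    · intro v _ hv
      have h4 := hz v (by simpa using hv.1)
      rw [h4] at hv
      exact absurd hv.2 (by decide)
  rw [h3, Finset.sum_singleton] at h2
  have h5 := P.kap_lt z
  linarith

/-- [QG-C3a] a balanced track has positive length.
Otherwise all points are one point `p` (`clen_eq_zero`), all crossed edges contain `p`. If `p` is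
no vertex they are one edge `e` (`edge_unique`), the walk alternates between the two faces at `e`,
so (face sum, `par_face`) `par = 0` and `Good.not_par_zero`. If `p = pos z` the parity is supported
on the star of `z`, so it is `0` or `star z` (`cocycle_star`), the colouring is constant off `z`,
and the curvature `4π - kap z > 2π` off `z` has one colour. -/
theorem Good.len_pos {l : List (Step P)} (h : P.Good l) : 0 < P.len l := by
  rcases (clen_nonneg (l.map Step.x)).lt_or_eq with h0 | h0
  · exact h0
  exfalso
  have hall := clen_eq_zero h0.symm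
  obtain ⟨hne, ⟨F, w⟩, hbal⟩ := h
  obtain ⟨s₀, hs₀⟩ := List.exists_mem_of_ne_nil l hne
  have hx : ∀ s ∈ l, s.x = s₀.x := fun s hs =>
    hall _ (List.mem_map_of_mem hs) _ (List.mem_map_of_mem hs₀)
  obtain ⟨wd, hseg⟩ := P.Walk_iff.1 w
  by_cases hn : P.NV s₀.x
  · have ho : s₀.x ∈ P.oseg s₀.d := P.oseg_of_seg (hseg s₀ hs₀) hn
    have hd : ∀ a ∈ l.map Step.d, a = s₀.d ∨ a = P.inv s₀.d := by
      intro a ha
      obtain ⟨s, hs, rfl⟩ := List.mem_map.1 ha
      have h1 := hseg s hs
      rw [hx s hs] at h1
      exact P.edge_unique ho h1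
    have hv : P.vis (l.map Step.x) = ∅ := by
      rw [Finset.eq_empty_iff_forall_notMem]
      intro v hv
      rw [mem_vis] at hv
      obtain ⟨s, hs, hsv⟩ := List.mem_map.1 hv
      rw [hx s hs] at hsv
      exact hn v hsv
    obtain ⟨e, he⟩ := Good.not_par_zero P ⟨hne, ⟨F, w⟩, hbal⟩ hv
    exact he (P.par_zero_of_one_edge wd s₀.d hd e)
  · unfold NV at hn
    push Not at hn
    obtain ⟨z, hz⟩ := hn
    have hvis : P.vis (l.map Step.x) = {z} := by
      ext v
      rw [mem_vis, Finset.mem_singleton]
      constructor
      · intro hv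
        obtain ⟨s, hs, hsv⟩ := List.mem_map.1 hv
        rw [hx s hs, hz] at hsv
        exact (P.pos_inj hsv).symm
      · rintro rfl
        rw [← hz]
        exact List.mem_map_of_mem hs₀
    rw [hvis] at hbal
    have hsupp : ∀ e, P.tail e ≠ z → P.head e ≠ z → P.par (l.map Step.d) e = 0 := by
      intro e he1 he2
      by_contra hc
      obtain ⟨a, ha, hae⟩ := P.exists_of_par_ne hc
      obtain ⟨s, hs, rfl⟩ := List.mem_map.1 ha
      have h1 := hseg s hs
      rw [hx s hs, hz] at h1
      have h2 := P.eq_of_pos_mem_seg h1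
      rcases hae with h3 | h3
      · rw [h3] at h2
        rcases h2 with h2 | h2
        · exact he1 h2.symm
        · exact he2 h2.symm
      · rw [h3] at h2
        rcases h2 with h2 | h2
        · exact he2 h2.symm
        · rw [P.tail_eq_head_inv] at h2
          exact he1 h2.symm
    rcases P.cocycle_star (P.par_inv _) (P.par_face wd) hsupp with h1 | h1
    · refine P.not_bal_const (c := fun _ => 0) (z := z) ?_ (fun _ _ => rfl) hbal
      intro e
      rw [h1 e]
      simp
    · have h2 : P.par (l.map Step.d) = P.star z := funext h1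
      rw [h2] at hbal
      exact P.not_bal_const (P.Col_star z) (fun v hv => if_neg hv) hbal

end Poly

end QG6b
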