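import Pool.Agent.Lib_MP_6b5565.B3a

/-! [QG-C3b] -/

namespace QG6b

open EuclideanGeometry

namespace Poly

variable (P : Poly)

/-- [QG-C3b] two steps that cross back and forth at non-vertex points do not occur in a shortest
track with minimal tie-break (`backtrack_reduce`) -/
theorem Best.no_backtrack {l : List (Step P)} {s s' : Step P} (h : P.Best (s :: s' :: l))
    (hd : s'.d = P.inv s.d) (h1 : P.NV s.x) (h2 : P.NV s'.x) : False := by
  have hv : ∀ v, (P.pos v = s.x ∨ P.pos v = s'.x) → P.pos v ∈ l.map Step.x := by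
    intro v hv
    rcases hv with hv | hv
    · exact absurd hv.symm (h1 v)
    · exact absurd hv.symm (h2 v)
  obtain ⟨hg, hl⟩ := P.backtrack_reduce h.1 hd hv
  obtain ⟨h3, h4⟩ := h.2 l hg
  have h5 := h4 (le_antisymm hl h3)
  have hvis : P.vis ((s :: s' :: l).map Step.x) = P.vis (l.map Step.x) := by
    ext v
    rw [P.mem_vis, P.mem_vis, List.map_cons, List.map_cons, List.mem_cons, List.mem_cons]
    constructor
    · rintro (hm | hm | hm)
      · exact absurd hm.symm (h1 v)
      · exact absurd hm.symm (h2 v)
      · exact hm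
    · intro hm
      exact Or.inr (Or.inr hm)
  unfold mu at h5
  rw [hvis, Prod.Lex.toLex_le_toLex] at h5
  rcases h5 with h5 | ⟨-, h5⟩
  · exact lt_irrefl _ h5
  · have h6 : (toLex ((s :: s' :: l).length,
        open Classical in (s :: s' :: l).countP (fun s => P.NV s.x)) : ℕ ×ₗ ℕ) ≤
        toLex (l.length, open Classical in l.countP (fun s => P.NV s.x)) := h5
    rw [Prod.Lex.toLex_le_toLex] at h6
    simp only [List.length_cons] at h6
    rcases h6 with h6 | ⟨h6, -⟩ <;> omega

end Poly

end QG6b
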