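import Pool.Agent.Lib_MP_6b5565.CycDefs
import Pool.Agent.Lib_MP_6b5565.C3a

/-! [QG-C3c] -/

namespace QG6b

open EuclideanGeometry

namespace Poly

variable (P : Poly)

/-- the point of the first step -/
private noncomputable def ptb (b : List (Step P)) : E3 := (b.head?.map Step.x).getD 0

private theorem olen_const (p : E3) : ∀ l : List E3, (∀ a ∈ l, a = p) → olen l = 0
  | [], _ => rfl
  | [_], _ => rfl
  | a :: b :: l, h => by
    have h1 : a = p := h a List.mem_cons_self
    have h2 : b = p := h b (List.mem_cons_of_mem _ List.mem_cons_self)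
    have h3 := olen_const p (b :: l) fun c hc => h c (List.mem_cons_of_mem _ hc)
    show dist a b + olen (b :: l) = 0
    rw [h3, h1, h2, dist_self, add_zero]

private theorem clen_const (p : E3) (l : List E3) (h : ∀ a ∈ l, a = p) : clen l = 0 := by
  cases l with
  | nil => rfl
  | cons a l =>
    refine olen_const p _ ?_
    intro c hc
    rcases List.mem_append.1 hc with h1 | h1
    · exact h c h1
    · rw [List.mem_singleton.1 h1]
      exact h a List.mem_cons_self

private theorem exists_break : ∀ l : List (Step P),
    (∃ l₁ a b l₂, l = l₁ ++ a :: b :: l₂ ∧ a.x ≠ b.x) ∨ (∀ s ∈ l, s.x = ptb P l)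
  | [] => Or.inr fun s hs => absurd hs (by simp)
  | [a] => Or.inr fun s hs => by
    rw [List.mem_singleton.1 hs]
    rfl
  | a :: b :: l => by
    by_cases h : a.x = b.x
    · rcases exists_break (b :: l) with ⟨l₁, c, d, l₂, h1, h2⟩ | h1
      · exact Or.inl ⟨a :: l₁, c, d, l₂, by rw [h1]; rfl, h2⟩
      · refine Or.inr fun s hs => ?_
        rcases List.mem_cons.1 hs with h2 | h2
        · rw [h2]
          rfl
        · rw [h1 s h2]
          exact h.symm
    · exact Or.inl ⟨[], a, b, l, rfl, h⟩

private theorem chain_const : ∀ l : List (Step P),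
    l.IsChain (fun a b => a.x = b.x) → ∀ s ∈ l, s.x = ptb P l
  | [], _, s, hs => absurd hs (by simp)
  | [a], _, s, hs => by
    rw [List.mem_singleton.1 hs]
    rfl
  | a :: b :: l, h, s, hs => by
    rw [List.isChain_cons_cons] at h
    rcases List.mem_cons.1 hs with h2 | h2
    · rw [h2]
      rfl
    · rw [chain_const (b :: l) h.2 s h2]
      exact h.1.symm

private theorem exists_cyc_of_blocks (Bs : List (List (Step P))) (hne : ∀ b ∈ Bs, b ≠ [])
    (hconst : ∀ b ∈ Bs, ∀ s ∈ b, s.x = ptb P b) (hlen : 2 ≤ Bs.length)
    (hadj : ∀ i, i + 1 < Bs.length → ptb P (Bs.getD i []) ≠ ptb P (Bs.getD (i + 1) []))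
    (hcyc : ptb P (Bs.getD (Bs.length - 1) []) ≠ ptb P (Bs.getD 0 []))
    (hbest : P.Best Bs.flatten) :
    ∃ (m : ℕ) (_ : NeZero m) (C : Cyc P m), 2 ≤ m ∧ C.BestC := by
  have hnz : NeZero Bs.length := ⟨by omega⟩
  set B : ZMod Bs.length → List (Step P) := fun j => Bs.getD j.val [] with hB
  have hval : ∀ j : ZMod Bs.length, j.val < Bs.length := fun j => ZMod.val_lt j
  have hmem : ∀ j, B j ∈ Bs := by
    intro j
    simp only [hB]
    rw [List.getD_eq_getElem _ _ (hval j)]
    exact List.getElem_mem _
  have hBne : ∀ j, B j ≠ [] := fun j => hne _ (hmem j)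
  have hrot : ∀ j : ZMod Bs.length, (List.range Bs.length).map (fun t => B (j + (t : ℕ))) =
      Bs.drop j.val ++ Bs.take j.val := by
    intro j
    rw [← List.rotate_eq_drop_append_take (hval j).le]
    apply List.ext_getElem
    · simp
    · intro t ht ht'
      rw [List.getElem_map, List.getElem_range, List.getElem_rotate]
      have ht2 : t < Bs.length := by simpa using ht
      have h1 : (j + ((t : ℕ) : ZMod Bs.length)).val = (t + j.val) % Bs.length := by
        rw [ZMod.val_add, ZMod.val_natCast, Nat.mod_eq_of_lt ht2, Nat.add_comm]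
      simp only [hB]
      rw [h1, List.getD_eq_getElem _ _ (Nat.mod_lt _ (by omega))]
  have hBest : ∀ j : ZMod Bs.length,
      P.Best ((List.range Bs.length).map (fun t => B (j + (t : ℕ)))).flatten := by
    intro j
    rw [hrot, List.flatten_append]
    apply Best.rotate
    rw [← List.flatten_append, List.take_append_drop]
    exact hbest
  set R : ZMod Bs.length → List P.D := fun j => (B j).map Step.d with hR
  have hRne : ∀ j, R j ≠ [] := fun j => by
    simp only [hR]
    intro h
    exact hBne j (List.map_eq_nil_iff.1 h)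
  have hsteps : ∀ j, (R j).map (fun e => (⟨e, ptb P (B j)⟩ : Step P)) = B j := by
    intro j
    simp only [hR, List.map_map]
    conv_rhs => rw [← List.map_id (B j)]
    apply List.map_congr_left
    intro s hs
    have h1 := hconst _ (hmem j) s hs
    simp only [Function.comp_apply, id_eq]
    rw [← h1]
  have hwalk : ∀ j, P.DWalk (P.inv ((R (j - 1)).getLast (hRne _))) (R j)
      (P.inv ((R j).getLast (hRne _))) := by
    intro j
    obtain ⟨G, hG⟩ := (hBest j).1.2.1
    have hD := (P.Walk_iff.1 hG).1
    obtain ⟨n, hn⟩ : ∃ n, Bs.length = n + 1 := ⟨Bs.length - 1, by omega⟩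
    have e1 : ∃ X, (((List.range Bs.length).map (fun t => B (j + (t : ℕ)))).flatten).map Step.d =
        R j ++ X := by
      have h1 : List.range Bs.length = 0 :: (List.range n).map Nat.succ := by
        rw [hn, List.range_succ_eq_map]
      rw [h1, List.map_cons, List.flatten_cons, List.map_append]
      simp only [Nat.cast_zero, add_zero]
      exact ⟨_, rfl⟩
    have e2 : ∃ Y, (((List.range Bs.length).map (fun t => B (j + (t : ℕ)))).flatten).map Step.d =
        Y ++ R (j - 1) := by
      have h1 : List.range Bs.length = List.range n ++ [n] := by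
        rw [hn, List.range_succ]
      have h2 : ((n : ℕ) : ZMod Bs.length) = -1 := by
        have h3 : ((n + 1 : ℕ) : ZMod Bs.length) = 0 := by
          rw [← hn]
          exact ZMod.natCast_self _
        push_cast at h3
        exact eq_neg_of_add_eq_zero_left h3
      rw [h1, List.map_append, List.flatten_append, List.map_append]
      refine ⟨_, congrArg₂ _ rfl ?_⟩
      simp only [List.map_cons, List.map_nil, List.flatten_cons, List.flatten_nil, List.append_nil,
        h2, hR, sub_eq_add_neg]
    obtain ⟨X, hX⟩ := e1
    obtain ⟨Y, hY⟩ := e2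
    have d1 : P.DWalk G (R j) (P.inv ((R j).getLast (hRne _))) := by
      rw [hX, P.DWalk_append] at hD
      obtain ⟨H, hH, -⟩ := hD
      have h2 := hH
      rw [← List.dropLast_append_getLast (hRne j)] at h2
      exact P.DWalk_congr_right (P.SF_symm (P.DWalk_last h2)) hH
    have d2 : P.SF (P.inv ((R (j - 1)).getLast (hRne _))) G := by
      rw [hY] at hD
      rw [← List.dropLast_append_getLast (hRne (j - 1)), ← List.append_assoc] at hD
      exact P.DWalk_last hD
    exact P.DWalk_congr_left (P.SF_symm d2) d1
  have hon : ∀ j, ∀ e ∈ R j, ptb P (B j) ∈ P.seg e := by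
    intro j e he
    obtain ⟨s, hs, rfl⟩ := List.mem_map.1 he
    obtain ⟨G, hG⟩ := (hBest j).1.2.1
    rw [← hconst _ (hmem j) s hs]
    refine (P.Walk_iff.1 hG).2 s ?_
    rw [List.mem_flatten]
    refine ⟨B j, ?_, hs⟩
    rw [List.mem_map]
    exact ⟨0, List.mem_range.2 (by omega), by simp⟩
  have hney : ∀ j, ptb P (B j) ≠ ptb P (B (j + 1)) := by
    intro j
    have h1 : (j + 1).val = (j.val + 1) % Bs.length := by
      have h2 : ((1 : ℕ) : ZMod Bs.length) = 1 := Nat.cast_one
      rw [← h2, ZMod.val_add, ZMod.val_natCast]
      simp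
    have h3 := hval j
    by_cases h4 : j.val + 1 < Bs.length
    · rw [Nat.mod_eq_of_lt h4] at h1
      simp only [hB]
      rw [h1]
      exact hadj _ h4
    · have h5 : j.val + 1 = Bs.length := by omega
      rw [h5, Nat.mod_self] at h1
      simp only [hB]
      rw [h1, show j.val = Bs.length - 1 by omega]
      exact hcyc
  refine ⟨Bs.length, hnz, ⟨fun j => ptb P (B j), R, fun j => P.inv ((R j).getLast (hRne _)), hRne,
    hwalk, hon, hney⟩, hlen, ?_⟩
  intro j
  have h1 : (⟨fun j => ptb P (B j), R, fun j => P.inv ((R j).getLast (hRne _)), hRne,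
    hwalk, hon, hney⟩ : Cyc P Bs.length).toList j =
      ((List.range Bs.length).map (fun t => B (j + (t : ℕ)))).flatten := by
    unfold Cyc.toList Cyc.steps
    rw [List.flatMap_def]
    congr 1
    apply List.map_congr_left
    intro t _
    exact hsteps _
  rw [h1]
  exact hBest j

/-- [QG-C3c] cyclic form of a shortest track. Rotate `l` so that the last and the first point are
different (`len_pos`), split it into maximal pieces with constant point. -/
theorem Best.exists_cyc {l : List (Step P)} (h : P.Best l) :
    ∃ (m : ℕ) (_ : NeZero m) (C : Cyc P m), 2 ≤ m ∧ C.BestC := by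
  classical
  rcases exists_break P l with ⟨l₁, a, b, l₂, hl, hab⟩ | hall
  · have h1 : P.Best ((b :: l₂) ++ (l₁ ++ [a])) := by
      apply Best.rotate
      rw [List.append_assoc, List.singleton_append, ← hl]
      exact h
    set l' := (b :: l₂) ++ (l₁ ++ [a]) with hl'
    have hl0 : l' ≠ [] := by simp [hl']
    have hhead : l'.head hl0 = b := rfl
    have hlast : l'.getLast hl0 = a := by simp [hl']
    set r : Step P → Step P → Bool := fun s t => decide (s.x = t.x) with hr
    have hBs0 : l'.splitBy r ≠ [] := List.splitBy_ne_nil.2 hl0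
    have hne : ∀ b ∈ l'.splitBy r, b ≠ [] := fun b hb => List.ne_nil_of_mem_splitBy hb
    have hconst : ∀ b ∈ l'.splitBy r, ∀ s ∈ b, s.x = ptb P b := by
      intro b hb
      refine chain_const P b ?_
      have h2 := List.isChain_of_mem_splitBy hb
      simpa [hr] using h2
    have hpt : ∀ b : List (Step P), ∀ hb : b ≠ [], (b.head hb).x = ptb P b := by
      intro b hb
      cases b with
      | nil => exact absurd rfl hb
      | cons s b => rfl
    have hcyc : ptb P ((l'.splitBy r).getD ((l'.splitBy r).length - 1) []) ≠
        ptb P ((l'.splitBy r).getD 0 []) := by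
      have hpos : 0 < (l'.splitBy r).length := List.length_pos_iff.2 hBs0
      rw [List.getD_eq_getElem _ _ (by omega), List.getD_eq_getElem _ _ hpos]
      have h2 := List.getLast_getLast_splitBy r hl0
      have h3 := List.head_head_splitBy r hl0
      have h4 : (l'.splitBy r)[(l'.splitBy r).length - 1] = (l'.splitBy r).getLast hBs0 := by
        rw [List.getLast_eq_getElem]
      have h5 : (l'.splitBy r)[0] = (l'.splitBy r).head hBs0 := by
        rw [List.head_eq_getElem]
      rw [h4, h5]
      have h6 := hconst _ (List.getLast_mem hBs0) _ (List.getLast_mem (hne _ (List.getLast_mem hBs0)))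
      have h7 := hpt _ (hne _ (List.head_mem hBs0))
      rw [← h6, ← h7, h2, h3, hlast, hhead]
      exact hab
    refine exists_cyc_of_blocks P (l'.splitBy r) hne hconst ?_ ?_ hcyc ?_
    · by_contra h2
      have h3 : (l'.splitBy r).length = 1 := by
        have := List.length_pos_iff.2 hBs0
        omega
      rw [h3] at hcyc
      exact hcyc rfl
    · intro i hi
      rw [List.getD_eq_getElem _ _ (by omega), List.getD_eq_getElem _ _ hi]
      have h2 := List.isChain_iff_getElem.1 (List.isChain_getLast_head_splitBy r l') i hi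
      obtain ⟨ha, hb, h3⟩ := h2
      have h4 := hconst _ (List.getElem_mem (by omega : i < (l'.splitBy r).length)) _
        (List.getLast_mem ha)
      rw [← h4, ← hpt _ hb]
      simpa [hr] using h3
    · rw [List.flatten_splitBy]
      exact h1
  · exfalso
    have h1 := Good.len_pos P h.1
    have h2 : P.len l = 0 := by
      unfold len
      refine clen_const (ptb P l) _ ?_
      intro p hp
      obtain ⟨s, hs, rfl⟩ := List.mem_map.1 hp
      exact hall s hs
    rw [h2] at h1
    exact lt_irrefl _ h1

end Poly

end QG6b
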