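import Pool.Agent.Lib_MP_6b5565.CycDefs

/-! [QG-C4a] dictionary between a cyclic curve and its lists -/

namespace QG6b

open EuclideanGeometry

namespace Cyc

variable {P : Poly} {m : ℕ} [NeZero m] (C : Cyc P m)

/-! ### sums and shifts on `ZMod m` -/

private theorem c4a_sum {M : Type*} [AddCommMonoid M] (j : ZMod m) (f : ZMod m → M) :
    ∑ t ∈ Finset.range m, f (j + ((t : ℕ) : ZMod m)) = ∑ k, f k := by
  refine Finset.sum_bij' (fun t _ => j + ((t : ℕ) : ZMod m)) (fun k _ => (k - j).val)
    (fun _ _ => Finset.mem_univ _) (fun k _ => Finset.mem_range.2 (ZMod.val_lt _)) ?_ ?_ ?_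
  · intro t ht
    rw [add_sub_cancel_left]
    exact ZMod.val_cast_of_lt (Finset.mem_range.1 ht)
  · intro k _
    rw [ZMod.natCast_zmod_val]
    ring
  · intro t _
    rfl

private theorem c4a_exists (j k : ZMod m) : ∃ t < m, k = j + ((t : ℕ) : ZMod m) := by
  refine ⟨(k - j).val, ZMod.val_lt _, ?_⟩
  rw [ZMod.natCast_zmod_val]
  ring

/-! ### open polygons -/

private theorem c4a_olen_append (l₁ : List E3) (a : E3) (l₂ : List E3) :
    olen (l₁ ++ a :: l₂) = olen (l₁ ++ [a]) + olen (a :: l₂) := by
  induction l₁ with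
  | nil => simp [olen]
  | cons b l ih =>
    cases l with
    | nil => simp [olen]
    | cons c l =>
      simp only [List.cons_append, olen] at ih ⊢
      rw [ih]
      ring

private theorem c4a_olen_replicate (a b : E3) (r : ℕ) :
    olen (List.replicate (r + 1) a ++ [b]) = dist a b := by
  induction r with
  | zero => simp [olen]
  | succ r ih =>
    rw [List.replicate_succ, List.cons_append]
    rw [List.replicate_succ, List.cons_append] at ih ⊢
    simp only [olen]
    rw [ih, dist_self, zero_add]

private theorem c4a_map_x (j : ZMod m) : (C.steps j).map Step.x = List.replicate (C.R j).length (C.y j) := by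
  unfold steps
  rw [List.map_map]
  exact List.map_const'

private theorem c4a_map_d (j : ZMod m) : (C.steps j).map Step.d = C.R j := by
  unfold steps
  rw [List.map_map]
  exact List.map_id _

private theorem c4a_len (j : ZMod m) (n : ℕ) :
    olen (((List.range n).flatMap (fun t => C.steps (j + ((t : ℕ) : ZMod m)))).map Step.x ++
      [C.y (j + (n : ZMod m))]) =
      ∑ t ∈ Finset.range n, dist (C.y (j + ((t : ℕ) : ZMod m))) (C.y (j + ((t : ℕ) : ZMod m) + 1)) := by
  induction n with
  | zero => simp [olen]
  | succ n ih =>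
    obtain ⟨r, hr⟩ : ∃ r, (C.R (j + (n : ZMod m))).length = r + 1 :=
      Nat.exists_eq_succ_of_ne_zero (fun h => C.R_ne _ (List.length_eq_zero_iff.1 h))
    rw [Finset.sum_range_succ, ← ih, List.range_succ, List.flatMap_append, List.map_append]
    rw [List.flatMap_singleton, c4a_map_x, hr, List.append_assoc, List.replicate_succ,
      List.cons_append, c4a_olen_append, ← List.cons_append, ← List.replicate_succ,
      c4a_olen_replicate]
    push_cast
    rw [add_assoc]

/-- [QG-C4a] dictionary between `C` and its lists -/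
theorem len_toList (j : ZMod m) : P.len (C.toList j) = C.len := by
  have h := c4a_len C j m
  rw [c4a_sum j (fun k => dist (C.y k) (C.y (k + 1))), ZMod.natCast_self, add_zero] at h
  unfold Poly.len Cyc.len
  rw [← h]
  obtain ⟨n, hn⟩ : ∃ n, m = n + 1 := Nat.exists_eq_succ_of_ne_zero (NeZero.ne m)
  obtain ⟨r, hr⟩ : ∃ r, (C.R j).length = r + 1 :=
    Nat.exists_eq_succ_of_ne_zero (fun h => C.R_ne _ (List.length_eq_zero_iff.1 h))
  have hl : ∃ l, (C.toList j).map Step.x = C.y j :: l := by
    unfold toList
    have h1 : List.range m = 0 :: (List.range n).map Nat.succ := by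
      rw [hn]
      exact List.range_succ_eq_map
    rw [h1, List.flatMap_cons, List.map_append, Nat.cast_zero, add_zero, c4a_map_x, hr,
      List.replicate_succ, List.cons_append]
    exact ⟨_, rfl⟩
  obtain ⟨l, hl⟩ := hl
  have h2 : ((List.range m).flatMap (fun t => C.steps (j + ((t : ℕ) : ZMod m)))).map Step.x =
      C.y j :: l := hl
  rw [hl, h2]
  rfl

theorem par_toList (j : ZMod m) : P.par ((C.toList j).map Step.d) = C.par := by
  funext e
  have h : ∀ n : ℕ, P.par (((List.range n).flatMap (fun t => C.steps (j + ((t : ℕ) : ZMod m)))).map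
      Step.d) e = ∑ t ∈ Finset.range n, P.par (C.R (j + ((t : ℕ) : ZMod m))) e := by
    intro n
    induction n with
    | zero => simp [P.par_nil]
    | succ n ih =>
      rw [List.range_succ, List.flatMap_append, List.map_append, P.par_append, ih,
        Finset.sum_range_succ, List.flatMap_singleton, c4a_map_d]
  unfold toList Cyc.par
  rw [h, c4a_sum j (fun k => P.par (C.R k) e)]

theorem vis_toList (j : ZMod m) : P.vis ((C.toList j).map Step.x) = C.vis := by
  classical
  ext v
  unfold Poly.vis Cyc.vis
  simp only [Finset.mem_filter, Finset.mem_univ, true_and]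
  constructor
  · intro h
    obtain ⟨s, hs, hsx⟩ := List.mem_map.1 h
    unfold toList at hs
    obtain ⟨t, -, ht⟩ := List.mem_flatMap.1 hs
    unfold steps at ht
    obtain ⟨e, -, he⟩ := List.mem_map.1 ht
    refine ⟨j + ((t : ℕ) : ZMod m), ?_⟩
    rw [← hsx, ← he]
  · rintro ⟨k, hk⟩
    obtain ⟨t, ht, rfl⟩ := c4a_exists j k
    obtain ⟨e, he⟩ := List.exists_mem_of_ne_nil _ (C.R_ne (j + ((t : ℕ) : ZMod m)))
    refine List.mem_map.2 ⟨⟨e, C.y (j + ((t : ℕ) : ZMod m))⟩, ?_, hk⟩
    unfold toList
    exact List.mem_flatMap.2 ⟨t, List.mem_range.2 ht, List.mem_map.2 ⟨e, he, rfl⟩⟩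

private theorem c4a_walk_steps (k : ZMod m) : P.Walk (C.F (k - 1)) (C.steps k) (C.F k) := by
  refine P.Walk_iff.2 ⟨?_, ?_⟩
  · rw [c4a_map_d]
    exact C.walk k
  · intro s hs
    unfold steps at hs
    obtain ⟨e, he, rfl⟩ := List.mem_map.1 hs
    exact C.on k e he

private theorem c4a_walk (j : ZMod m) (n : ℕ) :
    P.Walk (C.F (j - 1)) ((List.range n).flatMap (fun t => C.steps (j + ((t : ℕ) : ZMod m))))
      (C.F (j + (n : ZMod m) - 1)) := by
  induction n with
  | zero =>
    rw [Nat.cast_zero, add_zero]
    exact P.SF_refl _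
  | succ n ih =>
    rw [List.range_succ, List.flatMap_append, List.flatMap_singleton]
    refine P.Walk_append.2 ⟨_, ih, ?_⟩
    have h := c4a_walk_steps C (j + (n : ZMod m))
    have e : j + ((n + 1 : ℕ) : ZMod m) - 1 = j + (n : ZMod m) := by
      push_cast
      ring
    rw [e]
    exact h

theorem walk_toList (j : ZMod m) : P.Walk (C.F (j - 1)) (C.toList j) (C.F (j - 1)) := by
  have h := c4a_walk C j m
  rw [ZMod.natCast_self, add_zero] at h
  exact h

theorem toList_split (j : ZMod m) (a b : ℕ) (h : a + b = m) :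
    C.toList j = (List.range a).flatMap (fun t => C.steps (j + ((t : ℕ) : ZMod m))) ++
      (List.range b).flatMap (fun t => C.steps (j + (a : ZMod m) + ((t : ℕ) : ZMod m))) := by
  unfold toList
  have h1 : List.range m = List.range a ++ (List.range b).map (a + ·) := by
    rw [← h]
    exact List.range_add
  rw [h1, List.flatMap_append, List.flatMap_map]
  congr 1
  congr 1
  funext t
  congr 1
  push_cast
  ring

theorem mem_vis {v : P.V} : v ∈ C.vis ↔ ∃ j, C.y j = P.pos v := by
  simp [vis]

variable {C}

end Cyc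

end QG6b
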