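import Pool.Agent.Lib_MP_6b5565.C4a

/-! [QG-C4b] -/

namespace QG6b

open EuclideanGeometry

namespace Cyc

variable {P : Poly} {m : ℕ} [NeZero m] (C : Cyc P m)

omit [NeZero m] in
private theorem c4b_steps (i : ZMod m) : P.Walk (C.F (i - 1)) (C.steps i) (C.F i) := by
  rw [P.Walk_iff]
  constructor
  · have h : (C.steps i).map Step.d = C.R i := by
      unfold steps
      rw [List.map_map]
      exact List.map_id _
    rw [h]
    exact C.walk i
  · intro s hs
    unfold steps at hs
    obtain ⟨e, he, rfl⟩ := List.mem_map.1 hs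
    exact C.on i e he

omit [NeZero m] in
private theorem c4b_walk (k : ZMod m) (n : ℕ) :
    P.Walk (C.F (k - 1)) ((List.range n).flatMap (fun t => C.steps (k + ((t : ℕ) : ZMod m))))
      (C.F (k - 1 + (n : ZMod m))) := by
  induction n with
  | zero =>
    rw [Nat.cast_zero, add_zero]
    exact P.SF_refl _
  | succ n ih =>
    rw [List.range_succ, List.flatMap_append, List.flatMap_singleton, P.Walk_append]
    refine ⟨_, ih, ?_⟩
    have h := C.c4b_steps (k + (n : ZMod m))
    have e1 : k + (n : ZMod m) - 1 = k - 1 + (n : ZMod m) := by ring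
    have e2 : k - 1 + ((n + 1 : ℕ) : ZMod m) = k + (n : ZMod m) := by push_cast; ring
    rw [e1] at h
    rw [e2]
    exact h

private theorem c4b_cast : ((m - 1 : ℕ) : ZMod m) = -1 := by
  have h : 1 ≤ m := NeZero.one_le
  rw [Nat.cast_sub h, ZMod.natCast_self]
  push_cast
  ring

/-- [QG-C4b] replace the node `j` by an arbitrary walk `s` between its two faces -/
theorem replace_node (j : ZMod m) (s : List (Step P)) (hs : P.Walk (C.F (j - 1)) s (C.F j)) :
    ∃ F, P.Walk F (s ++ (List.range (m - 1)).flatMap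
      (fun t => C.steps (j + 1 + ((t : ℕ) : ZMod m)))) F := by
  refine ⟨C.F (j - 1), P.Walk_append.2 ⟨C.F j, hs, ?_⟩⟩
  have h := C.c4b_walk (j + 1) (m - 1)
  have e1 : j + 1 - 1 = j := by ring
  rw [c4b_cast, e1, ← sub_eq_add_neg] at h
  exact h

omit [NeZero m] in
private theorem c4b_rev_steps (i : ZMod m) :
    C.rev.steps i = ((C.steps (-i)).map P.flip).reverse := by
  show (((C.R (-i)).map P.inv).reverse).map (fun e => (⟨e, C.y (-i)⟩ : Step P)) = _
  unfold steps
  rw [List.map_reverse, List.map_map, List.map_map]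
  rfl

private theorem c4b_rev_toList (j : ZMod m) :
    C.rev.toList j = ((C.toList (1 - j)).map P.flip).reverse := by
  unfold toList
  rw [List.map_flatMap, List.reverse_flatMap]
  have h1 : (List.range m).reverse = (List.range m).map (fun t => m - 1 - t) := by
    apply List.ext_getElem
    · simp
    · intro i h1 h2
      simp
  rw [h1, List.flatMap_map]
  have h2 : ∀ t ∈ List.range m, C.rev.steps (j + ((t : ℕ) : ZMod m)) =
      ((C.steps (1 - j + ((m - 1 - t : ℕ) : ZMod m))).map P.flip).reverse := by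
    intro t ht
    rw [List.mem_range] at ht
    rw [C.c4b_rev_steps]
    have e : -(j + ((t : ℕ) : ZMod m)) = 1 - j + ((m - 1 - t : ℕ) : ZMod m) := by
      rw [Nat.cast_sub (by omega), c4b_cast]
      ring
    rw [e]
  exact List.flatMap_congr h2

theorem rev_BestC (h : C.BestC) : C.rev.BestC := by
  intro j
  rw [C.c4b_rev_toList j]
  exact Poly.Best.reverse P (h (1 - j))

variable {C}

theorem BestC.good (h : C.BestC) (j : ZMod m) : P.Good (C.toList j) := (h j).1

theorem BestC.bal (h : C.BestC) : P.Bal C.par C.vis := by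
  have := (h 0).1.2.2
  rwa [C.par_toList, C.vis_toList] at this

theorem BestC.min (h : C.BestC) : ∀ l, P.Good l → C.len ≤ P.len l ∧
    (P.len l = C.len → C.vis.card ≤ (P.vis (l.map Step.x)).card) := by
  intro l hl
  obtain ⟨h1, h2⟩ := (h 0).2 l hl
  rw [C.len_toList 0] at h1 h2
  refine ⟨h1, fun he => ?_⟩
  have h3 := h2 he
  unfold Poly.mu at h3
  rw [Prod.Lex.le_iff] at h3
  rw [C.vis_toList 0] at h3
  rcases h3 with h3 | h3
  · exact le_of_lt h3
  · exact le_of_eq h3.1

end Cyc

end QG6b
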