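import Pool.Agent.Lib_MP_6b5565.C4b
import Pool.Agent.Lib_MP_6b5565.C3b
import Pool.Agent.Lib_MP_6b5565.Tri

/-! [QG-C5a] -/

namespace QG6b

open EuclideanGeometry

namespace Cyc

variable {P : Poly} {m : ℕ} [NeZero m] (C : Cyc P m)

variable {C}

/-- [QG-C5a] at a non-vertex node the crossed half-edges are `d, inv d, d, ...` (`edge_unique`,
`DWalk`), so by `Best.no_backtrack` there is exactly one -/
theorem BestC.single (h : C.BestC) (h2 : 2 ≤ m) (j : ZMod m) (hn : P.NV (C.y j)) :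
    ∃ d, C.R j = [d] ∧ C.y j ∈ P.oseg d := by
  have hw := C.walk j
  have hon := C.on j
  rcases hR : C.R j with _ | ⟨d, t⟩
  · exact absurd hR (C.R_ne j)
  have hd : C.y j ∈ P.oseg d := P.oseg_of_seg (hon d (by rw [hR]; exact List.mem_cons_self)) hn
  refine ⟨d, ?_, hd⟩
  rcases t with _ | ⟨d', t'⟩
  · rfl
  exfalso
  have hd' : d' = P.inv d := by
    have h1 : C.y j ∈ P.seg d' := hon d' (by rw [hR]; simp)
    rcases P.edge_unique hd h1 with h3 | h3
    · exfalso
      rw [hR] at hw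
      have h4 : P.SF (P.inv d) d' := hw.2.1
      rw [h3] at h4
      exact P.not_SF_inv d (P.SF_symm h4)
    · exact h3
  have hlist : ∃ l, C.toList j = (⟨d, C.y j⟩ : Step P) :: ⟨d', C.y j⟩ :: l := by
    obtain ⟨n, rfl⟩ : ∃ n, m = n + 1 := ⟨m - 1, by omega⟩
    refine ⟨t'.map (fun e => (⟨e, C.y j⟩ : Step P)) ++
      ((List.range n).map Nat.succ).flatMap (fun t => C.steps (j + ((t : ℕ) : ZMod (n + 1)))), ?_⟩
    unfold toList
    rw [List.range_succ_eq_map, List.flatMap_cons]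
    have h5 : C.steps (j + ((0 : ℕ) : ZMod (n + 1))) =
        (⟨d, C.y j⟩ : Step P) :: ⟨d', C.y j⟩ :: t'.map (fun e => (⟨e, C.y j⟩ : Step P)) := by
      rw [Nat.cast_zero, add_zero]
      unfold steps
      rw [hR]
      rfl
    rw [h5]
    rfl
  obtain ⟨l, hl⟩ := hlist
  have hb := h j
  rw [hl] at hb
  exact Poly.Best.no_backtrack P hb hd' hn hn

end Cyc

end QG6b
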