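import Pool.Agent.Lib_MP_6b5565.C4b
import Pool.Agent.Lib_MP_6b5565.C5a
import Pool.Agent.Lib_MP_6b5565_geo.Plane

/-! [QG-C5b] -/

namespace QG6b

open EuclideanGeometry Filter Topology

namespace Cyc

variable {P : Poly} {m : ℕ} [NeZero m] (C : Cyc P m)

/-- move the point of one node along its edge -/
private noncomputable def moveNode (j : ZMod m) (d : P.D) (hd : C.R j = [d]) (z : E3) (hz : z ∈ P.seg d)
    (h1 : C.y (j - 1) ≠ z) (h2 : z ≠ C.y (j + 1)) (hj : j + 1 ≠ j) : Cyc P m where
  y := Function.update C.y j z
  R := C.R
  F := C.F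
  R_ne := C.R_ne
  walk := C.walk
  on := by
    intro i e he
    by_cases hi : i = j
    · subst hi
      rw [hd, List.mem_singleton] at he
      rw [Function.update_self, he]
      exact hz
    · rw [Function.update_of_ne hi]
      exact C.on i e he
  ne := by
    intro i
    by_cases hi : i = j
    · subst hi
      rw [Function.update_self, Function.update_of_ne hj]
      exact h2
    · rw [Function.update_of_ne hi]
      by_cases hi2 : i + 1 = j
      · rw [hi2, Function.update_self]
        have : i = j - 1 := by rw [← hi2]; ring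
        rw [this]
        exact h1
      · rw [Function.update_of_ne hi2]
        exact C.ne i

variable {C}

/-- [QG-C5b] straightness at a non-vertex node: the point minimises
`x ↦ dist (y (j-1)) x + dist x (y (j+1))` on the open edge (moving it does not change parity, and
visited vertices), so the derivative along the edge is zero: the cosines of the two angles with
`B d` are opposite. -/
theorem BestC.straight (h : C.BestC) (h2 : 2 ≤ m) (j : ZMod m) (d : P.D) (hn : P.NV (C.y j))
    (hd : C.R j = [d]) :
    ∠ (C.y (j - 1)) (C.y j) (P.B d) + ∠ (P.B d) (C.y j) (C.y (j + 1)) = Real.pi := by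
  have hj : j + 1 ≠ j := by
    have : Fact (1 < m) := ⟨h2⟩
    have : Nontrivial (ZMod m) := ZMod.nontrivial m
    intro h
    exact one_ne_zero (add_eq_left.mp h)
  have hj' : j - 1 ≠ j := by
    intro h
    apply hj
    calc j + 1 = (j - 1) + 1 := by rw [h]
      _ = j := by ring
  have hne1 : C.y (j - 1) ≠ C.y j := by
    have := C.ne (j - 1)
    rwa [sub_add_cancel] at this
  have hne2 : C.y j ≠ C.y (j + 1) := C.ne j
  have hos : C.y j ∈ P.oseg d := P.oseg_of_seg (C.on j d (by rw [hd]; exact List.mem_singleton_self d)) hn
  have hos' := hos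
  unfold Poly.oseg at hos'
  rw [openSegment_eq_image_lineMap] at hos'
  obtain ⟨s, ⟨hs0, hs1⟩, hs⟩ := hos'
  set u : E3 := P.B d - P.A d with hu
  have hu0 : u ≠ 0 := sub_ne_zero.2 (P.A_ne_B d).symm
  have hyt : ∀ t : ℝ, C.y j + t • u = AffineMap.lineMap (P.A d) (P.B d) (s + t) := by
    intro t
    rw [← hs, AffineMap.lineMap_apply_module, AffineMap.lineMap_apply_module, hu]
    module
  have hcont : Continuous (fun t : ℝ => C.y j + t • u) := by fun_prop
  have h0 : C.y j + (0 : ℝ) • u = C.y j := by simp
  -- minimum
  have hmin : IsLocalMin (fun t : ℝ => dist (C.y (j - 1)) (C.y j + t • u) + dist (C.y j + t • u) (C.y (j + 1))) 0 := by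
    have e1 : ∀ᶠ t : ℝ in 𝓝 0, C.y j + t • u ∈ P.oseg d := by
      have ha : ∀ᶠ t : ℝ in 𝓝 0, 0 < s + t := by
        have : Tendsto (fun t : ℝ => s + t) (𝓝 0) (𝓝 (s + 0)) := (tendsto_const_nhds).add tendsto_id
        exact this.eventually (lt_mem_nhds (by linarith))
      have hb : ∀ᶠ t : ℝ in 𝓝 0, s + t < 1 := by
        have : Tendsto (fun t : ℝ => s + t) (𝓝 0) (𝓝 (s + 0)) := (tendsto_const_nhds).add tendsto_id
        exact this.eventually (gt_mem_nhds (by linarith))
      filter_upwards [ha, hb] with t hta htb
      unfold Poly.oseg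
      rw [openSegment_eq_image_lineMap, hyt]
      exact ⟨s + t, ⟨hta, htb⟩, rfl⟩
    have e2 : ∀ᶠ t : ℝ in 𝓝 0, C.y j + t • u ≠ C.y (j - 1) := by
      refine hcont.continuousAt.eventually_ne ?_
      rw [h0]
      exact hne1.symm
    have e3 : ∀ᶠ t : ℝ in 𝓝 0, C.y j + t • u ≠ C.y (j + 1) := by
      refine hcont.continuousAt.eventually_ne ?_
      rw [h0]
      exact hne2
    filter_upwards [e1, e2, e3] with t ht1 ht2 ht3
    set z : E3 := C.y j + t • u with hz
    have hzs : z ∈ P.seg d := openSegment_subset_segment ℝ _ _ ht1
    set C' : Cyc P m := C.moveNode j d hd z hzs ht2.symm ht3 hj with hC'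
    have hy' : C'.y = Function.update C.y j z := rfl
    have hvis : C'.vis = C.vis := by
      ext v
      rw [C'.mem_vis, C.mem_vis]
      constructor
      · rintro ⟨i, hi⟩
        rw [hy'] at hi
        by_cases hij : i = j
        · subst hij
          rw [Function.update_self] at hi
          exact absurd hi (P.NV_of_oseg ht1 v)
        · rw [Function.update_of_ne hij] at hi
          exact ⟨i, hi⟩
      · rintro ⟨i, hi⟩
        by_cases hij : i = j
        · subst hij
          exact absurd hi (hn v)
        · exact ⟨i, by rw [hy', Function.update_of_ne hij]; exact hi⟩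
    have hgood : P.Good (C'.toList j) := by
      refine ⟨?_, ⟨_, C'.walk_toList j⟩, ?_⟩
      · intro he
        have hl : (C'.toList j) ≠ [] := by
          unfold toList
          intro h0
          rw [List.flatMap_eq_nil_iff] at h0
          have := h0 0 (List.mem_range.2 (Nat.pos_of_ne_zero (NeZero.ne m)))
          unfold steps at this
          rw [List.map_eq_nil_iff] at this
          exact C'.R_ne _ this
        exact hl he
      · rw [C'.par_toList, C'.vis_toList, hvis]
        exact h.bal
    have hlen := (h.min _ hgood).1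
    rw [C'.len_toList] at hlen
    -- compare the lengths
    have hdiff : C'.len - C.len = ∑ i ∈ ({j - 1, j} : Finset (ZMod m)),
        (dist (C'.y i) (C'.y (i + 1)) - dist (C.y i) (C.y (i + 1))) := by
      unfold Cyc.len
      rw [← Finset.sum_sub_distrib]
      symm
      refine Finset.sum_subset (Finset.subset_univ _) ?_
      intro i _ hi
      rw [Finset.mem_insert, Finset.mem_singleton, not_or] at hi
      have hi1 : i + 1 ≠ j := by
        intro h
        apply hi.1
        rw [← h]
        ring
      rw [hy', Function.update_of_ne hi.2, Function.update_of_ne hi1, sub_self]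
    rw [Finset.sum_pair hj', hy', sub_add_cancel, Function.update_of_ne hj', Function.update_self,
      Function.update_of_ne hj] at hdiff
    simp only [zero_smul, add_zero]
    linarith
  have key := Pool.Agent.QGeo.straight hne1 hne2.symm hu0 hmin
  have hB : P.B d - C.y j = (1 - s) • u := by
    rw [← hs, AffineMap.lineMap_apply_module, hu]
    module
  have hs1' : 0 < 1 - s := by linarith
  have h3 : ∠ (C.y (j - 1)) (C.y j) (P.B d) = InnerProductGeometry.angle u (C.y (j - 1) - C.y j) := by
    rw [EuclideanGeometry.angle, vsub_eq_sub, vsub_eq_sub, hB,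
      InnerProductGeometry.angle_smul_right_of_pos _ _ hs1', InnerProductGeometry.angle_comm]
  have h4 : ∠ (P.B d) (C.y j) (C.y (j + 1)) = InnerProductGeometry.angle u (C.y (j + 1) - C.y j) := by
    rw [EuclideanGeometry.angle, vsub_eq_sub, vsub_eq_sub, hB,
      InnerProductGeometry.angle_smul_left_of_pos _ _ hs1']
  rw [h3, h4]
  exact key

end Cyc

end QG6b
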