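import Pool.Agent.Lib_MP_6b5565.C5a
import Pool.Agent.Lib_MP_6b5565.C5b

/-! [QG-C5c] -/

namespace QG6b

open EuclideanGeometry

namespace Cyc

variable {P : Poly} {m : ℕ} [NeZero m] (C : Cyc P m)

variable {C}

omit [NeZero m] in
private theorem walk_one {j : ZMod m} {d : P.D} (hd : C.R j = [d]) :
    P.SF (C.F (j - 1)) d ∧ P.SF (P.inv d) (C.F j) := by
  have h := C.walk j
  rw [hd] at h
  exact ⟨h.1, h.2⟩

omit [NeZero m] in
private theorem mem_face_out (j : ZMod m) : C.y j ∈ P.tri (C.F j) := by
  have h := C.walk j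
  have hne := C.R_ne j
  have hon := C.on j
  obtain ⟨l, e, hl⟩ : ∃ l e, C.R j = l ++ [e] := by
    rcases List.eq_nil_or_concat (C.R j) with h0 | ⟨l, e, h1⟩
    · exact absurd h0 hne
    · exact ⟨l, e, by simpa using h1⟩
  rw [hl] at h
  have h1 := P.DWalk_last h
  have h2 : C.y j ∈ P.seg (P.inv e) := by
    rw [P.seg_inv]
    exact hon e (by rw [hl]; simp)
  exact P.seg_sub_tri' (P.SF_symm h1) h2

/-- the track starting at `j`, first node split off -/
private theorem toList_one (h2 : 2 ≤ m) (j : ZMod m) :
    C.toList j = C.steps j ++ (List.range (m - 1)).flatMap (fun t => C.steps (j + 1 + ((t : ℕ) : ZMod m))) := by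
  rw [C.toList_split j 1 (m - 1) (by omega)]
  simp

private theorem toList_two (h2 : 2 ≤ m) (j : ZMod m) :
    C.toList j = C.steps j ++ (C.steps (j + 1) ++
      (List.range (m - 2)).flatMap (fun t => C.steps (j + 2 + ((t : ℕ) : ZMod m)))) := by
  rw [C.toList_split j 2 (m - 2) (by omega)]
  simp [List.range_succ]

/-- no backtracking -/
private theorem no_bt (h : C.BestC) (h2 : 2 ≤ m) (j : ZMod m) (d d' : P.D) (hR : C.R j = [d])
    (hR' : C.R (j + 1) = [d']) (n1 : P.NV (C.y j)) (n2 : P.NV (C.y (j + 1))) (hs : C.y (j + 1) ∈ P.seg d) :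
    False := by
  obtain ⟨e, he, heo⟩ := h.single h2 (j + 1) n2
  rw [hR'] at he
  have hee : d' = e := by simpa using he
  subst hee
  have w1 := (walk_one hR).2
  have w2 := (walk_one hR').1
  rw [add_sub_cancel_right] at w2
  have w3 : P.SF (P.inv d) d' := P.SF_trans w1 w2
  have hdd : d' = P.inv d := by
    rcases P.edge_unique heo hs with h3 | h3
    · exfalso
      subst h3
      exact P.not_SF_inv d (P.SF_symm w3)
    · rw [h3, P.inv_inv]
  subst hdd
  have hb := h j
  rw [toList_two h2 j] at hb
  unfold steps at hb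
  rw [hR, hR'] at hb
  simp only [List.map_cons, List.map_nil, List.cons_append, List.nil_append] at hb
  exact Poly.Best.no_backtrack P hb rfl n1 n2

omit [NeZero m] in
private theorem steps_x (i : ZMod m) : ∀ x ∈ (C.steps i).map Step.x, x = C.y i := by
  intro x hx
  simp only [steps, List.map_map, List.mem_map, Function.comp_apply] at hx
  obtain ⟨e, -, rfl⟩ := hx
  rfl

omit [NeZero m] in
private theorem steps_x_ne (i : ZMod m) : (C.steps i).map Step.x ≠ [] := by
  simp [steps, C.R_ne]

/-- the next node after a non-vertex node is not on its edge -/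
private theorem main (h : C.BestC) (h2 : 2 ≤ m) (j : ZMod m) (d : P.D) (hn : P.NV (C.y j))
    (hd : C.R j = [d]) : C.y (j + 1) ∉ P.seg d := by
  intro hs
  by_cases hn1 : P.NV (C.y (j + 1))
  · obtain ⟨d', hd', -⟩ := h.single h2 (j + 1) hn1
    exact no_bt h h2 j d d' hd hd' hn hn1 hs
  -- `y (j+1)` is a vertex
  have hv : ∃ v, C.y (j + 1) = P.pos v := by
    unfold Poly.NV at hn1
    push Not at hn1
    exact hn1
  obtain ⟨v, hv⟩ := hv
  have ho : C.y j ∈ P.oseg d := P.oseg_of_seg (C.on j d (by rw [hd]; simp)) hn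
  have hne1 : C.y (j + 1) ≠ C.y j := (C.ne j).symm
  have hne0 : C.y (j - 1) ≠ C.y j := by
    have := C.ne (j - 1)
    rwa [sub_add_cancel] at this
  -- the angle at `y j` is `π`
  have hA : P.A d ≠ C.y j := fun h0 => hn (P.tail d) h0.symm
  have hB : P.B d ≠ C.y j := fun h0 => hn (P.head d) h0.symm
  have hst := h.straight h2 j d hn hd
  have hang : ∠ (C.y (j - 1)) (C.y j) (C.y (j + 1)) = Real.pi := by
    rcases P.eq_of_pos_mem_seg (hv ▸ hs) with h3 | h3
    · have h4 : C.y (j + 1) = P.A d := by rw [hv, h3]; rfl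
      have h5 := P.angle_oseg ho hB
      rw [angle_self_of_ne hB, add_zero] at h5
      rw [h4, h5] at hst
      have h6 := P.angle_oseg ho hne0
      rw [h4]
      linarith
    · have h4 : C.y (j + 1) = P.B d := by rw [hv, h3]; rfl
      rw [h4, angle_self_of_ne hB, add_zero] at hst
      rw [h4]
      exact hst
  have hdist : dist (C.y (j - 1)) (C.y j) + dist (C.y j) (C.y (j + 1)) = dist (C.y (j - 1)) (C.y (j + 1)) :=
    dist_add_dist_eq_iff.2 (angle_eq_pi_iff_sbtw.1 hang).wbtw
  -- the modified track
  obtain ⟨w1, w2⟩ := walk_one hd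
  set rest : List (Step P) := (List.range (m - 1)).flatMap (fun t => C.steps (j + 1 + ((t : ℕ) : ZMod m)))
    with hrest
  have hl : C.toList j = ⟨d, C.y j⟩ :: rest := by
    rw [toList_one h2 j]
    unfold steps
    rw [hd]
    simp [hrest, steps]
  have hwalk : ∃ F, P.Walk F (⟨d, C.y (j + 1)⟩ :: rest) F :=
    C.replace_node j [⟨d, C.y (j + 1)⟩] ⟨w1, hs, w2⟩
  -- head and last point of `rest`
  have hr1 : ∃ r, rest = C.steps (j + 1) ++ r := by
    refine ⟨(List.range (m - 2)).flatMap (fun t => C.steps (j + 2 + ((t : ℕ) : ZMod m))), ?_⟩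
    have h5 := toList_two (C := C) h2 j
    rw [toList_one h2 j] at h5
    exact List.append_cancel_left h5
  have hr2 : ∃ r, rest = r ++ C.steps (j - 1) := by
    obtain ⟨n, rfl⟩ : ∃ n, m = n + 2 := ⟨m - 2, by omega⟩
    refine ⟨(List.range n).flatMap (fun t => C.steps (j + 1 + ((t : ℕ) : ZMod (n + 2)))), ?_⟩
    rw [hrest, show n + 2 - 1 = n + 1 by omega, List.range_succ, List.flatMap_append]
    congr 1
    have h6 : j + 1 + ((n : ℕ) : ZMod (n + 2)) = j - 1 := by
      have h7 : ((n + 2 : ℕ) : ZMod (n + 2)) = 0 := ZMod.natCast_self _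
      push_cast at h7
      linear_combination h7
    simp [h6]
  have hrne : rest.map Step.x ≠ [] := by
    obtain ⟨r, hr⟩ := hr1
    rw [hr, List.map_append]
    exact List.append_ne_nil_of_left_ne_nil (steps_x_ne _) _
  have hhead : (rest.map Step.x).head hrne = C.y (j + 1) := by
    obtain ⟨r, hr⟩ := hr1
    have h7 : rest.map Step.x = (C.steps (j + 1)).map Step.x ++ r.map Step.x := by
      rw [hr, List.map_append]
    have h8 : (rest.map Step.x).head hrne = ((C.steps (j + 1)).map Step.x).head (steps_x_ne _) := by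
      simp only [h7]
      exact List.head_append_of_ne_nil _
    rw [h8]
    exact steps_x _ _ (List.head_mem _)
  have hlast : (rest.map Step.x).getLast hrne = C.y (j - 1) := by
    obtain ⟨r, hr⟩ := hr2
    have h7 : rest.map Step.x = r.map Step.x ++ (C.steps (j - 1)).map Step.x := by
      rw [hr, List.map_append]
    have h8 : (rest.map Step.x).getLast hrne = ((C.steps (j - 1)).map Step.x).getLast (steps_x_ne _) := by
      simp only [h7]
      exact List.getLast_append_of_ne_nil _ (steps_x_ne _)
    rw [h8]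
    exact steps_x _ _ (List.getLast_mem _)
  have hbest := h j
  rw [hl] at hbest
  -- visited vertices
  have hmem : P.pos v ∈ rest.map Step.x := by
    rw [← hv, ← hhead]
    exact List.head_mem _
  have hvis : P.vis ((⟨d, C.y (j + 1)⟩ :: rest : List (Step P)).map Step.x) =
      P.vis ((⟨d, C.y j⟩ :: rest : List (Step P)).map Step.x) := by
    ext u
    rw [P.mem_vis, P.mem_vis, List.map_cons, List.map_cons, List.mem_cons, List.mem_cons]
    constructor
    · rintro (h9 | h9)
      · right
        have : P.pos u = C.y (j + 1) := h9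
        rw [this, hv]
        exact hmem
      · exact Or.inr h9
    · rintro (h9 | h9)
      · exact absurd h9.symm (hn u)
      · exact Or.inr h9
  have hgood : P.Good (⟨d, C.y (j + 1)⟩ :: rest) := by
    refine ⟨by simp, hwalk, ?_⟩
    have h10 := hbest.1.2.2
    rw [hvis]
    exact h10
  have hlen : P.len (⟨d, C.y (j + 1)⟩ :: rest) = P.len (⟨d, C.y j⟩ :: rest) := by
    unfold Poly.len
    rw [List.map_cons, List.map_cons]
    have e1 := clen_append_ne [C.y (j + 1)] (rest.map Step.x) (by simp) hrne
    have e2 := clen_append_ne [C.y j] (rest.map Step.x) (by simp) hrne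
    rw [hhead, hlast] at e1 e2
    simp only [List.getLast_singleton, List.head_cons, List.singleton_append, dist_self, olen] at e1 e2
    change clen (C.y (j + 1) :: rest.map Step.x) = clen (C.y j :: rest.map Step.x)
    rw [e1, e2]
    linarith
  have hmu := (hbest.2 _ hgood).2 hlen
  apply absurd hmu
  rw [not_le]
  unfold Poly.mu
  rw [hvis]
  refine Prod.Lex.toLex_lt_toLex.2 (Or.inr ⟨rfl, Prod.Lex.toLex_lt_toLex.2 (Or.inr ⟨by simp, ?_⟩)⟩)
  rw [List.countP_cons, List.countP_cons]
  simp [hn, hn1]

/-- [QG-C5c] the neighbours of a non-vertex node are not on its edge. If `y (j-1)` is on the edge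
of `d`: if it is no vertex then (`BestC.single`, `edge_unique`) nodes `j-1`, `j` are a backtracking.
If it is an end of the edge, straightness puts `y (j+1)` on the edge on the other side, and it is
the other end (else backtracking); moving `y j` to this end gives a balanced track of the same
length with the same visited vertices, the same number of steps and one non-vertex step less. -/
theorem BestC.along (h : C.BestC) (h2 : 2 ≤ m) (j : ZMod m) (d : P.D) (hn : P.NV (C.y j))
    (hd : C.R j = [d]) : C.y (j - 1) ∉ P.seg d ∧ C.y (j + 1) ∉ P.seg d := by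
  refine ⟨?_, main h h2 j d hn hd⟩
  have hr := C.rev_BestC h
  have e1 : C.rev.y (-j) = C.y j := by
    change C.y (- -j) = C.y j
    rw [neg_neg]
  have e2 : C.rev.y (-j + 1) = C.y (j - 1) := by
    change C.y (-(-j + 1)) = C.y (j - 1)
    congr 1
    ring
  have e3 : C.rev.R (-j) = [P.inv d] := by
    change ((C.R (- -j)).map P.inv).reverse = _
    rw [neg_neg, hd]
    rfl
  have h3 := main hr h2 (-j) (P.inv d) (by rw [e1]; exact hn) e3
  rwa [e2, P.seg_inv] at h3

end Cyc

end QG6b
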