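import Pool.Agent.Lib_MP_6b5565.C4b
import Pool.Agent.Lib_MP_6b5565.Push
import Pool.Agent.Lib_MP_6b5565.Fan

/-! [QG-C6a] -/

namespace QG6b

open EuclideanGeometry

namespace Cyc

variable {P : Poly} {m : ℕ} [NeZero m] (C : Cyc P m)

variable {C}

private theorem c6a_clen (u v v' v'' : List E3) (p q : E3) (h1 : v = q :: v') (h2 : v = v'' ++ [p]) :
    clen (u ++ v) = olen (p :: (u ++ [q])) + olen v := by
  rw [clen_rotate]
  have h3 : clen (v ++ u) = olen ((v ++ u) ++ [q]) := by
    rw [h1]
    rfl
  rw [h3]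
  have h4 : (v ++ u) ++ [q] = v'' ++ p :: (u ++ [q]) := by
    rw [h2]
    simp
  rw [h4, olen_append, ← h2, add_comm]

private theorem c6a_const {α : Type} (z q : E3) : ∀ (L : List α), L ≠ [] → ∀ p : E3,
    olen (p :: (L.map (fun _ => z) ++ [q])) = dist p z + dist z q
  | [], h, _ => absurd rfl h
  | [_], _, p => by
    show dist p z + (dist z q + 0) = _
    rw [add_zero]
  | _ :: b :: L, _, p => by
    have ih := c6a_const z q (b :: L) (by simp) z
    rw [List.map_cons, List.cons_append, olen_cons_cons, ih, dist_self, zero_add]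

private theorem c6a_oseg (v : P.V) (e : P.D) (he : P.tail e = v ∨ P.head e = v) {ρ : ℝ} (h0 : 0 < ρ)
    (h1 : ρ < 1) : P.pos v + ρ • (P.far v e - P.pos v) ∈ P.oseg e := by
  unfold Poly.far Poly.oseg
  split_ifs with ht
  · refine ⟨1 - ρ, ρ, by linarith, h0, by ring, ?_⟩
    have : P.A e = P.pos v := by
      unfold Poly.A
      rw [ht]
    rw [this]
    module
  · have hh : P.head e = v := he.resolve_left ht
    refine ⟨ρ, 1 - ρ, h0, by linarith, by ring, ?_⟩
    have : P.B e = P.pos v := by
      unfold Poly.B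
      rw [hh]
    rw [this]
    module

private theorem c6a_far_ne (v : P.V) (e : P.D) (_he : P.tail e = v ∨ P.head e = v) :
    P.far v e ≠ P.pos v := by
  unfold Poly.far
  split_ifs with ht
  · unfold Poly.B
    intro h
    have h1 := P.pos_inj h
    exact P.tail_ne_head e (by rw [ht, h1])
  · unfold Poly.A
    intro h
    exact ht (P.pos_inj h)

private theorem c6a_head (C : Cyc P m) (k : ZMod m) : ∃ L, (C.steps k).map Step.x = C.y k :: L := by
  have h := C.R_ne k
  unfold steps
  obtain ⟨a, l, hl⟩ := List.exists_cons_of_ne_nil h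
  rw [hl]
  exact ⟨_, rfl⟩

private theorem c6a_last (C : Cyc P m) (k : ZMod m) : ∃ L, (C.steps k).map Step.x = L ++ [C.y k] := by
  have h := C.R_ne k
  unfold steps
  obtain ⟨l, a, hl⟩ := List.eq_nil_or_concat (C.R k) |>.resolve_left h
  rw [hl]
  exact ⟨_, by simp [List.concat_eq_append]; rfl⟩

/-- [QG-C6a] pushing off: if `W` is a fan of angle `< π` at the vertex node `j` then there is a
closed walk, shorter than `C`, with the half-edges of node `j` replaced by `W`, which visits
exactly the vertices visited by the other nodes. (`push_off` with `cs = W.map (far v)` and `η` so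
small that the new points are inner points of the edges; `replace_node`.) -/
theorem push_track (h2 : 2 ≤ m) (j : ZMod m) (v : P.V) (hv : C.y j = P.pos v)
    (W : List P.D) (hW : P.DWalk (C.F (j - 1)) W (C.F j))
    (hWv : ∀ e ∈ W, P.tail e = v ∨ P.head e = v)
    (ha : P.fang v (C.y (j - 1)) W (C.y (j + 1)) < Real.pi) :
    ∃ l, l ≠ [] ∧ (∃ F, P.Walk F l F) ∧ P.len l < C.len ∧
      (∀ e, P.par (l.map Step.d) e = C.par e + P.par (C.R j) e + P.par W e) ∧
      (∀ u, u ∈ P.vis (l.map Step.x) ↔ ∃ i, i ≠ j ∧ C.y i = P.pos u) := by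
  classical
  have hp : C.y (j - 1) ≠ P.pos v := by
    have := C.ne (j - 1)
    rw [sub_add_cancel, hv] at this
    exact this
  have hq : C.y (j + 1) ≠ P.pos v := by
    have := C.ne j
    rw [hv] at this
    exact this.symm
  have hcs : ∀ c ∈ W.map (P.far v), c ≠ P.pos v := by
    intro c hc
    obtain ⟨e, he, rfl⟩ := List.mem_map.1 hc
    exact c6a_far_ne v e (hWv e he)
  obtain ⟨ρ, hρ, hlen⟩ := push_off (P.pos v) (C.y (j - 1)) (C.y (j + 1)) (W.map (P.far v)) hp hq hcs
    ha 1 one_pos
  obtain ⟨s, hs⟩ : ∃ s : List (Step P), s = W.mapIdx (fun i e =>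
    (⟨e, P.pos v + ρ i • (P.far v e - P.pos v)⟩ : Step P)) := ⟨_, rfl⟩
  have hsd : s.map Step.d = W := by
    rw [hs]
    apply List.ext_getElem
    · simp
    · intro i h1 h2
      simp
  have hsx : s.map Step.x = (W.map (P.far v)).mapIdx (fun i c => P.pos v + ρ i • (c - P.pos v)) := by
    rw [hs]
    apply List.ext_getElem
    · simp
    · intro i h1 h2
      simp
  have hso : ∀ st ∈ s, st.x ∈ P.oseg st.d := by
    intro st hst
    rw [hs, List.mem_mapIdx] at hst
    obtain ⟨i, hi, rfl⟩ := hst
    exact c6a_oseg v _ (hWv _ (List.getElem_mem _)) (hρ i).1 (hρ i).2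
  have hsW : P.Walk (C.F (j - 1)) s (C.F j) := by
    rw [P.Walk_iff, hsd]
    refine ⟨hW, fun st hst => ?_⟩
    exact openSegment_subset_segment ℝ _ _ (hso st hst)
  obtain ⟨n, hn⟩ : ∃ n, m - 1 = n + 1 := ⟨m - 2, by omega⟩
  have hmn : m = n + 2 := by omega
  obtain ⟨R, hR⟩ : ∃ R : List (Step P), R = (List.range (m - 1)).flatMap
      (fun t => C.steps (j + 1 + ((t : ℕ) : ZMod m))) := ⟨_, rfl⟩
  have hRhead : ∃ v', R.map Step.x = C.y (j + 1) :: v' := by
    rw [hR, hn, List.range_succ_eq_map, List.flatMap_cons, List.map_append]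
    obtain ⟨L, hL⟩ := c6a_head C (j + 1 + ((0 : ℕ) : ZMod m))
    rw [hL]
    simp only [Nat.cast_zero, add_zero, List.cons_append]
    exact ⟨_, rfl⟩
  have hRlast : ∃ v'', R.map Step.x = v'' ++ [C.y (j - 1)] := by
    rw [hR, hn, List.range_succ, List.flatMap_append, List.map_append, List.flatMap_singleton]
    obtain ⟨L, hL⟩ := c6a_last C (j + 1 + ((n : ℕ) : ZMod m))
    rw [hL]
    have h3 : j + 1 + ((n : ℕ) : ZMod m) = j - 1 := by
      have h4 : ((n : ℕ) : ZMod m) + 2 = 0 := by
        have h5 : ((m : ℕ) : ZMod m) = 0 := ZMod.natCast_self m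
        have h6 : ((m : ℕ) : ZMod m) = ((n + 2 : ℕ) : ZMod m) := by rw [← hmn]
        rw [h6] at h5
        push_cast at h5
        exact h5
      linear_combination h4
    rw [h3]
    exact ⟨_, (List.append_assoc _ _ _).symm⟩
  obtain ⟨v', hv'⟩ := hRhead
  obtain ⟨v'', hv''⟩ := hRlast
  have hsplit : C.toList j = C.steps j ++ R := by
    rw [C.toList_split j 1 (m - 1) (by omega), hR]
    simp
  obtain ⟨F, hF⟩ := C.replace_node j s hsW
  refine ⟨s ++ R, ?_, ⟨F, ?_⟩, ?_, ?_, ?_⟩
  · intro h
    have h3 := (List.append_eq_nil_iff.1 h).2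
    rw [h3] at hv'
    simp at hv'
  · rw [hR]
    exact hF
  · rw [← C.len_toList j, hsplit]
    unfold Poly.len
    rw [List.map_append, List.map_append, c6a_clen _ _ v' v'' _ _ hv' hv'',
      c6a_clen _ _ v' v'' _ _ hv' hv'']
    have h3 : (C.steps j).map Step.x = (C.R j).map (fun _ => C.y j) := by
      unfold steps
      rw [List.map_map]
      rfl
    rw [h3, c6a_const _ _ _ (C.R_ne j), hsx, hv]
    linarith
  · intro e
    have h3 : C.par e = P.par (C.R j) e + P.par (R.map Step.d) e := by
      rw [← C.par_toList j, hsplit, List.map_append, P.par_append]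
      congr 2
      unfold steps
      rw [List.map_map]
      exact List.map_id _
    rw [List.map_append, P.par_append, hsd, h3]
    have h4 : (2 : ZMod 2) = 0 := rfl
    linear_combination (-P.par (C.R j) e) * h4
  · intro u
    rw [P.mem_vis, List.map_append, List.mem_append]
    constructor
    · rintro (h | h)
      · exfalso
        obtain ⟨st, hst, hx⟩ := List.mem_map.1 h
        exact P.NV_of_oseg (hso st hst) u hx
      · obtain ⟨st, hst, hx⟩ := List.mem_map.1 h
        rw [hR, List.mem_flatMap] at hst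
        obtain ⟨t, ht, hst⟩ := hst
        rw [List.mem_range] at ht
        unfold steps at hst
        obtain ⟨e, -, rfl⟩ := List.mem_map.1 hst
        refine ⟨_, ?_, hx⟩
        intro h5
        have h6 : ((t + 1 : ℕ) : ZMod m) = 0 := by
          push_cast
          linear_combination h5
        rw [ZMod.natCast_eq_zero_iff] at h6
        have := Nat.le_of_dvd (by omega) h6
        omega
    · rintro ⟨i, hij, hi⟩
      right
      have h5 : (i - j - 1).val < m - 1 := by
        have h6 := ZMod.val_lt (i - j - 1)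
        have h7 : (i - j - 1).val ≠ m - 1 := by
          intro h8
          apply hij
          have h9 : (((i - j - 1).val + 1 : ℕ) : ZMod m) = 0 := by
            rw [h8, Nat.sub_add_cancel (by omega), ZMod.natCast_self]
          push_cast at h9
          rw [ZMod.natCast_zmod_val] at h9
          linear_combination h9
        omega
      have h6 : j + 1 + (((i - j - 1).val : ℕ) : ZMod m) = i := by
        rw [ZMod.natCast_zmod_val]
        ring
      obtain ⟨L, hL⟩ := c6a_head C i
      have h7 : C.y i ∈ (C.steps i).map Step.x := by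
        rw [hL]
        exact List.mem_cons_self
      obtain ⟨st, hst, hx⟩ := List.mem_map.1 h7
      rw [← hi, ← hx]
      refine List.mem_map_of_mem ?_
      rw [hR, List.mem_flatMap]
      exact ⟨_, List.mem_range.2 h5, by rw [h6]; exact hst⟩

end Cyc

end QG6b
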