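import Pool.Agent.Lib_MP_6b5565.C6a

/-! [QG-C6b] -/

namespace QG6b

open EuclideanGeometry

namespace Cyc

variable {P : Poly} {m : ℕ} [NeZero m] (C : Cyc P m)

variable {C}

omit [NeZero m] in
private theorem c6b_left (C : Cyc P m) (i : ZMod m) : C.y i ∈ P.tri (C.F (i - 1)) := by
  have hw := C.walk i
  have hne := C.R_ne i
  have hon := C.on i
  cases hR : C.R i with
  | nil => exact absurd hR hne
  | cons d l =>
    rw [hR] at hw hon
    exact P.seg_sub_tri' hw.1 (hon d List.mem_cons_self)

omit [NeZero m] in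
private theorem c6b_right (C : Cyc P m) (i : ZMod m) : C.y i ∈ P.tri (C.F i) := by
  have hw := C.walk i
  have hne := C.R_ne i
  have hon := C.on i
  obtain ⟨l, d, hR⟩ : ∃ l d, C.R i = l ++ [d] := by
    rcases List.eq_nil_or_concat (C.R i) with h | ⟨l, d, h⟩
    · exact absurd h hne
    · exact ⟨l, d, by rw [h]; simp⟩
  rw [hR] at hw hon
  have h1 := P.DWalk_last hw
  have h2 : C.y i ∈ P.seg (P.inv d) := by
    rw [P.seg_inv]
    exact hon d (by simp)
  exact P.seg_sub_tri' (P.SF_symm h1) h2

private theorem c6b_par_zero (P : Poly) {v : P.V} {l : List P.D} (hl : ∀ a ∈ l, P.tail a = v ∨ P.head a = v)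
    {e : P.D} (h1 : P.tail e ≠ v) (h2 : P.head e ≠ v) : P.par l e = 0 := by
  unfold Poly.par
  rw [List.countP_eq_zero.2, Nat.cast_zero]
  intro a ha h
  rw [decide_eq_true_eq] at h
  rcases h with rfl | rfl
  · rcases hl _ ha with h3 | h3
    · exact h1 h3
    · exact h2 h3
  · rcases hl _ ha with h3 | h3
    · exact h2 h3
    · rw [P.tail_eq_head_inv] at h3
      exact h1 h3

/-- [QG-C6b] every vertex is visited once: if `y j = y k = pos v`, `j ≠ k`, one of the two fans at
node `j` (`fan_exists`, angles add up to `tot v < 2π`) has angle `< π`; the pushed track visits the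
same vertices, its parity changed by `0` or `star v` (`cocycle_star` for the closed walk
`R j ++ reverse W`), and `v` is visited, so it is balanced: contradiction to minimality. -/
theorem BestC.uniq (h : C.BestC) (h2 : 2 ≤ m) (j k : ZMod m) (v : P.V) (hj : C.y j = P.pos v)
    (hk : C.y k = P.pos v) : j = k := by
  classical
  by_contra hjk
  have hR : ∀ e ∈ C.R j, P.tail e = v ∨ P.head e = v := by
    intro e he
    have h1 := C.on j e he
    rw [hj] at h1
    rcases P.eq_of_pos_mem_seg h1 with h3 | h3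
    · exact Or.inl h3.symm
    · exact Or.inr h3.symm
  have hyl := c6b_left C j
  have hyr := c6b_right C j
  rw [hj] at hyl hyr
  obtain ⟨a, ha1, ha⟩ := P.verts_of_pos_mem hyl
  obtain ⟨b, hb1, hb⟩ := P.verts_of_pos_mem hyr
  have hp : C.y (j - 1) ∈ P.tri a := by
    rw [← P.tri_SF ha1]
    exact c6b_right C (j - 1)
  have hq : C.y (j + 1) ∈ P.tri b := by
    rw [← P.tri_SF hb1]
    have h3 := c6b_left C (j + 1)
    rwa [add_sub_cancel_right] at h3
  have hpz : C.y (j - 1) ≠ P.pos v := by
    have h3 := C.ne (j - 1)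
    rwa [sub_add_cancel, hj] at h3
  have hqz : C.y (j + 1) ≠ P.pos v := by
    have h3 := C.ne j
    rw [hj] at h3
    exact h3.symm
  obtain ⟨W₁, W₂, hF1, hF2, hsum, -⟩ := P.fan_exists v ha hb hp hq hpz hqz
  obtain ⟨W, hF, hfang⟩ : ∃ W, P.IsFan v (C.y (j - 1)) (C.y (j + 1)) a W b ∧
      P.fang v (C.y (j - 1)) W (C.y (j + 1)) < Real.pi := by
    have h3 := P.tot_lt v
    by_cases h4 : P.fang v (C.y (j - 1)) W₁ (C.y (j + 1)) < Real.pi
    · exact ⟨W₁, hF1, h4⟩
    · exact ⟨W₂, hF2, by linarith⟩
  have hW : P.DWalk (C.F (j - 1)) W (C.F j) :=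
    P.DWalk_congr_left (P.SF_symm ha1) (P.DWalk_congr_right (P.SF_symm hb1) (Poly.IsFan.walk P hF))
  have hWv : ∀ e ∈ W, P.tail e = v ∨ P.head e = v := Poly.IsFan.mem P ha hF
  obtain ⟨l, hl1, hl2, hl3, hl4, hl5⟩ := push_track h2 j v hj W hW hWv hfang
  -- the change of the parity
  have hwalk : P.DWalk (C.F (j - 1)) (C.R j ++ (W.map P.inv).reverse) (C.F (j - 1)) :=
    P.DWalk_append.2 ⟨C.F j, C.walk j, P.DWalk_reverse hW⟩
  have hpar : ∀ e, P.par (C.R j ++ (W.map P.inv).reverse) e = P.par (C.R j) e + P.par W e := by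
    intro e
    rw [P.par_append, P.par_reverse, P.par_map_inv]
  have hstar := P.cocycle_star (v := v) (p := P.par (C.R j ++ (W.map P.inv).reverse))
    (fun e => P.par_inv _ e) (fun e => P.par_face hwalk e) (fun e h3 h4 => by
      rw [hpar, c6b_par_zero P hR h3 h4, c6b_par_zero P hWv h3 h4, add_zero])
  have hvis : P.vis (l.map Step.x) = C.vis := by
    ext u
    rw [hl5 u, C.mem_vis]
    constructor
    · rintro ⟨i, -, hi⟩
      exact ⟨i, hi⟩
    · rintro ⟨i, hi⟩
      by_cases hij : i = j
      · subst hij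
        rw [hj] at hi
        have := P.pos_inj hi
        subst this
        exact ⟨k, fun h => hjk h.symm, hk⟩
      · exact ⟨i, hij, hi⟩
  have hv : v ∈ C.vis := C.mem_vis.2 ⟨j, hj⟩
  obtain ⟨col, hcol, hK⟩ := h.bal
  have hbal : P.Bal (P.par (l.map Step.d)) (P.vis (l.map Step.x)) := by
    rw [hvis]
    rcases hstar with h3 | h3
    · have h4 : P.par (l.map Step.d) = C.par := by
        funext e
        rw [hl4, add_assoc, ← hpar, h3, add_zero]
      rw [h4]
      exact ⟨col, hcol, hK⟩
    · have h4 : P.par (l.map Step.d) = fun e => C.par e + P.star v e := by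
        funext e
        rw [hl4, add_assoc, ← hpar, h3]
      rw [h4]
      refine ⟨_, P.Col_add hcol (P.Col_star v), fun c => ?_⟩
      have h5 : P.K C.vis (fun u => col u + if u = v then 1 else 0) c = P.K C.vis col c := by
        unfold Poly.K
        refine Finset.sum_congr ?_ fun _ _ => rfl
        ext u
        simp only [Finset.mem_filter, Finset.mem_univ, true_and]
        constructor
        · rintro ⟨h6, h7⟩
          have h8 : u ≠ v := fun h => h6 (h ▸ hv)
          rw [if_neg h8, add_zero] at h7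
          exact ⟨h6, h7⟩
        · rintro ⟨h6, h7⟩
          have h8 : u ≠ v := fun h => h6 (h ▸ hv)
          rw [if_neg h8, add_zero]
          exact ⟨h6, h7⟩
      rw [h5]
      exact hK c
  have hgood : P.Good l := ⟨hl1, hl2, hbal⟩
  have := (h.min l hgood).1
  linarith

end Cyc

end QG6b
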