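import Pool.Agent.Lib_MP_6b5565.C6b
import Pool.Agent.Lib_MP_6b5565.A4d
import Pool.Agent.Lib_MP_6b5565.D1b

/-! [QG-C6c] -/

namespace QG6b

open EuclideanGeometry

namespace Poly

variable (P : Poly)

private theorem par_zero_of {v : P.V} {l : List P.D} (h : ∀ e ∈ l, P.tail e = v ∨ P.head e = v) {e : P.D}
    (h1 : P.tail e ≠ v) (h2 : P.head e ≠ v) : P.par l e = 0 := by
  unfold par
  have h3 : l.countP (fun a => a = e ∨ a = P.inv e) = 0 := by
    rw [List.countP_eq_zero]
    intro a ha hae
    have hae' : a = e ∨ a = P.inv e := by simpa using hae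
    rcases hae' with rfl | rfl
    · exact (h _ ha).elim h1 h2
    · rcases h _ ha with h4 | h4
      · exact h2 h4
      · rw [P.tail_eq_head_inv] at h4
        exact h1 h4
  rw [h3]
  rfl

/-- a coboundary supported at `v` is the coboundary of a colouring constant off `v` -/
private theorem const_off {v : P.V} {q : P.D → ZMod 2} {c : P.V → ZMod 2} (hc : P.Col q c)
    (hinv : ∀ e, q (P.inv e) = q e) (hsupp : ∀ e, P.tail e ≠ v → P.head e ≠ v → q e = 0) :
    ∃ κ, ∀ u, u ≠ v → c u = κ := by
  have hface : ∀ e, q e + q (P.nxt e) + q (P.prev e) = 0 := by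
    intro e
    rw [← hc e, ← hc (P.nxt e), ← hc (P.prev e), P.head_eq e, P.head_nxt, P.head_prev]
    have key : ∀ a b d : ZMod 2, a + b + (b + d) + (d + a) = 0 := by decide
    exact key _ _ _
  rcases P.cocycle_star hinv hface hsupp with h1 | h1
  · have h2 : P.Col q (fun _ => 0) := by
      intro d
      rw [h1 d, add_zero]
    obtain ⟨k, hk⟩ := P.Col_unique h2 hc
    exact ⟨k, fun u _ => by rw [hk u, zero_add]⟩
  · have h2 : P.Col q (fun u => if u = v then 1 else 0) := by
      intro d
      rw [h1 d]
      exact P.Col_star v d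
    obtain ⟨k, hk⟩ := P.Col_unique h2 hc
    exact ⟨k, fun u hu => by rw [hk u, if_neg hu, zero_add]⟩

end Poly

namespace Cyc

variable {P : Poly} {m : ℕ} [NeZero m] (C : Cyc P m)

variable {C}

/-- [QG-C6c] blocked pushes: the pushed track visits `C.vis.erase v`, is shorter, so it is not
balanced; the colours of the vertices `≠ v` are those of `C` up to a constant, so the only
possibility is that the colour of `v` is too heavy. -/
theorem BestC.push (h : C.BestC) (h2 : 2 ≤ m) (j : ZMod m) (v : P.V) (hv : C.y j = P.pos v)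
    (W : List P.D) (hW : P.DWalk (C.F (j - 1)) W (C.F j))
    (hWv : ∀ e ∈ W, P.tail e = v ∨ P.head e = v)
    (ha : P.fang v (C.y (j - 1)) W (C.y (j + 1)) < Real.pi) (col : P.V → ZMod 2)
    (hc : P.Col (fun e => C.par e + P.par (C.R j) e + P.par W e) col) :
    2 * Real.pi < P.K (C.vis.erase v) col (col v) := by
  obtain ⟨l, hl0, hlw, hlen, hpar, hvis⟩ := push_track h2 j v hv W hW hWv ha
  obtain ⟨col0, hc0, hb0⟩ := h.bal
  have hvv : v ∈ C.vis := C.mem_vis.2 ⟨j, hv⟩
  have hvis' : P.vis (l.map Step.x) = C.vis.erase v := by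
    ext u
    rw [hvis, Finset.mem_erase, C.mem_vis]
    constructor
    · rintro ⟨i, hi, hu⟩
      refine ⟨?_, i, hu⟩
      rintro rfl
      exact hi (h.uniq h2 i j u hu hv)
    · rintro ⟨hu, i, hi⟩
      refine ⟨i, ?_, hi⟩
      rintro rfl
      exact hu (P.pos_inj (hi.symm.trans hv))
  have hpar' : P.par (l.map Step.d) = fun e => C.par e + P.par (C.R j) e + P.par W e := funext hpar
  -- the difference of the colourings
  have hR : ∀ e ∈ C.R j, P.tail e = v ∨ P.head e = v := by
    intro e he
    have h3 := C.on j e he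
    rw [hv] at h3
    rcases P.eq_of_pos_mem_seg h3 with h4 | h4
    · exact Or.inl h4.symm
    · exact Or.inr h4.symm
  have hq : P.Col (fun e => P.par (C.R j) e + P.par W e) (fun u => col u + col0 u) := by
    intro d
    have h3 := hc d
    have h4 := hc0 d
    have key : ∀ a b a' b' x y z : ZMod 2, a + b = x + y + z → a' + b' = x →
        a + a' + (b + b') = y + z := by decide
    exact key _ _ _ _ _ _ _ h3 h4
  obtain ⟨κ, hκ⟩ := P.const_off (v := v) hq (fun e => by rw [P.par_inv, P.par_inv])
    (fun e h3 h4 => by rw [P.par_zero_of hR h3 h4, P.par_zero_of hWv h3 h4, add_zero])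
  by_contra hcon
  push Not at hcon
  have hgood : P.Good l := by
    refine ⟨hl0, hlw, ?_⟩
    rw [hpar', hvis']
    refine ⟨col, hc, fun c => ?_⟩
    by_cases hcv : c = col v
    · rw [hcv]; exact hcon
    · have h3 : P.K (C.vis.erase v) col c = P.K C.vis col0 (κ + c) := by
        unfold Poly.K
        congr 1
        ext u
        rw [Finset.mem_filter, Finset.mem_filter, Finset.mem_erase]
        have key : ∀ a b k c : ZMod 2, a + b = k → (a = c ↔ b = k + c) := by decide
        constructor
        · rintro ⟨-, h4, h5⟩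
          have hu : u ≠ v := by
            rintro rfl
            exact hcv h5.symm
          refine ⟨Finset.mem_univ _, fun h6 => h4 ⟨hu, h6⟩, ?_⟩
          exact (key _ _ _ _ (hκ u hu)).1 h5
        · rintro ⟨-, h4, h5⟩
          have hu : u ≠ v := by
            rintro rfl
            exact h4 hvv
          exact ⟨Finset.mem_univ _, fun h6 => h4 h6.2, (key _ _ _ _ (hκ u hu)).2 h5⟩
      rw [h3]
      exact hb0 _
  have h4 := (h.min l hgood).1
  linarith

end Cyc

end QG6b
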