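import Pool.Agent.Lib_MP_6b5565.C4b

/-! [QG-C7a] -/

namespace QG6b

open EuclideanGeometry

namespace Cyc

variable {P : Poly} {m : ℕ} [NeZero m] (C : Cyc P m)

private def blk (i : ZMod m) (n : ℕ) : List (Step P) :=
  (List.range n).flatMap (fun t => C.steps (i + ((t : ℕ) : ZMod m)))

omit [NeZero m] in
private theorem blk_succ (i : ZMod m) (n : ℕ) :
    C.blk i (n + 1) = C.blk i n ++ C.steps (i + (n : ZMod m)) := by
  unfold blk
  rw [List.range_succ, List.flatMap_append]
  simp

omit [NeZero m] in
private theorem steps_x_ne (i : ZMod m) : (C.steps i).map Step.x ≠ [] := by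
  unfold steps
  simp [C.R_ne]

omit [NeZero m] in
private theorem steps_x_mem (i : ZMod m) : ∀ z ∈ (C.steps i).map Step.x, z = C.y i := by
  intro z hz
  unfold steps at hz
  rw [List.map_map, List.mem_map] at hz
  obtain ⟨e, -, rfl⟩ := hz
  rfl

private theorem blk_ne (i : ZMod m) (n : ℕ) : (C.blk i (n + 1)).map Step.x ≠ [] := by
  rw [blk_succ, List.map_append]
  exact List.append_ne_nil_of_right_ne_nil _ (C.steps_x_ne _)

private theorem blk_last (i : ZMod m) (n : ℕ) (h : (C.blk i (n + 1)).map Step.x ≠ []) :
    ((C.blk i (n + 1)).map Step.x).getLast h = C.y (i + (n : ZMod m)) := by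
  have h1 : (C.blk i (n + 1)).map Step.x = (C.blk i n).map Step.x ++ (C.steps (i + (n : ZMod m))).map Step.x := by
    rw [blk_succ, List.map_append]
  have h2 : ∀ (l : List E3) (hl : l ≠ []), l = (C.blk i n).map Step.x ++ (C.steps (i + (n : ZMod m))).map Step.x →
      l.getLast hl = C.y (i + (n : ZMod m)) := by
    rintro l hl rfl
    rw [List.getLast_append_of_ne_nil _ (C.steps_x_ne _)]
    exact C.steps_x_mem _ _ (List.getLast_mem _)
  exact h2 _ h h1

private theorem blk_head (i : ZMod m) (n : ℕ) (h : (C.blk i (n + 1)).map Step.x ≠ []) :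
    ((C.blk i (n + 1)).map Step.x).head h = C.y i := by
  induction n with
  | zero =>
    have h1 : C.blk i (0 + 1) = C.steps i := by
      rw [blk_succ]
      simp [blk]
    have h2 : ∀ (l : List (Step P)) (hl : l.map Step.x ≠ []), l = C.steps i → (l.map Step.x).head hl = C.y i := by
      rintro l hl rfl
      exact C.steps_x_mem _ _ (List.head_mem _)
    exact h2 _ h h1
  | succ n ih =>
    have h1 : (C.blk i (n + 1 + 1)).map Step.x = (C.blk i (n + 1)).map Step.x ++
        (C.steps (i + ((n + 1 : ℕ) : ZMod m))).map Step.x := by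
      rw [blk_succ, List.map_append]
    have h2 : ∀ (l : List E3) (hl : l ≠ []), l = (C.blk i (n + 1)).map Step.x ++
        (C.steps (i + ((n + 1 : ℕ) : ZMod m))).map Step.x → l.head hl = C.y i := by
      rintro l hl rfl
      rw [List.head_append_of_ne_nil (C.blk_ne i n)]
      exact ih _
    exact h2 _ h h1

omit [NeZero m] in
private theorem steps_walk (i : ZMod m) : P.Walk (C.F (i - 1)) (C.steps i) (C.F i) := by
  rw [P.Walk_iff]
  constructor
  · have h1 : (C.steps i).map Step.d = C.R i := by
      unfold steps
      rw [List.map_map]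
      exact List.map_id _
    rw [h1]
    exact C.walk i
  · intro s hs
    unfold steps at hs
    rw [List.mem_map] at hs
    obtain ⟨e, he, rfl⟩ := hs
    exact C.on i e he

private theorem blk_walk (i : ZMod m) (n : ℕ) : P.Walk (C.F i) (C.blk (i + 1) n) (C.F (i + (n : ZMod m))) := by
  induction n with
  | zero =>
    have h1 : C.blk (i + 1) 0 = [] := rfl
    rw [h1, Nat.cast_zero, add_zero]
    exact P.SF_refl _
  | succ n ih =>
    rw [blk_succ, P.Walk_append]
    refine ⟨_, ih, ?_⟩
    have h1 := C.steps_walk (i + 1 + (n : ZMod m))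
    have e1 : i + 1 + (n : ZMod m) - 1 = i + (n : ZMod m) := by ring
    have e2 : i + 1 + (n : ZMod m) = i + ((n + 1 : ℕ) : ZMod m) := by push_cast; ring
    rw [e1] at h1
    rw [e2] at h1 ⊢
    exact h1

private theorem walk_congr_right {F G G' : P.D} {l : List (Step P)} (h : P.SF G G') (w : P.Walk F l G) :
    P.Walk F l G' := by
  rw [P.Walk_iff] at w ⊢
  exact ⟨P.DWalk_congr_right h w.1, w.2⟩

private theorem walk_congr_left {F F' G : P.D} {l : List (Step P)} (h : P.SF F F') (w : P.Walk F l G) :
    P.Walk F' l G := by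
  rw [P.Walk_iff] at w ⊢
  exact ⟨P.DWalk_congr_left h w.1, w.2⟩

private theorem vis_perm' {l l' : List E3} (h : l.Perm l') : P.vis l = P.vis l' := by
  ext v
  rw [P.mem_vis, P.mem_vis, h.mem_iff]

private theorem mu_perm' {l l' : List (Step P)} (h : l.Perm l') : P.mu l = P.mu l' := by
  unfold Poly.mu
  rw [vis_perm' (h.map Step.x), h.length_eq, h.countP_eq]

private theorem flip_x (l : List (Step P)) : (l.map P.flip).map Step.x = l.map Step.x := by
  rw [List.map_map]
  rfl

private theorem flip_d (l : List (Step P)) : (l.map P.flip).map Step.d = (l.map Step.d).map P.inv := by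
  rw [List.map_map, List.map_map]
  rfl

private theorem split' (i : ZMod m) (a b : ℕ) (h : a + b = m) :
    C.toList i = C.blk i a ++ C.blk (i + (a : ZMod m)) b := C.toList_split i a b h

/-- `toList i` is a rotation of `toList 0` -/
private theorem mu_toList (i : ZMod m) : P.mu (C.toList i) = P.mu (C.toList 0) := by
  have hk : i.val < m := ZMod.val_lt i
  have hi : ((i.val : ℕ) : ZMod m) = i := ZMod.natCast_zmod_val i
  rw [C.split' 0 i.val (m - i.val) (by omega), C.split' i (m - i.val) i.val (by omega)]
  have e1 : (0 : ZMod m) + ((i.val : ℕ) : ZMod m) = i := by rw [zero_add, hi]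
  have e2 : i + ((m - i.val : ℕ) : ZMod m) = 0 := by
    rw [Nat.cast_sub hk.le, ZMod.natCast_self, hi]
    ring
  rw [e1, e2]
  exact P.mu_rotate _ _

variable {C}

/-- [QG-C7a] the 2-opt move: if segments `j` and `k` lie in the same face, reversing the part of
the track between them gives a balanced track with the same parity, visited vertices, numbers of
steps, and length `C.len - |y j y (j+1)| - |y k y (k+1)| + |y j y k| + |y (j+1) y (k+1)|`.
`l = rev (nodes j+1 .. k) ++ (nodes k+1 .. j)`; the first node of the reversed part is `k`. -/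
theorem two_opt (j : ZMod m) (a : ℕ) (ha : 0 < a) (ham : a < m)
    (hF : P.SF (C.F j) (C.F (j + (a : ZMod m)))) :
    ∃ l, l = (((List.range a).flatMap (fun t => C.steps (j + 1 + ((t : ℕ) : ZMod m)))).map
          P.flip).reverse ++
        (List.range (m - a)).flatMap
          (fun t => C.steps (j + (a : ZMod m) + 1 + ((t : ℕ) : ZMod m))) ∧
      (∃ F, P.Walk F l F) ∧ P.par (l.map Step.d) = C.par ∧ P.vis (l.map Step.x) = C.vis ∧
      P.mu l = P.mu (C.toList 0) ∧
      P.len l = C.len - dist (C.y j) (C.y (j + 1))
        - dist (C.y (j + (a : ZMod m))) (C.y (j + (a : ZMod m) + 1))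
        + dist (C.y j) (C.y (j + (a : ZMod m)))
        + dist (C.y (j + 1)) (C.y (j + (a : ZMod m) + 1)) := by
  have hcm : ((m : ℕ) : ZMod m) = 0 := ZMod.natCast_self m
  have e0 : j + (a : ZMod m) + ((m - a : ℕ) : ZMod m) = j := by
    rw [Nat.cast_sub ham.le, hcm]
    ring
  have hsp : C.toList (j + 1) = C.blk (j + 1) a ++ C.blk (j + (a : ZMod m) + 1) (m - a) := by
    rw [C.split' (j + 1) a (m - a) (by omega)]
    congr 2
    ring
  obtain ⟨n, hn⟩ : ∃ n, a = n + 1 := ⟨a - 1, by omega⟩
  obtain ⟨k, hk⟩ : ∃ k, m - a = k + 1 := ⟨m - a - 1, by omega⟩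
  refine ⟨((C.blk (j + 1) a).map P.flip).reverse ++ C.blk (j + (a : ZMod m) + 1) (m - a), rfl, ?_, ?_, ?_, ?_, ?_⟩
  · -- walk
    refine ⟨C.F (j + (a : ZMod m)), ?_⟩
    rw [P.Walk_append]
    refine ⟨C.F j, P.Walk_reverse (C.blk_walk j a), ?_⟩
    have h1 := C.blk_walk (j + (a : ZMod m)) (m - a)
    rw [e0] at h1
    exact walk_congr_left (P.SF_symm hF) (walk_congr_right hF h1)
  · -- parity
    rw [← C.par_toList (j + 1), hsp]
    funext e
    rw [List.map_append, List.map_append, P.par_append, P.par_append, List.map_reverse, P.par_reverse,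
      flip_d, P.par_map_inv]
  · -- visited vertices
    rw [← C.vis_toList (j + 1), hsp, List.map_append, List.map_append, P.vis_append, P.vis_append,
      List.map_reverse, flip_x, vis_perm' (List.reverse_perm _)]
  · -- tie-break
    rw [← C.mu_toList (j + 1), hsp]
    unfold Poly.mu
    have h1 : P.vis ((((C.blk (j + 1) a).map P.flip).reverse ++ C.blk (j + (a : ZMod m) + 1) (m - a)).map Step.x)
        = P.vis ((C.blk (j + 1) a ++ C.blk (j + (a : ZMod m) + 1) (m - a)).map Step.x) := by
      rw [List.map_append, List.map_append, P.vis_append, P.vis_append,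
        List.map_reverse, flip_x, vis_perm' (List.reverse_perm _)]
    have h2 : (((C.blk (j + 1) a).map P.flip).reverse ++ C.blk (j + (a : ZMod m) + 1) (m - a)).length
        = (C.blk (j + 1) a ++ C.blk (j + (a : ZMod m) + 1) (m - a)).length := by simp
    have h3 : ∀ q : Step P → Bool, (∀ s, q (P.flip s) = q s) →
        (((C.blk (j + 1) a).map P.flip).reverse ++ C.blk (j + (a : ZMod m) + 1) (m - a)).countP q
        = (C.blk (j + 1) a ++ C.blk (j + (a : ZMod m) + 1) (m - a)).countP q := by
      intro q hq
      rw [List.countP_append, List.countP_append, List.countP_reverse, List.countP_map]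
      congr 2
      funext s
      exact hq s
    rw [h1, h2, h3 _ (fun s => rfl)]
  · -- length
    set U := (C.blk (j + 1) a).map Step.x with hU
    set W := (C.blk (j + (a : ZMod m) + 1) (m - a)).map Step.x with hW
    have hUne : U ≠ [] := by
      rw [hU, hn]
      exact C.blk_ne _ _
    have hWne : W ≠ [] := by
      rw [hW, hk]
      exact C.blk_ne _ _
    have u1 : U.head hUne = C.y (j + 1) := by
      have := C.blk_head (j + 1) n
      rw [← hn] at this
      exact this _
    have u2 : U.getLast hUne = C.y (j + (a : ZMod m)) := by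
      have := C.blk_last (j + 1) n
      rw [← hn] at this
      rw [this _]
      congr 1
      rw [hn]
      push_cast
      ring
    have w1 : W.head hWne = C.y (j + (a : ZMod m) + 1) := by
      have := C.blk_head (j + (a : ZMod m) + 1) k
      rw [← hk] at this
      exact this _
    have w2 : W.getLast hWne = C.y j := by
      have := C.blk_last (j + (a : ZMod m) + 1) k
      rw [← hk] at this
      rw [this _]
      congr 1
      have e1 : ((m - a : ℕ) : ZMod m) = (k : ZMod m) + 1 := by rw [hk]; push_cast; ring
      rw [e1] at e0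
      linear_combination e0
    have hlen : C.len = olen U + dist (U.getLast hUne) (W.head hWne) + olen W + dist (W.getLast hWne) (U.head hUne) := by
      rw [← C.len_toList (j + 1), hsp]
      unfold Poly.len
      rw [List.map_append]
      exact clen_append_ne U W hUne hWne
    have hRne : U.reverse ≠ [] := by
      simpa using hUne
    have hl : P.len (((C.blk (j + 1) a).map P.flip).reverse ++ C.blk (j + (a : ZMod m) + 1) (m - a)) =
        olen U.reverse + dist (U.reverse.getLast hRne) (W.head hWne) + olen W +
          dist (W.getLast hWne) (U.reverse.head hRne) := by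
      unfold Poly.len
      rw [List.map_append, List.map_reverse, flip_x]
      exact clen_append_ne U.reverse W hRne hWne
    rw [hl, olen_reverse, List.getLast_reverse, List.head_reverse, u1, u2, w1, w2]
    rw [u1, u2, w1, w2] at hlen
    rw [hlen]
    ring

end Cyc

end QG6b
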