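import Pool.Agent.Lib_MP_6b5565.C7a

/-! [QG-C7b] -/

namespace QG6b

open EuclideanGeometry

namespace Cyc

variable {P : Poly} {m : ℕ} [NeZero m] (C : Cyc P m)

variable {C}

/-- [QG-C7b] -/
theorem BestC.opt (h : C.BestC) (h2 : 2 ≤ m) (j k : ZMod m) (hjk : j ≠ k)
    (hF : P.SF (C.F j) (C.F k)) :
    dist (C.y j) (C.y (j + 1)) + dist (C.y k) (C.y (k + 1)) ≤
      dist (C.y j) (C.y k) + dist (C.y (j + 1)) (C.y (k + 1)) := by
  have _ := h2
  have hm : (ZMod.val (k - j)) < m := ZMod.val_lt _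
  have ha : 0 < ZMod.val (k - j) := by
    rcases Nat.eq_zero_or_pos (ZMod.val (k - j)) with h0 | h0
    · exact absurd (sub_eq_zero.1 ((ZMod.val_eq_zero _).1 h0)).symm hjk
    · exact h0
  have hk : j + ((ZMod.val (k - j) : ℕ) : ZMod m) = k := by
    rw [ZMod.natCast_zmod_val]
    ring
  obtain ⟨l, hl, hw, hp, hv, -, hlen⟩ := two_opt (C := C) j (ZMod.val (k - j)) ha hm
    (by rw [hk]; exact hF)
  rw [hk] at hlen
  have hne : l ≠ [] := by
    rw [hl]
    intro h0
    have h1 := (List.append_eq_nil_iff.1 h0).1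
    rw [List.reverse_eq_nil_iff, List.map_eq_nil_iff, List.flatMap_eq_nil_iff] at h1
    have h3 := h1 0 (List.mem_range.2 ha)
    unfold steps at h3
    rw [List.map_eq_nil_iff] at h3
    exact C.R_ne _ h3
  have hgood : P.Good l := by
    refine ⟨hne, hw, ?_⟩
    rw [hp, hv]
    exact h.bal
  have := (h.min l hgood).1
  rw [hlen] at this
  linarith

end Cyc

end QG6b
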