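import Pool.Agent.Lib_MP_6b5565.C7a
import Pool.Agent.Lib_MP_6b5565.C7b
import Pool.Agent.Lib_MP_6b5565.C5c
import Pool.Agent.Lib_MP_6b5565.Tri
import Pool.Agent.Lib_MP_6b5565.D2f
import Pool.Agent.Lib_MP_6b5565_geo.Plane

/-! [QG-C7c] -/

namespace QG6b

open EuclideanGeometry

/-- first variation on an open segment -/
private theorem c7c_straight {A B p u w : E3} (hp : p ∈ openSegment ℝ A B) (hAB : A ≠ B)
    (hu : u ≠ p) (hw : w ≠ p)
    (hmin : ∀ x ∈ openSegment ℝ A B, dist u p + dist p w ≤ dist u x + dist x w) :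
    ∠ u p B + ∠ B p w = Real.pi := by
  obtain ⟨a, b, ha, hb, hab, hpd⟩ := hp
  have hv : B - p = a • (B - A) := by
    rw [← hpd]
    have : b = 1 - a := by linarith
    rw [this]
    module
  have hv0 : B - p ≠ 0 := by
    rw [hv]
    exact smul_ne_zero ha.ne' (sub_ne_zero.2 hAB.symm)
  have h := Pool.Agent.QGeo.straight (y := p) (u := B - p) hu hw hv0 (by
    have h1 : ∀ᶠ t : ℝ in nhds 0, 0 < a - t * a := by
      have hc : ContinuousAt (fun t : ℝ => a - t * a) 0 := by fun_prop
      exact hc.eventually (lt_mem_nhds (by simpa using ha))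
    have h2 : ∀ᶠ t : ℝ in nhds 0, 0 < b + t * a := by
      have hc : ContinuousAt (fun t : ℝ => b + t * a) 0 := by fun_prop
      exact hc.eventually (lt_mem_nhds (by simpa using hb))
    filter_upwards [h1, h2] with t ht1 ht2
    simp only [zero_smul, add_zero]
    apply hmin
    refine ⟨a - t * a, b + t * a, ht1, ht2, by linarith, ?_⟩
    rw [hv, ← hpd]
    module)
  rw [EuclideanGeometry.angle, EuclideanGeometry.angle, vsub_eq_sub, vsub_eq_sub, vsub_eq_sub,
    InnerProductGeometry.angle_comm (u - p)]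
  exact h

namespace Cyc

variable {P : Poly} {m : ℕ} [NeZero m] (C : Cyc P m)

/-- move the node `j` to `x` -/
private noncomputable def moveN (j : ZMod m) (x : E3) (hx : ∀ e ∈ C.R j, x ∈ P.seg e)
    (h1 : C.y (j - 1) ≠ x) (h2 : x ≠ C.y (j + 1)) : Cyc P m where
  y := Function.update C.y j x
  R := C.R
  F := C.F
  R_ne := C.R_ne
  walk := C.walk
  on := by
    intro i e he
    by_cases hi : i = j
    · subst hi
      rw [Function.update_self]
      exact hx e he
    · rw [Function.update_of_ne hi]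
      exact C.on i e he
  ne := by
    intro i
    have hne : i ≠ i + 1 := fun h => C.ne i (congrArg C.y h)
    by_cases hi : i = j
    · subst hi
      rw [Function.update_self, Function.update_of_ne hne.symm]
      exact h2
    · by_cases hi' : i + 1 = j
      · have h3 : i = j - 1 := by rw [← hi']; ring
        rw [Function.update_of_ne hi, hi', Function.update_self, h3]
        exact h1
      · rw [Function.update_of_ne hi, Function.update_of_ne hi']
        exact C.ne i

private theorem moveN_len (j : ZMod m) (x : E3) (hx : ∀ e ∈ C.R j, x ∈ P.seg e)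
    (h1 : C.y (j - 1) ≠ x) (h2 : x ≠ C.y (j + 1)) :
    (C.moveN j x hx h1 h2).len + dist (C.y (j - 1)) (C.y j) + dist (C.y j) (C.y (j + 1)) =
      C.len + dist (C.y (j - 1)) x + dist x (C.y (j + 1)) := by
  have hne : j - 1 ≠ j := by
    intro h
    apply C.ne (j - 1)
    rw [sub_add_cancel, h]
  have hne' : j + 1 ≠ j := fun h => C.ne j (congrArg C.y h).symm
  have key : ∑ i, (dist (Function.update C.y j x i) (Function.update C.y j x (i + 1)) -
      dist (C.y i) (C.y (i + 1))) = (dist (C.y (j - 1)) x - dist (C.y (j - 1)) (C.y j)) +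
        (dist x (C.y (j + 1)) - dist (C.y j) (C.y (j + 1))) := by
    rw [Finset.sum_eq_add (j - 1) j hne ?_ (by simp) (by simp)]
    · rw [Function.update_of_ne hne, sub_add_cancel, Function.update_self,
        Function.update_of_ne hne']
    · rintro i - ⟨hi1, hi2⟩
      have h3 : i + 1 ≠ j := fun h => hi1 (by rw [← h]; ring)
      rw [Function.update_of_ne hi2, Function.update_of_ne h3, sub_self]
  rw [Finset.sum_sub_distrib] at key
  have e1 : (C.moveN j x hx h1 h2).len =
      ∑ i, dist (Function.update C.y j x i) (Function.update C.y j x (i + 1)) := rfl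
  have e2 : C.len = ∑ i, dist (C.y i) (C.y (i + 1)) := rfl
  rw [e1, e2]
  linarith

private theorem moveN_vis (j : ZMod m) (x : E3) (hx : ∀ e ∈ C.R j, x ∈ P.seg e)
    (h1 : C.y (j - 1) ≠ x) (h2 : x ≠ C.y (j + 1)) (hn : P.NV (C.y j)) (hn' : P.NV x) :
    (C.moveN j x hx h1 h2).vis = C.vis := by
  ext v
  rw [mem_vis, mem_vis]
  constructor
  · rintro ⟨i, hi⟩
    change Function.update C.y j x i = _ at hi
    by_cases h : i = j
    · subst h
      rw [Function.update_self] at hi
      exact absurd hi (hn' v)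
    · rw [Function.update_of_ne h] at hi
      exact ⟨i, hi⟩
  · rintro ⟨i, hi⟩
    by_cases h : i = j
    · subst h
      exact absurd hi (hn v)
    · refine ⟨i, ?_⟩
      change Function.update C.y j x i = _
      rw [Function.update_of_ne h]
      exact hi

variable {C}

/-- 2-opt after moving the node `j` -/
private theorem c7c_key (h : C.BestC) (h2 : 2 ≤ m) (j k : ZMod m) (hjk : j ≠ k)
    (hn : P.NV (C.y j)) (hy : C.y j = C.y k) (d : P.D) (hj : C.R j = [d])
    (hk : C.R k = [P.inv d]) (x : E3) (hx : x ∈ P.oseg d) :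
    dist (C.y (j + 1)) (C.y j) + dist (C.y j) (C.y (k + 1)) ≤
      dist (C.y (j + 1)) x + dist x (C.y (k + 1)) := by
  have hxs : x ∈ P.seg d := openSegment_subset_segment _ _ _ hx
  obtain ⟨al1, al2⟩ := h.along h2 j d hn hj
  have m1 : C.y (j - 1) ≠ x := fun e => al1 (e ▸ hxs)
  have m2 : x ≠ C.y (j + 1) := fun e => al2 (e ▸ hxs)
  have mx : ∀ e ∈ C.R j, x ∈ P.seg e := by
    intro e he
    rw [hj, List.mem_singleton] at he
    rw [he]
    exact hxs
  have hj1 : j - 1 ≠ j := by
    intro e
    apply C.ne (j - 1)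
    rw [sub_add_cancel, e]
  have hkj : k ≠ j - 1 := by
    intro e
    apply C.ne (j - 1)
    rw [sub_add_cancel, hy, e]
  have hkj' : k + 1 ≠ j := by
    intro e
    apply hkj
    rw [← e]
    ring
  set a : ℕ := (k - (j - 1)).val with ha_def
  have hcast : ((a : ℕ) : ZMod m) = k - (j - 1) := ZMod.natCast_zmod_val _
  have ha : 0 < a := by
    rw [ha_def, Nat.pos_iff_ne_zero, Ne, ZMod.val_eq_zero, sub_eq_zero]
    exact hkj
  have ham : a < m := ZMod.val_lt _
  have hja : j - 1 + (a : ZMod m) = k := by rw [hcast]; ring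
  have f1 := (C.face_single hj).1
  have f2 := (C.face_single hk).2
  rw [P.inv_inv] at f2
  obtain ⟨l, hl, hW, hpar, hvis, -, hlen⟩ := two_opt (C := C.moveN j x mx m1 m2) (j - 1) a ha ham
    (by
      rw [hja]
      exact P.SF_trans f1 (P.SF_symm f2))
  have hne : l ≠ [] := by
    rw [hl]
    intro h0
    rw [List.append_eq_nil_iff, List.reverse_eq_nil_iff, List.map_eq_nil_iff,
      List.flatMap_eq_nil_iff] at h0
    have h1 := h0.1 0 (List.mem_range.2 ha)
    rw [Cyc.steps, List.map_eq_nil_iff] at h1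
    exact (C.moveN j x mx m1 m2).R_ne _ h1
  have hgood : P.Good l := by
    refine ⟨hne, hW, ?_⟩
    rw [hpar, hvis, C.moveN_vis j x mx m1 m2 hn (P.NV_of_oseg hx)]
    exact h.bal
  have hmin := (h.min l hgood).1
  have hml := C.moveN_len j x mx m1 m2
  rw [hlen, hja, sub_add_cancel] at hmin
  have y1 : (C.moveN j x mx m1 m2).y (j - 1) = C.y (j - 1) := Function.update_of_ne hj1 _ _
  have y2 : (C.moveN j x mx m1 m2).y j = x := Function.update_self _ _ _
  have y3 : (C.moveN j x mx m1 m2).y k = C.y j := by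
    rw [hy]
    exact Function.update_of_ne hjk.symm _ _
  have y4 : (C.moveN j x mx m1 m2).y (k + 1) = C.y (k + 1) := Function.update_of_ne hkj' _ _
  rw [y1, y2, y3, y4] at hmin
  rw [dist_comm (C.y (j + 1)) (C.y j), dist_comm (C.y (j + 1)) x]
  linarith

private theorem c7c_half (h : C.BestC) (h2 : 2 ≤ m) (j k : ZMod m) (hjk : j ≠ k)
    (hn : P.NV (C.y j)) (hy : C.y j = C.y k) (d : P.D) (hod : C.y j ∈ P.oseg d)
    (hj : C.R j = [d]) (hk : C.R k = [P.inv d]) : C.y (j + 1) = C.y (k - 1) := by
  have hnk : P.NV (C.y k) := hy ▸ hn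
  have n1 : C.y (j + 1) ≠ C.y j := (C.ne j).symm
  have n2 : C.y (k + 1) ≠ C.y j := by
    rw [hy]
    exact (C.ne k).symm
  have n3 : C.y (k - 1) ≠ C.y j := by
    have := C.ne (k - 1)
    rw [sub_add_cancel] at this
    rw [hy]
    exact this
  have hS := c7c_straight hod (P.A_ne_B d) n1 n2
    (fun x hx => c7c_key h h2 j k hjk hn hy d hj hk x hx)
  have hSk := h.straight h2 k (P.inv d) hnk hk
  have eB : P.B (P.inv d) = P.A d := by
    unfold Poly.B Poly.A
    rw [P.tail_eq_head_inv]
  rw [eB, ← hy] at hSk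
  have a1 := P.angle_oseg hod n3
  have a2 := P.angle_oseg hod n2
  have a3 := P.angle_oseg hod n1
  have f1 := (C.face_single hj).2
  have f2 := (C.face_single hk).1
  obtain ⟨e1, g1, g1'⟩ := (C.mem_face j).2.2.2
  obtain ⟨e2, g2, g2'⟩ := (C.mem_face (k - 1)).2.2.1
  have al1 := (h.along h2 j d hn hj).2
  have al2 := (h.along h2 k (P.inv d) hnk hk).1
  refine P.ray_unique (d := P.inv d) (p := C.y j) (by rw [P.oseg_inv]; exact hod)
    ⟨e1, P.SF_trans (P.SF_symm f1) g1, g1'⟩ ⟨e2, P.SF_trans (P.SF_symm f2) g2, g2'⟩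
    (by rw [P.seg_inv]; exact al1) al2 ?_
  rw [eB]
  rw [EuclideanGeometry.angle_comm (P.B d)] at hS
  rw [EuclideanGeometry.angle_comm (P.A d)] at hSk
  linarith

/-- [QG-C7c] double points. `y j = y k = p` no vertex, `R j = [d]`, `R k = [d]` or `[inv d]`
(`edge_unique`).
Same direction: 2-opt for the segments `j-1`, `k-1` (both in the face of `d`) gives
`|y(j-1) p| + |y(k-1) p| ≤ |y(j-1) y(k-1)|`, so `p` is on the segment between two points of the face
off the edge of `d`, impossible (`edge_extreme`, `BestC.along`).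
Opposite directions: `k ≠ j ± 1`; 2-opt for the segments `j-1` and `k` (both in the face of `d`) has
equality, so the new track is also `Best`; in it the node after `y(j-1)` is `p` (half-edge `d`) and
the next one is `y (k-1)`; straightness there and for `C` at `j` give
`∠ (y (k-1)) p (B d) = ∠ (y (j+1)) p (B d)`, both points are on edges of the face of `inv d`, off
the edge of `d`: equal by `ray_unique`. Similarly `y (j-1) = y (k+1)` (exchange `j` and `k`). -/
theorem BestC.double (h : C.BestC) (h2 : 2 ≤ m) (j k : ZMod m) (hjk : j ≠ k)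
    (hn : P.NV (C.y j)) (hy : C.y j = C.y k) :
    C.y (j + 1) = C.y (k - 1) ∧ C.y (j - 1) = C.y (k + 1) ∧
      ∃ d, C.R j = [d] ∧ C.R k = [P.inv d] := by
  obtain ⟨d, hd, hod⟩ := h.single h2 j hn
  have hnk : P.NV (C.y k) := hy ▸ hn
  obtain ⟨e, he, hoe⟩ := h.single h2 k hnk
  have hoe' : C.y j ∈ P.seg e := by
    rw [hy]
    exact openSegment_subset_segment _ _ _ hoe
  rcases P.edge_unique hod hoe' with hed | hed
  · exfalso
    rw [hed] at he
    have h1 := (C.face_single hd).1
    have h1' := (C.face_single he).1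
    have hopt := h.opt h2 (j - 1) (k - 1) (fun e' => hjk (sub_left_injective e'))
      (P.SF_trans h1 (P.SF_symm h1'))
    rw [sub_add_cancel, sub_add_cancel, ← hy, dist_self, add_zero] at hopt
    have hseg : C.y j ∈ segment ℝ (C.y (j - 1)) (C.y (k - 1)) := by
      have h4 : dist (C.y (j - 1)) (C.y j) + dist (C.y j) (C.y (k - 1)) =
          dist (C.y (j - 1)) (C.y (k - 1)) := by
        apply le_antisymm
        · rw [dist_comm (C.y j) (C.y (k - 1))]
          exact hopt
        · exact dist_triangle _ _ _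
      exact (dist_add_dist_eq_iff.1 h4).mem_segment
    have t1 : C.y (j - 1) ∈ P.tri d := by
      rw [← P.tri_SF h1]
      exact (C.mem_face (j - 1)).1
    have t2 : C.y (k - 1) ∈ P.tri d := by
      rw [← P.tri_SF h1']
      exact (C.mem_face (k - 1)).1
    rcases P.edge_extreme t1 t2 hod hseg with h3 | h3 | h3
    · apply C.ne (j - 1)
      rw [sub_add_cancel]
      exact h3.symm
    · apply C.ne (k - 1)
      rw [sub_add_cancel, ← hy]
      exact h3.symm
    · exact (h.along h2 j d hn hd).1 h3.1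
  · rw [hed] at he hoe
    refine ⟨c7c_half h h2 j k hjk hn hy d hod hd he, ?_, d, hd, he⟩
    have h5 := c7c_half h h2 k j hjk.symm hnk hy.symm (P.inv d) hoe he
      (by rw [P.inv_inv]; exact hd)
    exact h5.symm

end Cyc

end QG6b
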