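import Pool.Agent.Lib_MP_6b5565.C5a
import Pool.Agent.Lib_MP_6b5565.B2

/-! [QG-C8] -/

namespace QG6b

open EuclideanGeometry

namespace C8

/-- cut a list at the elements with `p` -/
theorem chunk {α : Type*} (p : α → Prop) [DecidablePred p] (I : List α) (s : α) (hs : p s) :
    ∃ Es : List (List α × α), I ++ [s] = Es.flatMap (fun q => q.1 ++ [q.2]) ∧
      Es.length = (I ++ [s]).countP (fun a => decide (p a)) ∧ (∀ q ∈ Es, p q.2) ∧
      ∃ Es' q, Es = Es' ++ [q] ∧ q.2 = s := by
  induction I with
  | nil => exact ⟨[([], s)], by simp, by simp [hs], by simpa using hs, [], ([], s), rfl, rfl⟩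
  | cons a I ih =>
    obtain ⟨Es, h1, h2, h3, Es', q, h4, h5⟩ := ih
    by_cases hp : p a
    · refine ⟨([], a) :: Es, ?_, ?_, ?_, ([], a) :: Es', q, by rw [h4]; rfl, h5⟩
      · rw [List.flatMap_cons, ← h1]; rfl
      · rw [List.cons_append, List.countP_cons, ← h2]; simp [hp]
      · intro r hr
        rcases List.mem_cons.1 hr with rfl | hr
        · exact hp
        · exact h3 r hr
    · cases Es' with
      | nil =>
        subst h4
        refine ⟨[(a :: q.1, q.2)], ?_, ?_, ?_, [], (a :: q.1, q.2), rfl, h5⟩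
        · simp only [List.flatMap_cons, List.flatMap_nil, List.nil_append, List.append_nil] at h1 ⊢
          rw [List.cons_append, h1]; rfl
        · rw [List.cons_append, List.countP_cons, ← h2]; simp [hp]
        · intro r hr
          rw [List.mem_singleton.1 hr]
          exact h3 q (by simp)
      | cons r Es' =>
        subst h4
        refine ⟨(a :: r.1, r.2) :: (Es' ++ [q]), ?_, ?_, ?_, (a :: r.1, r.2) :: Es', q, rfl, h5⟩
        · rw [List.cons_append, h1, List.cons_append, List.flatMap_cons, List.flatMap_cons]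
          simp
        · rw [List.cons_append, List.countP_cons, ← h2]; simp [hp]
        · intro t ht
          rcases List.mem_cons.1 ht with rfl | ht
          · exact h3 r (by simp)
          · exact h3 t (by simp only [List.cons_append, List.mem_cons]; exact Or.inr ht)

/-- a block with one element is preceded by the last element of the previous block -/
theorem adj {α : Type*} (Es : List (List α × α)) (i : ℕ) (hi : i + 1 < Es.length)
    (h : (Es[i + 1]).1 = []) :
    ∃ X Y, Es.flatMap (fun q => q.1 ++ [q.2]) = X ++ ((Es[i]).2 :: (Es[i + 1]).2 :: Y) := by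
  induction Es generalizing i with
  | nil => simp at hi
  | cons q Es ih =>
    cases i with
    | zero =>
      cases Es with
      | nil => simp at hi
      | cons r Es =>
        simp only [List.getElem_cons_succ, List.getElem_cons_zero] at h ⊢
        exact ⟨q.1, Es.flatMap (fun q => q.1 ++ [q.2]), by
          rw [List.flatMap_cons, List.flatMap_cons, h]; simp⟩
    | succ i =>
      simp only [List.getElem_cons_succ] at h ⊢
      obtain ⟨X, Y, hXY⟩ := ih i (by simpa using hi) h
      exact ⟨q.1 ++ [q.2] ++ X, Y, by rw [List.flatMap_cons, hXY]; simp⟩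

variable (P : Poly)

theorem walk_last {F G : P.D} {I : List (Step P)} {s : Step P} (w : P.Walk F (I ++ [s]) G) :
    P.Walk F (I ++ [s]) (P.inv s.d) ∧ P.SF (P.inv s.d) G := by
  obtain ⟨H, h1, h2⟩ := P.Walk_append.1 w
  obtain ⟨h3, h4, h5⟩ := h2
  exact ⟨P.Walk_append.2 ⟨H, h1, h3, h4, P.SF_refl _⟩, h5⟩

theorem walk_congr_left {F F' G : P.D} {l : List (Step P)} (h : P.SF F F') (w : P.Walk F l G) :
    P.Walk F' l G := by
  cases l with
  | nil => exact P.SF_trans (P.SF_symm h) w
  | cons s l => exact ⟨P.SF_trans (P.SF_symm h) w.1, w.2⟩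

theorem walk_blocks (Es : List (List (Step P) × Step P)) (s₀ : Step P) (G : P.D)
    (w : P.Walk (P.inv s₀.d) (Es.flatMap (fun q => q.1 ++ [q.2])) G) (i : ℕ)
    (hi : i < Es.length) :
    P.Walk (P.inv ((s₀ :: Es.map Prod.snd).getD i s₀).d) ((Es[i]).1 ++ [(Es[i]).2])
      (P.inv (Es[i]).2.d) := by
  induction Es generalizing i s₀ with
  | nil => simp at hi
  | cons q Es ih =>
    rw [List.flatMap_cons] at w
    obtain ⟨H, h1, h2⟩ := P.Walk_append.1 w
    obtain ⟨h3, h4⟩ := walk_last P h1
    cases i with
    | zero => simpa using h3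
    | succ i =>
      have h5 := ih q.2 (walk_congr_left P (P.SF_symm h4) h2) i (by simpa using hi)
      have hi' : i < Es.length := by simpa using hi
      have e1 : ((s₀ :: List.map Prod.snd (q :: Es)).getD (i + 1) s₀) =
          ((q.2 :: List.map Prod.snd Es).getD i q.2) := by
        simp only [List.map_cons, List.getD_cons_succ]
        cases i with
        | zero => simp
        | succ i =>
          simp only [List.getD_cons_succ]
          have hi2 : i < (List.map Prod.snd Es).length := by simp; omega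
          rw [List.getD_eq_getElem _ _ hi2, List.getD_eq_getElem _ _ hi2]
      rw [e1]
      exact h5

end C8

namespace Cyc

variable {P : Poly} {m : ℕ} [NeZero m] (C : Cyc P m)

variable {C}

theorem countP_ge (C : Cyc P m) (p : Step P → Prop) [DecidablePred p] (q : E3 → Prop)
    [DecidablePred q] (hpq : ∀ s : Step P, q s.x → p s) (a : ZMod m) (n : ℕ) :
    ((Finset.range n).filter (fun t => q (C.y (a + ((t : ℕ) : ZMod m))))).card ≤
      ((List.range n).flatMap (fun t => C.steps (a + ((t : ℕ) : ZMod m)))).countP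
        (fun s => decide (p s)) := by
  induction n with
  | zero => simp
  | succ n ih =>
    rw [Finset.range_add_one, List.range_succ, List.flatMap_append, List.countP_append,
      List.flatMap_singleton]
    by_cases hq : q (C.y (a + ((n : ℕ) : ZMod m)))
    · rw [Finset.filter_insert, if_pos hq, Finset.card_insert_of_notMem (by simp)]
      refine Nat.add_le_add ih ?_
      obtain ⟨e, he⟩ := List.exists_mem_of_ne_nil _ (C.R_ne (a + ((n : ℕ) : ZMod m)))
      rw [Nat.succ_le_iff, List.countP_pos_iff]
      refine ⟨⟨e, C.y (a + ((n : ℕ) : ZMod m))⟩, List.mem_map.2 ⟨e, he, rfl⟩, ?_⟩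
      simpa using hpq ⟨e, C.y (a + ((n : ℕ) : ZMod m))⟩ hq
    · rw [Finset.filter_insert, if_neg hq]
      exact ih.trans (Nat.le_add_right _ _)

/-- [QG-C8] number of non-vertex nodes on one edge. Rotate so that the last step is a non-vertex
crossing of the edge of `d`, cut into blocks at the non-vertex crossings of this edge. At most
`card vis ≤ 1` block is protected; a block with one step would be a backtracking at non-vertices
(`Best.no_backtrack`); if at least `nV` blocks are unprotected `block_reduce` contradicts the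
tie-break (same `vis`, fewer steps, not longer). -/
theorem BestC.cross (h : C.BestC) (h2 : 2 ≤ m) (hv : C.vis.card ≤ 1) (d : P.D) :
    {j | C.y j ∈ P.oseg d}.ncard ≤ P.nV - 1 + C.vis.card := by
  classical
  by_contra hcon
  rw [not_le] at hcon
  obtain ⟨j₀, hj₀⟩ : {j | C.y j ∈ P.oseg d}.Nonempty := by
    apply Set.nonempty_of_ncard_ne_zero; omega
  have hnV : 2 ≤ P.nV := by
    have := P.euler
    unfold Poly.nV
    omega
  have hB : P.Best (C.toList (j₀ + 1)) := h _
  -- half-edges at the points of the edge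
  have hstep : ∀ s ∈ C.toList (j₀ + 1), s.x ∈ P.oseg d → s.d = d ∨ s.d = P.inv d := by
    intro s hs hx
    unfold toList at hs
    rw [List.mem_flatMap] at hs
    obtain ⟨t, _, hs⟩ := hs
    obtain ⟨e, he, rfl⟩ := List.mem_map.1 hs
    exact P.edge_unique hx (C.on _ e he)
  -- the number of crossings
  have hcount : {j | C.y j ∈ P.oseg d}.ncard ≤
      (C.toList (j₀ + 1)).countP (fun s => decide (s.x ∈ P.oseg d)) := by
    refine le_trans ?_ (countP_ge C (fun s => s.x ∈ P.oseg d) (fun x => x ∈ P.oseg d)
      (fun s hs => hs) (j₀ + 1) m)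
    have hsub : {j | C.y j ∈ P.oseg d} ⊆
        ((((Finset.range m).filter (fun t => C.y (j₀ + 1 + ((t : ℕ) : ZMod m)) ∈ P.oseg d)).image
          (fun t => j₀ + 1 + ((t : ℕ) : ZMod m)) : Finset (ZMod m)) : Set (ZMod m)) := by
      intro j hj
      have e1 : j₀ + 1 + (((j - (j₀ + 1)).val : ℕ) : ZMod m) = j := by
        rw [ZMod.natCast_zmod_val]; ring
      simp only [Finset.coe_image, Set.mem_image, Finset.mem_coe, Finset.mem_filter,
        Finset.mem_range]
      exact ⟨(j - (j₀ + 1)).val, ⟨ZMod.val_lt _, by rw [e1]; exact hj⟩, e1⟩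
    refine (Set.ncard_le_ncard hsub (Finset.finite_toSet _)).trans ?_
    rw [Set.ncard_coe_finset]
    exact Finset.card_image_le
  -- the last step
  obtain ⟨I₀, s₀, hL, hs₀⟩ : ∃ I₀ s₀, C.toList (j₀ + 1) = I₀ ++ [s₀] ∧ s₀.x ∈ P.oseg d := by
    obtain ⟨m', rfl⟩ : ∃ m', m = m' + 1 := ⟨m - 1, by omega⟩
    have e1 : j₀ + 1 + ((m' : ℕ) : ZMod (m' + 1)) = j₀ := by
      have : ((m' : ℕ) : ZMod (m' + 1)) + 1 = 0 := by
        have := ZMod.natCast_self (m' + 1)
        push_cast at this
        exact this
      linear_combination this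
    obtain ⟨R', e, hR⟩ : ∃ R' e, C.R j₀ = R' ++ [e] :=
      ⟨(C.R j₀).dropLast, (C.R j₀).getLast (C.R_ne j₀), (List.dropLast_append_getLast _).symm⟩
    refine ⟨(List.range m').flatMap (fun t => C.steps (j₀ + 1 + ((t : ℕ) : ZMod (m' + 1)))) ++
      R'.map (fun e => ⟨e, C.y j₀⟩), ⟨e, C.y j₀⟩, ?_, hj₀⟩
    unfold toList
    rw [List.range_succ, List.flatMap_append, List.flatMap_singleton, e1]
    unfold steps
    rw [hR]
    simp
  obtain ⟨Es, hE1, hE2, hE3, Es', q₀, hE4, hE5⟩ :=
    C8.chunk (fun s : Step P => s.x ∈ P.oseg d) I₀ s₀ hs₀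
  have hk : P.nV + C.vis.card ≤ Es.length := by
    rw [hE2, ← hL]; omega
  rw [← hL] at hE1
  have hmem : ∀ q ∈ Es, q.2 ∈ C.toList (j₀ + 1) := by
    intro q hq
    rw [hE1, List.mem_flatMap]
    exact ⟨q, hq, by simp⟩
  -- consecutive crossings of the edge do not occur
  have hno : ∀ (s' s : Step P) (Y : List (Step P)), P.Best (s' :: s :: Y) →
      s' ∈ C.toList (j₀ + 1) → s ∈ C.toList (j₀ + 1) → s'.x ∈ P.oseg d → s.x ∈ P.oseg d →
      False := by
    intro s' s Y hb hm' hm hx' hx
    obtain ⟨F, hF⟩ := hb.1.2.1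
    have hw : P.SF (P.inv s'.d) s.d := hF.2.2.1
    have hd : s.d = P.inv s'.d ∨ s.d = s'.d := by
      rcases hstep s' hm' hx' with h1 | h1 <;> rcases hstep s hm hx with h3 | h3
      · exact Or.inr (h3.trans h1.symm)
      · exact Or.inl (by rw [h3, h1])
      · exact Or.inl (by rw [h3, h1, P.inv_inv])
      · exact Or.inr (h3.trans h1.symm)
    rcases hd with hd | hd
    · exact hb.no_backtrack P hd (P.NV_of_oseg hx') (P.NV_of_oseg hx)
    · rw [hd] at hw
      exact P.not_SF_inv _ (P.SF_symm hw)
  have hlen : ∀ i : Fin Es.length, 2 ≤ ((Es[i]).1 ++ [(Es[i]).2]).length := by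
    rintro ⟨i, hi⟩
    by_contra hlt
    have hnil : (Es[i]).1 = [] := by
      rw [← List.length_eq_zero_iff]
      simp only [Fin.getElem_fin, List.length_append, List.length_cons, List.length_nil] at hlt
      omega
    cases i with
    | zero =>
      -- the last step precedes the first one
      have e1 : ∃ Y, C.toList (j₀ + 1) = (Es[0]).2 :: Y := by
        rw [hE1]
        cases Es with
        | nil => simp at hi
        | cons q Es =>
          simp only [List.getElem_cons_zero] at hnil ⊢
          exact ⟨_, by rw [List.flatMap_cons, hnil]; rfl⟩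
      obtain ⟨Y, hY⟩ := e1
      have h3 : 2 ≤ (C.toList (j₀ + 1)).length := by
        have := List.countP_le_length (l := C.toList (j₀ + 1))
          (p := fun s => decide (s.x ∈ P.oseg d))
        omega
      cases I₀ with
      | nil => rw [hL] at h3; simp at h3
      | cons s I₁ =>
        have h4 : (Es[0]).2 = s := by
          have := hY.symm.trans hL
          simp only [List.cons_append, List.cons.injEq] at this
          exact this.1
        have hb : P.Best (s₀ :: s :: I₁) := by
          have : P.Best ((s :: I₁) ++ [s₀]) := by rw [← hL]; exact hB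
          exact this.rotate P
        refine hno s₀ s I₁ hb (by rw [hL]; simp) (by rw [hL]; simp) hs₀ ?_
        rw [← h4]
        exact hE3 _ (List.getElem_mem _)
    | succ i =>
      obtain ⟨X, Y, hXY⟩ := C8.adj Es i hi hnil
      have hb : P.Best ((Es[i]).2 :: (Es[i + 1]).2 :: (Y ++ X)) := by
        have : P.Best (X ++ ((Es[i]).2 :: (Es[i + 1]).2 :: Y)) := by rw [← hXY, ← hE1]; exact hB
        exact this.rotate P
      exact hno _ _ _ hb (hmem _ (List.getElem_mem _)) (hmem _ (List.getElem_mem _))
        (hE3 _ (List.getElem_mem _)) (hE3 _ (List.getElem_mem _))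
  -- the blocks and the faces
  have hkpos : 0 < Es.length := by omega
  have : Nonempty (Fin Es.length) := ⟨⟨0, hkpos⟩⟩
  let B : Fin Es.length → List (Step P) := fun i => (Es[i]).1 ++ [(Es[i]).2]
  let T : ℕ → P.D := fun i => P.inv ((s₀ :: Es.map Prod.snd).getD i s₀).d
  have hs₀m : s₀ ∈ C.toList (j₀ + 1) := by rw [hL]; simp
  have hT : ∀ i, T i = d ∨ T i = P.inv d := by
    intro i
    have h3 : ((s₀ :: Es.map Prod.snd).getD i s₀).d = d ∨
        ((s₀ :: Es.map Prod.snd).getD i s₀).d = P.inv d := by
      by_cases hi : i < (s₀ :: Es.map Prod.snd).length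
      · rw [List.getD_eq_getElem _ _ hi]
        have h4 := List.getElem_mem hi
        rcases List.mem_cons.1 h4 with h5 | h5
        · rw [h5]; exact hstep s₀ hs₀m hs₀
        · obtain ⟨q, hq, hq'⟩ := List.mem_map.1 h5
          rw [← hq']
          exact hstep _ (hmem q hq) (hE3 q hq)
      · rw [List.getD_eq_default _ _ (not_lt.1 hi)]
        exact hstep s₀ hs₀m hs₀
    show P.inv _ = d ∨ P.inv _ = P.inv d
    rcases h3 with h3 | h3
    · rw [h3]; exact Or.inr rfl
    · rw [h3, P.inv_inv]; exact Or.inl rfl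
  have hTs : ∀ (i : ℕ) (hi : i < Es.length), T (i + 1) = P.inv (Es[i]).2.d := by
    intro i hi
    show P.inv ((s₀ :: Es.map Prod.snd).getD (i + 1) s₀).d = _
    rw [List.getD_cons_succ, List.getD_eq_getElem _ _ (by simpa using hi), List.getElem_map]
  have hTm : T Es.length = T 0 := by
    have h3 : T ((Es.length - 1) + 1) = P.inv (Es[Es.length - 1]).2.d := hTs _ (by omega)
    rw [Nat.sub_add_cancel hkpos] at h3
    rw [h3]
    have h4 : Es[Es.length - 1] = q₀ := by
      have : Es.getLast (by rintro rfl; simp at hkpos) = q₀ := by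
        simp only [hE4, List.getLast_append_singleton]
      rw [← this, List.getLast_eq_getElem]
    rw [h4, hE5]
    rfl
  have hBl : C.toList (j₀ + 1) = (List.finRange Es.length).flatMap B := by
    have e1 : (List.finRange Es.length).map (fun i => Es[i]) = Es := by
      apply List.ext_getElem
      · simp
      · intro n h1 h2
        simp
    rw [hE1]
    conv_lhs => rw [← e1, List.flatMap_map]
  obtain ⟨F, hF⟩ := hB.1.2.1
  have hF0 : P.SF (P.inv s₀.d) F := by
    rw [hL] at hF
    exact (C8.walk_last P hF).2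
  have hW : ∀ j : Fin Es.length, P.Walk (T j) (B j) (T (j + 1)) := by
    intro j
    rw [hTs j j.2]
    refine C8.walk_blocks P Es s₀ F ?_ j j.2
    rw [← hE1]
    exact C8.walk_congr_left P (P.SF_symm hF0) hF
  have hlast : ∀ j, ∃ I s, B j = I ++ [s] ∧ s.x ∈ P.seg d := by
    intro j
    exact ⟨(Es[j]).1, (Es[j]).2, rfl,
      openSegment_subset_segment ℝ _ _ (hE3 _ (List.getElem_mem _))⟩
  -- protected blocks
  have hprot : ∀ v, v ∈ P.vis ((C.toList (j₀ + 1)).map Step.x) →
      ∃ i : Fin Es.length, v ∈ P.vis ((B i).map Step.x) := by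
    intro v hv
    rw [P.mem_vis, List.mem_map] at hv
    obtain ⟨s, hs, hsv⟩ := hv
    rw [hBl, List.mem_flatMap] at hs
    obtain ⟨i, _, hi⟩ := hs
    exact ⟨i, by rw [P.mem_vis, List.mem_map]; exact ⟨s, hi, hsv⟩⟩
  choose! c hc using hprot
  have hvis : (P.vis ((C.toList (j₀ + 1)).map Step.x)).card = C.vis.card := by
    rw [C.vis_toList]
  let bad : Finset (Fin Es.length) := (P.vis ((C.toList (j₀ + 1)).map Step.x)).image c
  have hbad : bad.card ≤ C.vis.card := by
    rw [← hvis]; exact Finset.card_image_le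
  have hScard : P.nV ≤ (badᶜ).card := by
    rw [Finset.card_compl, Fintype.card_fin]
    omega
  obtain ⟨l', hg, hle, hlt, hvis'⟩ := P.block_reduce hB.1 d Es.length B T hT hTm hBl hW hlast
    badᶜ hScard (fun j _ => hlen j) (by
      intro v hv
      refine ⟨c v, ?_, hc v hv⟩
      rw [Finset.mem_compl, not_not]
      exact Finset.mem_image_of_mem _ hv)
  have h5 := hB.2 l' hg
  have h6 := h5.2 (le_antisymm hle h5.1)
  unfold Poly.mu at h6
  rw [hvis'] at h6
  rcases Prod.Lex.toLex_le_toLex.1 h6 with h7 | ⟨_, h7⟩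
  · exact lt_irrefl _ h7
  · rcases Prod.Lex.toLex_le_toLex.1 h7 with h8 | ⟨h8, _⟩
    · exact absurd h8 (by simp; omega)
    · simp only at h8; omega

end Cyc

end QG6b
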