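import Mathlib

/-!
# Comb: a simple closed curve on a triangulated surface has at most the Euler characteristic of
a disc on each side

Half-edges `D`, reversal `inv`, `nxt` in the triangular faces, `nc d` the number of segments of the
curve which cut off the corner at the tail of `d` in the face of `d`.
-/

open Finset

set_option linter.unusedSectionVars false

namespace Pool.Agent.SQ

/-- the number of classes of a setoid as a sum of weights -/
theorem card_quot {X : Type*} [Fintype X] (r : Setoid X) [Fintype (Quotient r)] (w : X → ℚ)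
    (hw : ∀ x, w x * (Nat.card {y // r y x} : ℚ) = 1) :
    ∑ x, w x = Fintype.card (Quotient r) := by
  classical
  have h1 : ∑ x, w x = ∑ q : Quotient r, ∑ x ∈ univ.filter (fun x => (⟦x⟧ : Quotient r) = q), w x := by
    rw [← Finset.sum_fiberwise_of_maps_to (s := univ) (t := univ) (g := fun x => (⟦x⟧ : Quotient r))
      (fun x _ => mem_univ _)]
  rw [h1]
  have h2 : ∀ q : Quotient r, ∑ x ∈ univ.filter (fun x => (⟦x⟧ : Quotient r) = q), w x = 1 := by
    intro q
    obtain ⟨a, rfl⟩ := Quotient.exists_rep q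
    have h3 : ∀ x ∈ univ.filter (fun x => (⟦x⟧ : Quotient r) = ⟦a⟧),
        w x = 1 / (Nat.card {y // r y a} : ℚ) := by
      intro x hx
      have hxa : r x a := Quotient.exact (mem_filter.1 hx).2
      have h4 := hw x
      have h5 : Nat.card {y // r y x} = Nat.card {y // r y a} := by
        refine Nat.card_congr (Equiv.subtypeEquivRight fun y => ?_)
        exact ⟨fun h => Setoid.trans' r h hxa, fun h => Setoid.trans' r h (Setoid.symm' r hxa)⟩
      rw [h5] at h4
      have h6 : (Nat.card {y // r y a} : ℚ) ≠ 0 := by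
        intro h0
        rw [h0, mul_zero] at h4
        exact zero_ne_one h4
      field_simp
      exact h4
    rw [Finset.sum_congr rfl h3, Finset.sum_const]
    have h7 : (univ.filter (fun x => (⟦x⟧ : Quotient r) = ⟦a⟧)).card = Nat.card {y // r y a} := by
      rw [Nat.card_eq_fintype_card, Fintype.card_subtype]
      congr 1
      ext y
      simp only [mem_filter, mem_univ, true_and]
      exact ⟨fun h => Quotient.exact h, fun h => Quotient.sound h⟩
    rw [h7]
    have h4 := hw a
    have h6 : (Nat.card {y // r y a} : ℚ) ≠ 0 := by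
      intro h0
      rw [h0, mul_zero] at h4
      exact zero_ne_one h4
    rw [nsmul_eq_mul]
    field_simp
  rw [Finset.sum_congr rfl fun q _ => h2 q, Finset.sum_const, nsmul_eq_mul, mul_one]
  rfl

/-- the dimension count -/
theorem lin {X A B W : Type*} [Fintype X] [Fintype A] [Fintype B] [Fintype W]
    (p : X → A) (q : X → B) (hp : Function.Surjective p) (hq : Function.Surjective q)
    (psi : (X → ℚ) →ₗ[ℚ] (W → ℚ)) (hs : Function.Surjective psi)
    (h0 : ∀ a : A → ℚ, psi (a ∘ p) = 0) (h1 : ∀ b : B → ℚ, psi (b ∘ q) = 0)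
    (hc : ∀ (a : A → ℚ) (b : B → ℚ), a ∘ p = b ∘ q → ∃ c, ∀ x, a (p x) = c) :
    Fintype.card A + Fintype.card B + Fintype.card W ≤ Fintype.card X + 1 := by
  classical
  let L : ((A → ℚ) × (B → ℚ)) →ₗ[ℚ] (X → ℚ) :=
    { toFun := fun ab => ab.1 ∘ p - ab.2 ∘ q
      map_add' := by
        intro u v
        funext x
        simp only [Prod.fst_add, Prod.snd_add, Pi.sub_apply, Function.comp_apply, Pi.add_apply]
        ring
      map_smul' := by
        intro c u
        funext x
        simp only [Prod.smul_fst, Prod.smul_snd, Pi.sub_apply, Function.comp_apply, Pi.smul_apply,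
          smul_eq_mul, RingHom.id_apply]
        ring }
  have hker : L.ker ≤ Submodule.span ℚ {((fun _ => 1, fun _ => 1) : (A → ℚ) × (B → ℚ))} := by
    intro ab hab
    have h2 : ab.1 ∘ p = ab.2 ∘ q := by
      have h3 : ab.1 ∘ p - ab.2 ∘ q = 0 := LinearMap.mem_ker.1 hab
      exact sub_eq_zero.1 h3
    obtain ⟨c, hc'⟩ := hc ab.1 ab.2 h2
    rw [Submodule.mem_span_singleton]
    refine ⟨c, ?_⟩
    refine Prod.ext ?_ ?_
    · funext a
      obtain ⟨x, rfl⟩ := hp a
      simp [hc' x]
    · funext b
      obtain ⟨x, rfl⟩ := hq b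
      have h4 : ab.2 (q x) = c := by
        have := congrFun h2 x
        simp only [Function.comp_apply] at this
        rw [← this]
        exact hc' x
      simp [h4]
  have h5 : Module.finrank ℚ L.ker ≤ 1 :=
    (Submodule.finrank_mono hker).trans ((finrank_span_le_card (R := ℚ) _).trans (by simp))
  have h6 : Module.finrank ℚ L.range + Module.finrank ℚ L.ker =
      Fintype.card A + Fintype.card B := by
    rw [LinearMap.finrank_range_add_finrank_ker]
    simp
  have h7 : Module.finrank ℚ psi.range + Module.finrank ℚ psi.ker = Fintype.card X := by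
    rw [LinearMap.finrank_range_add_finrank_ker]
    simp
  have h8 : Module.finrank ℚ psi.range = Fintype.card W := by
    rw [LinearMap.range_eq_top.2 hs]
    simp
  have h9 : L.range ≤ psi.ker := by
    rintro f ⟨ab, rfl⟩
    rw [LinearMap.mem_ker]
    change psi (ab.1 ∘ p - ab.2 ∘ q) = 0
    rw [map_sub, h0, h1, sub_zero]
  have h10 := Submodule.finrank_mono h9
  omega

section core

variable {D V : Type*} [Fintype D] [DecidableEq D] [Fintype V] [DecidableEq V]

/-- the number of crossings of `d` -/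
def mm (nxt : D → D) (nc : D → ℕ) (d : D) : ℕ := nc d + nc (nxt d)

/-- the colour of the vertices, `nc`, ...: a simple closed curve in normal position on a
triangulated surface -/
structure Curve (inv nxt : D → D) (tail : D → V) (nc : D → ℕ) (col : V → ZMod 2) : Prop where
  inv_inv : ∀ d, inv (inv d) = d
  inv_ne : ∀ d, inv d ≠ d
  nxt3 : ∀ d, nxt (nxt (nxt d)) = d
  nxt_ne : ∀ d, nxt d ≠ d
  conn : ∀ S : D → Prop, (∃ d, S d) → (∀ d, S d → S (inv d)) → (∀ d, S d → S (nxt d)) → ∀ d, S d
  tail_rot : ∀ d, tail (inv (nxt (nxt d))) = tail d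
  tail_surj : ∀ v, ∃ d, tail d = v
  sym : ∀ d, mm nxt nc (inv d) = mm nxt nc d
  colour : ∀ d, col (tail (nxt d)) = col (tail d) + (mm nxt nc d : ZMod 2)
  cross : ∃ d, 0 < mm nxt nc d
  one : ∀ S : D → ℕ → Prop, (∃ d i, i < mm nxt nc d ∧ S d i) →
    (∀ d i, i < mm nxt nc d → S d i → S (inv d) (mm nxt nc d - 1 - i)) →
    (∀ d i, i < nc d → S d i → S (nxt (nxt d)) (mm nxt nc (nxt (nxt d)) - 1 - i)) →
    (∀ d i, nc d ≤ i → i < mm nxt nc d → S d i → S (nxt d) (mm nxt nc d - 1 - i)) →
    ∀ d i, i < mm nxt nc d → S d i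

variable {inv nxt : D → D} {tail : D → V} {nc : D → ℕ} {col : V → ZMod 2}

/-- the intervals of colour `c` on the half-edges -/
def XX (nxt : D → D) (tail : D → V) (nc : D → ℕ) (col : V → ZMod 2) (c : ZMod 2) :
    Finset (D × ℕ) :=
  (univ ×ˢ range ((univ.sup (mm nxt nc)) + 1)).filter
    fun p => p.2 ≤ mm nxt nc p.1 ∧ col (tail p.1) + (p.2 : ZMod 2) = c

theorem mem_XX {c : ZMod 2} {p : D × ℕ} : p ∈ XX nxt tail nc col c ↔
    p.2 ≤ mm nxt nc p.1 ∧ col (tail p.1) + (p.2 : ZMod 2) = c := by
  unfold XX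
  rw [mem_filter]
  constructor
  · exact fun h => h.2
  · intro h
    refine ⟨?_, h⟩
    rw [mem_product]
    refine ⟨mem_univ _, ?_⟩
    rw [mem_range]
    have h1 : mm nxt nc p.1 ≤ univ.sup (mm nxt nc) := Finset.le_sup (mem_univ _)
    omega

/-- the next interval of the same cell -/
def rho (nxt : D → D) (nc : D → ℕ) (p : D × ℕ) : D × ℕ :=
  if p.2 < nc p.1 then (nxt (nxt p.1), mm nxt nc (nxt (nxt p.1)) - p.2)
  else if p.2 = nc p.1 then (nxt p.1, nc (nxt p.1))
  else (nxt p.1, mm nxt nc p.1 - p.2)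

/-- the same interval on the reversed half-edge -/
def rev (inv nxt : D → D) (nc : D → ℕ) (p : D × ℕ) : D × ℕ := (inv p.1, mm nxt nc p.1 - p.2)

theorem z2_add_self (a : ZMod 2) : a + a = 0 := by
  have : ∀ a : ZMod 2, a + a = 0 := by decide
  exact this a

theorem z2_sub (a b : ZMod 2) : a - b = a + b := by
  have : ∀ a b : ZMod 2, a - b = a + b := by decide
  exact this a b

namespace Curve

variable (h : Curve inv nxt tail nc col)
include h

theorem mm_prev (d : D) : mm nxt nc (nxt (nxt d)) = nc (nxt (nxt d)) + nc d := by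
  unfold mm
  rw [h.nxt3]

theorem col_inv (d : D) : col (tail (inv d)) = col (tail d) + (mm nxt nc d : ZMod 2) := by
  have h1 := h.tail_rot (nxt d)
  rw [h.nxt3] at h1
  rw [h1, h.colour]

theorem col_prev (d : D) :
    col (tail (nxt (nxt d))) = col (tail d) + (mm nxt nc (nxt (nxt d)) : ZMod 2) := by
  have h1 := h.colour (nxt (nxt d))
  rw [h.nxt3] at h1
  rw [h1, add_assoc, z2_add_self, add_zero]

theorem rho_mem {c : ZMod 2} {p : D × ℕ} (hp : p ∈ XX nxt tail nc col c) :
    rho nxt nc p ∈ XX nxt tail nc col c := by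
  obtain ⟨d, i⟩ := p
  rw [mem_XX] at hp
  obtain ⟨hp1, hp2⟩ := hp
  simp only at hp1 hp2
  unfold rho
  simp only
  by_cases h1 : i < nc d
  · rw [if_pos h1, mem_XX]
    simp only
    have h2 := h.mm_prev d
    refine ⟨Nat.sub_le _ _, ?_⟩
    rw [h.col_prev, Nat.cast_sub (by omega), z2_sub, ← hp2]
    have h3 := z2_add_self (mm nxt nc (nxt (nxt d)) : ZMod 2)
    linear_combination h3
  · rw [if_neg h1]
    by_cases h2 : i = nc d
    · rw [if_pos h2, mem_XX]
      simp only
      refine ⟨by unfold mm; omega, ?_⟩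
      rw [h.colour]
      have h3 : (mm nxt nc d : ZMod 2) = (nc d : ZMod 2) + (nc (nxt d) : ZMod 2) := by
        unfold mm
        push_cast
        ring
      rw [h3, ← hp2, h2]
      have h4 := z2_add_self (nc (nxt d) : ZMod 2)
      linear_combination h4
    · rw [if_neg h2, mem_XX]
      simp only
      have h3 : mm nxt nc d = nc d + nc (nxt d) := rfl
      have h4 : mm nxt nc (nxt d) = nc (nxt d) + nc (nxt (nxt d)) := rfl
      refine ⟨by omega, ?_⟩
      rw [h.colour, Nat.cast_sub hp1, z2_sub, ← hp2]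
      have h3 := z2_add_self (mm nxt nc d : ZMod 2)
      linear_combination h3

theorem rev_mem {c : ZMod 2} {p : D × ℕ} (hp : p ∈ XX nxt tail nc col c) :
    rev inv nxt nc p ∈ XX nxt tail nc col c := by
  obtain ⟨d, i⟩ := p
  rw [mem_XX] at hp
  obtain ⟨hp1, hp2⟩ := hp
  simp only at hp1 hp2
  unfold rev
  rw [mem_XX]
  simp only
  rw [h.sym, h.col_inv, Nat.cast_sub hp1, z2_sub, ← hp2]
  refine ⟨Nat.sub_le _ _, ?_⟩
  have h3 := z2_add_self (mm nxt nc d : ZMod 2)
  linear_combination h3

theorem rev_rev {p : D × ℕ} (hp : p.2 ≤ mm nxt nc p.1) :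
    rev inv nxt nc (rev inv nxt nc p) = p := by
  obtain ⟨d, i⟩ := p
  unfold rev
  simp only at hp ⊢
  rw [h.inv_inv, h.sym]
  have : mm nxt nc d - (mm nxt nc d - i) = i := by omega
  rw [this]

/-- a non central cell has two intervals -/
theorem rho_rho {p : D × ℕ} (hp : p.2 ≤ mm nxt nc p.1) (hn : p.2 ≠ nc p.1) :
    rho nxt nc (rho nxt nc p) = p := by
  obtain ⟨d, i⟩ := p
  simp only at hp hn
  have h1 : mm nxt nc d = nc d + nc (nxt d) := rfl
  have h2 := h.mm_prev d
  by_cases h3 : i < nc d
  · have h4 : rho nxt nc (d, i) = (nxt (nxt d), mm nxt nc (nxt (nxt d)) - i) := by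
      unfold rho
      simp only
      rw [if_pos h3]
    rw [h4]
    unfold rho
    simp only
    rw [if_neg (by omega), if_neg (by omega), h.nxt3]
    have : mm nxt nc (nxt (nxt d)) - (mm nxt nc (nxt (nxt d)) - i) = i := by omega
    rw [this]
  · have h4 : rho nxt nc (d, i) = (nxt d, mm nxt nc d - i) := by
      unfold rho
      simp only
      rw [if_neg h3, if_neg hn]
    rw [h4]
    unfold rho
    simp only
    rw [if_pos (by omega), h.nxt3]
    have : mm nxt nc d - (mm nxt nc d - i) = i := by omega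
    rw [this]

theorem rho_ne {p : D × ℕ} : rho nxt nc p ≠ p := by
  obtain ⟨d, i⟩ := p
  intro h1
  have h2 := congrArg Prod.fst h1
  have h3 : nxt (nxt d) ≠ d := by
    intro h4
    have h5 := h.nxt3 d
    rw [h4] at h5
    exact h.nxt_ne d h5
  unfold rho at h2
  simp only at h2
  split_ifs at h2
  · exact h3 h2
  · exact h.nxt_ne d h2
  · exact h.nxt_ne d h2

/-- the central cell -/
theorem rho_cent (d : D) : rho nxt nc (d, nc d) = (nxt d, nc (nxt d)) := by
  unfold rho
  simp only
  rw [if_neg (lt_irrefl _), if_pos trivial]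

theorem rho3 (d : D) : rho nxt nc (rho nxt nc (rho nxt nc (d, nc d))) = (d, nc d) := by
  rw [h.rho_cent, h.rho_cent, h.rho_cent, h.nxt3]

end Curve

end core

section dim

variable {D V : Type*} [Fintype D] [DecidableEq D] [Fintype V] [DecidableEq V]
variable {inv nxt : D → D} {tail : D → V} {nc : D → ℕ} {col : V → ZMod 2}

theorem iter2 {X : Type*} (f : X → X) (x : X) (h2 : f (f x) = x) (k : ℕ) :
    f^[k] x = x ∨ f^[k] x = f x := by
  induction k with
  | zero => exact Or.inl rfl
  | succ k ih =>
    rw [Function.iterate_succ_apply']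
    rcases ih with h | h
    · rw [h]; exact Or.inr rfl
    · rw [h]; exact Or.inl h2

theorem iter3 {X : Type*} (f : X → X) (x : X) (h3 : f (f (f x)) = x) (k : ℕ) :
    f^[k] x = x ∨ f^[k] x = f x ∨ f^[k] x = f (f x) := by
  induction k with
  | zero => exact Or.inl rfl
  | succ k ih =>
    rw [Function.iterate_succ_apply']
    rcases ih with h | h | h
    · rw [h]; exact Or.inr (Or.inl rfl)
    · rw [h]; exact Or.inr (Or.inr rfl)
    · rw [h]; exact Or.inl h3

theorem iter6 {X : Type*} (f : X → X) (hf : ∀ x, f (f x) = x ∨ f (f (f x)) = x) (x : X) :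
    f^[6] x = x := by
  change f (f (f (f (f (f x))))) = x
  rcases hf x with h | h
  · rw [h, h, h]
  · rw [h, h]

theorem iter6k {X : Type*} (f : X → X) (hf : ∀ x, f (f x) = x ∨ f (f (f x)) = x) (x : X)
    (k : ℕ) : f^[6 * k] x = x := by
  rw [Function.iterate_mul]
  induction k with
  | zero => rfl
  | succ k ih => rw [Function.iterate_succ_apply', ih, iter6 f hf]

/-- the classes of a map with orbits of length 2 or 3 -/
def orb {X : Type*} (f : X → X) (hf : ∀ x, f (f x) = x ∨ f (f (f x)) = x) : Setoid X where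
  r x y := ∃ k : ℕ, f^[k] x = y
  iseqv :=
    { refl := fun x => ⟨0, rfl⟩
      symm := by
        rintro x y ⟨k, rfl⟩
        refine ⟨5 * k, ?_⟩
        rw [← Function.iterate_add_apply]
        have : 5 * k + k = 6 * k := by ring
        rw [this, iter6k f hf]
      trans := by
        rintro x y z ⟨k, rfl⟩ ⟨l, rfl⟩
        exact ⟨l + k, by rw [Function.iterate_add_apply]⟩ }

theorem orb_map {X : Type*} (f : X → X) (hf : ∀ x, f (f x) = x ∨ f (f (f x)) = x) (x : X) :
    (Quotient.mk (orb f hf) (f x)) = Quotient.mk (orb f hf) x :=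
  Quotient.sound ((orb f hf).symm' ⟨1, rfl⟩)

theorem card2 {X : Type*} (f : X → X) (hf : ∀ x, f (f x) = x ∨ f (f (f x)) = x) (x : X)
    (h2 : f (f x) = x) (hne : f x ≠ x) : Nat.card {y // (orb f hf) y x} = 2 := by
  classical
  have h1 : ∀ y, (orb f hf) y x ↔ y ∈ ({x, f x} : Finset X) := by
    intro y
    rw [mem_insert, mem_singleton]
    constructor
    · intro h
      obtain ⟨k, hk⟩ := (orb f hf).symm' h
      rw [← hk]
      exact iter2 f x h2 k
    · rintro (rfl | rfl)
      · exact ⟨0, rfl⟩
      · exact ⟨1, h2⟩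
  rw [Nat.card_congr (Equiv.subtypeEquivRight h1)]
  have h3 : Nat.card {y // y ∈ ({x, f x} : Finset X)} = ({x, f x} : Finset X).card := by
    rw [Nat.card_eq_fintype_card, Fintype.card_coe]
  rw [h3, Finset.card_pair (Ne.symm hne)]

theorem card3 {X : Type*} (f : X → X) (hf : ∀ x, f (f x) = x ∨ f (f (f x)) = x) (x : X)
    (h3 : f (f (f x)) = x) (hne : f x ≠ x) : Nat.card {y // (orb f hf) y x} = 3 := by
  classical
  have h1 : ∀ y, (orb f hf) y x ↔ y ∈ ({x, f x, f (f x)} : Finset X) := by
    intro y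
    rw [mem_insert, mem_insert, mem_singleton]
    constructor
    · intro h
      obtain ⟨k, hk⟩ := (orb f hf).symm' h
      rw [← hk]
      exact iter3 f x h3 k
    · rintro (rfl | rfl | rfl)
      · exact ⟨0, rfl⟩
      · exact ⟨2, h3⟩
      · exact ⟨1, h3⟩
  rw [Nat.card_congr (Equiv.subtypeEquivRight h1)]
  have h4 : Nat.card {y // y ∈ ({x, f x, f (f x)} : Finset X)} =
      ({x, f x, f (f x)} : Finset X).card := by
    rw [Nat.card_eq_fintype_card, Fintype.card_coe]
  have h5 : f (f x) ≠ x := by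
    intro h6
    apply hne
    have h7 := h3
    rw [h6] at h7
    exact h7
  have h6 : f (f x) ≠ f x := by
    intro h7
    apply hne
    have h8 := h3
    rw [h7, h7] at h8
    exact h8
  rw [h4, Finset.card_insert_of_notMem, Finset.card_pair (Ne.symm h6)]
  rw [mem_insert, mem_singleton]
  rintro (h | h)
  · exact hne h.symm
  · exact h5 h.symm

/-- intervals of colour `c` as a type -/
abbrev XT (nxt : D → D) (tail : D → V) (nc : D → ℕ) (col : V → ZMod 2) (c : ZMod 2) :=
  {p // p ∈ XX nxt tail nc col c}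

/-- a function on the intervals of colour `c`, extended by `0` -/
noncomputable def ext {c : ZMod 2} (f : XT nxt tail nc col c → ℚ) (p : D × ℕ) : ℚ :=
  if h : p ∈ XX nxt tail nc col c then f ⟨p, h⟩ else 0

theorem ext_mem {c : ZMod 2} (f : XT nxt tail nc col c → ℚ) {p : D × ℕ}
    (h : p ∈ XX nxt tail nc col c) : ext f p = f ⟨p, h⟩ := by
  unfold ext
  rw [dif_pos h]

theorem ext_add {c : ZMod 2} (f g : XT nxt tail nc col c → ℚ) (p : D × ℕ) :
    ext (f + g) p = ext f p + ext g p := by
  unfold ext
  split_ifs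
  · rfl
  · simp

theorem ext_smul {c : ZMod 2} (a : ℚ) (f : XT nxt tail nc col c → ℚ) (p : D × ℕ) :
    ext (a • f) p = a * ext f p := by
  unfold ext
  split_ifs
  · rfl
  · simp

/-- the functionals of the vertices of colour `c` -/
noncomputable def psi (nxt : D → D) (tail : D → V) (nc : D → ℕ) (col : V → ZMod 2) (c : ZMod 2) :
    (XT nxt tail nc col c → ℚ) →ₗ[ℚ] ({v // col v = c} → ℚ) where
  toFun f w := ∑ d ∈ univ.filter (fun d => tail d = w.1),
    (ext f (d, 0) - ext f (nxt (nxt d), mm nxt nc (nxt (nxt d))))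
  map_add' f g := by
    funext w
    simp only [Pi.add_apply, ext_add]
    rw [← Finset.sum_add_distrib]
    exact Finset.sum_congr rfl fun d _ => by ring
  map_smul' a f := by
    funext w
    simp only [Pi.smul_apply, ext_smul, smul_eq_mul, RingHom.id_apply]
    rw [Finset.mul_sum]
    exact Finset.sum_congr rfl fun d _ => by ring

theorem psi_apply {c : ZMod 2} (f : XT nxt tail nc col c → ℚ) (w : {v // col v = c}) :
    psi nxt tail nc col c f w = ∑ d ∈ univ.filter (fun d => tail d = w.1),
      (ext f (d, 0) - ext f (nxt (nxt d), mm nxt nc (nxt (nxt d)))) := rfl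

namespace Curve

variable (h : Curve inv nxt tail nc col)
include h

theorem zero_mem {c : ZMod 2} {d : D} (hd : col (tail d) = c) : (d, 0) ∈ XX nxt tail nc col c := by
  rw [mem_XX]
  refine ⟨Nat.zero_le _, ?_⟩
  simp [hd]

theorem last_mem {c : ZMod 2} {d : D} (hd : col (tail d) = c) :
    (nxt (nxt d), mm nxt nc (nxt (nxt d))) ∈ XX nxt tail nc col c := by
  rw [mem_XX]
  refine ⟨le_rfl, ?_⟩
  simp only
  rw [h.col_prev, add_assoc, z2_add_self, add_zero, hd]

/-- cells, in terms of the extended functions -/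
theorem cellEq {c : ZMod 2} (f : XT nxt tail nc col c → ℚ)
    (hf : ∀ p (hp : p ∈ XX nxt tail nc col c), f ⟨rho nxt nc p, h.rho_mem hp⟩ = f ⟨p, hp⟩)
    {d : D} {k : ℕ} (hk : k ≤ nc d) (hc : col (tail d) + (k : ZMod 2) = c) :
    ext f (d, k) = ext f (nxt (nxt d), mm nxt nc (nxt (nxt d)) - k) := by
  have h1 : (d, k) ∈ XX nxt tail nc col c := by
    rw [mem_XX]
    exact ⟨le_trans hk (by unfold mm; simp), hc⟩
  rw [ext_mem f h1, ← hf _ h1]
  rcases Nat.lt_or_eq_of_le hk with h2 | h2
  · have h3 : rho nxt nc (d, k) = (nxt (nxt d), mm nxt nc (nxt (nxt d)) - k) := by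
      unfold rho
      simp only
      rw [if_pos h2]
    rw [← h3, ext_mem f (h.rho_mem h1)]
  · have h3 : rho nxt nc (rho nxt nc (d, k)) = (nxt (nxt d), mm nxt nc (nxt (nxt d)) - k) := by
      rw [h2, h.rho_cent, h.rho_cent, h.mm_prev]
      have : nc (nxt (nxt d)) + nc d - nc d = nc (nxt (nxt d)) := by omega
      rw [this]
    rw [← h3, ext_mem f (h.rho_mem (h.rho_mem h1)), hf _ (h.rho_mem h1)]

theorem revEq {c : ZMod 2} (f : XT nxt tail nc col c → ℚ)
    (hf : ∀ p (hp : p ∈ XX nxt tail nc col c), f ⟨rev inv nxt nc p, h.rev_mem hp⟩ = f ⟨p, hp⟩)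
    {d : D} {k : ℕ} (hk : k ≤ mm nxt nc d) (hc : col (tail d) + (k : ZMod 2) = c) :
    ext f (d, k) = ext f (inv d, mm nxt nc d - k) := by
  have h1 : (d, k) ∈ XX nxt tail nc col c := by
    rw [mem_XX]
    exact ⟨hk, hc⟩
  have h2 : (inv d, mm nxt nc d - k) = rev inv nxt nc (d, k) := rfl
  rw [ext_mem f h1, ← hf _ h1, h2, ext_mem f (h.rev_mem h1)]

theorem psi_P {c : ZMod 2} (f : XT nxt tail nc col c → ℚ)
    (hf : ∀ p (hp : p ∈ XX nxt tail nc col c), f ⟨rho nxt nc p, h.rho_mem hp⟩ = f ⟨p, hp⟩) :
    psi nxt tail nc col c f = 0 := by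
  funext w
  rw [psi_apply]
  refine Finset.sum_eq_zero fun d hd => ?_
  rw [mem_filter] at hd
  rw [h.cellEq f hf (Nat.zero_le _) (by rw [hd.2, w.2]; simp), Nat.sub_zero, sub_self]

theorem psi_Q {c : ZMod 2} (f : XT nxt tail nc col c → ℚ)
    (hf : ∀ p (hp : p ∈ XX nxt tail nc col c), f ⟨rev inv nxt nc p, h.rev_mem hp⟩ = f ⟨p, hp⟩) :
    psi nxt tail nc col c f = 0 := by
  funext w
  rw [psi_apply, Finset.sum_sub_distrib]
  have h1 : ∑ d ∈ univ.filter (fun d => tail d = w.1),
      ext f (nxt (nxt d), mm nxt nc (nxt (nxt d))) =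
      ∑ d ∈ univ.filter (fun d => tail d = w.1), ext f (inv (nxt (nxt d)), 0) := by
    refine Finset.sum_congr rfl fun d hd => ?_
    rw [mem_filter] at hd
    have h2 : col (tail d) = c := by rw [hd.2, w.2]
    have h3 := h.last_mem h2
    rw [mem_XX] at h3
    rw [h.revEq f hf le_rfl h3.2, Nat.sub_self]
  rw [h1]
  have h2 : ∑ d ∈ univ.filter (fun d => tail d = w.1), ext f (inv (nxt (nxt d)), 0) =
      ∑ d ∈ univ.filter (fun d => tail d = w.1), ext f (d, 0) := by
    refine Finset.sum_bij (fun d _ => inv (nxt (nxt d))) ?_ ?_ ?_ ?_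
    · intro d hd
      rw [mem_filter] at hd ⊢
      refine ⟨mem_univ _, ?_⟩
      rw [h.tail_rot, hd.2]
    · intro a _ b _ hab
      have h3 := congrArg (fun x => nxt (inv x)) hab
      simp only [h.inv_inv, h.nxt3] at h3
      exact h3
    · intro b hb
      rw [mem_filter] at hb
      refine ⟨nxt (inv b), ?_, ?_⟩
      · rw [mem_filter]
        refine ⟨mem_univ _, ?_⟩
        rw [← hb.2]
        have h4 := h.tail_rot (nxt (inv b))
        rw [h.nxt3, h.inv_inv] at h4
        exact h4.symm
      · rw [h.nxt3, h.inv_inv]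
    · intro d _
      rfl
  rw [h2]
  simp

end Curve

end dim

section final

variable {D V : Type*} [Fintype D] [DecidableEq D] [Fintype V] [DecidableEq V]
variable {inv nxt : D → D} {tail : D → V} {nc : D → ℕ} {col : V → ZMod 2}

namespace Curve

variable (h : Curve inv nxt tail nc col)
include h

theorem psi_surj (c : ZMod 2) : Function.Surjective (psi nxt tail nc col c) := by
  by_contra hns
  have hlt : (psi nxt tail nc col c).range < ⊤ := by
    rw [lt_top_iff_ne_top]
    intro h1
    exact hns (LinearMap.range_eq_top.1 h1)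
  obtain ⟨φ, hφ, hle⟩ := Submodule.exists_le_ker_of_lt_top _ hlt
  -- coefficients
  let lam : V → ℚ := fun v => if hv : col v = c then φ (Pi.single ⟨v, hv⟩ 1) else 0
  have hlam : ∀ g : {v // col v = c} → ℚ, φ g = ∑ w, g w * lam w.1 := by
    intro g
    rw [LinearMap.pi_apply_eq_sum_univ φ g]
    refine Finset.sum_congr rfl fun w _ => ?_
    have h1 : lam w.1 = φ (Pi.single w 1) := by
      change (if hv : col w.1 = c then φ (Pi.single ⟨w.1, hv⟩ 1) else 0) = _
      rw [dif_pos w.2]
    rw [h1, smul_eq_mul]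
    congr 2
    funext i
    rw [Pi.single_apply]
    simp only [eq_comm]
  have hlam0 : ∃ v, col v = c ∧ lam v ≠ 0 := by
    by_contra hall
    apply hφ
    ext g
    rw [LinearMap.comp_apply, hlam]
    rw [LinearMap.zero_comp, LinearMap.zero_apply]
    refine Finset.sum_eq_zero fun w _ => ?_
    have h1 : lam w.1 = 0 := by
      by_contra h2
      exact hall ⟨w.1, w.2, h2⟩
    rw [h1, mul_zero]
  -- the relations
  have hrel : ∀ f : XT nxt tail nc col c → ℚ, ∑ d, lam (tail d) *
      (ext f (d, 0) - ext f (nxt (nxt d), mm nxt nc (nxt (nxt d)))) = 0 := by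
    intro f
    have h1 : φ (psi nxt tail nc col c f) = 0 := hle ⟨f, rfl⟩
    rw [hlam] at h1
    rw [← h1]
    have h2 : ∀ w : {v // col v = c}, psi nxt tail nc col c f w * lam w.1 =
        ∑ d ∈ univ.filter (fun d => tail d = w.1), lam (tail d) *
          (ext f (d, 0) - ext f (nxt (nxt d), mm nxt nc (nxt (nxt d)))) := by
      intro w
      rw [psi_apply, Finset.sum_mul]
      refine Finset.sum_congr rfl fun d hd => ?_
      rw [mem_filter] at hd
      rw [hd.2, mul_comm]
    rw [Finset.sum_congr rfl fun w _ => h2 w]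
    have h3 : ∑ d, lam (tail d) *
        (ext f (d, 0) - ext f (nxt (nxt d), mm nxt nc (nxt (nxt d)))) =
        ∑ v, ∑ d ∈ univ.filter (fun d => tail d = v), lam (tail d) *
          (ext f (d, 0) - ext f (nxt (nxt d), mm nxt nc (nxt (nxt d)))) := by
      rw [← Finset.sum_fiberwise_of_maps_to (s := univ) (t := univ) (g := tail)
        (fun x _ => mem_univ _)]
    rw [h3]
    have h4 : ∀ v, col v ≠ c → ∑ d ∈ univ.filter (fun d => tail d = v), lam (tail d) *
          (ext f (d, 0) - ext f (nxt (nxt d), mm nxt nc (nxt (nxt d)))) = 0 := by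
      intro v hv
      refine Finset.sum_eq_zero fun d hd => ?_
      rw [mem_filter] at hd
      have h5 : lam (tail d) = 0 := by
        change (if hv : col (tail d) = c then φ (Pi.single ⟨tail d, hv⟩ 1) else 0) = 0
        rw [dif_neg (by rw [hd.2]; exact hv)]
      rw [h5, zero_mul]
    have h6 := Finset.sum_subtype_of_mem (s := univ.filter fun v => col v = c)
      (p := fun v => col v = c)
      (f := fun v => ∑ d ∈ univ.filter (fun d => tail d = v), lam (tail d) *
          (ext f (d, 0) - ext f (nxt (nxt d), mm nxt nc (nxt (nxt d)))))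
      (fun v hv => (mem_filter.1 hv).2)
    have h7 : ∑ v, ∑ d ∈ univ.filter (fun d => tail d = v), lam (tail d) *
          (ext f (d, 0) - ext f (nxt (nxt d), mm nxt nc (nxt (nxt d)))) =
        ∑ v ∈ univ.filter (fun v => col v = c),
          ∑ d ∈ univ.filter (fun d => tail d = v), lam (tail d) *
          (ext f (d, 0) - ext f (nxt (nxt d), mm nxt nc (nxt (nxt d)))) := by
      rw [Finset.sum_filter]
      refine Finset.sum_congr rfl fun v _ => ?_
      by_cases hv : col v = c
      · rw [if_pos hv]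
      · rw [if_neg hv, h4 v hv]
    rw [h7, ← h6]
    refine Finset.sum_subset (Finset.subset_univ _) ?_
    intro w _ hw
    exfalso
    apply hw
    rw [Finset.mem_subtype, mem_filter]
    exact ⟨mem_univ _, w.2⟩
  -- evaluate on an indicator
  have hkey : ∀ d₀, col (tail d₀) = c →
      lam (tail d₀) = if mm nxt nc d₀ = 0 then lam (tail (nxt d₀)) else 0 := by
    intro d₀ hd₀
    have hm := h.zero_mem hd₀
    let f : XT nxt tail nc col c → ℚ := Pi.single ⟨(d₀, 0), hm⟩ 1
    have hext : ∀ p, ext f p = if p = (d₀, 0) then 1 else 0 := by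
      intro p
      unfold ext
      by_cases hp : p ∈ XX nxt tail nc col c
      · rw [dif_pos hp]
        change (Pi.single (⟨(d₀, 0), hm⟩ : XT nxt tail nc col c) (1 : ℚ) :
          XT nxt tail nc col c → ℚ) ⟨p, hp⟩ = _
        rw [Pi.single_apply]
        simp only [Subtype.mk.injEq]
      · rw [dif_neg hp, if_neg]
        intro h1
        rw [h1] at hp
        exact hp hm
    have h1 := hrel f
    simp only [hext, mul_sub, Finset.sum_sub_distrib] at h1
    have h2 : ∑ d, lam (tail d) * (if (d, 0) = (d₀, 0) then (1 : ℚ) else 0) = lam (tail d₀) := by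
      rw [Finset.sum_eq_single d₀]
      · simp
      · intro b _ hb
        rw [if_neg (by intro h3; exact hb (congrArg Prod.fst h3)), mul_zero]
      · intro h3
        exact absurd (mem_univ _) h3
    have h3 : ∑ d, lam (tail d) *
        (if (nxt (nxt d), mm nxt nc (nxt (nxt d))) = (d₀, 0) then (1 : ℚ) else 0) =
        if mm nxt nc d₀ = 0 then lam (tail (nxt d₀)) else 0 := by
      rw [Finset.sum_eq_single (nxt d₀)]
      · rw [h.nxt3]
        by_cases h4 : mm nxt nc d₀ = 0
        · rw [if_pos h4, if_pos (by rw [h4]), mul_one]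
        · rw [if_neg h4, if_neg, mul_zero]
          intro h5
          exact h4 (congrArg Prod.snd h5)
      · intro b _ hb
        rw [if_neg, mul_zero]
        intro h5
        apply hb
        have h6 : nxt (nxt b) = d₀ := congrArg Prod.fst h5
        rw [← h6, h.nxt3]
      · intro h3
        exact absurd (mem_univ _) h3
    rw [h2, h3] at h1
    linarith
  -- conclusion by connectedness
  obtain ⟨v₀, hv₀, hl₀⟩ := hlam0
  obtain ⟨d₀, hd₀⟩ := h.tail_surj v₀
  have hS := h.conn (fun d => col (tail d) = c ∧ lam (tail d) = lam v₀)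
    ⟨d₀, by rw [hd₀]; exact ⟨hv₀, rfl⟩⟩ ?_ ?_
  · obtain ⟨d, hd⟩ := h.cross
    have h1 := hkey d (hS d).1
    rw [if_neg (by omega), (hS d).2] at h1
    exact hl₀ h1
  · rintro d ⟨h1, h2⟩
    have h3 := hkey d h1
    have h4 : mm nxt nc d = 0 := by
      by_contra h5
      rw [if_neg h5, h2] at h3
      exact hl₀ h3
    rw [if_pos h4, h2] at h3
    have h5 : tail (inv d) = tail (nxt d) := by
      have h6 := h.tail_rot (nxt d)
      rw [h.nxt3] at h6
      exact h6
    rw [h5]
    refine ⟨?_, h3.symm⟩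
    rw [h.colour, h1, h4]
    simp
  · rintro d ⟨h1, h2⟩
    have h3 := hkey d h1
    have h4 : mm nxt nc d = 0 := by
      by_contra h5
      rw [if_neg h5, h2] at h3
      exact hl₀ h3
    rw [if_pos h4, h2] at h3
    refine ⟨?_, h3.symm⟩
    rw [h.colour, h1, h4]
    simp

/-- the side of the curve of colour `c` is connected -/
theorem const {c : ZMod 2} (f : XT nxt tail nc col c → ℚ)
    (hf1 : ∀ p (hp : p ∈ XX nxt tail nc col c), f ⟨rho nxt nc p, h.rho_mem hp⟩ = f ⟨p, hp⟩)
    (hf2 : ∀ p (hp : p ∈ XX nxt tail nc col c), f ⟨rev inv nxt nc p, h.rev_mem hp⟩ = f ⟨p, hp⟩) :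
    ∃ a, ∀ x, f x = a := by
  obtain ⟨d₁, hd₁⟩ := h.cross
  -- the interval of colour `c` at the crossing `(d₁, 0)`
  have hj : ∃ j : ℕ, (j = 0 ∨ j = 0 + 1) ∧ col (tail d₁) + (j : ZMod 2) = c := by
    by_cases h1 : col (tail d₁) = c
    · exact ⟨0, Or.inl rfl, by simp [h1]⟩
    · refine ⟨1, Or.inr rfl, ?_⟩
      have : ∀ a b : ZMod 2, a ≠ b → a + 1 = b := by decide
      have h2 := this _ _ h1
      push_cast
      exact h2
  obtain ⟨j, hj1, hj2⟩ := hj
  have hpar : ∀ (d : D) (i a b : ℕ), (a = i ∨ a = i + 1) → (b = i ∨ b = i + 1) →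
      col (tail d) + (a : ZMod 2) = c → col (tail d) + (b : ZMod 2) = c → a = b := by
    intro d i a b ha hb h1 h2
    have h3 : (a : ZMod 2) = (b : ZMod 2) := by
      have := h1.trans h2.symm
      exact add_left_cancel this
    have h4 : ((i : ZMod 2)) ≠ ((i + 1 : ℕ) : ZMod 2) := by
      push_cast
      have : ∀ a : ZMod 2, a ≠ a + 1 := by decide
      exact this _
    rcases ha with rfl | rfl <;> rcases hb with rfl | rfl
    · rfl
    · exact absurd h3 h4
    · exact absurd h3.symm h4
    · rfl
  have hall := h.one (fun d i => ∀ a : ℕ, (a = i ∨ a = i + 1) →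
    col (tail d) + (a : ZMod 2) = c → ext f (d, a) = ext f (d₁, j)) ?_ ?_ ?_ ?_
  · -- all intervals at crossings have the value `ext f (d₁, j)`
    have hcut : ∀ d a, 0 < mm nxt nc d → a ≤ mm nxt nc d → col (tail d) + (a : ZMod 2) = c →
        ext f (d, a) = ext f (d₁, j) := by
      intro d a hd ha hc
      rcases Nat.lt_or_eq_of_le ha with h1 | h1
      · exact hall d a h1 a (Or.inl rfl) hc
      · exact hall d (a - 1) (by omega) a (Or.inr (by omega)) hc
    refine ⟨ext f (d₁, j), ?_⟩
    rintro ⟨⟨d, a⟩, hda⟩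
    have hda' := hda
    rw [mem_XX] at hda'
    obtain ⟨h1, h2⟩ := hda'
    simp only at h1 h2
    rw [← ext_mem f hda]
    by_cases hd : 0 < mm nxt nc d
    · exact hcut d a hd h1 h2
    · have ha : a = 0 := by omega
      subst ha
      by_contra hne
      have hS := h.conn (fun e => mm nxt nc e = 0 ∧ col (tail e) = c ∧
        ext f (e, 0) = ext f (d, 0)) ⟨d, by omega, by simpa using h2, rfl⟩ ?_ ?_
      · have := (hS d₁).1
        omega
      · rintro e ⟨h3, h4, h5⟩
        refine ⟨by rw [h.sym]; exact h3, ?_, ?_⟩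
        · rw [h.col_inv, h4, h3]
          simp
        · have h6 := h.revEq f hf2 (d := e) (k := 0) (Nat.zero_le _) (by simp [h4])
          rw [h3, Nat.sub_zero] at h6
          rw [← h6, h5]
      · rintro e ⟨h3, h4, h5⟩
        have h3' : nc e + nc (nxt e) = 0 := h3
        have h6 : col (tail (nxt e)) = c := by
          rw [h.colour, h4, h3]
          simp
        have h7 : ext f (nxt e, 0) = ext f (d, 0) := by
          have h8 := h.cellEq f hf1 (d := nxt e) (k := 0) (Nat.zero_le _) (by simp [h6])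
          rw [h.nxt3, h3, Nat.sub_zero] at h8
          rw [h8, h5]
        refine ⟨?_, h6, h7⟩
        by_contra h9
        apply hne
        rw [← h7]
        exact hcut (nxt e) 0 (Nat.pos_of_ne_zero h9) (Nat.zero_le _) (by simp [h6])
  · refine ⟨d₁, 0, hd₁, ?_⟩
    intro a ha hac
    rw [hpar d₁ 0 a j ha hj1 hac hj2]
  · intro d i hi hS a ha hac
    have h1 : a ≤ mm nxt nc (inv d) := by rw [h.sym]; omega
    have h2 := h.revEq f hf2 h1 hac
    rw [h.inv_inv, h.sym] at h2
    rw [h2]
    refine hS _ (by omega) ?_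
    rw [h.sym] at h1
    rw [Nat.cast_sub h1, z2_sub, ← hac, h.col_inv]
    ring
  · intro d i hi hS a ha hac
    have hm := h.mm_prev d
    have h1 : mm nxt nc (nxt (nxt d)) - a ≤ nc d := by omega
    have h2 : a ≤ mm nxt nc (nxt (nxt d)) := by omega
    have h3 : col (tail d) + ((mm nxt nc (nxt (nxt d)) - a : ℕ) : ZMod 2) = c := by
      rw [Nat.cast_sub h2, z2_sub, ← hac, h.col_prev]
      ring
    have h4 := h.cellEq f hf1 h1 h3
    have h5 : mm nxt nc (nxt (nxt d)) - (mm nxt nc (nxt (nxt d)) - a) = a := by omega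
    rw [h5] at h4
    rw [← h4]
    exact hS _ (by omega) h3
  · intro d i hi1 hi2 hS a ha hac
    have hm : mm nxt nc d = nc d + nc (nxt d) := rfl
    have h1 : a ≤ nc (nxt d) := by omega
    have h4 := h.cellEq f hf1 (d := nxt d) h1 hac
    rw [h.nxt3] at h4
    rw [h4]
    refine hS _ (by omega) ?_
    rw [Nat.cast_sub (by omega), z2_sub, ← hac, h.colour]
    ring

/-- **Euler's inequality for one side of a simple closed curve** -/
theorem main (c : ZMod 2) :
    6 * (univ.filter fun v => col v = c).card ≤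
      (univ.filter fun d => col (tail d) + (nc d : ZMod 2) = c).card + 6 := by
  classical
  let X := XT nxt tail nc col c
  let r : X → X := fun x => ⟨rho nxt nc x.1, h.rho_mem x.2⟩
  let s : X → X := fun x => ⟨rev inv nxt nc x.1, h.rev_mem x.2⟩
  have hr : ∀ x, r (r x) = x ∨ r (r (r x)) = x := by
    rintro ⟨⟨d, i⟩, hx⟩
    by_cases h1 : i = nc d
    · right
      apply Subtype.ext
      change rho nxt nc (rho nxt nc (rho nxt nc (d, i))) = (d, i)
      rw [h1, h.rho3]
    · left
      apply Subtype.ext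
      exact h.rho_rho (mem_XX.1 hx).1 h1
  have hs' : ∀ x, s (s x) = x := by
    rintro ⟨p, hx⟩
    apply Subtype.ext
    exact h.rev_rev (mem_XX.1 hx).1
  have hs : ∀ x, s (s x) = x ∨ s (s (s x)) = x := fun x => Or.inl (hs' x)
  have hrne : ∀ x, r x ≠ x := fun x hx => h.rho_ne (congrArg Subtype.val hx)
  have hsne : ∀ x, s x ≠ x := fun x hx =>
    h.inv_ne x.1.1 (congrArg (fun y : X => y.1.1) hx)
  have : Fintype (Quotient (orb r hr)) := Fintype.ofFinite _
  have : Fintype (Quotient (orb s hs)) := Fintype.ofFinite _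
  have hlin := lin (X := X) (A := Quotient (orb r hr)) (B := Quotient (orb s hs))
    (W := {v // col v = c}) (fun x => Quotient.mk _ x) (fun x => Quotient.mk _ x)
    Quotient.mk_surjective Quotient.mk_surjective (psi nxt tail nc col c) (h.psi_surj c)
    (fun a => h.psi_P _ fun p hp => congrArg a (orb_map r hr ⟨p, hp⟩))
    (fun b => h.psi_Q _ fun p hp => congrArg b (orb_map s hs ⟨p, hp⟩))
    (fun a b hab => h.const (fun x => a (Quotient.mk _ x))
      (fun p hp => congrArg a (orb_map r hr ⟨p, hp⟩))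
      (fun p hp => by
        have h1 := congrFun hab ⟨p, hp⟩
        have h2 := congrFun hab (s ⟨p, hp⟩)
        simp only [Function.comp_apply] at h1 h2
        change a (Quotient.mk _ (s ⟨p, hp⟩)) = _
        rw [h1, h2]
        exact congrArg b (orb_map s hs ⟨p, hp⟩)))
  -- the number of cells
  have hA := card_quot (orb r hr) (fun x : X => if x.1.2 = nc x.1.1 then (1 / 3 : ℚ) else 1 / 2)
    (by
      rintro ⟨⟨d, i⟩, hx⟩
      simp only
      by_cases h1 : i = nc d
      · rw [if_pos h1, card3 r hr _ ?_ (hrne _)]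
        · norm_num
        · apply Subtype.ext
          change rho nxt nc (rho nxt nc (rho nxt nc (d, i))) = (d, i)
          rw [h1, h.rho3]
      · rw [if_neg h1, card2 r hr _ ?_ (hrne _)]
        · norm_num
        · apply Subtype.ext
          exact h.rho_rho (mem_XX.1 hx).1 h1)
  have hB := card_quot (orb s hs) (fun _ : X => (1 / 2 : ℚ))
    (by
      intro x
      rw [card2 s hs _ (hs' x) (hsne x)]
      norm_num)
  have hcent : (univ.filter fun x : X => x.1.2 = nc x.1.1).card =
      (univ.filter fun d => col (tail d) + (nc d : ZMod 2) = c).card := by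
    refine Finset.card_bij (fun x _ => x.1.1) ?_ ?_ ?_
    · rintro ⟨⟨d, i⟩, hx⟩ h1
      rw [mem_filter] at h1 ⊢
      refine ⟨mem_univ _, ?_⟩
      have h2 : i = nc d := h1.2
      have h3 := (mem_XX.1 hx).2
      simp only at h3 ⊢
      rw [← h2]
      exact h3
    · rintro ⟨⟨d, i⟩, hx⟩ h1 ⟨⟨d', i'⟩, hx'⟩ h1' h2
      rw [mem_filter] at h1 h1'
      have h3 : i = nc d := h1.2
      have h3' : i' = nc d' := h1'.2
      have h4 : d = d' := h2
      apply Subtype.ext
      change (d, i) = (d', i')
      rw [h3, h3', h4]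
    · intro d hd
      rw [mem_filter] at hd
      refine ⟨⟨(d, nc d), ?_⟩, ?_, rfl⟩
      · rw [mem_XX]
        exact ⟨by unfold mm; simp, hd.2⟩
      · rw [mem_filter]
        exact ⟨mem_univ _, rfl⟩
  rw [Finset.sum_ite, Finset.sum_const, Finset.sum_const] at hA
  have hsplit := Finset.card_filter_add_card_filter_not (s := (univ : Finset X))
    (fun x : X => x.1.2 = nc x.1.1)
  rw [Finset.sum_const] at hB
  rw [Finset.card_univ] at hsplit hB
  have hW : Fintype.card {v // col v = c} = (univ.filter fun v => col v = c).card := by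
    rw [Fintype.card_subtype]
  rw [hW] at hlin
  rw [← hcent]
  simp only [nsmul_eq_mul] at hA hB
  have h1 : ((Fintype.card (Quotient (orb r hr)) : ℚ) + Fintype.card (Quotient (orb s hs)) +
      (univ.filter fun v => col v = c).card) ≤ (Fintype.card X : ℚ) + 1 := by
    exact_mod_cast hlin
  have h2 : ((univ.filter fun x : X => x.1.2 = nc x.1.1).card : ℚ) +
      (univ.filter fun x : X => ¬ x.1.2 = nc x.1.1).card = Fintype.card X := by
    exact_mod_cast hsplit
  have h3 : (6 : ℚ) * (univ.filter fun v => col v = c).card ≤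
      ((univ.filter fun x : X => x.1.2 = nc x.1.1).card : ℚ) + 6 := by
    rw [← hA, ← hB] at h1
    linarith
  exact_mod_cast h3

end Curve

end final

section eq

variable {D V : Type*} [Fintype D] [DecidableEq D] [Fintype V] [DecidableEq V]
variable {inv nxt : D → D} {tail : D → V} {nc : D → ℕ} {col : V → ZMod 2}

theorem card_two {X : Type*} [Fintype X] (f : X → ZMod 2) :
    (univ.filter fun x => f x = 0).card + (univ.filter fun x => f x = 1).card =
      Fintype.card X := by
  classical
  have h1 := Finset.card_filter_add_card_filter_not (s := (univ : Finset X)) (fun x => f x = 0)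
  rw [Finset.card_univ] at h1
  rw [← h1]
  congr 2
  ext x
  simp only [mem_filter, mem_univ, true_and]
  have : ∀ a : ZMod 2, a = 1 ↔ ¬ a = 0 := by decide
  exact this _

/-- on a sphere (`V - E + F = 2`) both sides of a simple closed curve are discs -/
theorem Curve.main_eq (h : Curve inv nxt tail nc col)
    (hE : 6 * Fintype.card V = Fintype.card D + 12) (c : ZMod 2) :
    6 * (univ.filter fun v => col v = c).card =
      (univ.filter fun d => col (tail d) + (nc d : ZMod 2) = c).card + 6 := by
  have h0 := h.main 0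
  have h1 := h.main 1
  have h2 := card_two col
  have h3 := card_two (fun d => col (tail d) + (nc d : ZMod 2))
  have hc : c = 0 ∨ c = 1 := by
    have : ∀ a : ZMod 2, a = 0 ∨ a = 1 := by decide
    exact this c
  rcases hc with rfl | rfl <;> omega

end eq

end Pool.Agent.SQ
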