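import Pool.Agent.Lib_MP_6b5565.B0

/-! 
# Cyclic curves

`Cyc P m` : a closed track with immediate repetitions of points collected: node `j` has the point
`y j`, the nonempty list `R j` of half-edges crossed at this point, and `F j` is the face of the
segment from `y j` to `y (j+1)`.
 -/

namespace QG6b

open EuclideanGeometry

noncomputable section

structure Cyc (P : Poly) (m : ℕ) where
  y : ZMod m → E3
  R : ZMod m → List P.D
  F : ZMod m → P.D
  R_ne : ∀ j, R j ≠ []
  walk : ∀ j, P.DWalk (F (j - 1)) (R j) (F j)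
  on : ∀ j, ∀ e ∈ R j, y j ∈ P.seg e
  ne : ∀ j, y j ≠ y (j + 1)

namespace Cyc

variable {P : Poly} {m : ℕ} (C : Cyc P m)

/-- the steps at node `j` -/
def steps (j : ZMod m) : List (Step P) := (C.R j).map (fun e => ⟨e, C.y j⟩)

/-- the track starting at node `j` -/
def toList (j : ZMod m) : List (Step P) :=
  (List.range m).flatMap (fun t => C.steps (j + ((t : ℕ) : ZMod m)))

/-- visited vertices -/
def vis : Finset P.V := open Classical in Finset.univ.filter (fun v => ∃ j, C.y j = P.pos v)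

/-- length -/
def len [NeZero m] : ℝ := ∑ j, dist (C.y j) (C.y (j + 1))

/-- parity -/
def par [NeZero m] (e : P.D) : ZMod 2 := ∑ j, P.par (C.R j) e

/-- all tracks `toList j` are shortest balanced tracks with minimal tie-break -/
def BestC : Prop := ∀ j, P.Best (C.toList j)

/-- the curve is simple -/
def Simple : Prop := ∀ j k : ZMod m, j ≠ k → ∀ p, p ∈ segment ℝ (C.y j) (C.y (j + 1)) →
  p ∈ segment ℝ (C.y k) (C.y (k + 1)) → (k = j + 1 ∧ p = C.y k) ∨ (j = k + 1 ∧ p = C.y j)

/-- the curve runs from a vertex `y j₀` to a vertex `y (j₀ + r)` and back the same way -/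
def Doubled : Prop := ∃ (j₀ : ZMod m) (r : ℕ), 1 ≤ r ∧ m = 2 * r ∧
  (∀ t : ℕ, C.y (j₀ + (t : ZMod m)) = C.y (j₀ - (t : ZMod m))) ∧
  (∃ v, C.y j₀ = P.pos v) ∧ (∃ v, C.y (j₀ + (r : ZMod m)) = P.pos v) ∧
  ∀ t : ℕ, 0 < t → t < r → P.NV (C.y (j₀ + (t : ZMod m)))

/-- the consequences of `BestC` used later -/
structure Nice [NeZero m] : Prop where
  two : 2 ≤ m
  /-- at a non-vertex node exactly one half-edge is crossed, at an inner point -/
  single : ∀ j, P.NV (C.y j) → ∃ d, C.R j = [d] ∧ C.y j ∈ P.oseg d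
  /-- the neighbours of a non-vertex node are not on its edge -/
  along : ∀ j d, P.NV (C.y j) → C.R j = [d] → C.y (j - 1) ∉ P.seg d ∧ C.y (j + 1) ∉ P.seg d
  /-- the curve is straight at a non-vertex node -/
  straight : ∀ j d, P.NV (C.y j) → C.R j = [d] →
    ∠ (C.y (j - 1)) (C.y j) (P.B d) + ∠ (P.B d) (C.y j) (C.y (j + 1)) = Real.pi
  /-- every vertex is visited once -/
  uniq : ∀ j k v, C.y j = P.pos v → C.y k = P.pos v → j = k
  /-- 2-opt -/
  opt : ∀ j k, j ≠ k → P.SF (C.F j) (C.F k) →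
    dist (C.y j) (C.y (j + 1)) + dist (C.y k) (C.y (k + 1)) ≤
      dist (C.y j) (C.y k) + dist (C.y (j + 1)) (C.y (k + 1))
  /-- double points are antiparallel and propagate -/
  double : ∀ j k, j ≠ k → P.NV (C.y j) → C.y j = C.y k →
    C.y (j + 1) = C.y (k - 1) ∧ C.y (j - 1) = C.y (k + 1) ∧
      ∃ d, C.R j = [d] ∧ C.R k = [P.inv d]
  bal : P.Bal C.par C.vis
  /-- the curve cannot be pushed off a vertex through a fan of angle less than `π` -/
  push : ∀ j v, C.y j = P.pos v → ∀ W : List P.D, P.DWalk (C.F (j - 1)) W (C.F j) →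
    (∀ e ∈ W, P.tail e = v ∨ P.head e = v) →
    P.fang v (C.y (j - 1)) W (C.y (j + 1)) < Real.pi →
    ∀ col, P.Col (fun e => C.par e + P.par (C.R j) e + P.par W e) col →
      2 * Real.pi < P.K (C.vis.erase v) col (col v)
  /-- minimality -/
  min : ∀ l, P.Good l → C.len ≤ P.len l ∧ (P.len l = C.len → C.vis.card ≤ (P.vis (l.map Step.x)).card)
  /-- few crossings -/
  cross : C.vis.card ≤ 1 → ∀ d, {j | C.y j ∈ P.oseg d}.ncard ≤ P.nV - 1 + C.vis.card

/-- the reversed curve -/
def rev : Cyc P m where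
  y := fun j => C.y (-j)
  R := fun j => ((C.R (-j)).map P.inv).reverse
  F := fun j => C.F (-j - 1)
  R_ne := by intro j; simp [C.R_ne]
  walk := by
    intro j
    have h := P.DWalk_reverse (C.walk (-j))
    have e : -(j - 1) - 1 = -j := by ring
    rw [e]
    exact h
  on := by
    intro j e he
    simp only [List.mem_reverse, List.mem_map] at he
    obtain ⟨a, ha, rfl⟩ := he
    rw [P.seg_inv]
    exact C.on _ a ha
  ne := by
    intro j
    have h := C.ne (-(j + 1))
    have e : -(j + 1) + 1 = -j := by ring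
    rw [e] at h
    exact h.symm

end Cyc

end

end QG6b
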