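import Pool.Agent.Lib_MP_6b5565.D2f

/-! [QG-D2a] -/

namespace QG6b

open EuclideanGeometry

namespace Cyc

variable {P : Poly} {m : ℕ} [NeZero m] {C : Cyc P m}

private theorem cast_ne_zero {a : ℕ} (ha : 0 < a) (ham : a < m) : (a : ZMod m) ≠ 0 := by
  intro h
  rw [ZMod.natCast_eq_zero_iff] at h
  exact absurd (Nat.le_of_dvd ha h) (by omega)

/-- [QG-D2a] chain of double points. If `y j = y k` is no vertex, `k = j + a`, `0 < a < m`, then
going on from `j` forward and from `k` backward (`Nice.double`) one meets a vertex before the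
indices meet: there is `t` with `0 < t`, `2 t < a`... , `y (j+t) = y (k-t)` a vertex, and
`y (j+s) = y (k-s)` no vertex for `s < t`. (The difference `a - 2s` cannot reach `1`: two
consecutive equal points, `ne`; nor `2` or `0`: then the node in the middle would be entered and left
in the same face, against `face_single` and `not_SF_inv`, if it is no vertex. So the middle node
is a vertex: then `2 t = a`.) -/
theorem Nice.chain (h : C.Nice) (j : ZMod m) (a : ℕ) (ha : 0 < a) (ham : a < m)
    (hn : P.NV (C.y j)) (hy : C.y j = C.y (j + (a : ZMod m))) :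
    ∃ t : ℕ, 0 < t ∧ 2 * t = a ∧ (∃ v, C.y (j + (t : ZMod m)) = P.pos v) ∧
      ∀ s : ℕ, s ≤ a → C.y (j + (s : ZMod m)) = C.y (j + (a : ZMod m) - (s : ZMod m)) ∧
        (s < t → P.NV (C.y (j + (s : ZMod m)))) := by
  induction a using Nat.strong_induction_on generalizing j with
  | _ a ih =>
  have hjk : j ≠ j + (a : ZMod m) := by
    intro h'
    exact cast_ne_zero ha ham (left_eq_add.1 h')
  obtain ⟨e1, -, d, hd1, hd2⟩ := h.double j _ hjk hn hy
  obtain rfl | rfl | ⟨b, hb, rfl⟩ : a = 1 ∨ a = 2 ∨ ∃ b, 0 < b ∧ a = b + 2 := by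
    rcases Nat.lt_or_ge 2 a with h2 | h2
    · exact Or.inr (Or.inr ⟨a - 2, by omega, by omega⟩)
    · omega
  · exfalso
    apply C.ne j
    rw [hy, Nat.cast_one]
  · have c1 : j + ((2 : ℕ) : ZMod m) - 1 = j + 1 := by push_cast; ring
    have hv : ¬ P.NV (C.y (j + 1)) := by
      intro hN
      obtain ⟨d', hd', -⟩ := h.single _ hN
      have f1 := C.face_single hd1
      have f2 := C.face_single hd2
      have f3 := C.face_single hd'
      rw [c1] at f2
      rw [add_sub_cancel_right] at f3
      -- `F j` and `F (j + 1)` are both the face of `inv d`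
      have g1 : P.SF (C.F j) (C.F (j + 1)) := P.SF_trans f1.2 (P.SF_symm f2.1)
      exact P.not_SF_inv d' (P.SF_trans (P.SF_symm f3.1) (P.SF_trans g1 f3.2))
    have hv' : ∃ v, C.y (j + 1) = P.pos v := by
      unfold Poly.NV at hv
      push Not at hv
      exact hv
    refine ⟨1, one_pos, rfl, ?_, ?_⟩
    · rw [Nat.cast_one]
      exact hv'
    · intro s hs
      obtain rfl | rfl | rfl : s = 0 ∨ s = 1 ∨ s = 2 := by omega
      · refine ⟨?_, fun _ => ?_⟩
        · simpa using hy
        · simpa using hn
      · refine ⟨?_, fun h' => absurd h' (lt_irrefl _)⟩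
        congr 1
        push_cast
        ring
      · refine ⟨?_, fun h' => absurd h' (by omega)⟩
        rw [add_sub_cancel_right]
        exact hy.symm
  · have c1 : j + ((b + 2 : ℕ) : ZMod m) - 1 = j + 1 + (b : ZMod m) := by push_cast; ring
    rw [c1] at e1
    have hN : P.NV (C.y (j + 1)) := by
      by_contra hv
      unfold Poly.NV at hv
      push Not at hv
      obtain ⟨v, hv⟩ := hv
      have := h.uniq _ _ v hv (e1 ▸ hv)
      exact cast_ne_zero hb (by omega) (left_eq_add.1 this)
    obtain ⟨t, ht0, ht, hv, hs⟩ := ih b (by omega) (j + 1) hb (by omega) hN e1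
    refine ⟨t + 1, by omega, by omega, ?_, ?_⟩
    · have c2 : j + ((t + 1 : ℕ) : ZMod m) = j + 1 + (t : ZMod m) := by push_cast; ring
      rw [c2]
      exact hv
    · intro s hsb
      rcases Nat.eq_zero_or_pos s with rfl | hs0
      · refine ⟨?_, fun _ => ?_⟩
        · simpa using hy
        · simpa using hn
      rcases eq_or_ne s (b + 2) with rfl | hs2
      · refine ⟨?_, fun h' => absurd h' (by omega)⟩
        rw [add_sub_cancel_right]
        exact hy.symm
      · obtain ⟨u, rfl⟩ : ∃ u, s = u + 1 := ⟨s - 1, by omega⟩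
        obtain ⟨g1, g2⟩ := hs u (by omega)
        have c3 : j + ((u + 1 : ℕ) : ZMod m) = j + 1 + (u : ZMod m) := by push_cast; ring
        have c4 : j + ((b + 2 : ℕ) : ZMod m) - ((u + 1 : ℕ) : ZMod m) =
            j + 1 + (b : ZMod m) - (u : ZMod m) := by push_cast; ring
        rw [c3, c4]
        exact ⟨g1, fun h' => g2 (by omega)⟩

end Cyc

end QG6b
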