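import Pool.Agent.Lib_MP_6b5565.D2a

/-! [QG-D2b] -/

namespace QG6b

open EuclideanGeometry

namespace Cyc

variable {P : Poly} {m : ℕ} [NeZero m] {C : Cyc P m}

private theorem not_NV {x : E3} (h : ¬ P.NV x) : ∃ v, x = P.pos v := by
  unfold Poly.NV at h
  push Not at h
  exact h

/-- [QG-D2b] a non-vertex double point gives a doubled curve (apply `chain` to both arcs) -/
theorem Nice.doubled_of_double (h : C.Nice) (j k : ZMod m) (hjk : j ≠ k) (hn : P.NV (C.y j))
    (hy : C.y j = C.y k) : C.Doubled := by
  set a : ℕ := (k - j).val with ha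
  have ham : a < m := ZMod.val_lt _
  have hk : k = j + (a : ZMod m) := by
    rw [ha, ZMod.natCast_zmod_val]
    ring
  have ha0 : 0 < a := by
    rcases Nat.eq_zero_or_pos a with h0 | h0
    · exfalso
      rw [h0, Nat.cast_zero, add_zero] at hk
      exact hjk hk.symm
    · exact h0
  have hj : j = k + ((m - a : ℕ) : ZMod m) := by
    rw [Nat.cast_sub ham.le, ZMod.natCast_self, hk]
    ring
  obtain ⟨t1, ht1, h2t1, hv1, hs1⟩ := h.chain j a ha0 ham hn (by rw [← hk]; exact hy)
  obtain ⟨t2, ht2, h2t2, hv2, hs2⟩ := h.chain k (m - a) (by omega) (by omega) (hy ▸ hn)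
    (by rw [← hj]; exact hy.symm)
  have sym1 : ∀ t : ℕ, t ≤ t1 → C.y (j + (t1 : ZMod m) + (t : ZMod m)) =
      C.y (j + (t1 : ZMod m) - (t : ZMod m)) := by
    intro t ht
    have g := (hs1 (t1 + t) (by omega)).1
    have c1 : j + ((t1 + t : ℕ) : ZMod m) = j + (t1 : ZMod m) + (t : ZMod m) := by
      push_cast; ring
    have c2 : j + (a : ZMod m) - ((t1 + t : ℕ) : ZMod m) = j + (t1 : ZMod m) - (t : ZMod m) := by
      rw [← h2t1]; push_cast; ring
    rw [c1, c2] at g
    exact g
  have sym2 : ∀ t : ℕ, t1 ≤ t → t ≤ t1 + 2 * t2 → C.y (j + (t1 : ZMod m) + (t : ZMod m)) =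
      C.y (j + (t1 : ZMod m) - (t : ZMod m)) := by
    intro t ht ht'
    obtain ⟨s, rfl⟩ : ∃ s, t = t1 + s := ⟨t - t1, by omega⟩
    have g := (hs2 s (by omega)).1
    have c1 : k + (s : ZMod m) = j + (t1 : ZMod m) + ((t1 + s : ℕ) : ZMod m) := by
      rw [hk, ← h2t1]; push_cast; ring
    have c2 : k + ((m - a : ℕ) : ZMod m) - (s : ZMod m) =
        j + (t1 : ZMod m) - ((t1 + s : ℕ) : ZMod m) := by
      rw [← hj]; push_cast; ring
    rw [c1, c2] at g
    exact g
  have sym : ∀ t : ℕ, t < m → C.y (j + (t1 : ZMod m) + (t : ZMod m)) =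
      C.y (j + (t1 : ZMod m) - (t : ZMod m)) := by
    intro t ht
    rcases le_total t t1 with h1 | h1
    · exact sym1 t h1
    · rcases le_total t (t1 + 2 * t2) with h2 | h2
      · exact sym2 t h1 h2
      · have g := sym1 (m - t) (by omega)
        rw [Nat.cast_sub ht.le, ZMod.natCast_self] at g
        have c1 : j + (t1 : ZMod m) + (0 - (t : ZMod m)) = j + (t1 : ZMod m) - (t : ZMod m) := by
          ring
        have c2 : j + (t1 : ZMod m) - (0 - (t : ZMod m)) = j + (t1 : ZMod m) + (t : ZMod m) := by
          ring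
        rw [c1, c2] at g
        exact g.symm
  refine ⟨j + (t1 : ZMod m), t1 + t2, by omega, by omega, ?_, hv1, ?_, ?_⟩
  · intro t
    have g := sym (t % m) (Nat.mod_lt _ (NeZero.pos m))
    rw [ZMod.natCast_mod] at g
    exact g
  · have c1 : j + (t1 : ZMod m) + ((t1 + t2 : ℕ) : ZMod m) = k + (t2 : ZMod m) := by
      rw [hk, ← h2t1]; push_cast; ring
    rw [c1]
    exact hv2
  · intro t ht ht'
    rcases lt_or_ge t t1 with h1 | h1
    · rw [sym1 t h1.le]
      have g := (hs1 (t1 - t) (by omega)).2 (by omega)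
      have c1 : j + ((t1 - t : ℕ) : ZMod m) = j + (t1 : ZMod m) - (t : ZMod m) := by
        rw [Nat.cast_sub h1.le]; ring
      rw [c1] at g
      exact g
    · have g := (hs2 (t - t1) (by omega)).2 (by omega)
      have c1 : k + ((t - t1 : ℕ) : ZMod m) = j + (t1 : ZMod m) + (t : ZMod m) := by
        rw [Nat.cast_sub h1, hk, ← h2t1]; push_cast; ring
      rw [c1] at g
      exact g

/-- a nice curve with two nodes is a doubled edge: both nodes are vertices (a non-vertex node would
have both neighbours equal to one point in the two faces at its edge, so on its edge) -/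
theorem Nice.doubled_of_two (h : C.Nice) (hm : m = 2) : C.Doubled := by
  have h2 : (2 : ZMod m) = 0 := by
    have : ((2 : ℕ) : ZMod m) = 0 := by rw [← hm, ZMod.natCast_self]
    simpa using this
  have hneg : ∀ x : ZMod m, -x = x := by
    intro x
    have : x + x = 0 := by rw [← two_mul, h2, zero_mul]
    exact neg_eq_of_add_eq_zero_left this
  have hsub : ∀ j : ZMod m, j - 1 = j + 1 := by
    intro j
    rw [sub_eq_add_neg, hneg]
  have hall : ∀ j, ∃ v, C.y j = P.pos v := by
    intro j
    by_contra hv
    have hN : P.NV (C.y j) := fun v hv' => hv ⟨v, hv'⟩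
    obtain ⟨d, hd, hyd⟩ := h.single j hN
    obtain ⟨f1, f2⟩ := C.face_single hd
    obtain ⟨-, al⟩ := h.along j d hN hd
    have m1 : C.y (j + 1) ∈ P.tri (P.inv d) := by
      rw [← P.tri_SF f2]
      exact (C.mem_face j).2.1
    have m2 : C.y (j + 1) ∈ P.tri d := by
      rw [← hsub, ← P.tri_SF f1]
      exact (C.mem_face (j - 1)).1
    by_cases hN1 : P.NV (C.y (j + 1))
    · obtain ⟨a, ha, s1, s2⟩ := P.common_edge m2 m1 (P.not_SF_inv d) hN1
      have : d = a := P.SF_two s2 s1
      subst this
      exact al (openSegment_subset_segment ℝ _ _ ha)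
    · obtain ⟨v, hv1⟩ := not_NV hN1
      have hvt : v ≠ P.tail d := by
        rintro rfl
        apply al
        rw [hv1]
        exact left_mem_segment ℝ _ _
      have hvh : v ≠ P.head d := by
        rintro rfl
        apply al
        rw [hv1]
        exact right_mem_segment ℝ _ _
      rw [hv1] at m1 m2
      obtain ⟨a, ha, hat⟩ := P.verts_of_pos_mem m2
      obtain ⟨b, hb, hbt⟩ := P.verts_of_pos_mem m1
      have ea : a = P.prev d := by
        rcases ha with rfl | rfl | rfl
        · exact absurd hat.symm hvt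
        · exact absurd (hat.symm.trans (P.head_eq d).symm) hvh
        · rfl
      have eb : b = P.prev (P.inv d) := by
        rcases hb with rfl | rfl | rfl
        · exact absurd hbt.symm hvh
        · exfalso
          apply hvt
          rw [← hbt, ← P.head_eq, P.tail_eq_head_inv]
        · rfl
      apply P.not_SF_inv d
      have key := P.face_inj d (P.inv d) (by
        have k1 : P.tail (P.nxt (P.nxt d)) = v := by rw [← hat, ea]; rfl
        have k2 : P.tail (P.nxt (P.nxt (P.inv d))) = v := by rw [← hbt, eb]; rfl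
        have k3 : P.tail (P.nxt (P.inv d)) = P.tail d := by
          rw [← P.head_eq, P.tail_eq_head_inv]
        rw [k1, k2, k3, P.tail_inv]
        ext x
        simp only [Finset.mem_insert, Finset.mem_singleton]
        tauto)
      exact key
  refine ⟨0, 1, le_refl _, by omega, ?_, hall _, hall _, ?_⟩
  · intro t
    rw [sub_eq_add_neg, hneg]
  · intro t ht ht'
    omega

end Cyc

end QG6b
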