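import Pool.Agent.Lib_MP_6b5565.D2f

/-! [QG-D2c] -/

namespace QG6b

open EuclideanGeometry

namespace Cyc

variable {P : Poly} {m : ℕ} [NeZero m] {C : Cyc P m}

private theorem mem_segment_of_dist {x y p : E3} (h : dist x p + dist p y ≤ dist x y) :
    p ∈ segment ℝ x y := by
  rw [mem_segment_iff_wbtw, ← dist_add_dist_eq_iff]
  exact le_antisymm h (dist_triangle _ _ _)

private theorem dist_of_mem_segment {x y p : E3} (h : p ∈ segment ℝ x y) :
    dist x p + dist p y = dist x y :=
  dist_add_dist_eq_iff.2 (mem_segment_iff_wbtw.1 h)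

/-- [QG-D2c] a common point `p` of two segments `j ≠ k` which is no vertex and on no edge
(`common_edge` : the faces are the same; 2-opt and `chord_swap`) gives a double point -/
theorem Nice.meet_face (h : C.Nice) (h3 : 3 ≤ m) (hinj : Function.Injective C.y) {j k : ZMod m}
    (hjk : j ≠ k) {p : E3} (hj : p ∈ segment ℝ (C.y j) (C.y (j + 1)))
    (hk : p ∈ segment ℝ (C.y k) (C.y (k + 1))) (hp : ∀ e, p ∉ P.seg e) : False := by
  obtain ⟨mj, mj', ej, ej'⟩ := C.mem_face j
  obtain ⟨mk, mk', ek, ek'⟩ := C.mem_face k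
  have hpj : p ∈ P.tri (C.F j) := (convex_convexHull ℝ _).segment_subset mj mj' hj
  have hpk : p ∈ P.tri (C.F k) := (convex_convexHull ℝ _).segment_subset mk mk' hk
  have hN : P.NV p := by
    intro v hv
    obtain ⟨d, rfl⟩ := P.surj v
    apply hp d
    rw [hv]
    exact left_mem_segment ℝ _ _
  have hF : P.SF (C.F j) (C.F k) := by
    by_contra hne
    obtain ⟨a, ha, -, -⟩ := P.common_edge hpj hpk hne hN
    exact hp a (openSegment_subset_segment ℝ _ _ ha)
  have ho := h.opt j k hjk hF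
  have d1 := dist_of_mem_segment hj
  have d2 := dist_of_mem_segment hk
  have t1 := dist_triangle (C.y j) p (C.y k)
  have t2 := dist_triangle (C.y (j + 1)) p (C.y (k + 1))
  have s3 : p ∈ segment ℝ (C.y j) (C.y k) := by
    apply mem_segment_of_dist
    rw [dist_comm p (C.y (j + 1))] at d1
    rw [dist_comm (C.y k) p] at d2
    linarith
  have s4 : p ∈ segment ℝ (C.y (j + 1)) (C.y (k + 1)) := by
    apply mem_segment_of_dist
    rw [dist_comm p (C.y (j + 1))] at d1
    rw [dist_comm (C.y k) p] at d2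
    linarith
  have tr : ∀ {x : E3}, (∃ e, P.SF (C.F k) e ∧ x ∈ P.seg e) → ∃ e, P.SF (C.F j) e ∧ x ∈ P.seg e := by
    rintro x ⟨e, he, hx⟩
    exact ⟨e, P.SF_trans hF he, hx⟩
  obtain ⟨q1, q2⟩ := P.chord_swap ej ej' (tr ek) (tr ek') (fun e _ => hp e) hj hk s3 s4
  have r1 := hinj q1
  have r2 := hinj q2
  rw [r1] at r2
  have r3 : ((2 : ℕ) : ZMod m) = 0 := by
    push_cast
    linear_combination r2
  rw [ZMod.natCast_eq_zero_iff] at r3
  exact absurd (Nat.le_of_dvd (by norm_num) r3) (by omega)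

end Cyc

end QG6b
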