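import Pool.Agent.Lib_MP_6b5565.D2f

/-! [QG-D2d] -/

namespace QG6b

open EuclideanGeometry

namespace Cyc

variable {P : Poly} {m : ℕ} [NeZero m] {C : Cyc P m}

private theorem mem_segment_of_dist {x y p : E3} (h : dist x p + dist p y ≤ dist x y) :
    p ∈ segment ℝ x y := by
  rw [mem_segment_iff_wbtw, ← dist_add_dist_eq_iff]
  exact le_antisymm h (dist_triangle _ _ _)

private theorem dist_of_mem_segment {x y p : E3} (h : p ∈ segment ℝ x y) :
    dist x p + dist p y = dist x y :=
  dist_add_dist_eq_iff.2 (mem_segment_iff_wbtw.1 h)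

private theorem seg_eq_of_oseg {d e : P.D} {p : E3} (h : p ∈ P.oseg d) (h' : p ∈ P.seg e) :
    P.seg e = P.seg d := by
  rcases P.edge_unique h h' with rfl | rfl
  · rfl
  · exact P.seg_inv _

/-- the ends of a segment in an edge are vertices -/
private theorem Nice.ends (h : C.Nice) {j : ZMod m} {e : P.D} (h1 : C.y j ∈ P.seg e)
    (h2 : C.y (j + 1) ∈ P.seg e) : ¬ P.NV (C.y j) ∧ ¬ P.NV (C.y (j + 1)) := by
  constructor
  · intro hN
    obtain ⟨d, hd, hy⟩ := h.single j hN
    obtain ⟨-, al⟩ := h.along j d hN hd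
    rw [seg_eq_of_oseg hy h1] at h2
    exact al h2
  · intro hN
    obtain ⟨d, hd, hy⟩ := h.single (j + 1) hN
    obtain ⟨al, -⟩ := h.along (j + 1) d hN hd
    rw [add_sub_cancel_right] at al
    rw [seg_eq_of_oseg hy h2] at h1
    exact al h1

/-- a point of a segment inside an edge is an end point or the segment lies in the edge -/
private theorem Nice.trich (C : Cyc P m) {j : ZMod m} {p : E3} {e : P.D}
    (hj : p ∈ segment ℝ (C.y j) (C.y (j + 1))) (hp : p ∈ P.oseg e) :
    p = C.y j ∨ p = C.y (j + 1) ∨ (C.y j ∈ P.seg e ∧ C.y (j + 1) ∈ P.seg e) := by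
  obtain ⟨mj, mj', -, -⟩ := C.mem_face j
  have hpj : p ∈ P.tri (C.F j) := (convex_convexHull ℝ _).segment_subset mj mj' hj
  rcases P.face_of_oseg hp hpj with hF | hF
  · rw [P.tri_SF hF] at mj mj'
    exact P.edge_extreme mj mj' hp hj
  · rw [P.tri_SF hF] at mj mj'
    have := P.edge_extreme mj mj' (by rw [P.oseg_inv]; exact hp) hj
    rw [P.seg_inv] at this
    exact this

/-- a node inside an edge which is a segment of the curve -/
private theorem Nice.edge_node (h : C.Nice) {j b : ZMod m} {e : P.D}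
    (h1 : C.y j ∈ P.seg e) (h2 : C.y (j + 1) ∈ P.seg e)
    (hj : C.y b ∈ segment ℝ (C.y j) (C.y (j + 1))) (hp : C.y b ∈ P.oseg e) : False := by
  obtain ⟨v1, v2⟩ := h.ends h1 h2
  have hN : P.NV (C.y b) := P.NV_of_oseg hp
  obtain ⟨d, hd, hy⟩ := h.single b hN
  obtain ⟨al1, al2⟩ := h.along b d hN hd
  obtain ⟨f1, f2⟩ := C.face_single hd
  have hed : P.seg e = P.seg d := seg_eq_of_oseg hy (openSegment_subset_segment ℝ _ _ hp)
  rw [hed] at h1 h2
  obtain ⟨mj, mj', -, -⟩ := C.mem_face j
  have hpj : C.y b ∈ P.tri (C.F j) := (convex_convexHull ℝ _).segment_subset mj mj' hj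
  have dj := dist_of_mem_segment hj
  have hbj : b ≠ j := by
    rintro rfl
    exact v1 hN
  have hbj1 : b ≠ j + 1 := by
    rintro rfl
    exact v2 hN
  have nej : C.y b ≠ C.y j := fun h' => v1 (h' ▸ hN)
  have nej1 : C.y b ≠ C.y (j + 1) := fun h' => v2 (h' ▸ hN)
  rcases P.face_of_oseg hy hpj with hF | hF
  · -- the face of `j` is the face of `b - 1`
    have hF' : P.SF (C.F j) (C.F (b - 1)) := P.SF_trans hF (P.SF_symm f1)
    have hne : j ≠ b - 1 := by
      intro h'
      apply hbj1
      rw [h']
      ring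
    have ho := h.opt j (b - 1) hne hF'
    rw [sub_add_cancel] at ho
    have s : C.y b ∈ segment ℝ (C.y j) (C.y (b - 1)) := by
      apply mem_segment_of_dist
      rw [dist_comm (C.y b) (C.y (b - 1))]
      rw [dist_comm (C.y b) (C.y (j + 1))] at dj
      linarith
    have mq := (C.mem_face (b - 1)).1
    rw [P.tri_SF f1] at mq
    rw [P.tri_SF hF] at mj
    rcases P.edge_extreme mj mq hy s with h' | h' | ⟨-, h'⟩
    · exact nej h'
    · have := C.ne (b - 1)
      rw [sub_add_cancel] at this
      exact this h'.symm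
    · exact al1 h'
  · have hF' : P.SF (C.F j) (C.F b) := P.SF_trans hF (P.SF_symm f2)
    have ho := h.opt j b hbj.symm hF'
    have s : C.y b ∈ segment ℝ (C.y (j + 1)) (C.y (b + 1)) := by
      apply mem_segment_of_dist
      rw [dist_comm (C.y b) (C.y (j + 1))] at dj
      linarith
    have mq := (C.mem_face b).2.1
    rw [P.tri_SF f2] at mq
    rw [P.tri_SF hF] at mj'
    have hy' : C.y b ∈ P.oseg (P.inv d) := by rw [P.oseg_inv]; exact hy
    rcases P.edge_extreme mj' mq hy' s with h' | h' | ⟨-, h'⟩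
    · exact nej1 h'
    · exact C.ne b h'
    · rw [P.seg_inv] at h'
      exact al2 h'

private theorem vertex_end {x : E3} {e : P.D} (h : x ∈ P.seg e) (hN : ¬ P.NV x) :
    x = P.A e ∨ x = P.B e := by
  rcases P.seg_cases h with h' | h' | h'
  · exact Or.inl h'
  · exact Or.inr h'
  · exact absurd (P.NV_of_oseg h') hN

/-- [QG-D2d] a common point inside an edge. Either it is a node of both (same node: consecutive
segments), or one of the segments is the whole edge (both its ends are vertices by `Nice.along`):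
if both are, then `m = 2` by `uniq`; if the other one ends at `p`, the 2-opt inequality for the
segment in the same face is strict, contradiction. -/
theorem Nice.meet_edge (h : C.Nice) (h3 : 3 ≤ m) (hinj : Function.Injective C.y) {j k : ZMod m}
    (hjk : j ≠ k) {p : E3} {e : P.D} (hj : p ∈ segment ℝ (C.y j) (C.y (j + 1)))
    (hk : p ∈ segment ℝ (C.y k) (C.y (k + 1))) (hp : p ∈ P.oseg e) :
    (k = j + 1 ∧ p = C.y k) ∨ (j = k + 1 ∧ p = C.y j) := by
  rcases Nice.trich C hj hp with aj | aj | ⟨aj, aj'⟩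
  · rcases Nice.trich C hk hp with ak | ak | ⟨ak, ak'⟩
    · exact absurd (hinj (aj.symm.trans ak)) hjk
    · exact Or.inr ⟨hinj (aj.symm.trans ak), aj⟩
    · exfalso
      rw [aj] at hk hp
      exact h.edge_node ak ak' hk hp
  · rcases Nice.trich C hk hp with ak | ak | ⟨ak, ak'⟩
    · exact Or.inl ⟨hinj (ak.symm.trans aj), ak⟩
    · exact absurd (add_right_cancel (hinj (aj.symm.trans ak))) hjk
    · exfalso
      rw [aj] at hk hp
      exact h.edge_node ak ak' hk hp
  · rcases Nice.trich C hk hp with ak | ak | ⟨ak, ak'⟩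
    · exfalso
      rw [ak] at hj hp
      exact h.edge_node aj aj' hj hp
    · exfalso
      rw [ak] at hj hp
      exact h.edge_node aj aj' hj hp
    · exfalso
      obtain ⟨n1, n2⟩ := h.ends aj aj'
      obtain ⟨n3, n4⟩ := h.ends ak ak'
      have two : j = k + 1 → j + 1 = k → False := by
        intro q1 q2
        have r3 : ((2 : ℕ) : ZMod m) = 0 := by
          push_cast
          linear_combination q2 - q1
        rw [ZMod.natCast_eq_zero_iff] at r3
        exact absurd (Nat.le_of_dvd (by norm_num) r3) (by omega)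
      have hs : ∀ a b : ZMod m, C.y a = P.A e → C.y b = P.A e → a = b := fun a b p1 p2 =>
        hinj (p1.trans p2.symm)
      have hs' : ∀ a b : ZMod m, C.y a = P.B e → C.y b = P.B e → a = b := fun a b p1 p2 =>
        hinj (p1.trans p2.symm)
      rcases vertex_end aj n1 with b1 | b1 <;> rcases vertex_end aj' n2 with b2 | b2 <;>
        rcases vertex_end ak n3 with b3 | b3 <;> rcases vertex_end ak' n4 with b4 | b4
      · exact C.ne j (b1.trans b2.symm)
      · exact C.ne j (b1.trans b2.symm)
      · exact C.ne j (b1.trans b2.symm)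
      · exact C.ne j (b1.trans b2.symm)
      · exact C.ne k (b3.trans b4.symm)
      · exact hjk (hs _ _ b1 b3)
      · exact two (hs _ _ b1 b4) (hs' _ _ b2 b3)
      · exact C.ne k (b3.trans b4.symm)
      · exact C.ne k (b3.trans b4.symm)
      · exact two (hs' _ _ b1 b4) (hs _ _ b2 b3)
      · exact hjk (hs' _ _ b1 b3)
      · exact C.ne k (b3.trans b4.symm)
      · exact C.ne j (b1.trans b2.symm)
      · exact C.ne j (b1.trans b2.symm)
      · exact C.ne j (b1.trans b2.symm)
      · exact C.ne j (b1.trans b2.symm)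

end Cyc

end QG6b
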