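import Pool.Agent.Lib_MP_6b5565.D2f

/-! [QG-D2e] -/

namespace QG6b

open EuclideanGeometry

namespace Cyc

variable {P : Poly} {m : ℕ} [NeZero m] {C : Cyc P m}

/-- [QG-D2e] a common vertex (`vertex_extreme`, injectivity) -/
theorem Nice.meet_vertex (h : C.Nice) (h3 : 3 ≤ m) (hinj : Function.Injective C.y) {j k : ZMod m}
    (hjk : j ≠ k) {p : E3} {v : P.V} (hj : p ∈ segment ℝ (C.y j) (C.y (j + 1)))
    (hk : p ∈ segment ℝ (C.y k) (C.y (k + 1))) (hp : p = P.pos v) :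
    (k = j + 1 ∧ p = C.y k) ∨ (j = k + 1 ∧ p = C.y j) := by
  subst hp
  obtain ⟨a1, a2, _⟩ := C.mem_face j
  obtain ⟨b1, b2, _⟩ := C.mem_face k
  rcases P.vertex_extreme a1 a2 hj with h1 | h1 <;> rcases P.vertex_extreme b1 b2 hk with h2 | h2
  · exact absurd (hinj (h1.symm.trans h2)) hjk
  · exact Or.inr ⟨hinj (h1.symm.trans h2), h1⟩
  · exact Or.inl ⟨hinj (h2.symm.trans h1), h2⟩
  · exact absurd (add_right_cancel (hinj (h1.symm.trans h2))) hjk

end Cyc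

end QG6b
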