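import Pool.Agent.Lib_MP_6b5565.Simple
import Pool.Agent.Lib_MP_6b5565.Cy

/-! [QG-D3a] -/

namespace QG6b

open EuclideanGeometry

namespace Cyc

variable {P : Poly} {m : ℕ} [NeZero m] {C : Cyc P m}

/-- [QG-D3a] shape of a doubled curve: two vertex nodes, at which the curve turns back; all other
nodes are no vertices and come in pairs `j₀ + t`, `j₀ - t` crossing the same edge in opposite
directions (`Nice.double`). -/
theorem Nice.doubled_shape (h : C.Nice) (hd : C.Doubled) :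
    ∃ (j₀ j₁ : ZMod m) (z z' : P.V), j₀ ≠ j₁ ∧ z ≠ z' ∧ C.y j₀ = P.pos z ∧ C.y j₁ = P.pos z' ∧
      C.vis = {z, z'} ∧ (∀ j, j ≠ j₀ → j ≠ j₁ → P.NV (C.y j)) ∧
      C.y (j₀ + 1) = C.y (j₀ - 1) ∧ C.y (j₁ + 1) = C.y (j₁ - 1) ∧
      (∀ j, j ≠ j₀ → j ≠ j₁ → ∃ d, C.R j = [d] ∧ 2 * j₀ - j ≠ j ∧
        C.R (2 * j₀ - j) = [P.inv d]) ∧ 2 * j₀ - j₁ = j₁ := by
  obtain ⟨j₀, r, hr, hm, hsym, ⟨z, hz⟩, ⟨z', hz'⟩, hNV⟩ := hd
  have h2r : 2 * ((r : ℕ) : ZMod m) = 0 := by
    have := ZMod.natCast_self m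
    rw [hm] at this
    push_cast at this
    rw [← hm] at this
    exact this
  have hrm : r < m := by omega
  have hr0 : ((r : ℕ) : ZMod m) ≠ 0 := by
    intro h0
    rw [ZMod.natCast_eq_zero_iff] at h0
    exact absurd (Nat.le_of_dvd (by omega) h0) (by omega)
  -- representation of nodes
  have hrep : ∀ j : ZMod m, ∃ t : ℕ, t < m ∧ j = j₀ + (t : ZMod m) := by
    intro j
    refine ⟨ZMod.val (j - j₀), ZMod.val_lt _, ?_⟩
    rw [ZMod.natCast_zmod_val]
    ring
  have hNV2 : ∀ t : ℕ, t < m → t ≠ 0 → t ≠ r → P.NV (C.y (j₀ + (t : ZMod m))) := by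
    intro t ht ht0 htr
    rcases lt_or_gt_of_ne htr with h1 | h1
    · exact hNV t (Nat.pos_of_ne_zero ht0) h1
    · rw [hsym t]
      have e : j₀ - (t : ZMod m) = j₀ + ((2 * r - t : ℕ) : ZMod m) := by
        rw [Nat.cast_sub (by omega)]
        push_cast
        rw [h2r]
        ring
      rw [e]
      exact hNV _ (by omega) (by omega)
  have hj01 : j₀ ≠ j₀ + (r : ZMod m) := by
    intro h0
    exact hr0 (by linear_combination -h0)
  have hcase : ∀ j : ZMod m, j ≠ j₀ → j ≠ j₀ + (r : ZMod m) →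
      ∃ t : ℕ, t < m ∧ t ≠ 0 ∧ t ≠ r ∧ j = j₀ + (t : ZMod m) := by
    intro j h0 h1
    obtain ⟨t, ht, rfl⟩ := hrep j
    refine ⟨t, ht, ?_, ?_, rfl⟩
    · rintro rfl
      apply h0
      simp
    · rintro rfl
      exact h1 rfl
  have hall : ∀ j : ZMod m, j ≠ j₀ → j ≠ j₀ + (r : ZMod m) → P.NV (C.y j) := by
    intro j h0 h1
    obtain ⟨t, ht, ht0, htr, rfl⟩ := hcase j h0 h1
    exact hNV2 t ht ht0 htr
  refine ⟨j₀, j₀ + (r : ZMod m), z, z', hj01, ?_, hz, hz', ?_, hall, ?_, ?_, ?_, ?_⟩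
  · rintro rfl
    exact hj01 (h.uniq _ _ z hz hz')
  · classical
    ext v
    unfold vis
    simp only [Finset.mem_filter, Finset.mem_univ, true_and, Finset.mem_insert,
      Finset.mem_singleton]
    constructor
    · rintro ⟨j, hj⟩
      by_cases h0 : j = j₀
      · left
        rw [h0, hz] at hj
        exact (P.pos_inj hj).symm
      · by_cases h1 : j = j₀ + (r : ZMod m)
        · right
          rw [h1, hz'] at hj
          exact (P.pos_inj hj).symm
        · exact absurd hj (hall j h0 h1 v)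
    · rintro (rfl | rfl)
      · exact ⟨_, hz⟩
      · exact ⟨_, hz'⟩
  · have := hsym 1
    simpa using this
  · have := hsym (r + 1)
    push_cast at this
    have e1 : j₀ + ((r : ZMod m) + 1) = j₀ + (r : ZMod m) + 1 := by ring
    have e2 : j₀ - ((r : ZMod m) + 1) = j₀ + (r : ZMod m) - 1 := by linear_combination -h2r
    rw [e1, e2] at this
    exact this
  · intro j h0 h1
    have hn := hall j h0 h1
    obtain ⟨t, ht, ht0, htr, rfl⟩ := hcase j h0 h1
    have e : 2 * j₀ - (j₀ + (t : ZMod m)) = j₀ - (t : ZMod m) := by ring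
    rw [e]
    have hne : j₀ - (t : ZMod m) ≠ j₀ + (t : ZMod m) := by
      intro h3
      have h4 : ((2 * t : ℕ) : ZMod m) = 0 := by
        push_cast
        linear_combination -h3
      rw [ZMod.natCast_eq_zero_iff, hm] at h4
      obtain ⟨c, hc⟩ := h4
      have h5 : t = r * c := by
        have : 2 * t = 2 * (r * c) := by rw [hc]; ring
        omega
      rcases c with _ | _ | c
      · exact ht0 (by simpa using h5)
      · exact htr (by simpa using h5)
      · have : 2 * r ≤ r * (c + 1 + 1) := by nlinarith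
        omega
    obtain ⟨-, -, d, hd1, hd2⟩ := h.double _ _ hne.symm hn (hsym t)
    exact ⟨d, hd1, hne, hd2⟩
  · linear_combination -h2r

end Cyc

end QG6b
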