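import Pool.Agent.Lib_MP_6b5565.D2f
import Pool.Agent.Lib_MP_6b5565.Cy

/-! [QG-D3b] -/

namespace QG6b

open EuclideanGeometry

namespace Poly

variable (P : Poly)

/-- a closed walk crossing only edges at `z` has a colouring which vanishes off `z` -/
theorem col_of_star_walk {F : P.D} {l : List P.D} (w : P.DWalk F l F) (z : P.V)
    (hl : ∀ e ∈ l, z = P.tail e ∨ z = P.head e) :
    ∃ c, P.Col (P.par l) c ∧ ∀ v, v ≠ z → c v = 0 := by
  have hsupp : ∀ e, P.tail e ≠ z → P.head e ≠ z → P.par l e = 0 := by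
    intro e h1 h2
    unfold par
    have h3 : l.countP (fun a => a = e ∨ a = P.inv e) = 0 := by
      rw [List.countP_eq_zero]
      intro a ha h4
      have h5 : a = e ∨ a = P.inv e := by simpa using h4
      rcases h5 with h5 | h5
      · rw [h5] at ha
        rcases hl e ha with h6 | h6
        · exact h1 h6.symm
        · exact h2 h6.symm
      · rw [h5] at ha
        rcases hl _ ha with h6 | h6
        · exact h2 h6.symm
        · rw [P.tail_eq_head_inv] at h6
          exact h1 h6.symm
    rw [h3, Nat.cast_zero]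
  rcases P.cocycle_star (P.par_inv l) (P.par_face w) hsupp with h | h
  · refine ⟨fun _ => 0, fun d => ?_, fun _ _ => rfl⟩
    rw [h d, add_zero]
  · refine ⟨fun u => if u = z then 1 else 0, fun d => ?_, fun v hv => if_neg hv⟩
    rw [h d]
    exact P.Col_star z d

end Poly

namespace Cyc

variable {P : Poly} {m : ℕ} [NeZero m] {C : Cyc P m}

/-- [QG-D3b] in a doubled curve all vertices except `z, z'` have the same colour: the crossings of
the strand cancel in pairs, so `C.par = par (R j₀) + par (R j₁)`. If there is a non-vertex node, the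
faces before and after `j₀` are equal, so `R j₀` is a closed walk with parity supported on the star
of `z` (`cocycle_star`), same for `j₁`. If not (`m = 2`), the curve is the edge `e = z z'` run twice;
`R j₀` from face `A` to face `B`, `R j₁` back, both faces at `e`; if `SF A B` as before, else add
one crossing of `e` to both. -/
theorem Nice.doubled_color (h : C.Nice) {j₀ j₁ : ZMod m} {z z' : P.V} (hj : j₀ ≠ j₁) (hz : z ≠ z')
    (h0 : C.y j₀ = P.pos z) (h1 : C.y j₁ = P.pos z') (hvis : C.vis = {z, z'})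
    (hnv : ∀ j, j ≠ j₀ → j ≠ j₁ → P.NV (C.y j))
    (ht0 : C.y (j₀ + 1) = C.y (j₀ - 1)) (ht1 : C.y (j₁ + 1) = C.y (j₁ - 1))
    (hpair : ∀ j, j ≠ j₀ → j ≠ j₁ → ∃ d, C.R j = [d] ∧ 2 * j₀ - j ≠ j ∧
        C.R (2 * j₀ - j) = [P.inv d]) (hfix : 2 * j₀ - j₁ = j₁) :
    ∃ col c, P.Col C.par col ∧ ∀ v, v ≠ z → v ≠ z' → col v = c := by
  have two : (2 : ZMod 2) = 0 := rfl
  have hparinv : ∀ (d e : P.D), P.par [P.inv d] e = P.par [d] e := by
    intro d e
    have h2 := congrFun (P.par_map_inv [d]) e
    simpa using h2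
  -- the parity of the curve
  have hpar : ∀ e, C.par e = P.par (C.R j₀) e + P.par (C.R j₁) e := by
    intro e
    unfold Cyc.par
    rw [← Finset.sum_add_sum_compl {j₀, j₁}, Finset.sum_pair hj]
    have h2 : ∑ j ∈ ({j₀, j₁} : Finset (ZMod m))ᶜ, P.par (C.R j) e = 0 := by
      refine Finset.sum_involution (fun j _ => 2 * j₀ - j) ?_ ?_ ?_ ?_
      · intro j hjm
        rw [Finset.mem_compl, Finset.mem_insert, Finset.mem_singleton, not_or] at hjm
        obtain ⟨d, hd1, -, hd2⟩ := hpair j hjm.1 hjm.2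
        rw [hd1, hd2, hparinv]
        linear_combination P.par [d] e * two
      · intro j hjm _
        rw [Finset.mem_compl, Finset.mem_insert, Finset.mem_singleton, not_or] at hjm
        obtain ⟨d, -, hd, -⟩ := hpair j hjm.1 hjm.2
        exact hd
      · intro j hjm
        rw [Finset.mem_compl, Finset.mem_insert, Finset.mem_singleton, not_or] at hjm ⊢
        refine ⟨fun h3 => hjm.1 ?_, fun h3 => hjm.2 ?_⟩
        · linear_combination -h3
        · linear_combination hfix - h3
      · intro j _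
        ring
    rw [h2, add_zero]
  -- crossed edges contain the vertex
  have hR0 : ∀ e ∈ C.R j₀, z = P.tail e ∨ z = P.head e := by
    intro e he
    have h2 := C.on j₀ e he
    rw [h0] at h2
    exact P.eq_of_pos_mem_seg h2
  have hR1 : ∀ e ∈ C.R j₁, z' = P.tail e ∨ z' = P.head e := by
    intro e he
    have h2 := C.on j₁ e he
    rw [h1] at h2
    exact P.eq_of_pos_mem_seg h2
  have fin : ∀ p q : P.D → ZMod 2, (∀ e, C.par e = p e + q e) → ∀ c c' : P.V → ZMod 2,
      P.Col p c → P.Col q c' → (∀ v, v ≠ z → c v = 0) → (∀ v, v ≠ z' → c' v = 0) →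
      ∃ col c, P.Col C.par col ∧ ∀ v, v ≠ z → v ≠ z' → col v = c := by
    intro p q hpq c c' hc hc' hcz hcz'
    refine ⟨fun v => c v + c' v, 0, ?_, ?_⟩
    · intro e
      rw [hpq e]
      exact P.Col_add hc hc' e
    · intro v hv hv'
      show c v + c' v = 0
      rw [hcz v hv, hcz' v hv', add_zero]
  -- closed walks
  have closed : P.SF (C.F (j₀ - 1)) (C.F j₀) → P.SF (C.F (j₁ - 1)) (C.F j₁) →
      ∃ col c, P.Col C.par col ∧ ∀ v, v ≠ z → v ≠ z' → col v = c := by
    intro s0 s1
    obtain ⟨c, hc, hc0⟩ := P.col_of_star_walk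
      (P.DWalk_congr_right (P.SF_symm s0) (C.walk j₀)) z hR0
    obtain ⟨c', hc', hc0'⟩ := P.col_of_star_walk
      (P.DWalk_congr_right (P.SF_symm s1) (C.walk j₁)) z' hR1
    exact fin _ _ hpar c c' hc hc' hc0 hc0'
  by_cases hcase : j₀ + 1 = j₁
  · -- the curve is an edge run twice
    have hcase' : j₁ + 1 = j₀ := by
      rw [← hcase] at hfix ⊢
      linear_combination -hfix
    have e0 : j₀ - 1 = j₁ := by rw [← hcase']; ring
    have e1 : j₁ - 1 = j₀ := by rw [← hcase]; ring
    have m0 := C.mem_face j₀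
    have m1 := C.mem_face j₁
    rw [hcase] at m0
    rw [hcase'] at m1
    have w0 := C.walk j₀
    have w1 := C.walk j₁
    rw [e0] at w0
    rw [e1] at w1
    obtain ⟨e, he1, he2, he3⟩ := P.edge_of_two_vertices (d := C.F j₀) (v := z) (w := z')
      (h0 ▸ m0.1) (h1 ▸ m0.2.1) hz
    obtain ⟨e', he1', he2', he3'⟩ := P.edge_of_two_vertices (d := C.F j₁) (v := z) (w := z')
      (h0 ▸ m1.2.1) (h1 ▸ m1.1) hz
    have hee : e' = e := P.edge_inj e' e (he1'.trans he1.symm) (he2'.trans he2.symm)
    rw [hee] at he3'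
    have step : ∀ f, P.SF (C.F j₀) f → P.SF (P.inv f) (C.F j₁) →
        (z = P.tail f ∨ z = P.head f) → (z' = P.tail f ∨ z' = P.head f) →
        ∃ col c, P.Col C.par col ∧ ∀ v, v ≠ z → v ≠ z' → col v = c := by
      intro f hf1 hf2 hfz hfz'
      have d0 : P.DWalk (C.F j₁) (C.R j₀ ++ [f]) (C.F j₁) :=
        P.DWalk_append.2 ⟨C.F j₀, w0, hf1, hf2⟩
      have d1 : P.DWalk (C.F j₀) (C.R j₁ ++ [P.inv f]) (C.F j₀) :=
        P.DWalk_append.2 ⟨C.F j₁, w1, P.SF_symm hf2, by
          show P.SF (P.inv (P.inv f)) (C.F j₀)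
          rw [P.inv_inv]
          exact P.SF_symm hf1⟩
      obtain ⟨c, hc, hc0⟩ := P.col_of_star_walk d0 z (by
        intro a ha
        rcases List.mem_append.1 ha with h2 | h2
        · exact hR0 a h2
        · rw [List.mem_singleton.1 h2]
          exact hfz)
      obtain ⟨c', hc', hc0'⟩ := P.col_of_star_walk d1 z' (by
        intro a ha
        rcases List.mem_append.1 ha with h2 | h2
        · exact hR1 a h2
        · rw [List.mem_singleton.1 h2, P.tail_eq_head_inv]
          rcases hfz' with h3 | h3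
          · exact Or.inr h3
          · exact Or.inl h3)
      refine fin _ _ (fun a => ?_) c c' hc hc' hc0 hc0'
      rw [hpar a, P.par_append, P.par_append, hparinv]
      linear_combination (-P.par [f] a) * two
    rcases he3 with s0 | s0 <;> rcases he3' with s1 | s1
    · refine closed ?_ ?_
      · rw [e0]
        exact P.SF_trans s1 (P.SF_symm s0)
      · rw [e1]
        exact P.SF_trans s0 (P.SF_symm s1)
    · exact step e s0 (P.SF_symm s1) (Or.inl he1.symm) (Or.inr he2.symm)
    · refine step (P.inv e) s0 ?_ ?_ ?_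
      · rw [P.inv_inv]
        exact P.SF_symm s1
      · right
        rw [P.tail_eq_head_inv]
        exact he1.symm
      · left
        exact he2.symm
    · refine closed ?_ ?_
      · rw [e0]
        exact P.SF_trans s1 (P.SF_symm s0)
      · rw [e1]
        exact P.SF_trans s0 (P.SF_symm s1)
  · -- there is a non-vertex node
    have n0 : j₀ + 1 ≠ j₀ := by
      intro h2
      exact C.ne j₀ (by rw [h2])
    have n1 : j₁ + 1 ≠ j₁ := by
      intro h2
      exact C.ne j₁ (by rw [h2])
    have n2 : j₁ + 1 ≠ j₀ := by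
      intro h2
      apply hcase
      rw [← h2] at hfix ⊢
      linear_combination hfix
    obtain ⟨d, hd1, -, hd2⟩ := hpair (j₀ + 1) n0 hcase
    obtain ⟨d', hd1', -, hd2'⟩ := hpair (j₁ + 1) n2 n1
    rw [show 2 * j₀ - (j₀ + 1) = j₀ - 1 by ring] at hd2
    rw [show 2 * j₀ - (j₁ + 1) = j₁ - 1 by linear_combination hfix] at hd2'
    have f1 := (C.face_single hd1).1
    have f2 := (C.face_single hd2).2
    have f1' := (C.face_single hd1').1
    have f2' := (C.face_single hd2').2
    rw [add_sub_cancel_right] at f1 f1'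
    rw [P.inv_inv] at f2 f2'
    exact closed (P.SF_trans f2 (P.SF_symm f1)) (P.SF_trans f2' (P.SF_symm f1'))

end Cyc

end QG6b
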