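import Pool.Agent.Lib_MP_6b5565.D2f
import Pool.Agent.Lib_MP_6b5565.Cy
import Pool.Agent.Lib_MP_6b5565.Fan

/-! [QG-D3c] -/

namespace QG6b

open EuclideanGeometry

namespace Cyc

variable {P : Poly} {m : ℕ} [NeZero m] {C : Cyc P m}

private theorem d3c_angList (z : E3) (l : List E3) : 0 ≤ angList z l := by
  match l with
  | [] => exact le_rfl
  | [_] => exact le_rfl
  | a :: b :: l => exact add_nonneg (EuclideanGeometry.angle_nonneg _ _ _) (d3c_angList z (b :: l))

private theorem d3c_par0 {v : P.V} {l : List P.D} (hl : ∀ a ∈ l, P.tail a = v ∨ P.head a = v) {e : P.D}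
    (h1 : P.tail e ≠ v) (h2 : P.head e ≠ v) : P.par l e = 0 := by
  unfold Poly.par
  have : l.countP (fun a => decide (a = e ∨ a = P.inv e)) = 0 := by
    rw [List.countP_eq_zero]
    intro a ha hdec
    rw [decide_eq_true_eq] at hdec
    rcases hdec with rfl | rfl
    · rcases hl _ ha with h | h
      · exact h1 h
      · exact h2 h
    · rcases hl _ ha with h | h
      · exact h2 h
      · rw [P.tail_eq_head_inv] at h
        exact h1 h
  rw [this]
  rfl

private theorem d3c_q {v : P.V} {F G : P.D} {R W : List P.D} (wR : P.DWalk F R G) (wW : P.DWalk F W G)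
    (hR : ∀ a ∈ R, P.tail a = v ∨ P.head a = v) (hW : ∀ a ∈ W, P.tail a = v ∨ P.head a = v) :
    (∀ e, P.par R e + P.par W e = 0) ∨ (∀ e, P.par R e + P.par W e = P.star v e) := by
  have hw : P.DWalk G ((R.map P.inv).reverse ++ W) G :=
    (P.DWalk_append).2 ⟨F, P.DWalk_reverse wR, wW⟩
  have hq : ∀ e, P.par R e + P.par W e = P.par ((R.map P.inv).reverse ++ W) e := by
    intro e
    rw [P.par_append, P.par_reverse, P.par_map_inv]
  have key := P.cocycle_star (v := v) (p := fun e => P.par R e + P.par W e)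
    (fun e => by show _ + _ = _ + _; rw [P.par_inv, P.par_inv])
    (fun e => by
      show (P.par R e + P.par W e) + (P.par R (P.nxt e) + P.par W (P.nxt e)) +
        (P.par R (P.prev e) + P.par W (P.prev e)) = 0
      rw [hq, hq, hq]
      exact P.par_face hw e)
    (fun e h1 h2 => by
      show P.par R e + P.par W e = 0
      rw [d3c_par0 hR h1 h2, d3c_par0 hW h1 h2, add_zero])
  exact key

private theorem d3c_K {Z : Finset P.V} {z z' : P.V} (hz : z ≠ z') (hvis : Z = {z, z'})
    {col : P.V → ZMod 2} {c : ZMod 2} (hcol : ∀ v, v ≠ z → v ≠ z' → col v = c)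
    (hK : 2 * Real.pi < P.K (Z.erase z) col (col z)) : col z = c := by
  by_contra hne
  have h1 : (Finset.univ.filter (fun v => v ∉ Z.erase z ∧ col v = col z)) = {z} := by
    ext v
    simp only [Finset.mem_filter, Finset.mem_univ, true_and, Finset.mem_singleton, hvis,
      Finset.mem_erase, Finset.mem_insert]
    constructor
    · rintro ⟨h2, h3⟩
      by_contra hv
      have hv' : v ≠ z' := fun h => h2 ⟨hv, Or.inr h⟩
      exact hne (h3.symm.trans (hcol v hv hv'))
    · rintro rfl
      exact ⟨fun h => h.1 rfl, rfl⟩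
  unfold Poly.K at hK
  rw [h1, Finset.sum_singleton] at hK
  have := P.kap_lt z
  linarith

/-- [QG-D3c] at a turning vertex the total angle is at least `π`: else both fans of `fan_exists`
(`p = q`) have angle `< π`; they give the two possible colours of `z`, one of them is different from
the colour of all other vertices, and `Nice.push` gives `2π < kap z`. -/
theorem Nice.doubled_tot (h : C.Nice) {j₀ : ZMod m} {z z' : P.V} (hz : z ≠ z')
    (h0 : C.y j₀ = P.pos z) (hvis : C.vis = {z, z'}) (ht0 : C.y (j₀ + 1) = C.y (j₀ - 1))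
    {col : P.V → ZMod 2} {c : ZMod 2} (hc : P.Col C.par col)
    (hcol : ∀ v, v ≠ z → v ≠ z' → col v = c) : Real.pi ≤ P.tot z := by
  classical
  by_contra hlt
  push Not at hlt
  obtain ⟨m1, m2, -, -⟩ := C.mem_face j₀
  obtain ⟨m3, m4, -, -⟩ := C.mem_face (j₀ - 1)
  have e1 : j₀ - 1 + 1 = j₀ := by ring
  rw [e1] at m4
  rw [h0] at m1 m4
  obtain ⟨a, sa, ha⟩ := P.verts_of_pos_mem m4
  obtain ⟨b, sb, hb⟩ := P.verts_of_pos_mem m1
  have hp : C.y (j₀ - 1) ∈ P.tri a := by rw [← P.tri_SF sa]; exact m3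
  have hq : C.y (j₀ + 1) ∈ P.tri b := by rw [← P.tri_SF sb]; exact m2
  have hpz : C.y (j₀ - 1) ≠ P.pos z := by
    have h1 := C.ne (j₀ - 1)
    rw [e1, h0] at h1
    exact h1
  have hqz : C.y (j₀ + 1) ≠ P.pos z := by
    have h1 := C.ne j₀
    rw [h0] at h1
    exact h1.symm
  obtain ⟨W₁, W₂, f1, f2, hsum, hpar⟩ := P.fan_exists z ha hb hp hq hpz hqz
  have n1 : 0 ≤ P.fang z (C.y (j₀ - 1)) W₁ (C.y (j₀ + 1)) := d3c_angList _ _
  have n2 : 0 ≤ P.fang z (C.y (j₀ - 1)) W₂ (C.y (j₀ + 1)) := d3c_angList _ _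
  have w1 : P.DWalk (C.F (j₀ - 1)) W₁ (C.F j₀) :=
    P.DWalk_congr_right (P.SF_symm sb) (P.DWalk_congr_left (P.SF_symm sa) (Poly.IsFan.walk P f1))
  have w2 : P.DWalk (C.F (j₀ - 1)) W₂ (C.F j₀) :=
    P.DWalk_congr_right (P.SF_symm sb) (P.DWalk_congr_left (P.SF_symm sa) (Poly.IsFan.walk P f2))
  have g1 := Poly.IsFan.mem P ha f1
  have g2 := Poly.IsFan.mem P ha f2
  have gR : ∀ e ∈ C.R j₀, P.tail e = z ∨ P.head e = z := by
    intro e he
    have h1 := C.on j₀ e he
    rw [h0] at h1
    rcases P.eq_of_pos_mem_seg h1 with h2 | h2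
    · exact Or.inl h2.symm
    · exact Or.inr h2.symm
  have two : (2 : ZMod 2) = 0 := rfl
  -- the fan which does not change the colours
  have A1 : ∀ W : List P.D, P.DWalk (C.F (j₀ - 1)) W (C.F j₀) → (∀ e ∈ W, P.tail e = z ∨ P.head e = z) →
      P.fang z (C.y (j₀ - 1)) W (C.y (j₀ + 1)) < Real.pi →
      (∀ e, P.par (C.R j₀) e + P.par W e = 0) → col z = c := by
    intro W hw hmem hang hzero
    have h1 := h.push j₀ z h0 W hw hmem hang col (by
      intro d
      show col (P.tail d) + col (P.head d) = C.par d + P.par (C.R j₀) d + P.par W d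
      rw [hc d]
      linear_combination -(hzero d))
    exact d3c_K hz hvis hcol h1
  have A2 : ∀ W : List P.D, P.DWalk (C.F (j₀ - 1)) W (C.F j₀) → (∀ e ∈ W, P.tail e = z ∨ P.head e = z) →
      P.fang z (C.y (j₀ - 1)) W (C.y (j₀ + 1)) < Real.pi →
      (∀ e, P.par (C.R j₀) e + P.par W e = P.star z e) → col z + 1 = c := by
    intro W hw hmem hang hstar
    have hcc := P.Col_add hc (P.Col_star z)
    have h1 := h.push j₀ z h0 W hw hmem hang (fun v => col v + if v = z then 1 else 0) (by
      intro d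
      have h2 := hcc d
      show (col (P.tail d) + if P.tail d = z then 1 else 0) + (col (P.head d) + if P.head d = z then 1 else 0) =
        C.par d + P.par (C.R j₀) d + P.par W d
      have h3 : (col (P.tail d) + if P.tail d = z then 1 else 0) +
        (col (P.head d) + if P.head d = z then 1 else 0) = C.par d + P.star z d := h2
      rw [h3, ← hstar d]
      ring)
    have h4 := d3c_K (col := fun v => col v + if v = z then 1 else 0) (c := c) hz hvis
      (by
        intro v hv hv'
        show (col v + if v = z then 1 else 0) = c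
        rw [if_neg hv, add_zero]
        exact hcol v hv hv') h1
    have h5 : (col z + if z = z then 1 else 0) = c := h4
    rwa [if_pos rfl] at h5
  have fin : ∀ x : ZMod 2, x + 1 = c → x = c → False := by
    intro x hx1 hx2
    rw [← hx2] at hx1
    exact one_ne_zero (left_eq_add.1 hx1.symm)
  rcases d3c_q (C.walk j₀) w1 gR g1 with hq1 | hq1
  · have hq2 : ∀ e, P.par (C.R j₀) e + P.par W₂ e = P.star z e := by
      intro e
      have h3 := hq1 e
      have h4 := hpar e
      linear_combination h4 - h3 + (P.par (C.R j₀) e) * two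
    exact fin _ (A2 W₂ w2 g2 (by linarith) hq2) (A1 W₁ w1 g1 (by linarith) hq1)
  · have hq2 : ∀ e, P.par (C.R j₀) e + P.par W₂ e = 0 := by
      intro e
      have h3 := hq1 e
      have h4 := hpar e
      linear_combination h4 - h3 + (P.par (C.R j₀) e) * two
    exact fin _ (A2 W₁ w1 g1 (by linarith) hq1) (A1 W₂ w2 g2 (by linarith) hq2)

end Cyc

end QG6b
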