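import Pool.Agent.Lib_MP_6b5565.D2f
import Pool.Agent.Lib_MP_6b5565.Cy

/-! [QG-D3d] -/

namespace QG6b

open EuclideanGeometry

namespace Cyc

variable {P : Poly} {m : ℕ} [NeZero m] {C : Cyc P m}

/-- [QG-D3d] the balance condition then gives total angle exactly `π` at both ends -/
theorem Nice.doubled_pi (h : C.Nice) {z z' : P.V} (hz : z ≠ z') (hvis : C.vis = {z, z'})
    {col : P.V → ZMod 2} {c : ZMod 2} (hc : P.Col C.par col)
    (hcol : ∀ v, v ≠ z → v ≠ z' → col v = c) (h1 : Real.pi ≤ P.tot z) (h2 : Real.pi ≤ P.tot z') :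
    P.tot z = Real.pi ∧ P.tot z' = Real.pi := by
  obtain ⟨col', hc', hK⟩ := h.bal
  obtain ⟨k, hk⟩ := P.Col_unique hc hc'
  have h3 := P.K_add' C.vis col' (c + k)
  have h4 : P.K C.vis col' (c + k + 1) = 0 := by
    unfold Poly.K
    rw [Finset.sum_eq_zero]
    intro v hv
    rw [Finset.mem_filter] at hv
    obtain ⟨-, hv1, hv2⟩ := hv
    rw [hvis, Finset.mem_insert, Finset.mem_singleton, not_or] at hv1
    rw [hk v, hcol v hv1.1 hv1.2] at hv2
    exfalso
    have h5 : (1 : ZMod 2) = 0 := by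
      have h6 : c + k + 0 = c + k + 1 := by rw [add_zero]; exact hv2
      exact (add_left_cancel h6).symm
    exact absurd h5 (by decide)
  have h5 := hK (c + k)
  rw [h4, add_zero] at h3
  have h6 : ∑ v ∈ C.vis, P.kap v = P.kap z + P.kap z' := by
    rw [hvis, Finset.sum_pair hz]
  rw [h6] at h3
  unfold Poly.kap at h3
  constructor <;> linarith

end Cyc

end QG6b
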