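import Pool.Agent.Lib_MP_6b5565.F1a
import Pool.Agent.Lib_MP_6b5565.Fan

/-! [QG-D3e] -/

namespace QG6b

open EuclideanGeometry

namespace Cyc

variable {P : Poly} {m : ℕ} [NeZero m] {C : Cyc P m}

private theorem d3e_tail_cw (a : P.D) (t : ℕ) : P.tail (P.cw^[t] a) = P.tail a := by
  induction t generalizing a with
  | zero => rfl
  | succ t ih => rw [Function.iterate_succ_apply, ih, P.tail_cw]

private theorem d3e_cw_deg (a : P.D) : P.cw^[P.deg (P.tail a)] a = a := by
  rw [P.iterate_cw_rot a (l := 0) (by simp)]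
  rfl

private theorem d3e_cw_pred (a : P.D) : P.cw^[P.deg (P.tail a) - 1] a = P.rot a := by
  have h3 := P.three_le_deg (P.tail a)
  rw [P.iterate_cw_rot a (l := 1) (by omega)]
  rfl

private theorem d3e_tot (a : P.D) :
    P.tot (P.tail a) = ∑ j ∈ Finset.range (P.deg (P.tail a)), P.ang (P.cw^[j] a) := by
  have himg : (Finset.range (P.deg (P.tail a))).image (fun j => P.cw^[j] a) =
      Finset.univ.filter (fun d => P.tail d = P.tail a) := by
    ext d
    simp only [Finset.mem_image, Finset.mem_range, Finset.mem_filter, Finset.mem_univ, true_and]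
    constructor
    · rintro ⟨j, -, rfl⟩
      exact d3e_tail_cw a j
    · intro hd
      obtain ⟨k, hk, hkd⟩ := P.exists_iterate_rot a d hd.symm
      rcases Nat.eq_zero_or_pos k with h0 | h0
      · subst h0
        exact ⟨0, hk, hkd⟩
      · refine ⟨P.deg (P.tail a) - k, by omega, ?_⟩
        rw [P.iterate_cw_rot a (l := k) (by omega)]
        exact hkd
  have hinj : Set.InjOn (fun j => P.cw^[j] a) (Finset.range (P.deg (P.tail a))) := by
    rw [← Finset.card_image_iff, himg, Finset.card_range]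
    rfl
  unfold Poly.tot
  rw [← himg, Finset.sum_image hinj]

/-- the full clockwise fan -/
private theorem d3e_full {v : P.V} {a G G' : P.D} {p : E3} (ha : P.tail a = v) (hG : P.SF G a)
    (hG' : P.SF G' a) (hp : p ∈ P.tri a) (hpv : p ≠ P.pos v) (h1 : p ∉ P.seg a)
    (h2 : p ∉ P.seg (P.rot a)) :
    CwFan P v p p G G' (P.cwD a (P.deg v)) ∧ P.fang v p (P.cwD a (P.deg v)) p = P.tot v ∧
      ∀ e, P.tail e = v → P.par (P.cwD a (P.deg v)) e = 1 := by
  subst ha
  have h3 := P.three_le_deg (P.tail a)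
  refine ⟨⟨a, P.deg (P.tail a), rfl, by omega, le_rfl, rfl, hG, ?_, hp, ?_, h1, ?_,
    fun _ => le_rfl⟩, ?_, ?_⟩
  · rw [d3e_cw_deg]
    exact hG'
  · rw [d3e_cw_deg]
    exact hp
  · rw [d3e_cw_pred]
    exact h2
  · rw [P.fang_cwD rfl _ (by omega), d3e_cw_pred, d3e_tot a]
    have h4 := P.ang_split hp hpv
    have h5 : ∑ j ∈ Finset.range (P.deg (P.tail a)), P.ang (P.cw^[j] a) =
        P.ang a + ∑ j ∈ Finset.Ico 1 (P.deg (P.tail a)), P.ang (P.cw^[j] a) := by
      rw [Finset.range_eq_Ico, Finset.sum_eq_sum_Ico_succ_bot (by omega)]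
      rfl
    rw [h5, ← h4]
    have h6 : ∠ (P.B (P.rot a)) (P.pos (P.tail a)) p = ∠ p (P.A a) (P.B (P.rot a)) :=
      EuclideanGeometry.angle_comm _ _ _
    have h7 : ∠ p (P.pos (P.tail a)) (P.B a) = ∠ p (P.A a) (P.B a) := rfl
    rw [h6, h7]
    ring
  · intro e he
    rw [P.par_cwD_full a e]
    unfold Poly.star
    rw [if_pos (Or.inl he)]

/-- the clockwise fan around the end of an edge, from one side of the edge to the other one -/
private theorem d3e_edge (e : P.D) {G G' : P.D} (hG : P.SF G (P.inv e)) (hG' : P.SF G' e) :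
    CwFan P (P.tail e) (P.B e) (P.B e) G G' (P.cwD (P.cw e) (P.deg (P.tail e) - 1)) ∧
      P.fang (P.tail e) (P.B e) (P.cwD (P.cw e) (P.deg (P.tail e) - 1)) (P.B e) = P.tot (P.tail e) ∧
      ∀ e', P.tail e' = P.tail e → P.head e' ≠ P.head e →
        P.par (P.cwD (P.cw e) (P.deg (P.tail e) - 1)) e' = 1 := by
  have h3 := P.three_le_deg (P.tail e)
  obtain ⟨k, hk⟩ : ∃ k, P.deg (P.tail e) = k + 1 := ⟨P.deg (P.tail e) - 1, by omega⟩
  have hk1 : P.deg (P.tail e) - 1 = k := by omega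
  have hkk : P.cw^[k] (P.cw e) = e := by
    rw [← Function.iterate_succ_apply, Nat.succ_eq_add_one, ← hk, d3e_cw_deg]
  have hkp : P.cw^[k - 1] (P.cw e) = P.rot e := by
    rw [← Function.iterate_succ_apply, Nat.succ_eq_add_one, Nat.sub_add_cancel (by omega), ← hk1,
      d3e_cw_pred]
  have hBtri : P.B e ∈ P.seg e := right_mem_segment ℝ _ _
  have hBtri' : P.B e ∈ P.tri (P.inv e) := by
    apply P.seg_sub_tri
    rw [P.seg_inv]
    exact hBtri
  have htc : P.tail (P.cw e) = P.tail e := P.tail_cw e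
  rw [hk1]
  refine ⟨⟨P.cw e, k, htc, by omega, by omega, rfl, ?_, ?_, ?_, ?_, ?_, ?_, ?_⟩, ?_, ?_⟩
  · exact P.SF_trans hG (P.SF_nxt _)
  · rw [hkk]
    exact hG'
  · show P.B e ∈ P.tri (P.nxt (P.inv e))
    rw [← P.tri_SF (P.SF_nxt (P.inv e))]
    exact hBtri'
  · rw [hkk]
    exact P.seg_sub_tri e hBtri
  · intro h
    have h4 : P.head (P.cw e) = P.tail (P.prev (P.inv e)) := P.head_nxt _
    rcases P.eq_of_pos_mem_seg (v := P.head e) h with h5 | h5
    · rw [htc] at h5
      exact P.tail_ne_head e h5.symm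
    · rw [h4] at h5
      exact P.tail_ne_prev (P.inv e) h5
  · rw [hkp]
    intro h
    rcases P.eq_of_pos_mem_seg (v := P.head e) h with h5 | h5
    · rw [P.tail_rot] at h5
      exact P.tail_ne_head e h5.symm
    · rw [P.head_rot] at h5
      exact P.head_ne_prev e h5
  · intro h
    omega
  · rw [P.fang_cwD htc k (by omega), hkp, d3e_tot e, hk]
    have h4 : ∠ (P.B e) (P.pos (P.tail e)) (P.B (P.cw e)) = P.ang (P.cw e) := by
      have h5 := P.ang_eq (P.cw e)
      rw [P.rot_cw] at h5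
      rw [← h5, EuclideanGeometry.angle_comm]
      unfold Poly.A
      rw [htc]
    have h6 : ∠ (P.B (P.rot e)) (P.pos (P.tail e)) (P.B e) = P.ang e := by
      rw [← P.ang_eq e, EuclideanGeometry.angle_comm]
      rfl
    have h10 : ∑ j ∈ Finset.range (k + 1), P.ang (P.cw^[j] e) =
        P.ang (P.cw^[0] e) + (P.ang (P.cw^[0 + 1] e) +
          ∑ j ∈ Finset.Ico (0 + 1 + 1) (k + 1), P.ang (P.cw^[j] e)) := by
      rw [Finset.range_eq_Ico, Finset.sum_eq_sum_Ico_succ_bot (by omega),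
        Finset.sum_eq_sum_Ico_succ_bot (by omega)]
    rw [h4, h6, h10]
    have h7 : ∑ j ∈ Finset.Ico (0 + 1 + 1) (k + 1), P.ang (P.cw^[j] e) =
        ∑ j ∈ Finset.Ico 1 k, P.ang (P.cw^[j] (P.cw e)) := by
      rw [← Finset.sum_Ico_add' (fun j => P.ang (P.cw^[j] e)) (0 + 1) k 1]
      rfl
    rw [h7]
    have h8 : P.cw^[0] e = e := rfl
    have h9 : P.cw^[0 + 1] e = P.cw e := rfl
    rw [h8, h9]
    ring
  · intro e' ht hh
    have h4 := P.par_cwD_full e e'
    have h5 : P.star (P.tail e) e' = 1 := by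
      unfold Poly.star
      rw [if_pos (Or.inl ht)]
    have h6 : P.cwD e (P.deg (P.tail e)) = [e] ++ P.cwD (P.cw e) k := by
      rw [hk]
      rfl
    rw [h5, h6, P.par_append, P.par_singleton, if_neg, zero_add] at h4
    · exact h4
    · rintro (h7 | h7)
      · exact hh (by rw [h7])
      · have h8 : P.head e = P.tail e' := by
          rw [h7, P.tail_eq_head_inv]
        exact P.tail_ne_head e (by rw [h8, ht])

/-- at a turning vertex whose neighbour is no vertex -/
private theorem d3e_turn (h : C.Nice) {j : ZMod m} {z : P.V} (h0 : C.y j = P.pos z)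
    (ht : C.y (j + 1) = C.y (j - 1)) (hn : P.NV (C.y (j + 1))) :
    ∃ a, P.tail a = z ∧ P.SF (C.F (j - 1)) a ∧ P.SF (C.F j) a ∧ C.y (j + 1) ∈ P.tri a ∧
      C.y (j + 1) ∉ P.seg a ∧ C.y (j + 1) ∉ P.seg (P.rot a) := by
  obtain ⟨d, hd, hpd⟩ := h.single _ hn
  have hzd : P.pos z ∉ P.seg d := by
    have := (h.along _ d hn hd).1
    rw [add_sub_cancel_right, h0] at this
    exact this
  obtain ⟨f1, f2, -, -⟩ := C.mem_face j
  obtain ⟨f3, f4, -, -⟩ := C.mem_face (j - 1)
  rw [sub_add_cancel] at f4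
  rw [h0] at f1 f4
  rw [← ht] at f3
  have hSF : P.SF (C.F (j - 1)) (C.F j) := by
    by_contra hne
    obtain ⟨b, hb, g1, g2⟩ := P.common_edge f3 f2 hne hn
    have hbd : P.seg b = P.seg d := by
      rcases P.edge_unique hpd (openSegment_subset_segment ℝ _ _ hb) with h1 | h1
      · rw [h1]
      · rw [h1, P.seg_inv]
    have hzb : P.pos z ∉ P.seg b := by
      rw [hbd]
      exact hzd
    have key : ∀ c : P.D, P.seg c = P.seg b → P.pos z ∈ P.tri c → z = P.tail (P.prev c) := by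
      intro c hc hzc
      obtain ⟨a, ha, hta⟩ := P.verts_of_pos_mem hzc
      rcases ha with ha | ha | ha
      · exfalso
        apply hzb
        rw [← hc, ← hta, ha]
        exact left_mem_segment ℝ _ _
      · exfalso
        apply hzb
        rw [← hc, ← hta, ha, ← P.head_eq]
        exact right_mem_segment ℝ _ _
      · rw [← hta, ha]
    have k1 := key b rfl (by rw [← P.tri_SF g1]; exact f4)
    have k2 := key (P.inv b) (P.seg_inv b) (by rw [← P.tri_SF g2]; exact f1)
    apply P.not_SF_inv b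
    have h1 := P.face_inj b (P.inv b) (by
      have e1 : P.tail (P.inv b) = P.tail (P.nxt b) := P.tail_inv b
      have e2 : P.tail (P.nxt (P.inv b)) = P.tail b := by
        rw [← P.head_eq, P.tail_eq_head_inv]
      have e3 : P.tail (P.nxt (P.nxt (P.inv b))) = P.tail (P.nxt (P.nxt b)) := by
        rw [show P.nxt (P.nxt (P.inv b)) = P.prev (P.inv b) from rfl,
          show P.nxt (P.nxt b) = P.prev b from rfl, ← k1, ← k2]
      rw [e1, e2, e3]
      ext u
      simp only [Finset.mem_insert, Finset.mem_singleton]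
      tauto)
    exact h1
  obtain ⟨a, ha, hta⟩ := P.verts_of_pos_mem f1
  have hno : ∀ c : P.D, P.tail c = z → C.y (j + 1) ∉ P.seg c := by
    intro c hc hmem
    apply hzd
    have hcd : P.seg c = P.seg d := by
      rcases P.edge_unique hpd hmem with h1 | h1
      · rw [h1]
      · rw [h1, P.seg_inv]
    rw [← hcd, ← hc]
    exact left_mem_segment ℝ _ _
  exact ⟨a, hta, P.SF_trans hSF ha, ha, by rw [← P.tri_SF ha]; exact f2, hno a hta,
    hno (P.rot a) (by rw [P.tail_rot, hta])⟩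

private theorem d3e_walk {v : P.V} {p q : E3} {G G' : P.D} {W : List P.D}
    (h : CwFan P v p q G G' W) : P.DWalk G W G' ∧ W ≠ [] := by
  obtain ⟨a, k, -, hk, -, rfl, hG, hG', -⟩ := h
  refine ⟨P.DWalk_congr_left (P.SF_symm hG) (P.DWalk_congr_right (P.SF_symm hG') (P.DWalk_cwD a k)), ?_⟩
  intro h0
  have := P.length_cwD a k
  rw [h0] at this
  simp at this
  omega

private theorem d3e_route {j₀ j₁ : ZMod m} {z z' : P.V} (hj : j₀ ≠ j₁)
    (h0 : C.y j₀ = P.pos z) (h1 : C.y j₁ = P.pos z')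
    (hnv : ∀ j, j ≠ j₀ → j ≠ j₁ → P.NV (C.y j)) (G : ZMod m → P.D) (W₀ W₁ : List P.D)
    (hG : ∀ j, C.y j ∈ P.tri (G j) ∧ C.y (j + 1) ∈ P.tri (G j))
    (hw : ∀ j, j ≠ j₀ → j ≠ j₁ → P.DWalk (G (j - 1)) (C.R j) (G j))
    (f0 : CwFan P z (C.y (j₀ - 1)) (C.y (j₀ + 1)) (G (j₀ - 1)) (G j₀) W₀)
    (f1 : CwFan P z' (C.y (j₁ - 1)) (C.y (j₁ + 1)) (G (j₁ - 1)) (G j₁) W₁) :
    ∃ ρ : Route C, (∀ j, ρ.sense j = true) ∧ ρ.W j₀ = W₀ ∧ ρ.W j₁ = W₁ ∧ ρ.vtx j₀ = z ∧
      ρ.vtx j₁ = z' := by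
  classical
  have hc : ∀ j, ¬ P.NV (C.y j) → j = j₀ ∨ j = j₁ := by
    intro j hj'
    by_contra hn
    push Not at hn
    exact hj' (hnv j hn.1 hn.2)
  refine ⟨{ W := fun j => if j = j₀ then W₀ else if j = j₁ then W₁ else C.R j
            G := G
            sense := fun _ => true
            vtx := fun j => if j = j₀ then z else z'
            hvtx := ?_
            W_ne := ?_
            walk := ?_
            inG := hG
            nv := ?_
            cw := ?_
            ccw := ?_ }, fun _ => rfl, ?_, ?_, ?_, ?_⟩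
  · intro j hn
    rcases hc j hn with rfl | rfl
    · rw [if_pos rfl]
      exact h0
    · rw [if_neg hj.symm]
      exact h1
  · intro j
    split_ifs with e1 e2
    · exact (d3e_walk f0).2
    · exact (d3e_walk f1).2
    · exact C.R_ne j
  · intro j
    split_ifs with e1 e2
    · subst e1
      exact (d3e_walk f0).1
    · subst e2
      exact (d3e_walk f1).1
    · exact hw j e1 e2
  · intro j hn
    have e1 : j ≠ j₀ := by
      rintro rfl
      exact hn z h0
    have e2 : j ≠ j₁ := by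
      rintro rfl
      exact hn z' h1
    rw [if_neg e1, if_neg e2]
  · intro j hn _
    rcases hc j hn with rfl | rfl
    · rw [if_pos rfl, if_pos rfl]
      exact f0
    · rw [if_neg hj.symm, if_neg hj.symm, if_pos rfl]
      exact f1
  · intro j _ hs
    exact absurd hs (by simp)
  · exact if_pos rfl
  · show (if j₁ = j₀ then W₀ else if j₁ = j₁ then W₁ else C.R j₁) = W₁
    rw [if_neg hj.symm, if_pos rfl]
  · exact if_pos rfl
  · exact if_neg hj.symm

/-- [QG-D3e] the route of a doubled curve which goes clockwise around both ends: at `z` the fan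
consists of all half-edges at `z` except the one along which the curve runs (if it does). Faces:
`G j = C.F j`, if the segment is not an edge; for `m = 2` (edge `e` from `z` to `z'` run twice) the
left faces. The angle of the fan is `tot z` (`fang_cwD`, `ang_split`). -/
theorem Nice.doubled_route (h : C.Nice) {j₀ j₁ : ZMod m} {z z' : P.V} (hj : j₀ ≠ j₁) (hz : z ≠ z')
    (h0 : C.y j₀ = P.pos z) (h1 : C.y j₁ = P.pos z')
    (hnv : ∀ j, j ≠ j₀ → j ≠ j₁ → P.NV (C.y j))
    (ht0 : C.y (j₀ + 1) = C.y (j₀ - 1)) (ht1 : C.y (j₁ + 1) = C.y (j₁ - 1)) :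
    ∃ ρ : Route C, (∀ j, ¬ P.NV (C.y j) → ρ.sense j = true) ∧
      (∀ j, ¬ P.NV (C.y j) → ρ.ang j = P.tot (ρ.vtx j)) ∧
      (∀ e, P.tail e = z → P.head e ≠ z' → P.par (ρ.W j₀) e = 1) ∧
      (∀ e, P.tail e = z' → P.head e ≠ z → P.par (ρ.W j₁) e = 1) := by
  have hc : ∀ j, ¬ P.NV (C.y j) → j = j₀ ∨ j = j₁ := by
    intro j hj'
    by_contra hn
    push Not at hn
    exact hj' (hnv j hn.1 hn.2)
  have hsucc : ∀ j : ZMod m, j + 1 ≠ j := fun j hj' => C.ne j (by rw [hj'])
  -- conclusion from the data of the two fans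
  have concl : ∀ ρ : Route C, (∀ j, ρ.sense j = true) →
      P.fang z (C.y (j₀ - 1)) (ρ.W j₀) (C.y (j₀ + 1)) = P.tot z →
      P.fang z' (C.y (j₁ - 1)) (ρ.W j₁) (C.y (j₁ + 1)) = P.tot z' → ρ.vtx j₀ = z → ρ.vtx j₁ = z' →
      (∀ j, ¬ P.NV (C.y j) → ρ.sense j = true) ∧
      (∀ j, ¬ P.NV (C.y j) → ρ.ang j = P.tot (ρ.vtx j)) := by
    intro ρ hs a0 a1 v0 v1
    refine ⟨fun j _ => hs j, fun j hn => ?_⟩
    unfold Route.ang
    rcases hc j hn with rfl | rfl
    · rw [v0]
      exact a0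
    · rw [v1]
      exact a1
  by_cases hadj : j₀ + 1 = j₁
  · -- two nodes, an edge run twice
    have e1 : j₀ - 1 = j₁ := by
      apply h.uniq _ _ z' _ h1
      rw [← ht0, hadj]
      exact h1
    have e2 : j₁ + 1 = j₀ := by
      rw [← e1]
      ring
    have e3 : j₁ - 1 = j₀ := by
      rw [← hadj]
      ring
    have h20 : (2 : ZMod m) = 0 := by
      linear_combination hadj - e1
    have hall : ∀ j : ZMod m, j = j₀ ∨ j = j₁ := by
      have hm2 : m = 2 := by
        have h5 : ((2 : ℕ) : ZMod m) = 0 := by exact_mod_cast h20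
        rw [ZMod.natCast_eq_zero_iff] at h5
        have h6 := Nat.le_of_dvd (by norm_num) h5
        have h7 := h.two
        omega
      subst hm2
      revert hj
      clear * -
      revert j₀ j₁
      decide
    obtain ⟨f1, f2, -, -⟩ := C.mem_face j₀
    rw [h0] at f1
    rw [hadj, h1] at f2
    obtain ⟨e, he1, he2, -⟩ := P.edge_of_two_vertices f1 f2 hz
    have hA : P.A e = P.pos z := by
      unfold Poly.A
      rw [he1]
    have hB : P.B e = P.pos z' := by
      unfold Poly.B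
      rw [he2]
    have hAs : P.A e ∈ P.seg e := left_mem_segment ℝ _ _
    have hBs : P.B e ∈ P.seg e := right_mem_segment ℝ _ _
    have hBi : P.B (P.inv e) = P.pos z := by
      unfold Poly.B
      rw [P.tail_eq_head_inv, he1]
    have hti : P.tail (P.inv e) = z' := he2
    have hhi : P.head (P.inv e) = z := by rw [P.tail_eq_head_inv, he1]
    obtain ⟨G, hGdef⟩ : ∃ G : ZMod m → P.D, G = fun j => if j = j₀ then e else P.inv e := ⟨_, rfl⟩
    have G0 : G j₀ = e := by rw [hGdef]; exact if_pos rfl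
    have G1 : G j₁ = P.inv e := by rw [hGdef]; exact if_neg hj.symm
    obtain ⟨c1, c2, c3⟩ := d3e_edge (P := P) e (G := G (j₀ - 1)) (G' := G j₀)
      (by rw [e1, G1]; exact P.SF_refl _) (by rw [G0]; exact P.SF_refl _)
    obtain ⟨c4, c5, c6⟩ := d3e_edge (P := P) (P.inv e) (G := G (j₁ - 1)) (G' := G j₁)
      (by rw [e3, G0, P.inv_inv]; exact P.SF_refl _) (by rw [G1]; exact P.SF_refl _)
    rw [he1, hB] at c1 c2
    rw [he1, he2] at c3
    rw [hti, hBi] at c4 c5
    rw [hti, hhi] at c6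
    have y0m : C.y (j₀ - 1) = P.pos z' := by rw [e1]; exact h1
    have y0p : C.y (j₀ + 1) = P.pos z' := by rw [hadj]; exact h1
    have y1m : C.y (j₁ - 1) = P.pos z := by rw [e3]; exact h0
    have y1p : C.y (j₁ + 1) = P.pos z := by rw [e2]; exact h0
    obtain ⟨ρ, r1, r2, r3, r4, r5⟩ := d3e_route hj h0 h1 hnv G _ _ (by
        intro j
        rcases hall j with rfl | rfl
        · rw [G0, h0, y0p, ← hA, ← hB]
          exact ⟨P.seg_sub_tri e hAs, P.seg_sub_tri e hBs⟩
        · rw [G1, h1, y1p, ← hA, ← hB]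
          exact ⟨P.seg_sub_tri _ (by rw [P.seg_inv]; exact hBs),
            P.seg_sub_tri _ (by rw [P.seg_inv]; exact hAs)⟩)
      (fun j hj0 hj1 => absurd (hall j) (by rintro (h' | h'); exacts [hj0 h', hj1 h']))
      (by rw [y0m, y0p]; exact c1) (by rw [y1m, y1p]; exact c4)
    obtain ⟨s1, s2⟩ := concl ρ r1 (by rw [y0m, y0p, r2]; exact c2) (by rw [y1m, y1p, r3]; exact c5) r4 r5
    refine ⟨ρ, s1, s2, ?_, ?_⟩
    · rw [r2]
      exact c3
    · rw [r3]
      exact c6
  · have hadj' : j₁ + 1 ≠ j₀ := by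
      intro h'
      have e1 : j₁ - 1 = j₀ := by
        apply h.uniq _ _ z _ h0
        rw [← ht1, h']
        exact h0
      exact hadj (by rw [← e1]; ring)
    have hn0 : P.NV (C.y (j₀ + 1)) := hnv _ (hsucc j₀) hadj
    have hn1 : P.NV (C.y (j₁ + 1)) := hnv _ hadj' (hsucc j₁)
    obtain ⟨a, a1, a2, a3, a4, a5, a6⟩ := d3e_turn h h0 ht0 hn0
    obtain ⟨b, b1, b2, b3, b4, b5, b6⟩ := d3e_turn h h1 ht1 hn1
    obtain ⟨c1, c2, c3⟩ := d3e_full a1 a2 a3 a4 (hn0 z) a5 a6
    obtain ⟨c4, c5, c6⟩ := d3e_full b1 b2 b3 b4 (hn1 z') b5 b6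
    obtain ⟨ρ, r1, r2, r3, r4, r5⟩ := d3e_route hj h0 h1 hnv C.F _ _
      (fun j => ⟨(C.mem_face j).1, (C.mem_face j).2.1⟩) (fun j _ _ => C.walk j)
      (by rw [← ht0]; exact c1) (by rw [← ht1]; exact c4)
    obtain ⟨s1, s2⟩ := concl ρ r1 (by rw [← ht0, r2]; exact c2) (by rw [← ht1, r3]; exact c5) r4 r5
    refine ⟨ρ, s1, s2, ?_, ?_⟩
    · intro e he _
      rw [r2]
      exact c3 e he
    · intro e he _
      rw [r3]
      exact c6 e he

end Cyc

end QG6b
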