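import Pool.Agent.Lib_MP_6b5565.F1a

/-! [QG-F1c] parities -/

namespace QG6b

open EuclideanGeometry

namespace Poly

variable (P : Poly)

private theorem F1c_pos_mem {d : P.D} {v : P.V} (h : v ∈ P.verts d) : P.pos v ∈ P.tri d := by
  unfold verts at h
  simp only [Finset.mem_insert, Finset.mem_singleton] at h
  unfold tri
  apply subset_convexHull
  rcases h with rfl | rfl | rfl
  · exact Or.inl rfl
  · exact Or.inr (Or.inl rfl)
  · exact Or.inr (Or.inr rfl)

/-- two different faces with two different common points have a common edge through both -/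
private theorem F1c_common {d e : P.D} {x y : E3} (hne : ¬ P.SF d e) (hxy : x ≠ y)
    (hx : x ∈ P.tri d) (hx' : x ∈ P.tri e) (hy : y ∈ P.tri d) (hy' : y ∈ P.tri e) :
    ∃ a, P.SF d a ∧ P.SF e (P.inv a) ∧ x ∈ P.seg a ∧ y ∈ P.seg a := by
  obtain ⟨a, a0, as, a1, ax⟩ := P.mem_tri_iff.1 hx
  obtain ⟨a', a0', as', a1', ax'⟩ := P.mem_tri_iff.1 hx'
  obtain ⟨b, b0, bs, b1, bx⟩ := P.mem_tri_iff.1 hy
  obtain ⟨b', b0', bs', b1', bx'⟩ := P.mem_tri_iff.1 hy'
  have ha : a = a' := P.geom d e a a' a0 a0' as as' a1 a1' (ax.trans ax'.symm)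
  have hb : b = b' := P.geom d e b b' b0 b0' bs bs' b1 b1' (bx.trans bx'.symm)
  subst ha
  subst hb
  obtain ⟨u, hu⟩ : ∃ u, a u ≠ b u := by
    by_contra h
    push Not at h
    apply hxy
    rw [← ax, ← bx]
    exact Finset.sum_congr rfl fun v _ => by rw [h v]
  obtain ⟨w, hw, hwu⟩ : ∃ w, a w ≠ b w ∧ w ≠ u := by
    by_contra h
    push Not at h
    apply hu
    have h1 : ∑ v, (a v - b v) = 0 := by rw [Finset.sum_sub_distrib, a1, b1, sub_self]
    rw [Finset.sum_eq_single u] at h1
    · linarith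
    · intro v _ hv
      by_contra h2
      exact hv (h v (sub_ne_zero.1 h2))
    · simp
  have hmem : ∀ v, a v ≠ b v → v ∈ P.verts d ∧ v ∈ P.verts e := by
    intro v hv
    by_cases h : a v = 0
    · have h' : b v ≠ 0 := fun h' => hv (h.trans h'.symm)
      exact ⟨bs v h', bs' v h'⟩
    · exact ⟨as v h, as' v h⟩
  have hthree : ∀ v, v ∈ P.verts d → v ∈ P.verts e → v = u ∨ v = w := by
    intro v hvd hve
    by_contra h
    push Not at h
    have hcard : ({u, w, v} : Finset P.V).card = 3 :=
      Finset.card_eq_three.2 ⟨u, w, v, hwu.symm, h.1.symm, h.2.symm, rfl⟩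
    have key : ∀ f : P.D, (∀ z, z = u ∨ z = w ∨ z = v → z ∈ P.verts f) →
        ({u, w, v} : Finset P.V) = P.verts f := by
      intro f hf
      apply Finset.eq_of_subset_of_card_le
      · intro z hz
        simp only [Finset.mem_insert, Finset.mem_singleton] at hz
        exact hf z hz
      · rw [hcard]
        exact Finset.card_le_three
    have hd := key d (by
      rintro z (rfl | rfl | rfl)
      · exact (hmem _ hu).1
      · exact (hmem _ hw).1
      · exact hvd)
    have he := key e (by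
      rintro z (rfl | rfl | rfl)
      · exact (hmem _ hu).2
      · exact (hmem _ hw).2
      · exact hve)
    exact hne (P.face_inj d e (hd.symm.trans he))
  obtain ⟨f, f1, f2, f3⟩ := P.edge_of_two_vertices (P.F1c_pos_mem (hmem u hu).1)
    (P.F1c_pos_mem (hmem w hw).1) hwu.symm
  obtain ⟨g, g1, g2, g3⟩ := P.edge_of_two_vertices (P.F1c_pos_mem (hmem u hu).2)
    (P.F1c_pos_mem (hmem w hw).2) hwu.symm
  have hfg : g = f := P.edge_inj g f (g1.trans f1.symm) (g2.trans f2.symm)
  subst hfg
  have hxs : x ∈ P.seg g := P.mem_seg_iff.2 ⟨a, a0, fun v hv => by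
    rcases hthree v (as v hv) (as' v hv) with h | h
    · left; rw [h, f1]
    · right; rw [h, f2], a1, ax⟩
  have hys : y ∈ P.seg g := P.mem_seg_iff.2 ⟨b, b0, fun v hv => by
    rcases hthree v (bs v hv) (bs' v hv) with h | h
    · left; rw [h, f1]
    · right; rw [h, f2], b1, bx⟩
  rcases f3 with f3 | f3 <;> rcases g3 with g3 | g3
  · exact absurd (P.SF_trans f3 (P.SF_symm g3)) hne
  · exact ⟨g, f3, g3, hxs, hys⟩
  · exact ⟨P.inv g, f3, by rwa [P.inv_inv], by rwa [P.seg_inv], by rwa [P.seg_inv]⟩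
  · exact absurd (P.SF_trans f3 (P.SF_symm g3)) hne

private theorem F1c_supp (v : P.V) (l : List P.D) (h : ∀ a ∈ l, P.pos v ∈ P.seg a) (e : P.D)
    (h1 : P.tail e ≠ v) (h2 : P.head e ≠ v) : P.par l e = 0 := by
  have h0 : l.countP (fun a => a = e ∨ a = P.inv e) = 0 := by
    rw [List.countP_eq_zero]
    intro a ha hae
    rw [decide_eq_true_iff] at hae
    have h3 := P.eq_of_pos_mem_seg (h a ha)
    rcases hae with rfl | rfl
    · rcases h3 with h3 | h3
      · exact h1 h3.symm
      · exact h2 h3.symm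
    · rw [P.tail_eq_head_inv] at h3
      rcases h3 with h3 | h3
      · exact h2 h3.symm
      · exact h1 h3.symm
  unfold par
  rw [h0]
  rfl

end Poly

namespace Route

variable {P : Poly} {m : ℕ} [NeZero m] {C : Cyc P m} (ρ : Route C)

private theorem F1c_conn (j : ZMod m) : ∃ L : List P.D, P.DWalk (C.F j) L (ρ.G j) ∧
    ∀ e ∈ L, C.y j ∈ P.seg e ∧ C.y (j + 1) ∈ P.seg e := by
  by_cases h : P.SF (C.F j) (ρ.G j)
  · exact ⟨[], h, fun e he => absurd he List.not_mem_nil⟩
  · obtain ⟨h1, h2, -, -⟩ := C.mem_face j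
    obtain ⟨h3, h4⟩ := ρ.inG j
    obtain ⟨a, k1, k2, k3, k4⟩ := P.F1c_common h (C.ne j) h1 h3 h2 h4
    refine ⟨[a], ⟨k1, P.SF_symm k2⟩, ?_⟩
    intro e he
    rw [List.mem_singleton] at he
    subst he
    exact ⟨k3, k4⟩

private theorem F1c_mem_vis {v : P.V} : v ∈ C.vis ↔ ∃ j, C.y j = P.pos v := by
  simp [Cyc.vis]

private theorem F1c_mem_W (j : ZMod m) : ∀ a ∈ ρ.W j, C.y j ∈ P.seg a := by
  intro a ha
  obtain ⟨n, rfl⟩ := List.mem_iff_get.1 ha
  exact ρ.point_mem ⟨j, n⟩

/-- parity of the route and of `C` differ by stars of visited vertices; so the colourings agree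
outside `C.vis` up to a constant. (At a node `j` let `e_j` be the edge of segment `j` if
`G j`, `F j` are different faces: then the segment is an edge. The parity of `W j`, `R j` and of one
crossing of `e_(j-1)` resp. `e_j` if these faces differ is the parity of a closed walk supported on
the star of the vertex: `0` or the star, `cocycle_star`; at non-vertex nodes nothing changes, the
`e_j` cancel in the sum.) -/
theorem par_diff (h : C.Nice) : ∃ s : Finset P.V, s ⊆ C.vis ∧
    ∀ e, ρ.par e = C.par e + ∑ v ∈ s, P.star v e := by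
  classical
  choose L hL1 hL2 using ρ.F1c_conn
  have h2 : (2 : ZMod 2) = 0 := rfl
  let Q : ZMod m → List P.D := fun j => C.R j ++ (L j ++ (((ρ.W j).map P.inv).reverse ++
    ((L (j - 1)).map P.inv).reverse))
  have hQw : ∀ j, P.DWalk (C.F (j - 1)) (Q j) (C.F (j - 1)) := fun j =>
    P.DWalk_append.2 ⟨C.F j, C.walk j, P.DWalk_append.2 ⟨ρ.G j, hL1 j,
      P.DWalk_append.2 ⟨ρ.G (j - 1), P.DWalk_reverse (ρ.walk j), P.DWalk_reverse (hL1 (j - 1))⟩⟩⟩
  have hQp : ∀ j e, P.par (Q j) e = P.par (C.R j) e + (P.par (L j) e + (P.par (ρ.W j) e +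
      P.par (L (j - 1)) e)) := by
    intro j e
    show P.par (C.R j ++ (L j ++ (((ρ.W j).map P.inv).reverse ++
      ((L (j - 1)).map P.inv).reverse))) e = _
    rw [P.par_append, P.par_append, P.par_append, P.par_reverse, P.par_reverse, P.par_map_inv,
      P.par_map_inv]
  have hQm : ∀ j, ∀ e ∈ Q j, C.y j ∈ P.seg e := by
    intro j e he
    rcases List.mem_append.1 he with he | he
    · exact C.on j e he
    rcases List.mem_append.1 he with he | he
    · exact (hL2 j e he).1
    rcases List.mem_append.1 he with he | he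
    · rw [List.mem_reverse, List.mem_map] at he
      obtain ⟨a, ha, rfl⟩ := he
      rw [P.seg_inv]
      exact ρ.F1c_mem_W j a ha
    · rw [List.mem_reverse, List.mem_map] at he
      obtain ⟨a, ha, rfl⟩ := he
      rw [P.seg_inv]
      have := (hL2 (j - 1) a ha).2
      rwa [sub_add_cancel] at this
  have hcase : ∀ j, (∀ e, P.par (Q j) e = 0) ∨
      (¬ P.NV (C.y j) ∧ ∀ e, P.par (Q j) e = P.star (ρ.vtx j) e) := by
    intro j
    by_cases hn : P.NV (C.y j)
    · left
      obtain ⟨d, hd, hdy⟩ := h.single j hn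
      obtain ⟨ha1, ha2⟩ := h.along j d hn hd
      have e1 : L j = [] := by
        rw [List.eq_nil_iff_forall_not_mem]
        intro a ha
        obtain ⟨b1, b2⟩ := hL2 j a ha
        rcases P.edge_unique hdy b1 with rfl | rfl
        · exact ha2 b2
        · rw [P.seg_inv] at b2
          exact ha2 b2
      have e2 : L (j - 1) = [] := by
        rw [List.eq_nil_iff_forall_not_mem]
        intro a ha
        obtain ⟨b1, b2⟩ := hL2 (j - 1) a ha
        rw [sub_add_cancel] at b2
        rcases P.edge_unique hdy b2 with rfl | rfl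
        · exact ha1 b1
        · rw [P.seg_inv] at b1
          exact ha1 b1
      intro e
      rw [hQp, e1, e2, ρ.nv j hn, P.par_nil]
      linear_combination P.par (C.R j) e * h2
    · have hy := ρ.hvtx j hn
      rcases P.cocycle_star (v := ρ.vtx j) (P.par_inv (Q j)) (P.par_face (hQw j))
        (fun e h1 h2 => P.F1c_supp (ρ.vtx j) (Q j) (fun a ha => by
          rw [← hy]; exact hQm j a ha) e h1 h2) with h1 | h1
      · exact Or.inl h1
      · exact Or.inr ⟨hn, h1⟩
  let J : Finset (ZMod m) := Finset.univ.filter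
    (fun j => ¬ P.NV (C.y j) ∧ ∀ e, P.par (Q j) e = P.star (ρ.vtx j) e)
  have hJ : ∀ j, j ∈ J ↔ (¬ P.NV (C.y j) ∧ ∀ e, P.par (Q j) e = P.star (ρ.vtx j) e) := by
    intro j
    simp only [J, Finset.mem_filter, Finset.mem_univ, true_and]
  refine ⟨J.image ρ.vtx, ?_, ?_⟩
  · intro v hv
    rw [Finset.mem_image] at hv
    obtain ⟨j, hj, rfl⟩ := hv
    have hj' := (hJ j).1 hj
    exact F1c_mem_vis.2 ⟨j, ρ.hvtx j hj'.1⟩
  · intro e
    have hinj : Set.InjOn ρ.vtx J := by
      intro j hj k hk hjk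
      have hj' := (hJ j).1 (Finset.mem_coe.1 hj)
      have hk' := (hJ k).1 (Finset.mem_coe.1 hk)
      apply h.uniq j k (ρ.vtx j) (ρ.hvtx j hj'.1)
      rw [hjk]
      exact ρ.hvtx k hk'.1
    rw [Finset.sum_image hinj]
    have h3 : ∑ j ∈ J, P.star (ρ.vtx j) e = ∑ j, P.par (Q j) e := by
      rw [← Finset.sum_subset (Finset.subset_univ J) (f := fun j => P.par (Q j) e)]
      · exact Finset.sum_congr rfl fun j hj => (((hJ j).1 hj).2 e).symm
      · intro j _ hj
        rcases hcase j with h1 | h1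
        · exact h1 e
        · exact absurd ((hJ j).2 h1) hj
    have h4 : ∑ j, P.par (L (j - 1)) e = ∑ j, P.par (L j) e :=
      Equiv.sum_comp (Equiv.subRight (1 : ZMod m)) (fun j => P.par (L j) e)
    have h5 : ∑ j, P.par (Q j) e = C.par e + ρ.par e + 2 * ∑ j, P.par (L j) e := by
      rw [Finset.sum_congr rfl fun j _ => hQp j e, Finset.sum_add_distrib, Finset.sum_add_distrib,
        Finset.sum_add_distrib, h4]
      unfold Cyc.par Route.par
      ring
    rw [h3, h5]
    linear_combination (-(C.par e) - ∑ j, P.par (L j) e) * h2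

end Route

end QG6b
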