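import Pool.Agent.Lib_MP_6b5565.F1a

/-! [QG-F1b] turns -/

namespace QG6b

open EuclideanGeometry

namespace Route

variable {P : Poly} {m : ℕ} [NeZero m] {C : Cyc P m} (ρ : Route C)

/-- the next node is not on the last half-edge of a node -/
private theorem F1b_last (h : C.Nice) (j : ZMod m) (t : ℕ) (ht : t + 1 = (ρ.W j).length) :
    C.y (j + 1) ∉ P.seg ((ρ.W j)[t]'(by omega)) := by
  by_cases hn : P.NV (C.y j)
  · obtain ⟨d, hd, -⟩ := h.single j hn
    have hW : ρ.W j = [d] := by rw [ρ.nv j hn, hd]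
    have ht0 : t = 0 := by
      rw [hW] at ht
      simpa using ht
    subst ht0
    rw [List.getElem_of_eq hW]
    exact (h.along j d hn hd).2
  · rcases hs : ρ.sense j with _ | _
    · obtain ⟨a, k, _, hk, _, hW, _, _, _, _, _, hq, _⟩ := ρ.ccw j hn hs
      have htk : t + 1 = k := by rw [ht, hW, P.length_ccwD]
      subst htk
      rw [List.getElem_of_eq hW, P.getElem_ccwD, P.seg_inv]
      exact hq
    · obtain ⟨a, k, _, hk, _, hW, _, _, _, _, _, hq, _⟩ := ρ.cw j hn hs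
      have htk : t + 1 = k := by rw [ht, hW, P.length_cwD]
      subst htk
      rw [List.getElem_of_eq hW, P.getElem_cwD]
      exact hq

/-- the previous node is not on the first half-edge of a node -/
private theorem F1b_first (h : C.Nice) (j : ZMod m) :
    C.y (j - 1) ∉ P.seg ((ρ.W j)[0]'(List.length_pos_iff.2 (ρ.W_ne j))) := by
  by_cases hn : P.NV (C.y j)
  · obtain ⟨d, hd, -⟩ := h.single j hn
    have hW : ρ.W j = [d] := by rw [ρ.nv j hn, hd]
    rw [List.getElem_of_eq hW]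
    exact (h.along j d hn hd).1
  · rcases hs : ρ.sense j with _ | _
    · obtain ⟨a, k, _, hk, _, hW, _, _, _, _, hp, _, _⟩ := ρ.ccw j hn hs
      rw [List.getElem_of_eq hW, P.getElem_ccwD, P.seg_inv]
      exact hp
    · obtain ⟨a, k, _, hk, _, hW, _, _, _, _, hp, _, _⟩ := ρ.cw j hn hs
      rw [List.getElem_of_eq hW, P.getElem_cwD]
      exact hp

/-- [QG-F1b] TURNS. Inside a clockwise fan the next half-edge is `cw d = nxt (inv d)` (right turn),
inside a counterclockwise fan it is `prev (inv d)` (left turn). Between nodes `j` and `j+1`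
(`δ` last half-edge at `j`, `δ'` first half-edge at `j+1`, both in the face `G j`): `δ' ≠ inv δ`,
because `y (j+1)` would be on the edge of `δ` (against `Nice.along` if `y j` is no vertex, against
the strictness conditions of `CwFan, CcwFan` if it is). If `y j` is a vertex, then `δ'` is the edge
of the face opposite to `y j` (the other edge at `y j` is excluded by `Nice.along` resp. strictness
at `y (j+1)`), which is a left turn for a clockwise and a right turn for a counterclockwise fan;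
the same if `y (j+1)` is a vertex. -/
theorem turn_cases (h : C.Nice) (nx : Equiv.Perm ρ.Idx)
    (h1 : ∀ (j : ZMod m) (t : ℕ) (h : t + 1 < (ρ.W j).length),
        nx ⟨j, ⟨t, by omega⟩⟩ = ⟨j, ⟨t + 1, h⟩⟩)
    (h2 : ∀ (j : ZMod m) (t : ℕ) (h : t + 1 = (ρ.W j).length),
        nx ⟨j, ⟨t, by omega⟩⟩ = ⟨j + 1, ⟨0, List.length_pos_iff.2 (ρ.W_ne (j + 1))⟩⟩)
    (i : ρ.Idx) :
    (ρ.dd (nx i) = P.nxt (P.inv (ρ.dd i)) ∨ ρ.dd (nx i) = P.prev (P.inv (ρ.dd i))) ∧
    ((nx i).1 = i.1 ∧ C.y i.1 = C.y (nx i).1 → ¬ P.NV (C.y i.1) →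
      (ρ.sense i.1 = true → ρ.dd (nx i) = P.nxt (P.inv (ρ.dd i))) ∧
      (ρ.sense i.1 = false → ρ.dd (nx i) = P.prev (P.inv (ρ.dd i)))) ∧
    (C.y i.1 ≠ C.y (nx i).1 →
      (¬ P.NV (C.y i.1) → (ρ.sense i.1 = true → ρ.dd (nx i) = P.prev (P.inv (ρ.dd i))) ∧
        (ρ.sense i.1 = false → ρ.dd (nx i) = P.nxt (P.inv (ρ.dd i)))) ∧
      (¬ P.NV (C.y (nx i).1) →
        (ρ.sense (nx i).1 = true → ρ.dd (nx i) = P.prev (P.inv (ρ.dd i))) ∧
        (ρ.sense (nx i).1 = false → ρ.dd (nx i) = P.nxt (P.inv (ρ.dd i))))) := by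
  obtain ⟨nx', h1', h2', -, hSF⟩ := ρ.exists_cy
  obtain ⟨j, t, ht⟩ := i
  rcases Nat.lt_or_ge (t + 1) (ρ.W j).length with hlt | hge
  · -- inside a node
    rw [h1 j t hlt]
    have hv : ¬ P.NV (C.y j) := by
      intro hn
      obtain ⟨d, hd, -⟩ := h.single j hn
      have hW : ρ.W j = [d] := by rw [ρ.nv j hn, hd]
      rw [hW] at hlt
      simp at hlt
    have e1 : ρ.sense j = true → ρ.dd ⟨j, ⟨t + 1, hlt⟩⟩ = P.nxt (P.inv (ρ.dd ⟨j, ⟨t, ht⟩⟩)) := by
      intro hs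
      obtain ⟨a, k, _, hk, _, hW, _⟩ := ρ.cw j hv hs
      show (ρ.W j)[t + 1] = P.nxt (P.inv ((ρ.W j)[t]))
      rw [List.getElem_of_eq hW, List.getElem_of_eq hW, P.getElem_cwD, P.getElem_cwD,
        Function.iterate_succ_apply']
      rfl
    have e2 : ρ.sense j = false → ρ.dd ⟨j, ⟨t + 1, hlt⟩⟩ = P.prev (P.inv (ρ.dd ⟨j, ⟨t, ht⟩⟩)) := by
      intro hs
      obtain ⟨a, k, _, hk, _, hW, _⟩ := ρ.ccw j hv hs
      show (ρ.W j)[t + 1] = P.prev (P.inv ((ρ.W j)[t]))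
      rw [List.getElem_of_eq hW, List.getElem_of_eq hW, P.getElem_ccwD, P.getElem_ccwD,
        Function.iterate_succ_apply', P.inv_inv]
      show P.inv (P.inv (P.prev _)) = _
      rw [P.inv_inv]
    refine ⟨?_, fun _ _ => ⟨e1, e2⟩, fun hne => absurd rfl hne⟩
    rcases hs : ρ.sense j with _ | _
    · exact Or.inr (e2 hs)
    · exact Or.inl (e1 hs)
  · -- between two nodes
    have heq : t + 1 = (ρ.W j).length := by omega
    have hnx : nx ⟨j, ⟨t, ht⟩⟩ = ⟨j + 1, ⟨0, List.length_pos_iff.2 (ρ.W_ne (j + 1))⟩⟩ := h2 j t heq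
    have hnx' : nx' ⟨j, ⟨t, ht⟩⟩ = ⟨j + 1, ⟨0, List.length_pos_iff.2 (ρ.W_ne (j + 1))⟩⟩ := h2' j t heq
    have hsf := hSF ⟨j, ⟨t, ht⟩⟩
    rw [hnx'] at hsf
    have hL : C.y (j + 1) ∉ P.seg (ρ.dd ⟨j, ⟨t, ht⟩⟩) := ρ.F1b_last h j t heq
    have hN : C.y j ∉ P.seg (ρ.dd ⟨j + 1, ⟨0, List.length_pos_iff.2 (ρ.W_ne (j + 1))⟩⟩) := by
      have h3 := ρ.F1b_first h (j + 1)
      rw [add_sub_cancel_right] at h3
      exact h3
    have hp' : C.y (j + 1) ∈ P.seg (ρ.dd ⟨j + 1, ⟨0, List.length_pos_iff.2 (ρ.W_ne (j + 1))⟩⟩) :=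
      ρ.point_mem ⟨j + 1, ⟨0, List.length_pos_iff.2 (ρ.W_ne (j + 1))⟩⟩
    have ht1 : ¬ P.NV (C.y j) → ρ.sense j = true → C.y j = P.A (ρ.dd ⟨j, ⟨t, ht⟩⟩) := by
      intro hv hs
      have h3 := ρ.tail_of_cw (i := ⟨j, ⟨t, ht⟩⟩) hv hs
      rw [ρ.hvtx j hv]
      unfold Poly.A
      rw [h3]
    have ht2 : ¬ P.NV (C.y j) → ρ.sense j = false → C.y j = P.B (ρ.dd ⟨j, ⟨t, ht⟩⟩) := by
      intro hv hs
      have h3 := ρ.head_of_ccw (i := ⟨j, ⟨t, ht⟩⟩) hv hs
      rw [ρ.hvtx j hv]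
      unfold Poly.B
      rw [h3]
    have ht3 : ¬ P.NV (C.y (j + 1)) → ρ.sense (j + 1) = true →
        C.y (j + 1) = P.A (ρ.dd ⟨j + 1, ⟨0, List.length_pos_iff.2 (ρ.W_ne (j + 1))⟩⟩) := by
      intro hv hs
      have h3 := ρ.tail_of_cw (i := ⟨j + 1, ⟨0, List.length_pos_iff.2 (ρ.W_ne (j + 1))⟩⟩) hv hs
      rw [ρ.hvtx (j + 1) hv]
      unfold Poly.A
      rw [h3]
    have ht4 : ¬ P.NV (C.y (j + 1)) → ρ.sense (j + 1) = false →
        C.y (j + 1) = P.B (ρ.dd ⟨j + 1, ⟨0, List.length_pos_iff.2 (ρ.W_ne (j + 1))⟩⟩) := by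
      intro hv hs
      have h3 := ρ.head_of_ccw (i := ⟨j + 1, ⟨0, List.length_pos_iff.2 (ρ.W_ne (j + 1))⟩⟩) hv hs
      rw [ρ.hvtx (j + 1) hv]
      unfold Poly.B
      rw [h3]
    rw [hnx]
    show (_ ∨ _) ∧ ((j + 1 = j ∧ _) → _) ∧ (C.y j ≠ C.y (j + 1) → _)
    generalize hδ : ρ.dd ⟨j, ⟨t, ht⟩⟩ = δ at *
    generalize hδ' : ρ.dd ⟨j + 1, ⟨0, List.length_pos_iff.2 (ρ.W_ne (j + 1))⟩⟩ = δ' at *
    have hcase : δ' = P.nxt (P.inv δ) ∨ δ' = P.prev (P.inv δ) := by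
      rcases hsf with h3 | h3 | h3
      · rw [h3, P.seg_inv] at hp'
        exact absurd hp' hL
      · exact Or.inl h3
      · exact Or.inr h3
    have hA : ∀ e, P.A e ∈ P.seg e := fun e => left_mem_segment ℝ _ _
    have hB : ∀ e, P.B e ∈ P.seg e := fun e => right_mem_segment ℝ _ _
    have hcwA : P.A (P.nxt (P.inv δ)) = P.A δ := by
      unfold Poly.A
      rw [show P.tail (P.nxt (P.inv δ)) = P.tail δ from P.tail_cw δ]
    have hpB : P.B (P.prev (P.inv δ)) = P.B δ := by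
      unfold Poly.B
      rw [P.head_prev]
      rfl
    refine ⟨hcase, ?_, ?_⟩
    · rintro ⟨h3, -⟩
      exact absurd (congrArg C.y h3.symm) (C.ne j)
    · intro _
      refine ⟨fun hv => ⟨fun hs => ?_, fun hs => ?_⟩, fun hv => ⟨fun hs => ?_, fun hs => ?_⟩⟩
      · rcases hcase with h3 | h3
        · exfalso
          apply hN
          rw [h3, ht1 hv hs, ← hcwA]
          exact hA _
        · exact h3
      · rcases hcase with h3 | h3
        · exact h3
        · exfalso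
          apply hN
          rw [h3, ht2 hv hs, ← hpB]
          exact hB _
      · rcases hcase with h3 | h3
        · exfalso
          apply hL
          rw [ht3 hv hs, h3, hcwA]
          exact hA _
        · exact h3
      · rcases hcase with h3 | h3
        · exact h3
        · exfalso
          apply hL
          rw [ht4 hv hs, h3, hpB]
          exact hB _

end Route

end QG6b
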