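import Pool.Agent.Lib_MP_6b5565.CyDefs

/-! [QG-S1b] -/

namespace QG6b

open EuclideanGeometry

namespace Cy

variable {P : Poly} {ι : Type} [Fintype ι] [DecidableEq ι]

/-- [QG-S1b] two rays from `z` with angle `δ`: `χ = ψ + δ`; the points at distance `t / sin ψ`,
`t / sin χ` have distance `t (cot ψ - cot χ)` (law of cosines) -/
theorem slide_zero (z u w : E3) (ψ χ t : ℝ) (hu : ‖u‖ = 1) (hw : ‖w‖ = 1)
    (huw : inner ℝ u w = Real.cos (χ - ψ)) (hψ : 0 < ψ) (hχψ : ψ < χ) (hχ : χ < Real.pi)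
    (ht : 0 ≤ t) :
    dist (z + (t / Real.sin ψ) • u) (z + (t / Real.sin χ) • w) =
      t * (Real.cos ψ / Real.sin ψ - Real.cos χ / Real.sin χ) := by
  have h1 : 0 < Real.sin ψ := Real.sin_pos_of_pos_of_lt_pi hψ (hχψ.trans hχ)
  have h2 : 0 < Real.sin χ := Real.sin_pos_of_pos_of_lt_pi (hψ.trans hχψ) hχ
  have h3 : 0 < Real.sin (χ - ψ) := Real.sin_pos_of_pos_of_lt_pi (by linarith) (by linarith)
  have h4 : Real.cos ψ / Real.sin ψ - Real.cos χ / Real.sin χ = Real.sin (χ - ψ) / (Real.sin ψ * Real.sin χ) := by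
    rw [Real.sin_sub]
    field_simp
  rw [h4, dist_eq_norm]
  have h5 : z + (t / Real.sin ψ) • u - (z + (t / Real.sin χ) • w) =
      (t / Real.sin ψ) • u - (t / Real.sin χ) • w := by abel
  rw [h5]
  have h6 : ‖(t / Real.sin ψ) • u - (t / Real.sin χ) • w‖ ^ 2 =
      (t * (Real.sin (χ - ψ) / (Real.sin ψ * Real.sin χ))) ^ 2 := by
    rw [norm_sub_sq_real, norm_smul, norm_smul, inner_smul_left, inner_smul_right, hu, hw, huw]
    have hs1 := Real.sin_sq_add_cos_sq ψ
    have hs2 := Real.sin_sq_add_cos_sq χ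
    rw [Real.cos_sub, Real.sin_sub]
    generalize Real.cos ψ = C at *
    generalize Real.sin ψ = S at *
    generalize Real.cos χ = C' at *
    generalize Real.sin χ = S' at *
    simp only [mul_one, Real.norm_eq_abs, sq_abs, conj_trivial]
    field_simp
    have e1 : C ^ 2 = 1 - S ^ 2 := by linarith
    have e2 : C' ^ 2 = 1 - S' ^ 2 := by linarith
    linear_combination (-(t ^ 2 * S' ^ 2)) * e1 - t ^ 2 * S ^ 2 * e2
  have h7 : 0 ≤ t * (Real.sin (χ - ψ) / (Real.sin ψ * Real.sin χ)) := by positivity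
  exact (sq_eq_sq₀ (norm_nonneg _) h7).mp h6

end Cy

end QG6b
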