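import Pool.Agent.Lib_MP_6b5565.CyDefs

/-! [QG-S1c] -/

namespace QG6b

open EuclideanGeometry

namespace Cy

variable {P : Poly} {ι : Type} [Fintype ι] [DecidableEq ι]

private theorem slide_aux (e U W : E3) (ψ χ c : ℝ) (he : ‖e‖ = 1) (hU : U ≠ 0) (hW : W ≠ 0)
    (hUW : W = U + c • e) (hψ : 0 < Real.sin ψ) (hχ : 0 < Real.sin χ)
    (h1 : inner ℝ e (‖U‖⁻¹ • U) = -Real.cos ψ) (h2 : inner ℝ e (‖W‖⁻¹ • W) = -Real.cos χ) :
    ∃ n : E3, ‖n‖ = 1 ∧ inner ℝ e n = 0 ∧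
      (‖U‖⁻¹ • U) = (-Real.cos ψ) • e + Real.sin ψ • n ∧
      (‖W‖⁻¹ • W) = (-Real.cos χ) • e + Real.sin χ • n := by
  have hU0 : 0 < ‖U‖ := norm_pos_iff.2 hU
  have hW0 : 0 < ‖W‖ := norm_pos_iff.2 hW
  obtain ⟨u, hu⟩ : ∃ u : E3, u = ‖U‖⁻¹ • U := ⟨_, rfl⟩
  obtain ⟨w, hw⟩ : ∃ w : E3, w = ‖W‖⁻¹ • W := ⟨_, rfl⟩
  rw [← hu] at h1 ⊢
  rw [← hw] at h2 ⊢
  have hun : ‖u‖ = 1 := by rw [hu, norm_smul, norm_inv, norm_norm, inv_mul_cancel₀ hU0.ne']
  have hwn : ‖w‖ = 1 := by rw [hw, norm_smul, norm_inv, norm_norm, inv_mul_cancel₀ hW0.ne']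
  have hUu : U = ‖U‖ • u := by rw [hu, smul_smul, mul_inv_cancel₀ hU0.ne', one_smul]
  have hWw : W = ‖W‖ • w := by rw [hw, smul_smul, mul_inv_cancel₀ hW0.ne', one_smul]
  have hee : inner ℝ e e = (1 : ℝ) := by rw [real_inner_self_eq_norm_sq, he]; norm_num
  obtain ⟨n, hn⟩ : ∃ n : E3, n = (Real.sin ψ)⁻¹ • (u + Real.cos ψ • e) := ⟨_, rfl⟩
  have hen : inner ℝ e n = 0 := by
    rw [hn, inner_smul_right, inner_add_right, inner_smul_right, h1, hee]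
    ring
  have hun2 : u = (-Real.cos ψ) • e + Real.sin ψ • n := by
    rw [hn, smul_smul, mul_inv_cancel₀ hψ.ne', one_smul]
    module
  have hn1 : ‖n‖ = 1 := by
    have h3 : ‖u‖ ^ 2 = Real.cos ψ ^ 2 + Real.sin ψ ^ 2 * ‖n‖ ^ 2 := by
      conv_lhs => rw [hun2]
      rw [norm_add_sq_real, norm_smul, norm_smul, inner_smul_left, inner_smul_right, hen, he]
      simp only [mul_one, Real.norm_eq_abs, sq_abs, mul_pow, mul_zero, add_zero, abs_neg]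
    rw [hun] at h3
    have h4 := Real.sin_sq_add_cos_sq ψ
    have h5 : Real.sin ψ ^ 2 * ‖n‖ ^ 2 = Real.sin ψ ^ 2 * 1 := by linarith
    have h6 : ‖n‖ ^ 2 = 1 := mul_left_cancel₀ (by positivity) h5
    nlinarith [norm_nonneg n]
  refine ⟨n, hn1, hen, hun2, ?_⟩
  -- the other vector
  have h3 : w = (-Real.cos χ) • e + (‖W‖⁻¹ * ‖U‖ * Real.sin ψ) • n := by
    have h4 : w = (‖W‖⁻¹ * (‖U‖ * (-Real.cos ψ) + c)) • e + (‖W‖⁻¹ * ‖U‖ * Real.sin ψ) • n := by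
      have h6 : U = ‖U‖ • ((-Real.cos ψ) • e + Real.sin ψ • n) := by
        rw [← hun2]
        exact hUu
      have h7 : w = ‖W‖⁻¹ • (‖U‖ • ((-Real.cos ψ) • e + Real.sin ψ • n) + c • e) := by
        rw [← h6, ← hUW]
        exact hw
      rw [h7]
      module
    have h5 : inner ℝ e w = ‖W‖⁻¹ * (‖U‖ * (-Real.cos ψ) + c) := by
      rw [h4, inner_add_right, inner_smul_right, inner_smul_right, hen, hee]
      ring
    rw [h2] at h5
    rw [h5]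
    exact h4
  have h4 : 0 < ‖W‖⁻¹ * ‖U‖ * Real.sin ψ := by positivity
  have h5 : ‖W‖⁻¹ * ‖U‖ * Real.sin ψ = Real.sin χ := by
    have h6 : ‖w‖ ^ 2 = Real.cos χ ^ 2 + (‖W‖⁻¹ * ‖U‖ * Real.sin ψ) ^ 2 * ‖n‖ ^ 2 := by
      conv_lhs => rw [h3]
      rw [norm_add_sq_real, norm_smul, norm_smul, inner_smul_left, inner_smul_right, hen, he]
      simp only [mul_one, Real.norm_eq_abs, sq_abs, mul_pow, mul_zero, add_zero, abs_neg]
    rw [hwn, hn1] at h6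
    have h7 := Real.sin_sq_add_cos_sq χ
    have h8 : (‖W‖⁻¹ * ‖U‖ * Real.sin ψ) ^ 2 = Real.sin χ ^ 2 := by linarith
    exact (sq_eq_sq₀ h4.le hχ.le).mp h8
  rw [h5] at h3
  exact h3

/-- [QG-S1c] left turn: the two crossed half-edges end at the same vertex `B`; directions
`u = (B - x)/|B - x|`, `w = (B - y)/|B - y|`, angles `π - ψ` at `x`, `χ` at `y`: they have the form
required in `slide_segment` -/
theorem slide_left (x y B : E3) (ψ χ : ℝ) (hxy : x ≠ y) (hx : x ≠ B) (hy : y ≠ B)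
    (hψ0 : 0 < ψ) (hψ : ψ < Real.pi) (hχ0 : 0 < χ) (hχ : χ < Real.pi)
    (h1 : ∠ y x B = Real.pi - ψ) (h2 : ∠ x y B = χ) :
    ∃ e n : E3, ‖e‖ = 1 ∧ ‖n‖ = 1 ∧ inner ℝ e n = 0 ∧ y - x = (dist x y) • e ∧
      (‖B - x‖⁻¹ • (B - x)) = (-Real.cos ψ) • e + Real.sin ψ • n ∧
      (‖B - y‖⁻¹ • (B - y)) = (-Real.cos χ) • e + Real.sin χ • n := by
  have hd : 0 < ‖y - x‖ := norm_pos_iff.2 (sub_ne_zero.2 hxy.symm)
  have hdd : dist x y = ‖y - x‖ := by rw [dist_comm, dist_eq_norm]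
  set e : E3 := ‖y - x‖⁻¹ • (y - x) with he
  have he1 : ‖e‖ = 1 := by rw [he, norm_smul, norm_inv, norm_norm, inv_mul_cancel₀ hd.ne']
  have hxe : y - x = (dist x y) • e := by rw [hdd, he, smul_smul, mul_inv_cancel₀ hd.ne', one_smul]
  have hBx : 0 < ‖B - x‖ := norm_pos_iff.2 (sub_ne_zero.2 hx.symm)
  have hBy : 0 < ‖B - y‖ := norm_pos_iff.2 (sub_ne_zero.2 hy.symm)
  obtain ⟨n, hn, hen, hu, hw⟩ := slide_aux e (B - x) (B - y) ψ χ (-(dist x y)) he1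
    (sub_ne_zero.2 hx.symm) (sub_ne_zero.2 hy.symm)
    (by rw [neg_smul, ← hxe]; abel) (Real.sin_pos_of_pos_of_lt_pi hψ0 hψ)
    (Real.sin_pos_of_pos_of_lt_pi hχ0 hχ)
    (by
      have h3 : Real.cos (∠ y x B) = -Real.cos ψ := by rw [h1, Real.cos_pi_sub]
      rw [EuclideanGeometry.angle, InnerProductGeometry.cos_angle, vsub_eq_sub, vsub_eq_sub] at h3
      rw [he, inner_smul_left, inner_smul_right, ← h3]
      simp only [conj_trivial]
      field_simp)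
    (by
      have h3 : Real.cos (∠ x y B) = Real.cos χ := by rw [h2]
      rw [EuclideanGeometry.angle, InnerProductGeometry.cos_angle, vsub_eq_sub, vsub_eq_sub] at h3
      rw [he, inner_smul_left, inner_smul_right, ← h3, ← neg_sub y x, norm_neg, inner_neg_left]
      simp only [conj_trivial]
      field_simp)
  exact ⟨e, n, he1, hn, hen, hxe, hu, hw⟩

/-- [QG-S1d] right turn: the two crossed half-edges start at the same vertex `A`, directions away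
from `A` -/
theorem slide_right (x y A : E3) (ψ χ : ℝ) (hxy : x ≠ y) (hx : x ≠ A) (hy : y ≠ A)
    (hψ0 : 0 < ψ) (hψ : ψ < Real.pi) (hχ0 : 0 < χ) (hχ : χ < Real.pi)
    (h1 : ∠ y x A = ψ) (h2 : ∠ x y A = Real.pi - χ) :
    ∃ e n : E3, ‖e‖ = 1 ∧ ‖n‖ = 1 ∧ inner ℝ e n = 0 ∧ y - x = (dist x y) • e ∧
      (‖x - A‖⁻¹ • (x - A)) = (-Real.cos ψ) • e + Real.sin ψ • n ∧
      (‖y - A‖⁻¹ • (y - A)) = (-Real.cos χ) • e + Real.sin χ • n := by
  have hd : 0 < ‖y - x‖ := norm_pos_iff.2 (sub_ne_zero.2 hxy.symm)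
  have hdd : dist x y = ‖y - x‖ := by rw [dist_comm, dist_eq_norm]
  set e : E3 := ‖y - x‖⁻¹ • (y - x) with he
  have he1 : ‖e‖ = 1 := by rw [he, norm_smul, norm_inv, norm_norm, inv_mul_cancel₀ hd.ne']
  have hxe : y - x = (dist x y) • e := by rw [hdd, he, smul_smul, mul_inv_cancel₀ hd.ne', one_smul]
  have hBx : 0 < ‖x - A‖ := norm_pos_iff.2 (sub_ne_zero.2 hx)
  have hBy : 0 < ‖y - A‖ := norm_pos_iff.2 (sub_ne_zero.2 hy)
  obtain ⟨n, hn, hen, hu, hw⟩ := slide_aux e (x - A) (y - A) ψ χ (dist x y) he1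
    (sub_ne_zero.2 hx) (sub_ne_zero.2 hy)
    (by rw [← hxe]; abel) (Real.sin_pos_of_pos_of_lt_pi hψ0 hψ)
    (Real.sin_pos_of_pos_of_lt_pi hχ0 hχ)
    (by
      have h3 : Real.cos (∠ y x A) = Real.cos ψ := by rw [h1]
      rw [EuclideanGeometry.angle, InnerProductGeometry.cos_angle, vsub_eq_sub, vsub_eq_sub] at h3
      rw [he, inner_smul_left, inner_smul_right, ← h3, ← neg_sub x A, norm_neg, inner_neg_right]
      simp only [conj_trivial]
      field_simp)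
    (by
      have h3 : Real.cos (∠ x y A) = -Real.cos χ := by rw [h2, Real.cos_pi_sub]
      rw [EuclideanGeometry.angle, InnerProductGeometry.cos_angle, vsub_eq_sub, vsub_eq_sub] at h3
      rw [he, inner_smul_left, inner_smul_right, ← h3, ← neg_sub y x, norm_neg, ← neg_sub y A, norm_neg,
        inner_neg_neg]
      simp only [conj_trivial]
      field_simp)
  exact ⟨e, n, he1, hn, hen, hxe, hu, hw⟩

end Cy

end QG6b
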