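import Pool.Agent.Lib_MP_6b5565.S1a
import Pool.Agent.Lib_MP_6b5565.S1b
import Pool.Agent.Lib_MP_6b5565.S1c
import Pool.Agent.Lib_MP_6b5565.Tri

/-! [QG-S1e] -/

namespace QG6b

open EuclideanGeometry

namespace Cy

variable {P : Poly} {ι : Type} [Fintype ι] [DecidableEq ι]

private theorem dir_smul {v : E3} {s : ℝ} (hs : 0 < s) : ‖s • v‖⁻¹ • (s • v) = ‖v‖⁻¹ • v := by
  rw [norm_smul, Real.norm_of_nonneg hs.le, mul_inv, smul_smul]
  congr 1
  field_simp

private theorem dir_B {A B x : E3} (hx : x ∈ segment ℝ A B) (hxB : x ≠ B) :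
    ‖B - x‖⁻¹ • (B - x) = ‖B - A‖⁻¹ • (B - A) := by
  rw [segment_eq_image_lineMap] at hx
  obtain ⟨s, ⟨hs0, hs1⟩, rfl⟩ := hx
  have hs1' : s < 1 := by
    rcases hs1.lt_or_eq with h | h
    · exact h
    · exact absurd (by rw [h, AffineMap.lineMap_apply_one]) hxB
  have e : B - (AffineMap.lineMap A B s : E3) = (1 - s) • (B - A) := by
    rw [AffineMap.lineMap_apply_module]
    module
  rw [e, dir_smul (by linarith)]

private theorem dir_A {A B x : E3} (hx : x ∈ segment ℝ A B) (hxA : x ≠ A) :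
    ‖x - A‖⁻¹ • (x - A) = ‖B - A‖⁻¹ • (B - A) := by
  rw [segment_eq_image_lineMap] at hx
  obtain ⟨s, ⟨hs0, hs1⟩, rfl⟩ := hx
  have hs0' : 0 < s := by
    rcases hs0.lt_or_eq with h | h
    · exact h
    · exact absurd (by rw [← h, AffineMap.lineMap_apply_zero]) hxA
  have e : (AffineMap.lineMap A B s : E3) - A = s • (B - A) := by
    rw [AffineMap.lineMap_apply_module]
    module
  rw [e, dir_smul hs0']

private theorem move_mem {A B x : E3} (hx : x ∈ segment ℝ A B) (hxB : x ≠ B) {r : ℝ} (hr : 0 < r)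
    (hr1 : r < ‖B - x‖) : x + r • (‖B - x‖⁻¹ • (B - x)) ∈ openSegment ℝ A B := by
  have hB : 0 < ‖B - x‖ := norm_pos_iff.2 (sub_ne_zero.2 hxB.symm)
  rw [segment_eq_image_lineMap] at hx
  obtain ⟨s, ⟨hs0, hs1⟩, hsx⟩ := hx
  have hs1' : s < 1 := by
    rcases hs1.lt_or_eq with h | h
    · exact h
    · exact absurd (by rw [← hsx, h, AffineMap.lineMap_apply_one]) hxB
  rw [openSegment_eq_image_lineMap]
  have hq0 : 0 < r * ‖B - x‖⁻¹ := by positivity
  have hq1 : r * ‖B - x‖⁻¹ < 1 := by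
    rw [← div_eq_mul_inv, div_lt_one hB]
    exact hr1
  refine ⟨s + r * ‖B - x‖⁻¹ * (1 - s), ⟨by nlinarith, by nlinarith⟩, ?_⟩
  rw [smul_smul]
  generalize r * ‖B - x‖⁻¹ = q at *
  rw [← hsx, AffineMap.lineMap_apply_module, AffineMap.lineMap_apply_module]
  module

/-- [QG-S1e] `x' i = x i + (t / sin (ψ i)) u i` with `u i` the unit direction of `d i`, `t > 0`
small; segment `i` changes its length by `t (cot ψ_i - cot ψ_(i+1))`, the sum over the cycle is
zero (`Equiv.sum_comp`). -/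
theorem slide (c : Cy P ι) [Nonempty ι] (ψ : ι → ℝ) (hψ : ∀ i, 0 < ψ i ∧ ψ i < Real.pi)
    (hx : ∀ i, c.x i ∈ P.seg (c.d i) ∧ c.x i ≠ P.B (c.d i))
    (hturn : ∀ i, c.d (c.nx i) = P.nxt (P.inv (c.d i)) ∨ c.d (c.nx i) = P.prev (P.inv (c.d i)))
    (hpos : ∀ i, c.x i ≠ c.x (c.nx i) →
      ∠ (c.x (c.nx i)) (c.x i) (P.B (c.d i)) = Real.pi - ψ i ∧
      ∠ (c.x i) (c.x (c.nx i)) (P.B (c.d (c.nx i))) = ψ (c.nx i) ∧
      (c.d (c.nx i) = P.nxt (P.inv (c.d i)) →
        c.x i ≠ P.A (c.d i) ∧ c.x (c.nx i) ≠ P.A (c.d (c.nx i))))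
    (hzero : ∀ i, c.x i = c.x (c.nx i) → c.x i = P.A (c.d i) ∧
      c.d (c.nx i) = P.nxt (P.inv (c.d i)) ∧ ψ (c.nx i) = ψ i + P.ang (c.d (c.nx i))) :
    ∃ x' : ι → E3, (∀ i, x' i ∈ P.oseg (c.d i)) ∧
      ∑ i, dist (x' i) (x' (c.nx i)) = ∑ i, dist (c.x i) (c.x (c.nx i)) := by
  have hsin : ∀ i, 0 < Real.sin (ψ i) := fun i => Real.sin_pos_of_pos_of_lt_pi (hψ i).1 (hψ i).2
  set u : ι → E3 := fun i => ‖P.B (c.d i) - P.A (c.d i)‖⁻¹ • (P.B (c.d i) - P.A (c.d i)) with hu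
  have huB : ∀ i, ‖P.B (c.d i) - c.x i‖⁻¹ • (P.B (c.d i) - c.x i) = u i := fun i =>
    dir_B (hx i).1 (hx i).2
  have huA : ∀ i, c.x i ≠ P.A (c.d i) → ‖c.x i - P.A (c.d i)‖⁻¹ • (c.x i - P.A (c.d i)) = u i := fun i h =>
    dir_A (hx i).1 h
  have hu1 : ∀ i, ‖u i‖ = 1 := by
    intro i
    have h : 0 < ‖P.B (c.d i) - P.A (c.d i)‖ := norm_pos_iff.2 (sub_ne_zero.2 (P.A_ne_B _).symm)
    simp only [hu]
    rw [norm_smul, norm_inv, norm_norm, inv_mul_cancel₀ h.ne']
  -- the length of one segment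
  have key : ∀ i, ∃ T : ℝ, 0 < T ∧ ∀ t, 0 < t → t < T →
      (c.x i + (t / Real.sin (ψ i)) • u i ∈ P.oseg (c.d i)) ∧
      dist (c.x i + (t / Real.sin (ψ i)) • u i) (c.x (c.nx i) + (t / Real.sin (ψ (c.nx i))) • u (c.nx i)) =
        dist (c.x i) (c.x (c.nx i)) +
          t * (Real.cos (ψ i) / Real.sin (ψ i) - Real.cos (ψ (c.nx i)) / Real.sin (ψ (c.nx i))) := by
    intro i
    have hBx : 0 < ‖P.B (c.d i) - c.x i‖ := norm_pos_iff.2 (sub_ne_zero.2 (hx i).2.symm)
    have hmem : ∀ t, 0 < t → t < ‖P.B (c.d i) - c.x i‖ * Real.sin (ψ i) →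
        c.x i + (t / Real.sin (ψ i)) • u i ∈ P.oseg (c.d i) := by
      intro t ht0 ht
      rw [← huB i]
      exact move_mem (hx i).1 (hx i).2 (div_pos ht0 (hsin i)) (by rwa [div_lt_iff₀ (hsin i)])
    by_cases hxx : c.x i = c.x (c.nx i)
    · obtain ⟨hA, hd, hang⟩ := hzero i hxx
      refine ⟨‖P.B (c.d i) - c.x i‖ * Real.sin (ψ i), mul_pos hBx (hsin i), fun t ht0 ht => ⟨hmem t ht0 ht, ?_⟩⟩
      have hap := P.ang_pos (c.d (c.nx i))
      have hAA : P.A (c.d (c.nx i)) = P.A (c.d i) := by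
        unfold Poly.A
        rw [hd]
        congr 1
        rw [← P.head_eq, P.tail_eq_head_inv]
      have hrot : P.B (P.rot (c.d (c.nx i))) = P.B (c.d i) := by
        have : P.rot (c.d (c.nx i)) = c.d i := by
          rw [hd]
          exact P.rot_cw (c.d i)
        rw [this]
      have h1 := P.ang_eq (c.d (c.nx i))
      rw [hAA, hrot] at h1
      have h2 : inner ℝ (u i) (u (c.nx i)) = Real.cos (ψ (c.nx i) - ψ i) := by
        rw [hang, add_sub_cancel_left, ← h1, EuclideanGeometry.angle, InnerProductGeometry.cos_angle,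
          vsub_eq_sub, vsub_eq_sub]
        simp only [hu, hAA]
        rw [inner_smul_left, inner_smul_right, real_inner_comm]
        simp only [conj_trivial]
        have h3 : 0 < ‖P.B (c.d i) - P.A (c.d i)‖ := norm_pos_iff.2 (sub_ne_zero.2 (P.A_ne_B _).symm)
        have h4 : 0 < ‖P.B (c.d (c.nx i)) - P.A (c.d i)‖ := by
          rw [← hAA]
          exact norm_pos_iff.2 (sub_ne_zero.2 (P.A_ne_B _).symm)
        field_simp
      rw [← hxx, dist_self, zero_add]
      exact slide_zero (c.x i) (u i) (u (c.nx i)) (ψ i) (ψ (c.nx i)) t (hu1 i) (hu1 _) h2 (hψ i).1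
        (by linarith) (hψ _).2 ht0.le
    · obtain ⟨ha1, ha2, hA⟩ := hpos i hxx
      have hℓ : 0 < dist (c.x i) (c.x (c.nx i)) := dist_pos.2 hxx
      -- the directions
      have hdir : ∃ e n : E3, ‖e‖ = 1 ∧ ‖n‖ = 1 ∧ inner ℝ e n = 0 ∧
          c.x (c.nx i) - c.x i = (dist (c.x i) (c.x (c.nx i))) • e ∧
          u i = (-Real.cos (ψ i)) • e + Real.sin (ψ i) • n ∧
          u (c.nx i) = (-Real.cos (ψ (c.nx i))) • e + Real.sin (ψ (c.nx i)) • n := by
        rcases hturn i with hR | hL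
        · obtain ⟨hA1, hA2⟩ := hA hR
          have hAA : P.A (c.d (c.nx i)) = P.A (c.d i) := by
            unfold Poly.A
            rw [hR]
            congr 1
            rw [← P.head_eq, P.tail_eq_head_inv]
          have ho1 : c.x i ∈ P.oseg (c.d i) := by
            rcases P.seg_cases (hx i).1 with h | h | h
            · exact absurd h hA1
            · exact absurd h (hx i).2
            · exact h
          have ho2 : c.x (c.nx i) ∈ P.oseg (c.d (c.nx i)) := by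
            rcases P.seg_cases (hx (c.nx i)).1 with h | h | h
            · exact absurd h hA2
            · exact absurd h (hx _).2
            · exact h
          have h1 := P.angle_oseg ho1 (Ne.symm hxx)
          have h2 := P.angle_oseg ho2 hxx
          rw [← huA i hA1, ← huA (c.nx i) hA2, hAA]
          rw [hAA] at hA2
          exact slide_right (c.x i) (c.x (c.nx i)) (P.A (c.d i)) (ψ i) (ψ (c.nx i)) hxx hA1 hA2
            (hψ i).1 (hψ i).2 (hψ _).1 (hψ _).2 (by linarith) (by rw [← hAA]; linarith)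
        · have hBB : P.B (c.d (c.nx i)) = P.B (c.d i) := by
            unfold Poly.B
            rw [hL]
            congr 1
            rw [P.head_prev]
            rfl
          rw [← huB i, ← huB (c.nx i), hBB]
          have hB2 := (hx (c.nx i)).2
          rw [hBB] at hB2 ha2
          exact slide_left (c.x i) (c.x (c.nx i)) (P.B (c.d i)) (ψ i) (ψ (c.nx i)) hxx (hx i).2 hB2
            (hψ i).1 (hψ i).2 (hψ _).1 (hψ _).2 ha1 ha2
      obtain ⟨e, n, he, hn, hen, hxe, hui, huj⟩ := hdir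
      set κ : ℝ := Real.cos (ψ i) / Real.sin (ψ i) - Real.cos (ψ (c.nx i)) / Real.sin (ψ (c.nx i)) with hκ
      refine ⟨min (‖P.B (c.d i) - c.x i‖ * Real.sin (ψ i)) (dist (c.x i) (c.x (c.nx i)) / (|κ| + 1)),
        lt_min (mul_pos hBx (hsin i)) (by positivity), fun t ht0 ht =>
          ⟨hmem t ht0 (ht.trans_le (min_le_left _ _)), ?_⟩⟩
      refine slide_segment (c.x i) (c.x (c.nx i)) e n (u i) (u (c.nx i)) (ψ i) (ψ (c.nx i)) t
        (dist (c.x i) (c.x (c.nx i))) he hn hen hxe hℓ.le (hsin i) (hsin _) hui huj ?_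
      have h1 : t * (|κ| + 1) < dist (c.x i) (c.x (c.nx i)) := by
        rw [← lt_div_iff₀ (by positivity)]
        exact ht.trans_le (min_le_right _ _)
      have h2 : -(t * |κ|) ≤ t * κ := by
        rw [← mul_neg]
        exact mul_le_mul_of_nonneg_left (neg_abs_le κ) ht0.le
      linarith
  choose T hT0 hT using key
  obtain ⟨i₀, -, hmin⟩ := Finset.exists_min_image Finset.univ T Finset.univ_nonempty
  have ht0 : 0 < T i₀ / 2 := by linarith [hT0 i₀]
  have ht : ∀ i, T i₀ / 2 < T i := fun i => by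
    have := hmin i (Finset.mem_univ i)
    linarith [hT0 i₀]
  refine ⟨fun i => c.x i + (T i₀ / 2 / Real.sin (ψ i)) • u i, fun i => (hT i _ ht0 (ht i)).1, ?_⟩
  have hsum : ∑ i, (Real.cos (ψ i) / Real.sin (ψ i) - Real.cos (ψ (c.nx i)) / Real.sin (ψ (c.nx i))) = 0 := by
    rw [Finset.sum_sub_distrib, Equiv.sum_comp c.nx (fun i => Real.cos (ψ i) / Real.sin (ψ i)), sub_self]
  calc ∑ i, dist (c.x i + (T i₀ / 2 / Real.sin (ψ i)) • u i)
        (c.x (c.nx i) + (T i₀ / 2 / Real.sin (ψ (c.nx i))) • u (c.nx i))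
      = ∑ i, (dist (c.x i) (c.x (c.nx i)) + T i₀ / 2 * (Real.cos (ψ i) / Real.sin (ψ i) -
          Real.cos (ψ (c.nx i)) / Real.sin (ψ (c.nx i)))) :=
        Finset.sum_congr rfl fun i _ => (hT i _ ht0 (ht i)).2
    _ = _ := by rw [Finset.sum_add_distrib, ← Finset.mul_sum, hsum, mul_zero, add_zero]

end Cy

end QG6b
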