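import Pool.Agent.Lib_MP_6b5565.S1a
import Pool.Agent.Lib_MP_6b5565.S1b
import Pool.Agent.Lib_MP_6b5565.S1c
import Pool.Agent.Lib_MP_6b5565.S1e
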