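import Pool.Agent.Lib_MP_6b5565.F1a
import Pool.Agent.Lib_MP_6b5565.F1b
import Pool.Agent.Lib_MP_6b5565.SlideM
import Pool.Agent.Lib_MP_6b5565.A2c
import Pool.Agent.Lib_MP_6b5565.C2a

/-! [QG-S2] slide of a route -/

namespace QG6b

open EuclideanGeometry

namespace Route

variable {P : Poly} {m : ℕ} [NeZero m] {C : Cyc P m} (ρ : Route C)

/-- a point of a face seen in the direction of an edge lies on this edge -/
private theorem S2_seg {P : Poly} {d e : P.D} {x p : E3} (hx : x ∈ P.tri d) (hp : p ∈ P.tri d)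
    (hpe : p ∈ P.seg e) (hxp : x ≠ p) (h : ∠ x p (P.B e) = 0) : x ∈ P.seg e := by
  rw [EuclideanGeometry.angle, InnerProductGeometry.angle_eq_zero_iff] at h
  obtain ⟨-, r, hr, hr2⟩ := h
  rw [vsub_eq_sub, vsub_eq_sub] at hr2
  have hB : P.B e ∈ P.seg e := right_mem_segment ℝ _ _
  rcases le_total 1 r with h1 | h1
  · -- `x` between `p` and `B`
    have h2 : x ∈ segment ℝ p (P.B e) := by
      refine ⟨1 - r⁻¹, r⁻¹, ?_, by positivity, by ring, ?_⟩
      · have := inv_le_one_of_one_le₀ h1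
        linarith
      · have h3 : P.B e = r • (x - p) + p := by rw [← hr2]; abel
        rw [h3, smul_add, smul_smul, inv_mul_cancel₀ hr.ne']
        module
    exact (convex_segment _ _).segment_subset hpe hB h2
  · have h2 : P.B e ∈ segment ℝ p x := by
      refine ⟨1 - r, r, by linarith, hr.le, by ring, ?_⟩
      have h3 : P.B e = r • (x - p) + p := by rw [← hr2]; abel
      rw [h3]
      module
    rcases P.vertex_extreme (v := P.head e) hp hx h2 with h3 | h3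
    · exfalso
      have h4 : P.B e = p := h3
      rw [h4, sub_self] at hr2
      rcases smul_eq_zero.1 hr2.symm with h5 | h5
      · exact hr.ne' h5
      · exact hxp (sub_eq_zero.1 h5)
    · have h4 : P.B e = x := h3
      rw [← h4]
      exact hB

/-- the first half-edge at a node -/
private def S2_fst (j : ZMod m) : P.D := (ρ.W j)[0]'(List.length_pos_iff.2 (ρ.W_ne j))

private noncomputable def S2_psi (i : ρ.Idx) : ℝ :=
  ∠ (C.y (i.1 - 1)) (C.y i.1) (P.B (ρ.S2_fst i.1)) +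
    ∑ s ∈ Finset.Ico 1 ((i.2 : ℕ) + 1), P.ang (P.cw^[s] (ρ.S2_fst i.1))

private theorem S2_nv (h : C.Nice) {j : ZMod m} (hj : P.NV (C.y j)) :
    ρ.W j = [ρ.S2_fst j] ∧ C.R j = [ρ.S2_fst j] ∧ C.y j ∈ P.oseg (ρ.S2_fst j) := by
  obtain ⟨d, hd, hy⟩ := h.single j hj
  have h1 : ρ.W j = [d] := (ρ.nv j hj).trans hd
  have h2 : ρ.S2_fst j = d := by
    unfold S2_fst
    rw [List.getElem_of_eq h1]
    rfl
  rw [h2]
  exact ⟨h1, hd, hy⟩

private theorem S2_v (hs : ∀ j, ¬ P.NV (C.y j) → ρ.sense j = true)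
    (ha : ∀ j, ¬ P.NV (C.y j) → ρ.ang j = Real.pi) {j : ZMod m} (hj : ¬ P.NV (C.y j)) :
    1 ≤ (ρ.W j).length ∧ (∀ t (ht : t < (ρ.W j).length), (ρ.W j)[t] = P.cw^[t] (ρ.S2_fst j)) ∧
      P.tail (ρ.S2_fst j) = ρ.vtx j ∧ C.y j = P.pos (ρ.vtx j) ∧
      C.y (j - 1) ∉ P.seg (ρ.S2_fst j) ∧
      C.y (j + 1) ∉ P.seg (P.cw^[(ρ.W j).length - 1] (ρ.S2_fst j)) ∧
      ∠ (C.y (j - 1)) (C.y j) (P.B (ρ.S2_fst j)) +
        ∑ s ∈ Finset.Ico 1 (ρ.W j).length, P.ang (P.cw^[s] (ρ.S2_fst j)) +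
        ∠ (P.B (P.cw^[(ρ.W j).length - 1] (ρ.S2_fst j))) (C.y j) (C.y (j + 1)) = Real.pi := by
  obtain ⟨a, k, hat, hk1, hk2, hW, -, -, -, -, hp, hq, -⟩ := ρ.cw j hj (hs j hj)
  have hlen : (ρ.W j).length = k := by rw [hW, P.length_cwD]
  have hget : ∀ t (ht : t < (ρ.W j).length), (ρ.W j)[t] = P.cw^[t] a := by
    intro t ht
    rw [List.getElem_of_eq hW]
    exact P.getElem_cwD a k t _
  have hfst : ρ.S2_fst j = a := hget 0 _
  have hang := ha j hj
  unfold Route.ang at hang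
  rw [hW, P.fang_cwD hat k hk1] at hang
  rw [hfst]
  refine ⟨by rw [hlen]; exact hk1, hget, hat, ρ.hvtx j hj, hp, by rw [hlen]; exact hq, ?_⟩
  rw [hlen, ρ.hvtx j hj]
  exact hang

/-- [QG-S2] SLIDE for routes. All vertex nodes clockwise with fan angle exactly `π`: there is a
closed walk of the same length with the parity of the route which visits no vertex.
(`Cy.slide` on the index set of the route with `ψ = ∠ (y (j-1)) (y j) (B d)` at non-vertex nodes
and `ψ = ∠ p v (B a) + ∑_{1 ≤ s ≤ t} ang (cw^s a)` at index `t` of a fan `cwD a k`;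
`turn_cases` for the turns; then `Cy.exists_list`.) -/
theorem slide (h : C.Nice) (hs : ∀ j, ¬ P.NV (C.y j) → ρ.sense j = true)
    (ha : ∀ j, ¬ P.NV (C.y j) → ρ.ang j = Real.pi) :
    ∃ l : List (Step P), l ≠ [] ∧ (∃ F, P.Walk F l F) ∧ P.len l = C.len ∧
      P.par (l.map Step.d) = ρ.par ∧ P.vis (l.map Step.x) = ∅ := by
  classical
  obtain ⟨nx, h1, h2, htr, hlink⟩ := ρ.exists_cy
  have hturn := ρ.turn_cases h nx h1 h2
  have : Nonempty ρ.Idx := ⟨⟨0, ⟨0, List.length_pos_iff.2 (ρ.W_ne 0)⟩⟩⟩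
  let c : Cy P ρ.Idx := ⟨nx, htr, ρ.dd, fun i => C.y i.1, hlink⟩
  -- the two faces at a node
  have inL : ∀ j, C.y (j - 1) ∈ P.tri (ρ.G (j - 1)) ∧ C.y j ∈ P.tri (ρ.G (j - 1)) := by
    intro j
    have := ρ.inG (j - 1)
    rwa [sub_add_cancel] at this
  have neL : ∀ j, C.y (j - 1) ≠ C.y j := by
    intro j
    have := C.ne (j - 1)
    rwa [sub_add_cancel] at this
  have hddnv : ∀ i : ρ.Idx, P.NV (C.y i.1) → (i.2 : ℕ) = 0 ∧ ρ.dd i = ρ.S2_fst i.1 := by
    rintro ⟨j, t, ht⟩ hj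
    obtain ⟨e1, -, -⟩ := ρ.S2_nv h hj
    have e2 : (ρ.W j).length = 1 := by rw [e1]; rfl
    have e3 : t = 0 := by omega
    subst e3
    exact ⟨rfl, rfl⟩
  have hddv : ∀ i : ρ.Idx, ¬ P.NV (C.y i.1) → ρ.dd i = P.cw^[(i.2 : ℕ)] (ρ.S2_fst i.1) := by
    rintro ⟨j, t, ht⟩ hj
    obtain ⟨-, e1, -⟩ := ρ.S2_v hs ha hj
    exact e1 t ht
  -- angles at a node
  have angL : ∀ j, 0 < ∠ (C.y (j - 1)) (C.y j) (P.B (ρ.S2_fst j)) := by
    intro j
    refine lt_of_le_of_ne (EuclideanGeometry.angle_nonneg _ _ _) (fun h0 => ?_)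
    by_cases hj : P.NV (C.y j)
    · obtain ⟨-, e1, e2⟩ := ρ.S2_nv h hj
      have e3 : C.y j ∈ P.seg (ρ.S2_fst j) := openSegment_subset_segment ℝ _ _ e2
      exact (h.along j _ hj e1).1 (S2_seg (inL j).1 (inL j).2 e3 (neL j) h0.symm)
    · obtain ⟨-, -, e1, e2, e3, -, -⟩ := ρ.S2_v hs ha hj
      have e4 : C.y j ∈ P.seg (ρ.S2_fst j) := by
        rw [e2, ← e1]
        exact left_mem_segment ℝ _ _
      exact e3 (S2_seg (inL j).1 (inL j).2 e4 (neL j) h0.symm)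
  have angR : ∀ i : ρ.Idx, (i.2 : ℕ) + 1 = (ρ.W i.1).length →
      ∠ (C.y (i.1 + 1)) (C.y i.1) (P.B (ρ.dd i)) = Real.pi - ρ.S2_psi i := by
    intro i hi
    by_cases hj : P.NV (C.y i.1)
    · obtain ⟨-, e1, e2⟩ := ρ.S2_nv h hj
      obtain ⟨e3, e4⟩ := hddnv i hj
      have e5 := h.straight i.1 _ hj e1
      unfold S2_psi
      rw [e3, e4, EuclideanGeometry.angle_comm (C.y (i.1 + 1))]
      simp only [zero_add, Finset.Ico_self, Finset.sum_empty, add_zero]
      linarith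
    · obtain ⟨-, -, -, -, -, -, e7⟩ := ρ.S2_v hs ha hj
      have e8 := hddv i hj
      unfold S2_psi
      rw [← hi, Nat.add_sub_cancel] at e7
      rw [e8, EuclideanGeometry.angle_comm (C.y (i.1 + 1))]
      linarith
  have angRpos : ∀ j, 0 < ∠ (C.y (j + 1)) (C.y j) (P.B ((ρ.W j)[(ρ.W j).length - 1]'(by
      have := List.length_pos_iff.2 (ρ.W_ne j); omega))) := by
    intro j
    refine lt_of_le_of_ne (EuclideanGeometry.angle_nonneg _ _ _) (fun h0 => ?_)
    have hl := List.length_pos_iff.2 (ρ.W_ne j)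
    by_cases hj : P.NV (C.y j)
    · obtain ⟨e0, e1, e2⟩ := ρ.S2_nv h hj
      have e3 : C.y j ∈ P.seg (ρ.S2_fst j) := openSegment_subset_segment ℝ _ _ e2
      have e4 : (ρ.W j)[(ρ.W j).length - 1]'(by omega) = ρ.S2_fst j := by
        obtain ⟨-, e5⟩ := hddnv ⟨j, ⟨(ρ.W j).length - 1, by omega⟩⟩ hj
        exact e5
      rw [e4] at h0
      exact (h.along j _ hj e1).2 (S2_seg (ρ.inG j).2 (ρ.inG j).1 e3 (C.ne j).symm h0.symm)
    · obtain ⟨-, e0, e1, e2, -, e3, -⟩ := ρ.S2_v hs ha hj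
      rw [e0] at h0
      have e4 : C.y j ∈ P.seg (P.cw^[(ρ.W j).length - 1] (ρ.S2_fst j)) := by
        have e5 : ∀ k, P.tail (P.cw^[k] (ρ.S2_fst j)) = ρ.vtx j := by
          intro k
          induction k with
          | zero => exact e1
          | succ k ih => rw [Function.iterate_succ_apply', P.tail_cw, ih]
        rw [e2, ← e5 ((ρ.W j).length - 1)]
        exact left_mem_segment ℝ _ _
      exact e3 (S2_seg (ρ.inG j).2 (ρ.inG j).1 e4 (C.ne j).symm h0.symm)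
  -- bounds for `ψ`
  have hψ0 : ∀ i, 0 < ρ.S2_psi i := by
    intro i
    unfold S2_psi
    exact add_pos_of_pos_of_nonneg (angL i.1) (Finset.sum_nonneg fun s _ => (P.ang_pos _).le)
  have hψmono : ∀ (j : ZMod m) (t t' : ℕ) (ht : t < (ρ.W j).length) (ht' : t' < (ρ.W j).length),
      t ≤ t' → ρ.S2_psi ⟨j, ⟨t, ht⟩⟩ ≤ ρ.S2_psi ⟨j, ⟨t', ht'⟩⟩ := by
    intro j t t' ht ht' htt
    unfold S2_psi
    refine add_le_add le_rfl (Finset.sum_le_sum_of_subset_of_nonneg ?_ fun s _ _ => (P.ang_pos _).le)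
    exact Finset.Ico_subset_Ico le_rfl (by simpa using htt)
  have hψ1 : ∀ i, ρ.S2_psi i < Real.pi := by
    rintro ⟨j, t, ht⟩
    have hl := List.length_pos_iff.2 (ρ.W_ne j)
    have e1 := hψmono j t ((ρ.W j).length - 1) ht (by omega) (by omega)
    have e2 := angR ⟨j, ⟨(ρ.W j).length - 1, by omega⟩⟩ (by
      show (ρ.W j).length - 1 + 1 = (ρ.W j).length
      omega)
    have e3 := angRpos j
    have e4 : ∠ (C.y (j + 1)) (C.y j) (P.B ((ρ.W j)[(ρ.W j).length - 1]'(by omega))) =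
      Real.pi - ρ.S2_psi ⟨j, ⟨(ρ.W j).length - 1, by omega⟩⟩ := e2
    rw [e4] at e3
    linarith
  -- the node of the successor
  have hstep : ∀ i : ρ.Idx, ((i.2 : ℕ) + 1 < (ρ.W i.1).length ∧ (nx i).1 = i.1 ∧
        ((nx i).2 : ℕ) = (i.2 : ℕ) + 1) ∨
      ((i.2 : ℕ) + 1 = (ρ.W i.1).length ∧ (nx i).1 = i.1 + 1 ∧ ((nx i).2 : ℕ) = 0) := by
    rintro ⟨j, t, ht⟩
    rcases lt_or_eq_of_le (Nat.succ_le_of_lt ht) with h3 | h3
    · left
      have h4 := h1 j t h3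
      refine ⟨h3, ?_, ?_⟩
      · rw [h4]
      · rw [h4]
    · right
      have h4 := h2 j t h3
      refine ⟨h3, ?_, ?_⟩
      · rw [h4]
      · rw [h4]
  have hneq : ∀ i : ρ.Idx, C.y i.1 ≠ C.y (nx i).1 →
      ((i.2 : ℕ) + 1 = (ρ.W i.1).length ∧ (nx i).1 = i.1 + 1 ∧ ((nx i).2 : ℕ) = 0) := by
    intro i hi
    rcases hstep i with h3 | h3
    · exact absurd (by rw [h3.2.1]) hi
    · exact h3
  have heq : ∀ i : ρ.Idx, C.y i.1 = C.y (nx i).1 →
      ((i.2 : ℕ) + 1 < (ρ.W i.1).length ∧ (nx i).1 = i.1 ∧ ((nx i).2 : ℕ) = (i.2 : ℕ) + 1) := by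
    intro i hi
    rcases hstep i with h3 | h3
    · exact h3
    · rw [h3.2.1] at hi
      exact absurd hi (C.ne i.1)
  have hbad : ∀ d : P.D, P.nxt d ≠ P.prev d := fun d hd => P.prev_ne_nxt d hd.symm
  obtain ⟨x', hx', hlen⟩ := Cy.slide c ρ.S2_psi (fun i => ⟨hψ0 i, hψ1 i⟩) (by
      intro i
      refine ⟨ρ.point_mem i, ?_⟩
      show C.y i.1 ≠ P.B (ρ.dd i)
      by_cases hj : P.NV (C.y i.1)
      · exact hj _
      · have e1 := ρ.tail_of_cw hj (hs _ hj)
        obtain ⟨-, -, -, e2, -⟩ := ρ.S2_v hs ha hj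
        rw [e2, ← e1]
        exact P.A_ne_B _)
    (fun i => (hturn i).1) (by
      intro i hi
      have hi' : C.y i.1 ≠ C.y (nx i).1 := hi
      obtain ⟨e1, e2, e3⟩ := hneq i hi'
      refine ⟨?_, ?_, ?_⟩
      · show ∠ (C.y (nx i).1) (C.y i.1) (P.B (ρ.dd i)) = Real.pi - ρ.S2_psi i
        rw [e2]
        exact angR i e1
      · show ∠ (C.y i.1) (C.y (nx i).1) (P.B (ρ.dd (nx i))) = ρ.S2_psi (nx i)
        have e4 : ρ.dd (nx i) = ρ.S2_fst (nx i).1 := by
          by_cases hj : P.NV (C.y (nx i).1)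
          · exact (hddnv _ hj).2
          · rw [hddv _ hj, e3]
            rfl
        have e5 : (nx i).1 - 1 = i.1 := by rw [e2, add_sub_cancel_right]
        unfold S2_psi
        rw [e4, e3, e5]
        simp only [zero_add, Finset.Ico_self, Finset.sum_empty, add_zero]
      · intro hR
        have hR' : ρ.dd (nx i) = P.nxt (P.inv (ρ.dd i)) := hR
        obtain ⟨e4, e5⟩ := (hturn i).2.2 hi'
        constructor
        · show C.y i.1 ≠ P.A (ρ.dd i)
          by_cases hj : P.NV (C.y i.1)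
          · exact hj _
          · exact absurd (hR'.symm.trans ((e4 hj).1 (hs _ hj))) (hbad _)
        · show C.y (nx i).1 ≠ P.A (ρ.dd (nx i))
          by_cases hj : P.NV (C.y (nx i).1)
          · exact hj _
          · exact absurd (hR'.symm.trans ((e5 hj).1 (hs _ hj))) (hbad _)) (by
      intro i hi
      have hi' : C.y i.1 = C.y (nx i).1 := hi
      obtain ⟨e1, e2, e3⟩ := heq i hi'
      have hj : ¬ P.NV (C.y i.1) := by
        intro hj
        obtain ⟨e4, -, -⟩ := ρ.S2_nv h hj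
        have e6 : (ρ.W i.1).length = 1 := by rw [e4]; rfl
        omega
      have e4 := ρ.tail_of_cw hj (hs _ hj)
      obtain ⟨-, -, -, e5, -⟩ := ρ.S2_v hs ha hj
      refine ⟨?_, ?_, ?_⟩
      · show C.y i.1 = P.A (ρ.dd i)
        rw [e5, ← e4]
        rfl
      · exact ((hturn i).2.1 ⟨e2, hi'⟩ hj).1 (hs _ hj)
      · show ρ.S2_psi (nx i) = ρ.S2_psi i + P.ang (ρ.dd (nx i))
        have hj' : ¬ P.NV (C.y (nx i).1) := by rwa [← hi']
        rw [hddv _ hj']
        unfold S2_psi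
        rw [e3, e2, Finset.sum_Ico_succ_top (by omega)]
        ring)
  obtain ⟨l, hl0, hlw, hll, hlp, hlv⟩ := Cy.exists_list (⟨nx, htr, ρ.dd, x', hlink⟩ : Cy P ρ.Idx)
    (fun i => openSegment_subset_segment ℝ _ _ (hx' i))
  refine ⟨l, hl0, hlw, ?_, ?_, ?_⟩
  · rw [hll]
    show ∑ i, dist (x' i) (x' (nx i)) = C.len
    have e1 : ∑ i, dist (x' i) (x' (nx i)) = ∑ i : ρ.Idx, dist (C.y i.1) (C.y (nx i).1) := hlen
    rw [e1, Fintype.sum_sigma]
    unfold Cyc.len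
    refine Finset.sum_congr rfl fun j _ => ?_
    have hl := List.length_pos_iff.2 (ρ.W_ne j)
    rw [Finset.sum_eq_single (⟨(ρ.W j).length - 1, by omega⟩ : Fin (ρ.W j).length)]
    · rcases hstep ⟨j, ⟨(ρ.W j).length - 1, by omega⟩⟩ with h3 | h3
      · have h4 : (ρ.W j).length - 1 + 1 < (ρ.W j).length := h3.1
        omega
      · rw [h3.2.1]
    · intro t _ ht
      rcases hstep ⟨j, t⟩ with h3 | h3
      · rw [h3.2.1, dist_self]
      · exfalso
        apply ht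
        have h4 : (t : ℕ) + 1 = (ρ.W j).length := h3.1
        apply Fin.ext
        show (t : ℕ) = (ρ.W j).length - 1
        omega
    · intro h3
      exact absurd (Finset.mem_univ _) h3
  · rw [hlp]
    funext e
    rw [ρ.par_eq e]
    unfold Cy.par
    congr!
  · ext v
    rw [hlv v]
    simp only [Finset.notMem_empty, iff_false, not_exists]
    intro i hi
    exact P.NV_of_oseg (hx' i) v hi

end Route

end QG6b
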