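import Pool.Agent.Lib_MP_6b5565.D3a
import Pool.Agent.Lib_MP_6b5565.D3b
import Pool.Agent.Lib_MP_6b5565.D3c
import Pool.Agent.Lib_MP_6b5565.D3d
import Pool.Agent.Lib_MP_6b5565.D3e
import Pool.Agent.Lib_MP_6b5565.S2
import Pool.Agent.Lib_MP_6b5565.F1c

/-! [QG-D3f] -/

namespace QG6b

open EuclideanGeometry

namespace Cyc

variable {P : Poly} {m : ℕ} [NeZero m] {C : Cyc P m}

/-- the sum of the stars of a set of vertices is the coboundary of its indicator -/
private theorem d3f_col_sum (s : Finset P.V) :
    P.Col (fun e => ∑ v ∈ s, P.star v e) (fun u => ∑ v ∈ s, if u = v then 1 else 0) := by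
  intro d
  show (∑ v ∈ s, if P.tail d = v then (1 : ZMod 2) else 0) +
    (∑ v ∈ s, if P.head d = v then (1 : ZMod 2) else 0) = ∑ v ∈ s, P.star v d
  rw [← Finset.sum_add_distrib]
  exact Finset.sum_congr rfl (fun v _ => P.Col_star v d)

/-- every vertex has a half-edge which does not lead to a given vertex -/
private theorem d3f_edge (z z' : P.V) : ∃ e, P.tail e = z ∧ P.head e ≠ z' := by
  obtain ⟨d, hd⟩ := P.surj z
  by_cases h : P.head d = z'
  · refine ⟨P.rot d, by rw [P.tail_rot, hd], ?_⟩
    rw [P.head_rot, ← h]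
    exact (P.head_ne_prev d).symm
  · exact ⟨d, hd, h⟩

/-- a clockwise fan of a route at another vertex does not cross an edge `e` at `z` -/
private theorem d3f_par_zero (ρ : Route C) {j : ZMod m} (hv : ¬ P.NV (C.y j))
    (hs : ρ.sense j = true) {e : P.D} (h1 : P.tail e ≠ ρ.vtx j) (h2 : P.head e ≠ ρ.vtx j) :
    P.par (ρ.W j) e = 0 := by
  unfold Poly.par
  have h3 : (ρ.W j).countP (fun a => a = e ∨ a = P.inv e) = 0 := by
    rw [List.countP_eq_zero]
    intro a ha hae
    have hae' : a = e ∨ a = P.inv e := by simpa using hae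
    obtain ⟨n, hn⟩ := List.mem_iff_get.1 ha
    have h4 : P.tail (ρ.dd ⟨j, n⟩) = ρ.vtx j := ρ.tail_of_cw (i := ⟨j, n⟩) hv hs
    have h5 : ρ.dd ⟨j, n⟩ = a := hn
    rw [h5] at h4
    rcases hae' with h6 | h6
    · exact h1 (by rw [← h6]; exact h4)
    · apply h2
      show P.tail (P.inv e) = _
      rw [← h6]
      exact h4
  rw [h3]
  simp

/-- [QG-D3f] conclusion: slide the route off; the resulting closed walk is balanced: the colour of
`z` differs from the colour of a neighbour `u ≠ z'` (the edge `z u` is crossed once by the fan at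
`z`, and an even number of times by the strand), the same for `z'`, all other vertices have one
colour and total curvature `4π - π - π`. It visits no vertex and is not longer: against
`Nice.min`. -/
theorem Nice.not_doubled (h : C.Nice) (hd : C.Doubled) : False := by
  obtain ⟨j₀, j₁, z, z', hj, hz, h0, h1, hvis, hnv, ht0, ht1, hpair, hfix⟩ := h.doubled_shape hd
  obtain ⟨col, c, hc, hcol⟩ := h.doubled_color hj hz h0 h1 hvis hnv ht0 ht1 hpair hfix
  have hvis' : C.vis = {z', z} := by rw [hvis, Finset.pair_comm]
  obtain ⟨hπ, hπ'⟩ := h.doubled_pi hz hvis hc hcol (h.doubled_tot hz h0 hvis ht0 hc hcol)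
    (h.doubled_tot hz.symm h1 hvis' ht1 hc (fun v a b => hcol v b a))
  obtain ⟨ρ, hs, hang, hW0, hW1⟩ := h.doubled_route hj hz h0 h1 hnv ht0 ht1
  -- the vertex nodes
  have hv0 : ¬ P.NV (C.y j₀) := fun hn => hn z h0
  have hv1 : ¬ P.NV (C.y j₁) := fun hn => hn z' h1
  have hx0 : ρ.vtx j₀ = z := P.pos_inj ((ρ.hvtx j₀ hv0).symm.trans h0)
  have hx1 : ρ.vtx j₁ = z' := P.pos_inj ((ρ.hvtx j₁ hv1).symm.trans h1)
  have hangπ : ∀ j, ¬ P.NV (C.y j) → ρ.ang j = Real.pi := by
    intro j hv
    rw [hang j hv]
    by_cases e0 : j = j₀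
    · rw [e0, hx0, hπ]
    · by_cases e1 : j = j₁
      · rw [e1, hx1, hπ']
      · exact absurd (hnv j e0 e1) hv
  obtain ⟨l, hl0, hlw, hlen, hpar, hlv⟩ := ρ.slide h hs hangπ
  obtain ⟨s, hsub, hdiff⟩ := ρ.par_diff h
  -- the colouring of the parity of the route
  set col' : P.V → ZMod 2 := fun v => col v + ∑ w ∈ s, if v = w then 1 else 0 with hcol'
  have hC' : P.Col ρ.par col' := by
    have h2 := P.Col_add hc (d3f_col_sum s)
    intro e
    rw [hdiff e]
    exact h2 e
  have hoff : ∀ v, v ≠ z → v ≠ z' → col' v = c := by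
    intro v hvz hvz'
    show col v + _ = c
    rw [hcol v hvz hvz', Finset.sum_eq_zero, add_zero]
    intro w hw
    have hw' := hsub hw
    rw [hvis, Finset.mem_insert, Finset.mem_singleton] at hw'
    rw [if_neg]
    rintro rfl
    rcases hw' with h2 | h2
    · exact hvz h2
    · exact hvz' h2
  -- the strand crosses every edge an even number of times
  have hstrand : ∀ e, ρ.par e = P.par (ρ.W j₀) e + P.par (ρ.W j₁) e := by
    intro e
    unfold Route.par
    have hsplit : ∑ j, P.par (ρ.W j) e = P.par (ρ.W j₀) e + P.par (ρ.W j₁) e +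
        ∑ j ∈ (Finset.univ.erase j₀).erase j₁, P.par (ρ.W j) e := by
      rw [← Finset.add_sum_erase _ _ (Finset.mem_univ j₀),
        ← Finset.add_sum_erase (Finset.univ.erase j₀) _
          (Finset.mem_erase.2 ⟨hj.symm, Finset.mem_univ j₁⟩), add_assoc]
    rw [hsplit]
    have hzero : ∑ j ∈ (Finset.univ.erase j₀).erase j₁, P.par (ρ.W j) e = 0 := by
      apply Finset.sum_involution (fun j _ => 2 * j₀ - j)
      · intro j hjm
        simp only [Finset.mem_erase, Finset.mem_univ, and_true] at hjm
        obtain ⟨d, hd1, hd2, hd3⟩ := hpair j hjm.2 hjm.1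
        have e1 : 2 * j₀ - j ≠ j₀ := by
          intro h2
          apply hjm.2
          linear_combination -h2
        have e2 : 2 * j₀ - j ≠ j₁ := by
          intro h2
          apply hjm.1
          linear_combination hfix - h2
        rw [ρ.nv j (hnv j hjm.2 hjm.1), ρ.nv _ (hnv _ e1 e2), hd1, hd3, P.par_singleton,
          P.par_singleton]
        have h3 : (P.inv d = e ∨ P.inv d = P.inv e) ↔ (d = e ∨ d = P.inv e) := by
          constructor
          · rintro (h4 | h4)
            · right
              rw [← h4, P.inv_inv]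
            · left
              exact P.inv_injective h4
          · rintro (h4 | h4)
            · right
              rw [h4]
            · left
              rw [h4, P.inv_inv]
        by_cases h4 : d = e ∨ d = P.inv e
        · rw [if_pos h4, if_pos (h3.2 h4)]
          decide
        · rw [if_neg h4, if_neg (fun h5 => h4 (h3.1 h5))]
          decide
      · intro j hjm _
        simp only [Finset.mem_erase, Finset.mem_univ, and_true] at hjm
        obtain ⟨d, hd1, hd2, hd3⟩ := hpair j hjm.2 hjm.1
        exact hd2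
      · intro j hjm
        simp only [Finset.mem_erase, Finset.mem_univ, and_true] at hjm ⊢
        constructor
        · intro h2
          apply hjm.1
          linear_combination hfix - h2
        · intro h2
          apply hjm.2
          linear_combination -h2
      · intro j _
        ring
    rw [hzero, add_zero]
  have hne2 : ∀ a b : ZMod 2, a + b = 1 → a = b + 1 := by decide
  -- colours of `z` and `z'`
  have hcz : col' z = c + 1 := by
    obtain ⟨e, he1, he2⟩ := d3f_edge z z'
    have h2 : ρ.par e = 1 := by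
      rw [hstrand e, hW0 e he1 he2, d3f_par_zero ρ hv1 (hs j₁ hv1) (by rw [he1, hx1]; exact hz)
        (by rw [hx1]; exact he2), add_zero]
    have h3 := hC' e
    rw [h2, he1, hoff (P.head e) (by rw [← he1]; exact (P.tail_ne_head e).symm) he2] at h3
    exact hne2 _ _ h3
  have hcz' : col' z' = c + 1 := by
    obtain ⟨e, he1, he2⟩ := d3f_edge z' z
    have h2 : ρ.par e = 1 := by
      rw [hstrand e, hW1 e he1 he2, d3f_par_zero ρ hv0 (hs j₀ hv0)
        (by rw [he1, hx0]; exact hz.symm) (by rw [hx0]; exact he2), zero_add]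
    have h3 := hC' e
    rw [h2, he1, hoff (P.head e) he2 (by rw [← he1]; exact (P.tail_ne_head e).symm)] at h3
    exact hne2 _ _ h3
  -- the two curvatures
  have hK1 : P.K ∅ col' (c + 1) = 2 * Real.pi := by
    unfold Poly.K
    have h2 : Finset.univ.filter (fun v => v ∉ (∅ : Finset P.V) ∧ col' v = c + 1) = {z, z'} := by
      ext v
      simp only [Finset.mem_filter, Finset.mem_univ, true_and, Finset.notMem_empty,
        not_false_eq_true, Finset.mem_insert, Finset.mem_singleton]
      constructor
      · intro h3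
        by_contra h4
        push Not at h4
        rw [hoff v h4.1 h4.2] at h3
        have h5 : ∀ a : ZMod 2, a ≠ a + 1 := by decide
        exact h5 c h3
      · rintro (rfl | rfl)
        · exact hcz
        · exact hcz'
    rw [h2, Finset.sum_pair hz]
    unfold Poly.kap
    rw [hπ, hπ']
    ring
  have hK0 : P.K ∅ col' c = 2 * Real.pi := by
    have h2 := P.K_add' ∅ col' c
    rw [hK1, Finset.sum_empty] at h2
    linarith
  have hgood : P.Good l := by
    refine ⟨hl0, hlw, ?_⟩
    rw [hpar, hlv]
    refine ⟨col', hC', fun k => ?_⟩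
    have h2 : ∀ a b : ZMod 2, a = b ∨ a = b + 1 := by decide
    rcases h2 k c with rfl | rfl
    · exact hK0.le
    · exact hK1.le
  have h2 := (h.min l hgood).2 hlen
  rw [hlv, hvis, Finset.card_pair hz] at h2
  simp at h2

end Cyc

end QG6b
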