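import Mathlib

/-!
# MP_6b5565_lc : short simple closed quasigeodesics -- definitions

`Poly` : a convex polyhedron with triangulated faces, given by its half-edge structure.
-/

namespace QG6b

open scoped BigOperators
open EuclideanGeometry

noncomputable section

/-- Euclidean three-space. -/
abbrev E3 := EuclideanSpace ℝ (Fin 3)

/-- A convex polyhedron, given by the half-edge structure (DCEL) of its boundary surface with all
faces triangulated (no extra vertices), and the positions of the vertices.

* `D` half-edges, `inv` the opposite half-edge, `nxt` the next half-edge of the same face (a face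
  is an orbit `d, nxt d, nxt (nxt d)`), `tail d` the start vertex of `d`;
* `orbit` : the half-edges starting at one vertex form one cycle of the rotation
  `a ↦ inv (nxt (nxt a))` (the surface is a surface at every vertex);
* `conn` : the surface is connected, `euler` : `V - E + F = 2` (`E = |D|/2`, `F = |D|/3`);
* `edge_inj, face_inj, indep, geom` : the faces are nondegenerate triangles of `ℝ³` which meet only
  in common faces (the surface is embedded);
* `support` : every face lies in a supporting plane of the set of vertices, `full` : the vertices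
  do not lie in a plane;
* `curv` : the sum of the face angles at every vertex is less than `2π` (all vertices of a convex
  polyhedron have positive curvature). -/
structure Poly where
  /-- vertices -/
  V : Type
  /-- half-edges -/
  D : Type
  [fV : Fintype V]
  [dV : DecidableEq V]
  [fD : Fintype D]
  [dD : DecidableEq D]
  inv : D → D
  nxt : D → D
  tail : D → V
  pos : V → E3
  inv_inv : ∀ d, inv (inv d) = d
  nxt3 : ∀ d, nxt (nxt (nxt d)) = d
  tail_inv : ∀ d, tail (inv d) = tail (nxt d)
  orbit : ∀ d d', tail d = tail d' → ∃ k : ℕ, (fun a => inv (nxt (nxt a)))^[k] d = d'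
  surj : ∀ v, ∃ d, tail d = v
  conn : ∀ u v, Relation.ReflTransGen (fun a b => ∃ d, tail d = a ∧ tail (inv d) = b) u v
  euler : 6 * Fintype.card V = Fintype.card D + 12
  edge_inj : ∀ d d', tail d = tail d' → tail (inv d) = tail (inv d') → d = d'
  face_inj : ∀ d d', ({tail d, tail (nxt d), tail (nxt (nxt d))} : Finset V)
      = {tail d', tail (nxt d'), tail (nxt (nxt d'))} → d' = d ∨ d' = nxt d ∨ d' = nxt (nxt d)
  indep : ∀ d, AffineIndependent ℝ ![pos (tail d), pos (tail (nxt d)), pos (tail (nxt (nxt d)))]
  geom : ∀ (d d' : D) (a b : V → ℝ), (∀ v, 0 ≤ a v) → (∀ v, 0 ≤ b v) →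
      (∀ v, a v ≠ 0 → v ∈ ({tail d, tail (nxt d), tail (nxt (nxt d))} : Finset V)) →
      (∀ v, b v ≠ 0 → v ∈ ({tail d', tail (nxt d'), tail (nxt (nxt d'))} : Finset V)) →
      ∑ v, a v = 1 → ∑ v, b v = 1 → ∑ v, a v • pos v = ∑ v, b v • pos v → a = b
  support : ∀ d, ∃ n : E3, n ≠ 0 ∧
      (∀ v, inner ℝ n (pos v) ≤ inner ℝ n (pos (tail d))) ∧
      inner ℝ n (pos (tail (nxt d))) = inner ℝ n (pos (tail d)) ∧
      inner ℝ n (pos (tail (nxt (nxt d)))) = inner ℝ n (pos (tail d))
  full : ∀ n : E3, (∀ u v, inner ℝ n (pos u) = inner ℝ n (pos v)) → n = 0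
  curv : ∀ v, ∑ d ∈ Finset.univ.filter (fun d => tail d = v),
      ∠ (pos (tail (nxt d))) (pos (tail d)) (pos (tail (nxt (nxt d)))) < 2 * Real.pi

attribute [instance] Poly.fV Poly.dV Poly.fD Poly.dD

namespace Poly

variable (P : Poly)

/-- previous half-edge of the face -/
def prev (d : P.D) : P.D := P.nxt (P.nxt d)
/-- end vertex of a half-edge -/
def head (d : P.D) : P.V := P.tail (P.inv d)
/-- next half-edge counterclockwise around the tail (the face of `d` lies between `d` and `rot d`) -/
def rot (d : P.D) : P.D := P.inv (P.nxt (P.nxt d))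
/-- next half-edge clockwise around the tail -/
def cw (d : P.D) : P.D := P.nxt (P.inv d)
/-- start point -/
def A (d : P.D) : E3 := P.pos (P.tail d)
/-- end point -/
def B (d : P.D) : E3 := P.pos (P.head d)
/-- the closed edge -/
def seg (d : P.D) : Set E3 := segment ℝ (P.A d) (P.B d)
/-- the open edge -/
def oseg (d : P.D) : Set E3 := openSegment ℝ (P.A d) (P.B d)
/-- the (closed) face of `d` -/
def tri (d : P.D) : Set E3 := convexHull ℝ {P.A d, P.A (P.nxt d), P.A (P.prev d)}
/-- the angle of the face of `d` at the tail of `d` -/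
def ang (d : P.D) : ℝ := ∠ (P.A (P.nxt d)) (P.A d) (P.A (P.prev d))
/-- `b` is a half-edge of the face of `a` -/
def SF (a b : P.D) : Prop := b = a ∨ b = P.nxt a ∨ b = P.prev a
/-- total face angle at a vertex -/
def tot (v : P.V) : ℝ := ∑ d ∈ Finset.univ.filter (fun d => P.tail d = v), P.ang d
/-- curvature of a vertex -/
def kap (v : P.V) : ℝ := 2 * Real.pi - P.tot v
/-- degree of a vertex -/
def deg (v : P.V) : ℕ := (Finset.univ.filter (fun d => P.tail d = v)).card
/-- number of vertices -/
def nV : ℕ := Fintype.card P.V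

/-- `α` is the sum of the face angles at the vertex `v` on one of the two sides of the path
`p → pos v → q` (`p`, `q` in faces at `v`): either `p, q` lie in one face `d` and `α` is their
angle in this face, or `p` lies in the face of `d`, `q` in the face of `rot^k d`, `0 < k < deg v`,
and `α` adds up the angles counterclockwise from `p` to `q`. The sum on the other side is
`tot v - α`. -/
def Side (v : P.V) (p q : E3) (α : ℝ) : Prop :=
  (∃ d, P.tail d = v ∧ p ∈ P.tri d ∧ q ∈ P.tri d ∧ α = ∠ p (P.pos v) q) ∨
  (∃ (d : P.D) (k : ℕ), P.tail d = v ∧ 1 ≤ k ∧ k < P.deg v ∧ p ∈ P.tri d ∧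
    q ∈ P.tri (P.rot^[k] d) ∧
    α = ∠ p (P.pos v) (P.B (P.rot d)) + ∑ j ∈ Finset.Ico 1 k, P.ang (P.rot^[j] d)
      + ∠ (P.B (P.rot^[k] d)) (P.pos v) q)

/-- The path `p → y → q` is a quasigeodesic at `y`: `y` is inside an edge, `p` and `q` in the two
faces at this edge, and the angle sums on both sides are at most `π`; or `y` is a vertex and the
angle sums on both sides are at most `π`. -/
def Quasi (p y q : E3) : Prop :=
  (∃ d, y ∈ P.oseg d ∧ p ∈ P.tri d ∧ q ∈ P.tri (P.inv d) ∧
    ∠ p y (P.B d) + ∠ (P.B d) y q ≤ Real.pi ∧ ∠ p y (P.A d) + ∠ (P.A d) y q ≤ Real.pi) ∨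
  (∃ v α, y = P.pos v ∧ P.Side v p q α ∧ α ≤ Real.pi ∧ P.tot v - α ≤ Real.pi)

/-- The main statement: there is a simple closed quasigeodesic with at most `3 n²` segments,
through at most one vertex, with at most `n` crossing points inside every edge. -/
def ShortSCQ : Prop :=
  ∃ (m : ℕ) (_ : NeZero m) (x : ZMod m → E3) (f : ZMod m → P.D),
    m ≤ 3 * P.nV ^ 2 ∧
    (∀ i, x i ∈ P.tri (f i) ∧ x (i + 1) ∈ P.tri (f i)) ∧
    (∀ (i j : ZMod m) (s t : ℝ), 0 ≤ s → s < 1 → 0 ≤ t → t < 1 →
      AffineMap.lineMap (x i) (x (i + 1)) s = (AffineMap.lineMap (x j) (x (j + 1)) t : E3) →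
      i = j ∧ s = t) ∧
    (∀ i, P.Quasi (x (i - 1)) (x i) (x (i + 1))) ∧
    (∀ (i j : ZMod m) (v w : P.V), x i = P.pos v → x j = P.pos w → i = j) ∧
    (∀ d, {i | x i ∈ P.oseg d}.ncard ≤ P.nV)

/-! ## Tracks -/

/-- combinatorial walk: `DWalk F l G` : starting in the face of `F` and crossing the half-edges of
`l` one after the other one arrives in the face of `G` (crossing `d` leads from the face of `d`
to the face of `inv d`). -/
def DWalk : P.D → List P.D → P.D → Prop
  | F, [], G => P.SF F G
  | F, d :: l, G => P.SF F d ∧ DWalk (P.inv d) l G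

/-- parity of the number of crossings of the edge of `e` -/
def par (l : List P.D) (e : P.D) : ZMod 2 :=
  ((l.countP (fun a => a = e ∨ a = P.inv e) : ℕ) : ZMod 2)

/-- `col` is a 2-colouring of the vertices with coboundary `p` -/
def Col (p : P.D → ZMod 2) (col : P.V → ZMod 2) : Prop :=
  ∀ d, col (P.tail d) + col (P.head d) = p d

/-- curvature of colour `c` outside `Z` -/
def K (Z : Finset P.V) (col : P.V → ZMod 2) (c : ZMod 2) : ℝ :=
  ∑ v ∈ Finset.univ.filter (fun v => v ∉ Z ∧ col v = c), P.kap v

/-- balanced: both colours have curvature at most `2π` outside `Z` -/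
def Bal (p : P.D → ZMod 2) (Z : Finset P.V) : Prop :=
  ∃ col, P.Col p col ∧ ∀ c, P.K Z col c ≤ 2 * Real.pi

/-- the indicator of the edges at `v` -/
def star (v : P.V) (e : P.D) : ZMod 2 := if P.tail e = v ∨ P.head e = v then 1 else 0

/-- not a vertex -/
def NV (y : E3) : Prop := ∀ v, y ≠ P.pos v

/-- visited vertices -/
def vis (l : List E3) : Finset P.V :=
  open Classical in Finset.univ.filter (fun v => P.pos v ∈ l)

end Poly

/-- length of an open polygon -/
def olen : List E3 → ℝ
  | [] => 0
  | [_] => 0
  | a :: b :: l => dist a b + olen (b :: l)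

/-- length of a closed polygon -/
def clen : List E3 → ℝ
  | [] => 0
  | a :: l => olen (a :: l ++ [a])

/-- sum of consecutive angles seen from `z` -/
def angList (z : E3) : List E3 → ℝ
  | [] => 0
  | [_] => 0
  | a :: b :: l => ∠ a z b + angList z (b :: l)

/-- a crossing: half-edge and point -/
structure Step (P : Poly) where
  d : P.D
  x : E3

namespace Poly

variable (P : Poly)

/-- geometric walk -/
def Walk : P.D → List (Step P) → P.D → Prop
  | F, [], G => P.SF F G
  | F, s :: l, G => P.SF F s.d ∧ s.x ∈ P.seg s.d ∧ Walk (P.inv s.d) l G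

/-- balanced track -/
def Good (l : List (Step P)) : Prop :=
  l ≠ [] ∧ (∃ F, P.Walk F l F) ∧ P.Bal (P.par (l.map Step.d)) (P.vis (l.map Step.x))

/-- length of a track -/
def len (l : List (Step P)) : ℝ := clen (l.map Step.x)

/-- tie-break: number of visited vertices, number of steps, number of non-vertex steps -/
def mu (l : List (Step P)) : ℕ ×ₗ ℕ ×ₗ ℕ :=
  toLex ((P.vis (l.map Step.x)).card, toLex (l.length,
    open Classical in l.countP (fun s => P.NV s.x)))

/-- shortest balanced track, with minimal tie-break among the shortest ones -/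
def Best (l : List (Step P)) : Prop :=
  P.Good l ∧ ∀ l', P.Good l' → P.len l ≤ P.len l' ∧ (P.len l' = P.len l → P.mu l ≤ P.mu l')

/-! ## Fans -/

/-- clockwise fan: crossings `a, cw a, cw² a, ...` (`k` of them), the vertex is on the right -/
def cwD (a : P.D) : ℕ → List P.D
  | 0 => []
  | k + 1 => a :: cwD (P.cw a) k

/-- counterclockwise fan: crossings `prev a, prev (rot a), ...`, the vertex is on the left -/
def ccwD (a : P.D) : ℕ → List P.D
  | 0 => []
  | k + 1 => P.prev a :: ccwD (P.rot a) k

/-- the end of `d` different from `v` (for `d` at `v`) -/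
def far (v : P.V) (d : P.D) : E3 := if P.tail d = v then P.B d else P.A d

/-- total angle at `v` of the fan `W` from direction `p` to direction `q` -/
def fang (v : P.V) (p : E3) (W : List P.D) (q : E3) : ℝ :=
  angList (P.pos v) (p :: (W.map (P.far v) ++ [q]))

/-- `W` is a fan around `v` from the face of `a` to the face of `b` (`tail a = tail b = v`), for the
directions `p` (in the face of `a`) and `q` (in the face of `b`); a full fan (`k = deg v`) must go
around from `p` to `q` without passing them twice -/
def IsFan (v : P.V) (p q : E3) (a : P.D) (W : List P.D) (b : P.D) : Prop :=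
  (W = [] ∧ a = b) ∨
  (∃ k, 1 ≤ k ∧ k ≤ P.deg v ∧ W = P.cwD a k ∧ b = P.cw^[k] a ∧
    (k = P.deg v → ∠ p (P.pos v) (P.B a) ≤ ∠ q (P.pos v) (P.B a))) ∨
  (∃ k, 1 ≤ k ∧ k ≤ P.deg v ∧ W = P.ccwD a k ∧ b = P.rot^[k] a ∧
    (k = P.deg v → ∠ q (P.pos v) (P.B a) ≤ ∠ p (P.pos v) (P.B a)))

end Poly

end

end QG6b
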