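import Pool.Agent.Lib_MP_6b5565.Defs

/-!
# The regular tetrahedron

The structure `Poly` is inhabited.
-/

namespace QG6b

open EuclideanGeometry

namespace Tetra

/-- opposite half-edge -/
def inv : Fin 12 → Fin 12 := ![3, 9, 6, 0, 8, 10, 2, 11, 4, 1, 5, 7]

/-- next half-edge -/
def nxt : Fin 12 → Fin 12 := ![1, 2, 0, 4, 5, 3, 7, 8, 6, 10, 11, 9]

/-- start vertex -/
def tail : Fin 12 → Fin 4 := ![0, 1, 2, 1, 0, 3, 0, 2, 3, 2, 1, 3]

/-- the vertex opposite to the face -/
def opp : Fin 12 → Fin 4 := ![3, 3, 3, 2, 2, 2, 1, 1, 1, 0, 0, 0]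

/-- coordinates -/
def crd : Fin 4 → Fin 3 → ℤ := ![![1, 1, 1], ![1, -1, -1], ![-1, 1, -1], ![-1, -1, 1]]

/-- positions -/
noncomputable def pos (v : Fin 4) : E3 := !₂[(crd v 0 : ℝ), (crd v 1 : ℝ), (crd v 2 : ℝ)]

theorem inner_pos (n : E3) (v : Fin 4) :
    inner ℝ n (pos v) = n 0 * crd v 0 + n 1 * crd v 1 + n 2 * crd v 2 := by
  rw [PiLp.inner_apply, Fin.sum_univ_three]
  simp [pos]
  ring

theorem inner_pos_pos (u v : Fin 4) : inner ℝ (pos u) (pos v) = if u = v then (3 : ℝ) else -1 := by
  rw [inner_pos]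
  have h : (crd u 0 * crd v 0 + crd u 1 * crd v 1 + crd u 2 * crd v 2 : ℤ) = if u = v then 3 else -1 := by
    revert u v
    decide
  have h2 : ((crd u 0 * crd v 0 + crd u 1 * crd v 1 + crd u 2 * crd v 2 : ℤ) : ℝ) = if u = v then (3 : ℝ) else -1 := by
    rw [h]
    split_ifs <;> norm_num
  rw [← h2]
  push_cast
  simp [pos]

/-- a vanishing combination of the four points -/
theorem eq_zero {w : Fin 4 → ℝ} (h0 : ∑ v, w v = 0) (h : ∑ v, w v • pos v = 0) : w = 0 := by
  funext u
  have h1 : inner ℝ (∑ v, w v • pos v) (pos u) = (0 : ℝ) := by rw [h, inner_zero_left]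
  rw [sum_inner] at h1
  simp only [inner_smul_left, inner_pos_pos, conj_trivial] at h1
  have h2 : ∑ v, w v * (if v = u then (3 : ℝ) else -1) = 4 * w u - ∑ v, w v := by
    have : ∀ v, w v * (if v = u then (3 : ℝ) else -1) = 4 * (if v = u then w v else 0) - w v := by
      intro v
      split_ifs <;> ring
    simp only [this]
    rw [Finset.sum_sub_distrib, ← Finset.mul_sum, Finset.sum_ite_eq' Finset.univ u, if_pos (Finset.mem_univ u)]
  rw [h2, h0] at h1
  show w u = 0
  linarith

theorem indep : AffineIndependent ℝ pos := by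
  rw [affineIndependent_iff]
  intro s w h0 h e he
  have h1 : ∑ v, (if v ∈ s then w v else 0) = 0 := by
    rw [Finset.sum_ite_mem, Finset.univ_inter]
    exact h0
  have h2 : ∑ v, (if v ∈ s then w v else 0) • pos v = 0 := by
    simp only [ite_smul, zero_smul]
    rw [Finset.sum_ite_mem, Finset.univ_inter]
    exact h
  have h3 := congrFun (eq_zero h1 h2) e
  simpa [he] using h3

theorem angle_pos {u v w : Fin 4} (huv : u ≠ v) (hwv : w ≠ v) (huw : u ≠ w) :
    ∠ (pos u) (pos v) (pos w) = Real.pi / 3 := by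
  have h1 : inner ℝ (pos u - pos v) (pos w - pos v) = (4 : ℝ) := by
    rw [inner_sub_left, inner_sub_right, inner_sub_right]
    simp only [inner_pos_pos, huv, huw, hwv.symm, if_true, if_false]
    norm_num
  have h2 : ∀ x : Fin 4, x ≠ v → ‖pos x - pos v‖ = Real.sqrt 8 := by
    intro x hx
    rw [norm_eq_sqrt_real_inner, inner_sub_left, inner_sub_right, inner_sub_right]
    simp only [inner_pos_pos, hx, hx.symm, if_true, if_false]
    norm_num
  rw [EuclideanGeometry.angle, InnerProductGeometry.angle, vsub_eq_sub, vsub_eq_sub, h1, h2 u huv, h2 w hwv,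
    Real.mul_self_sqrt (by norm_num), show (4 : ℝ) / 8 = Real.cos (Real.pi / 3) by
      rw [Real.cos_pi_div_three]; norm_num]
  exact Real.arccos_cos (by positivity) (by linarith [Real.pi_pos])

end Tetra

open Tetra in
/-- the regular tetrahedron -/
noncomputable def tetra : Poly where
  V := Fin 4
  D := Fin 12
  inv := inv
  nxt := nxt
  tail := tail
  pos := pos
  inv_inv := by decide
  nxt3 := by decide
  tail_inv := by decide
  orbit := by
    have h : ∀ d d' : Fin 12, tail d = tail d' →
        d = d' ∨ inv (nxt (nxt d)) = d' ∨ inv (nxt (nxt (inv (nxt (nxt d))))) = d' := by decide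
    intro d d' hd
    rcases h d d' hd with h1 | h1 | h1
    · exact ⟨0, h1⟩
    · exact ⟨1, h1⟩
    · exact ⟨2, h1⟩
  surj := by decide
  conn := by
    have h : ∀ u v : Fin 4, u = v ∨ ∃ d, tail d = u ∧ tail (inv d) = v := by decide
    intro u v
    rcases h u v with h1 | h1
    · rw [h1]
    · exact Relation.ReflTransGen.single h1
  euler := by simp
  edge_inj := by decide
  face_inj := by decide
  indep := by
    intro d
    have h : ∀ d : Fin 12, Function.Injective ![tail d, tail (nxt d), tail (nxt (nxt d))] := by decide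
    have h1 := indep.comp_embedding ⟨_, h d⟩
    convert h1 using 1
    funext i
    fin_cases i <;> rfl
  geom := by
    intro d d' a b _ _ _ _ ha hb hab
    have h1 : ∑ v, (a v - b v) = 0 := by rw [Finset.sum_sub_distrib, ha, hb, sub_self]
    have h2 : ∑ v, (a v - b v) • pos v = 0 := by
      simp only [sub_smul]
      rw [Finset.sum_sub_distrib, hab, sub_self]
    have h3 := eq_zero h1 h2
    funext v
    have := congrFun h3 v
    simp only [Pi.zero_apply] at this
    linarith
  support := by
    intro d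
    have h : ∀ d : Fin 12, tail d ≠ opp d ∧ tail (nxt d) ≠ opp d ∧ tail (nxt (nxt d)) ≠ opp d := by decide
    obtain ⟨h1, h2, h3⟩ := h d
    refine ⟨-pos (opp d), ?_, ?_, ?_, ?_⟩
    · intro h0
      have h4 := inner_pos_pos (opp d) (opp d)
      rw [if_pos rfl, neg_eq_zero.mp h0, inner_zero_left] at h4
      norm_num at h4
    · intro v
      rw [inner_neg_left, inner_neg_left, inner_pos_pos, inner_pos_pos, if_neg (Ne.symm h1)]
      split_ifs <;> norm_num
    · rw [inner_neg_left, inner_neg_left, inner_pos_pos, inner_pos_pos, if_neg (Ne.symm h1), if_neg (Ne.symm h2)]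
    · rw [inner_neg_left, inner_neg_left, inner_pos_pos, inner_pos_pos, if_neg (Ne.symm h1), if_neg (Ne.symm h3)]
  full := by
    intro n h
    have h1 := h 0 1
    have h2 := h 0 2
    have h3 := h 0 3
    simp only [inner_pos, crd] at h1 h2 h3
    simp at h1 h2 h3
    ext i
    fin_cases i
    · show n 0 = 0
      linarith
    · show n 1 = 0
      linarith
    · show n 2 = 0
      linarith
  curv := by
    intro v
    have h : ∀ d : Fin 12, tail (nxt d) ≠ tail d ∧ tail (nxt (nxt d)) ≠ tail d ∧ tail (nxt d) ≠ tail (nxt (nxt d)) := by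
      decide
    have h2 : ∀ d : Fin 12, ∠ (pos (tail (nxt d))) (pos (tail d)) (pos (tail (nxt (nxt d)))) = Real.pi / 3 :=
      fun d => angle_pos (h d).1 (h d).2.1 (h d).2.2
    have h3 : ∀ v : Fin 4, (Finset.univ.filter (fun d => tail d = v)).card = 3 := by decide
    rw [Finset.sum_congr rfl (fun d _ => h2 d), Finset.sum_const, h3]
    have := Real.pi_pos
    simp
    linarith

theorem exists_poly : Nonempty Poly := ⟨tetra⟩

end QG6b
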