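import Pool.Agent.Lib_MP_6b5565.F1a
import Pool.Agent.Lib_MP_6b5565.Fan

/-! [QG-F2a] -/

namespace QG6b

open EuclideanGeometry

namespace Cyc

variable {P : Poly} {m : ℕ} [NeZero m] {C : Cyc P m}

omit [NeZero m] in
private theorem f2a_cast (n : ℕ) (h0 : 0 < n) (hn : n < m) : ((n : ℕ) : ZMod m) ≠ 0 := by
  rw [Ne, ZMod.natCast_eq_zero_iff]
  exact fun h => absurd (Nat.le_of_dvd h0 h) (by omega)

omit [NeZero m] in
private theorem f2a_one (h3 : 3 ≤ m) : (1 : ZMod m) ≠ 0 := by
  have := f2a_cast (m := m) 1 (by norm_num) (by omega)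
  rwa [Nat.cast_one] at this

omit [NeZero m] in
private theorem f2a_two (h3 : 3 ≤ m) : (2 : ZMod m) ≠ 0 := by
  have := f2a_cast (m := m) 2 (by norm_num) (by omega)
  exact_mod_cast this

/-- directions at a vertex node of a simple curve with at least three nodes are different: in one
face of `v` the two neighbours are not on the same ray (else one of the two segments contains the
other up to its end, against `Simple`) -/
theorem Simple.angle_ne (hs : C.Simple) (h3 : 3 ≤ m) (h : C.Nice) {j : ZMod m} {v : P.V}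
    (hv : C.y j = P.pos v) : 0 < ∠ (C.y (j - 1)) (P.pos v) (C.y (j + 1)) := by
  have _ := h.two
  refine lt_of_le_of_ne (EuclideanGeometry.angle_nonneg _ _ _) fun h0 => ?_
  rw [← hv] at h0
  have h1 : InnerProductGeometry.angle (C.y (j - 1) - C.y j) (C.y (j + 1) - C.y j) = 0 := h0.symm
  obtain ⟨hx, r, hr, hy⟩ := InnerProductGeometry.angle_eq_zero_iff.1 h1
  have hj : j - 1 + 1 = j := by ring
  have hjj : j - 1 ≠ j := fun e => f2a_one h3 (by linear_combination -e)
  have hjj' : j - 1 ≠ j + 1 := fun e => f2a_two h3 (by linear_combination -e)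
  rcases le_total r 1 with hr1 | hr1
  · have hm1 : C.y (j + 1) ∈ segment ℝ (C.y (j - 1)) (C.y (j - 1 + 1)) := by
      rw [hj]
      refine ⟨r, 1 - r, hr.le, by linarith, by ring, ?_⟩
      have e1 : C.y (j + 1) = C.y j + r • (C.y (j - 1) - C.y j) := by rw [← hy]; abel
      rw [e1]
      module
    rcases hs (j - 1) j hjj _ hm1 (right_mem_segment ℝ _ _) with ⟨_, e⟩ | ⟨e, _⟩
    · exact C.ne j e.symm
    · exact hjj' e
  · have hm2 : C.y (j - 1) ∈ segment ℝ (C.y j) (C.y (j + 1)) := by
      have hr2 : r⁻¹ ≤ 1 := inv_le_one_of_one_le₀ hr1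
      have hr3 : 0 < r⁻¹ := inv_pos.2 hr
      refine ⟨1 - r⁻¹, r⁻¹, by linarith, hr3.le, by ring, ?_⟩
      have e1 : C.y (j - 1) = C.y j + r⁻¹ • (C.y (j + 1) - C.y j) := by
        rw [hy, smul_smul, inv_mul_cancel₀ hr.ne', one_smul]
        abel
      rw [e1]
      module
    rcases hs (j - 1) j hjj _ (left_mem_segment ℝ _ _) hm2 with ⟨_, e⟩ | ⟨e, _⟩
    · have h5 := C.ne (j - 1)
      rw [hj] at h5
      exact h5 e
    · exact hjj' e

/-- a non-vertex neighbour of a vertex node is on no edge at this vertex -/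
private theorem f2a_strict (h : C.Nice) {j : ZMod m} (hn : P.NV (C.y j)) {e : P.D} {v : P.V}
    (he : P.tail e = v) (hv : C.y (j - 1) = P.pos v ∨ C.y (j + 1) = P.pos v) : C.y j ∉ P.seg e := by
  intro hmem
  obtain ⟨d, hd, hod⟩ := h.single j hn
  have h1 : P.pos v ∈ P.seg e := by
    rw [← he]
    exact left_mem_segment ℝ _ _
  have h2 : P.pos v ∈ P.seg d := by
    rcases P.edge_unique hod hmem with rfl | rfl
    · exact h1
    · rwa [P.seg_inv] at h1
  obtain ⟨h3, h4⟩ := h.along j d hn hd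
  rcases hv with hv | hv
  · exact h3 (hv ▸ h2)
  · exact h4 (hv ▸ h2)

/-- the route with one changed node -/
private theorem f2a_mk {j₀ : ZMod m} {v : P.V} (hv : C.y j₀ = P.pos v)
    (hall : ∀ j, j ≠ j₀ → P.NV (C.y j)) (W : List P.D) (hW : W ≠ []) (s : Bool)
    (hwalk : P.DWalk (C.F (j₀ - 1)) W (C.F j₀))
    (hcw : s = true → CwFan P v (C.y (j₀ - 1)) (C.y (j₀ + 1)) (C.F (j₀ - 1)) (C.F j₀) W)
    (hccw : s = false → CcwFan P v (C.y (j₀ - 1)) (C.y (j₀ + 1)) (C.F (j₀ - 1)) (C.F j₀) W) :
    ∃ _ : Route C, True := by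
  have hj : ∀ j, ¬ P.NV (C.y j) → j = j₀ := by
    intro j hj
    by_contra hne
    exact hj (hall j hne)
  have h0 : ∀ j, P.NV (C.y j) → j ≠ j₀ := by
    intro j hn e
    exact hn v (e ▸ hv)
  exact ⟨{
    W := Function.update C.R j₀ W
    G := C.F
    sense := fun _ => s
    vtx := fun _ => v
    hvtx := by
      intro j hn
      rw [hj j hn]
      exact hv
    W_ne := by
      intro j
      by_cases h : j = j₀
      · subst h
        rw [Function.update_self]
        exact hW
      · rw [Function.update_of_ne h]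
        exact C.R_ne j
    walk := by
      intro j
      by_cases h : j = j₀
      · subst h
        rw [Function.update_self]
        exact hwalk
      · rw [Function.update_of_ne h]
        exact C.walk j
    inG := fun j => ⟨(C.mem_face j).1, (C.mem_face j).2.1⟩
    nv := by
      intro j hn
      rw [Function.update_of_ne (h0 j hn)]
    cw := by
      intro j hn hs
      have := hj j hn
      subst this
      rw [Function.update_self]
      exact hcw hs
    ccw := by
      intro j hn hs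
      have := hj j hn
      subst this
      rw [Function.update_self]
      exact hccw hs }, trivial⟩

/-- [QG-F2a] ONE VERTEX. All neighbours of the vertex node are no vertices and not on edges at `v`
(`Nice.along`), so the faces `C.F` can be kept and any nonempty fan of `fan_exists` is strict. -/
theorem exists_route_one (h : C.Nice) (hs : C.Simple) (h3 : 3 ≤ m) (hv : C.vis.card = 1) :
    ∃ _ : Route C, True := by
  have _ := hs
  obtain ⟨v, hvis⟩ := Finset.card_eq_one.1 hv
  have hmem : ∀ u, u ∈ C.vis ↔ ∃ j, C.y j = P.pos u := by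
    intro u
    simp [vis]
  obtain ⟨j₀, hj₀⟩ : ∃ j, C.y j = P.pos v := (hmem v).1 (by rw [hvis]; exact Finset.mem_singleton_self v)
  have hall : ∀ j, j ≠ j₀ → P.NV (C.y j) := by
    intro j hj u hu
    have h1 : u ∈ C.vis := (hmem u).2 ⟨j, hu⟩
    rw [hvis, Finset.mem_singleton] at h1
    subst h1
    exact hj (h.uniq j j₀ u hu hj₀)
  have e1 : j₀ - 1 + 1 = j₀ := by ring
  have e2 : j₀ + 1 - 1 = j₀ := by ring
  have hn1 : P.NV (C.y (j₀ - 1)) := hall _ fun e => f2a_one h3 (by linear_combination -e)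
  have hn2 : P.NV (C.y (j₀ + 1)) := hall _ fun e => f2a_one h3 (by linear_combination e)
  obtain ⟨m1, m2, -, -⟩ := C.mem_face (j₀ - 1)
  obtain ⟨m3, m4, -, -⟩ := C.mem_face j₀
  rw [e1, hj₀] at m2
  rw [hj₀] at m3
  obtain ⟨a, hFa, ha⟩ := P.verts_of_pos_mem m2
  obtain ⟨b, hFb, hb⟩ := P.verts_of_pos_mem m3
  have hp : C.y (j₀ - 1) ∈ P.tri a := by rw [← P.tri_SF hFa]; exact m1
  have hq : C.y (j₀ + 1) ∈ P.tri b := by rw [← P.tri_SF hFb]; exact m4
  have sp : ∀ e, P.tail e = v → C.y (j₀ - 1) ∉ P.seg e := fun e he =>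
    f2a_strict h hn1 he (Or.inr (by rw [e1, hj₀]))
  have sq : ∀ e, P.tail e = v → C.y (j₀ + 1) ∉ P.seg e := fun e he =>
    f2a_strict h hn2 he (Or.inl (by rw [e2, hj₀]))
  have tcw : ∀ k : ℕ, P.tail (P.cw^[k] a) = v := by
    intro k
    induction k with
    | zero => exact ha
    | succ k ih => rw [Function.iterate_succ_apply', P.tail_cw, ih]
  have trot : ∀ k : ℕ, P.tail (P.rot^[k] a) = v := by
    intro k
    induction k with
    | zero => exact ha
    | succ k ih => rw [Function.iterate_succ_apply', P.tail_rot, ih]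
  obtain ⟨W₁, W₂, f1, f2, -, hpar⟩ := P.fan_exists v ha hb hp hq (hn1 v) (hn2 v)
  have key : ∀ W, P.IsFan v (C.y (j₀ - 1)) (C.y (j₀ + 1)) a W b → W ≠ [] → ∃ _ : Route C, True := by
    intro W hf hW
    have hw : P.DWalk (C.F (j₀ - 1)) W (C.F j₀) :=
      P.DWalk_congr_right (P.SF_symm hFb) (P.DWalk_congr_left (P.SF_symm hFa)
        (Poly.IsFan.walk P hf))
    rcases hf with ⟨h1, -⟩ | ⟨k, hk1, hk2, hWk, hbk, hang⟩ | ⟨k, hk1, hk2, hWk, hbk, hang⟩
    · exact absurd h1 hW
    · refine f2a_mk hj₀ hall W hW true hw (fun _ => ?_) (fun h => absurd h (by decide))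
      rw [hbk] at hFb hq
      exact ⟨a, k, ha, hk1, hk2, hWk, hFa, hFb, hp, hq, sp a ha, sq _ (tcw (k - 1)), hang⟩
    · refine f2a_mk hj₀ hall W hW false hw (fun h => absurd h (by decide)) (fun _ => ?_)
      rw [hbk] at hFb hq
      exact ⟨a, k, ha, hk1, hk2, hWk, hFa, hFb, hp, hq, sp _ ((P.tail_rot a).trans ha),
        sq _ (trot k), hang⟩
  by_cases hW : W₁ = []
  · refine key W₂ f2 fun hW2 => ?_
    have h5 := hpar a
    rw [hW, hW2, P.par_nil] at h5
    unfold Poly.star at h5
    rw [if_pos (Or.inl ha), add_zero] at h5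
    exact absurd h5 (by decide)
  · exact key W₁ f1 hW

end Cyc

end QG6b
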