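import Pool.Agent.Lib_MP_6b5565.F1a
import Pool.Agent.Lib_MP_6b5565.Fan
import Pool.Agent.Lib_MP_6b5565.C4a

/-! [QG-F2b] -/

namespace QG6b

open EuclideanGeometry

namespace Cyc

variable {P : Poly} {m : ℕ} [NeZero m] {C : Cyc P m}

omit [NeZero m] in
private theorem F2b_left (j : ZMod m) : C.y j ∈ P.tri (C.F (j - 1)) := by
  have hw := C.walk j
  have hon := C.on j
  rcases hR : C.R j with _ | ⟨e, t⟩
  · exact absurd hR (C.R_ne j)
  rw [hR] at hw
  exact P.seg_sub_tri' hw.1 (hon e (by rw [hR]; exact List.mem_cons_self))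

omit [NeZero m] in
private theorem F2b_right (j : ZMod m) : C.y j ∈ P.tri (C.F j) := by
  have hw := C.walk j
  have hon := C.on j
  obtain ⟨l, d, hl⟩ : ∃ l d, C.R j = l ++ [d] :=
    ⟨_, _, (List.dropLast_append_getLast (C.R_ne j)).symm⟩
  rw [hl] at hw
  have h1 := P.DWalk_last hw
  have h2 : C.y j ∈ P.seg (P.inv d) := by
    rw [P.seg_inv]
    exact hon d (by rw [hl]; simp)
  have h3 := P.seg_sub_tri _ h2
  rwa [P.tri_SF h1] at h3

/-- the parities of a list of half-edges at `v` are zero off the star of `v` -/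
private theorem F2b_par_zero {v : P.V} {l : List P.D} (h : ∀ x ∈ l, P.tail x = v ∨ P.head x = v)
    {e : P.D} (h1 : P.tail e ≠ v) (h2 : P.head e ≠ v) : P.par l e = 0 := by
  unfold Poly.par
  rw [List.countP_eq_zero.2]
  · rfl
  · intro x hx
    have h3 := h x hx
    simp only [decide_eq_true_eq, not_or]
    constructor
    · rintro rfl
      rcases h3 with h3 | h3
      · exact h1 h3
      · exact h2 h3
    · rintro rfl
      rw [P.tail_eq_head_inv] at h3
      rcases h3 with h3 | h3
      · exact h2 h3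
      · exact h1 h3

/-- two walks through half-edges at `v` with the same ends have parities which differ by a multiple
of the star -/
private theorem F2b_star {F G : P.D} {v : P.V} {l W : List P.D} (w : P.DWalk F l G)
    (w' : P.DWalk F W G) (hl : ∀ x ∈ l, P.tail x = v ∨ P.head x = v)
    (hW : ∀ x ∈ W, P.tail x = v ∨ P.head x = v) :
    ∃ ε : ZMod 2, ∀ e, P.par l e + P.par W e = ε * P.star v e := by
  have hc : P.DWalk F (l ++ (W.map P.inv).reverse) F :=
    P.DWalk_append.2 ⟨G, w, P.DWalk_reverse w'⟩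
  have hp : ∀ e, P.par (l ++ (W.map P.inv).reverse) e = P.par l e + P.par W e := by
    intro e
    rw [P.par_append, P.par_reverse, P.par_map_inv]
  have hf := P.par_face hc
  simp only [hp] at hf
  rcases P.cocycle_star (v := v) (p := fun e => P.par l e + P.par W e)
    (fun e => by rw [P.par_inv, P.par_inv]) hf
    (fun e h1 h2 => by rw [F2b_par_zero hl h1 h2, F2b_par_zero hW h1 h2, add_zero]) with h | h
  · exact ⟨0, fun e => by rw [zero_mul]; exact h e⟩
  · exact ⟨1, fun e => by rw [one_mul]; exact h e⟩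

private theorem F2b_K (Z : Finset P.V) (col : P.V → ZMod 2) (v : P.V) (hv : v ∈ Z) (γ : ZMod 2) :
    P.K (Z.erase v) (fun u => if u = v then γ else col u) γ = P.K Z col γ + P.kap v := by
  unfold Poly.K
  have h1 : Finset.univ.filter (fun u => u ∉ Z.erase v ∧ (if u = v then γ else col u) = γ) =
      insert v (Finset.univ.filter (fun u => u ∉ Z ∧ col u = γ)) := by
    ext u
    simp only [Finset.mem_filter, Finset.mem_univ, true_and, Finset.mem_insert, Finset.mem_erase]
    by_cases hu : u = v
    · subst hu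
      simp
    · simp [hu]
  rw [h1, Finset.sum_insert (by simp [hv]), add_comm]

private theorem F2b_col {col : P.V → ZMod 2} {p q : P.D → ZMod 2} {v : P.V} {ε : ZMod 2}
    (hc : P.Col p col) (hq : ∀ e, q e = ε * P.star v e) :
    P.Col (fun e => p e + q e) (fun u => if u = v then col v + ε else col u) := by
  intro d
  have h1 := hc d
  have h2 := P.Col_star v d
  show _ = p d + q d
  rw [hq, ← h1, ← h2]
  by_cases h3 : P.tail d = v
  · by_cases h4 : P.head d = v
    · simp only [h3, h4, if_true]
      ring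
    · simp only [h3, h4, if_true, if_false]
      ring
  · by_cases h4 : P.head d = v
    · simp only [h3, h4, if_true, if_false]
      ring
    · simp only [h3, h4, if_false]
      ring

/-- two different vertices of the curve are not blocked for different colours -/
private theorem F2b_two {Z : Finset P.V} {col : P.V → ZMod 2} {v v' : P.V} (hv : v ∈ Z) (hv' : v' ∈ Z)
    (hne : v ≠ v') {γ γ' : ZMod 2} (h : 2 * Real.pi < P.K Z col γ + P.kap v)
    (h' : 2 * Real.pi < P.K Z col γ' + P.kap v') : γ' = γ := by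
  by_contra hγ
  have h1 : γ' = γ + 1 := by
    revert hγ
    generalize γ = x
    generalize γ' = y
    revert x y
    decide
  subst h1
  have h2 := P.K_add' Z col γ
  have h3 : P.kap v + P.kap v' ≤ ∑ u ∈ Z, P.kap u := by
    rw [← Finset.sum_pair hne]
    apply Finset.sum_le_sum_of_subset_of_nonneg
    · intro u hu
      rw [Finset.mem_insert, Finset.mem_singleton] at hu
      rcases hu with rfl | rfl
      · exact hv
      · exact hv'
    · intro u _ _
      exact (P.kap_pos u).le
  linarith

/-- [QG-F2b] BLOCKED COLOURS. At least two visited vertices: at every vertex node `j` there are two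
fans `W, W'` between the faces `C.F (j-1)`, `C.F j` (`fan_exists`) such that `W` has angle at least
`π`, `W'` has angle less than `π`; and the colour `c₀` that the vertex gets by the push through
`W'` is the same for all vertex nodes (normalised by a fixed colouring `col` of `C`: the colouring
after replacing `R j` by `W'` agrees with `col` off `vtx j` and has value `c₀` at `vtx j`); after
replacing `R j` by `W` the value at `vtx j` is `c₀ + 1`.
Proof: `Nice.push` for the fans with angle `< π`: `2π < K (vis.erase v) col' (col' v)`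
`= K vis col c + kap v`; two different vertices cannot be blocked for different colours since
`K vis col 0 + K vis col 1 + kap v + kap v' ≤ 4π`, so no vertex is blocked for both colours. -/
theorem blocked (h : C.Nice) (hv : 2 ≤ C.vis.card) :
    ∃ (col : P.V → ZMod 2) (c₀ : ZMod 2), P.Col C.par col ∧
      ∀ (j : ZMod m) (v : P.V), C.y j = P.pos v → ∃ (a b : P.D) (W : List P.D),
        P.tail a = v ∧ P.tail b = v ∧ P.SF (C.F (j - 1)) a ∧ P.SF (C.F j) b ∧
        P.IsFan v (C.y (j - 1)) (C.y (j + 1)) a W b ∧ Real.pi ≤ P.fang v (C.y (j - 1)) W (C.y (j + 1)) ∧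
        P.Col (fun e => C.par e + P.par (C.R j) e + P.par W e)
          (fun u => if u = v then c₀ + 1 else col u) := by
  obtain ⟨col, hcol, -⟩ := h.bal
  -- a fan at a vertex node
  have fan : ∀ (j : ZMod m) (v : P.V), C.y j = P.pos v → ∀ (a b : P.D) (W : List P.D),
      P.tail a = v → P.SF (C.F (j - 1)) a → P.SF (C.F j) b →
      P.IsFan v (C.y (j - 1)) (C.y (j + 1)) a W b →
      ∃ ε : ZMod 2, (∀ e, P.par (C.R j) e + P.par W e = ε * P.star v e) ∧
        P.Col (fun e => C.par e + P.par (C.R j) e + P.par W e)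
          (fun u => if u = v then col v + ε else col u) ∧
        (P.fang v (C.y (j - 1)) W (C.y (j + 1)) < Real.pi →
          2 * Real.pi < P.K C.vis col (col v + ε) + P.kap v) := by
    intro j v hj a b W ha hFa hFb hfan
    have hWm : ∀ e ∈ W, P.tail e = v ∨ P.head e = v := Poly.IsFan.mem P ha hfan
    have hWw : P.DWalk (C.F (j - 1)) W (C.F j) :=
      P.DWalk_congr_right (P.SF_symm hFb) (P.DWalk_congr_left (P.SF_symm hFa) hfan.walk)
    have hRm : ∀ e ∈ C.R j, P.tail e = v ∨ P.head e = v := by
      intro e he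
      have h1 := C.on j e he
      rw [hj] at h1
      rcases P.eq_of_pos_mem_seg h1 with h2 | h2
      · exact Or.inl h2.symm
      · exact Or.inr h2.symm
    obtain ⟨ε, hε⟩ := F2b_star (C.walk j) hWw hRm hWm
    have hc' : P.Col (fun e => C.par e + P.par (C.R j) e + P.par W e)
        (fun u => if u = v then col v + ε else col u) := by
      have h1 := F2b_col (v := v) hcol hε
      simp only [← add_assoc] at h1
      exact h1
    refine ⟨ε, hε, hc', fun hlt => ?_⟩
    have h1 := h.push j v hj W hWw hWm hlt _ hc'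
    simp only [if_true] at h1
    rw [F2b_K _ _ _ ((C.mem_vis).2 ⟨j, hj⟩)] at h1
    exact h1
  -- the two fans at a vertex node
  have key : ∀ (j : ZMod m) (v : P.V), C.y j = P.pos v → ∃ (a b : P.D) (W : List P.D) (γ : ZMod 2),
      P.tail a = v ∧ P.tail b = v ∧ P.SF (C.F (j - 1)) a ∧ P.SF (C.F j) b ∧
      P.IsFan v (C.y (j - 1)) (C.y (j + 1)) a W b ∧
      P.Col (fun e => C.par e + P.par (C.R j) e + P.par W e)
          (fun u => if u = v then γ + 1 else col u) ∧
      (P.fang v (C.y (j - 1)) W (C.y (j + 1)) < Real.pi →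
          2 * Real.pi < P.K C.vis col (γ + 1) + P.kap v) ∧
      2 * Real.pi < P.K C.vis col γ + P.kap v := by
    intro j v hj
    obtain ⟨a, hFa, ha⟩ := P.verts_of_pos_mem (v := v) (d := C.F (j - 1)) (hj ▸ F2b_left j)
    obtain ⟨b, hFb, hb⟩ := P.verts_of_pos_mem (v := v) (d := C.F j) (hj ▸ F2b_right j)
    have hp : C.y (j - 1) ∈ P.tri a := by
      rw [← P.tri_SF hFa]
      exact F2b_right (j - 1)
    have hq : C.y (j + 1) ∈ P.tri b := by
      rw [← P.tri_SF hFb]
      have := F2b_left (C := C) (j + 1)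
      rwa [add_sub_cancel_right] at this
    have hpz : C.y (j - 1) ≠ P.pos v := by
      have := C.ne (j - 1)
      rwa [sub_add_cancel, hj] at this
    have hqz : C.y (j + 1) ≠ P.pos v := by
      have := C.ne j
      rw [hj] at this
      exact this.symm
    obtain ⟨W₁, W₂, f1, f2, hang, hpar⟩ := P.fan_exists v ha hb hp hq hpz hqz
    have htot := P.tot_lt v
    obtain ⟨ε₁, s1, c1, k1⟩ := fan j v hj a b W₁ ha hFa hFb f1
    obtain ⟨ε₂, s2, c2, k2⟩ := fan j v hj a b W₂ ha hFa hFb f2
    have hε : ε₁ + ε₂ = 1 := by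
      have h1 := s1 a
      have h2 := s2 a
      have h3 := hpar a
      have h4 : P.star v a = 1 := by
        unfold Poly.star
        rw [if_pos (Or.inl ha)]
      rw [h4] at h1 h2 h3
      have h5 : (2 : ZMod 2) = 0 := rfl
      linear_combination h3 - h1 - h2 + P.par (C.R j) a * h5
    have h5 : (2 : ZMod 2) = 0 := rfl
    rcases lt_or_ge (P.fang v (C.y (j - 1)) W₂ (C.y (j + 1))) Real.pi with hlt | hge
    · have h6 : col v + ε₁ = (col v + ε₂) + 1 := by
        linear_combination hε - ε₂ * h5
      refine ⟨a, b, W₁, col v + ε₂, ha, hb, hFa, hFb, f1, ?_, ?_, k2 hlt⟩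
      · rw [h6] at c1
        exact c1
      · intro hl
        rw [← h6]
        exact k1 hl
    · have h6 : col v + ε₂ = (col v + ε₁) + 1 := by
        linear_combination hε - ε₁ * h5
      refine ⟨a, b, W₂, col v + ε₁, ha, hb, hFa, hFb, f2, ?_, ?_, k1 (by linarith)⟩
      · rw [h6] at c2
        exact c2
      · intro hl
        exact absurd hl (not_lt.2 hge)
  -- the common blocked colour
  obtain ⟨v₀, hv₀, v₁, hv₁, hne⟩ := Finset.one_lt_card.1 (show 1 < C.vis.card by omega)
  obtain ⟨j₀, hj₀⟩ := (C.mem_vis).1 hv₀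
  obtain ⟨j₁, hj₁⟩ := (C.mem_vis).1 hv₁
  obtain ⟨-, -, -, c₀, -, -, -, -, -, -, -, hc₀⟩ := key j₀ v₀ hj₀
  obtain ⟨-, -, -, c₁, -, -, -, -, -, -, -, hc₁⟩ := key j₁ v₁ hj₁
  have h10 : c₁ = c₀ := F2b_two hv₀ hv₁ hne hc₀ hc₁
  have hall : ∀ v ∈ C.vis, ∀ γ, 2 * Real.pi < P.K C.vis col γ + P.kap v → γ = c₀ := by
    intro v hvv γ hγ
    by_cases h0 : v = v₀
    · subst h0
      have := F2b_two hv₁ hvv hne.symm hc₁ hγ
      rw [this, h10]
    · exact F2b_two hv₀ hvv (fun h => h0 h.symm) hc₀ hγ
  refine ⟨col, c₀, hcol, fun j v hj => ?_⟩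
  obtain ⟨a, b, W, γ, ha, hb, hFa, hFb, hf, hcW, hbig, hγ⟩ := key j v hj
  have hvv : v ∈ C.vis := (C.mem_vis).2 ⟨j, hj⟩
  have hγ0 : γ = c₀ := hall v hvv γ hγ
  subst hγ0
  refine ⟨a, b, W, ha, hb, hFa, hFb, hf, ?_, hcW⟩
  by_contra hlt
  have h1 := hall v hvv (γ + 1) (hbig (not_le.1 hlt))
  revert h1
  generalize γ = x
  revert x
  decide

end Cyc

end QG6b
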