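import Pool.Agent.Lib_MP_6b5565.F2c_node
import Pool.Agent.Lib_MP_6b5565.H1

/-! [QG-F2c] -/

namespace QG6b

open EuclideanGeometry

namespace Cyc

variable {P : Poly} {m : ℕ} [NeZero m] {C : Cyc P m}

/-- trimming of a fan, both senses -/
theorem node_trim {v : P.V} {a b : P.D} {W : List P.D} {p q : E3} {G G' E E' : P.D}
    (ha : P.tail a = v) (hG : P.SF G a) (hG' : P.SF G' b)
    (hfan : P.IsFan v p q a W b) (hpi : Real.pi ≤ P.fang v p W q)
    (hp : p ∈ P.tri a) (hq : q ∈ P.tri b) (hpv : p ≠ P.pos v) (hqv : q ≠ P.pos v)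
    (hang : 0 < ∠ p (P.pos v) q) (hE : P.EndOK v p G E) (hE' : P.EndOK v q G' E')
    {c c' : Prop} (hc : (¬ P.NV p ∧ P.par W E = 1) ↔ c) (hc' : (¬ P.NV q ∧ P.par W E' = 1) ↔ c') :
    ∃ (s : Bool) (W' : List P.D), W' ≠ [] ∧
      (open Classical in P.DWalk (if c then P.inv E else G) W' (if c' then P.inv E' else G')) ∧
      (s = true → (open Classical in
        CwFan P v p q (if c then P.inv E else G) (if c' then P.inv E' else G') W')) ∧
      (s = false → (open Classical in
        CcwFan P v p q (if c then P.inv E else G) (if c' then P.inv E' else G') W')) ∧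
      Real.pi ≤ P.fang v p W' q ∧
      ∀ e, P.par W' e = P.par W e + (open Classical in if c then P.par [E] e else 0) +
        (open Classical in if c' then P.par [E'] e else 0) := by
  have hc1 := propext hc
  have hc2 := propext hc'
  subst hc1
  subst hc2
  rcases hfan with ⟨rfl, rfl⟩ | ⟨k, hk, hkd, rfl, rfl, hfull⟩ | ⟨k, hk, hkd, rfl, rfl, hfull⟩
  · exact absurd (P.fang_nil_lt ha hp hq hpv hqv) (not_lt.2 hpi)
  · obtain ⟨W', h1, h2, h3⟩ :=
      Poly.cw_node ha hk hkd hG hG' hp hq hpv hqv hang hfull hpi hE hE'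
    exact ⟨true, W', h1.walk.2, by convert h1.walk.1, fun _ => by convert h1,
      fun h => by simp at h, h2, fun e => by convert h3 e⟩
  · obtain ⟨W', h1, h2, h3⟩ :=
      Poly.ccw_node ha hk hkd hG hG' hp hq hpv hqv hang hfull hpi hE hE'
    exact ⟨false, W', h1.walk.2, by convert h1.walk.1, fun h => by simp at h,
      fun _ => by convert h1, h2, fun e => by convert h3 e⟩

/-- end condition for the neighbour `y i`, if `y i` is no vertex -/
theorem Nice.end_nv (h : C.Nice) {i : ZMod m} (hi : P.NV (C.y i)) {v : P.V}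
    (hv : P.pos v = C.y (i - 1) ∨ P.pos v = C.y (i + 1)) :
    ∀ e, P.tail e = v → C.y i ∉ P.seg e := by
  intro e he hmem
  obtain ⟨d, hd, hd'⟩ := h.single i hi
  have hal := h.along i d hi hd
  have hseg : P.seg e = P.seg d := by
    rcases P.edge_unique hd' hmem with h' | h'
    · rw [h']
    · rw [h', P.seg_inv]
  have h1 : P.pos v ∈ P.seg d := by
    rw [← hseg, ← he]; exact P.A_mem e
  rcases hv with hv | hv
  · rw [hv] at h1; exact hal.1 h1
  · rw [hv] at h1; exact hal.2 h1

/-- an edge joining two consecutive vertex nodes is not crossed at other nodes -/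
theorem Nice.other_par (h : C.Nice) (hs : C.Simple) {j : ZMod m} {v w : P.V} {X : P.D}
    (hv : C.y j = P.pos v) (hw : C.y (j + 1) = P.pos w)
    (hX : (P.tail X = v ∧ P.head X = w) ∨ (P.head X = v ∧ P.tail X = w))
    {i : ZMod m} (hij : i ≠ j) (hij' : i ≠ j + 1) {W : List P.D} (hn : P.NV (C.y i) → W = C.R i)
    {u : P.V} (hu : ¬ P.NV (C.y i) → C.y i = P.pos u ∧ ∀ e ∈ W, P.tail e = u ∨ P.head e = u) :
    P.par W X = 0 := by
  have hsX : P.seg X = segment ℝ (C.y j) (C.y (j + 1)) := by
    rw [hv, hw]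
    rcases hX with ⟨h1, h2⟩ | ⟨h1, h2⟩
    · rw [← h1, ← h2]; rfl
    · rw [← h1, ← h2, segment_symm]; rfl
  by_cases hi : P.NV (C.y i)
  · obtain ⟨d, hd, hd'⟩ := h.single i hi
    rw [hn hi, hd]
    apply P.par_eq_zero
    intro x hx
    rw [List.mem_singleton] at hx
    subst hx
    have key : C.y i ∉ P.seg X := by
      intro hmem
      rw [hsX] at hmem
      rcases hs i j hij (C.y i) (left_mem_segment ℝ _ _) hmem with ⟨h1, h2⟩ | ⟨h1, h2⟩
      · exact hi v (h2.trans hv)
      · exact hij' h1
    have hsub : C.y i ∈ P.seg x := openSegment_subset_segment ℝ _ _ hd'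
    constructor
    · rintro rfl; exact key hsub
    · intro hx
      rw [hx, P.seg_inv] at hsub
      exact key hsub
  · obtain ⟨h1, h2⟩ := hu hi
    apply P.par_eq_zero
    intro x hx
    have huv : u ≠ v := by
      rintro rfl
      exact hij (h.uniq i j u h1 hv)
    have huw : u ≠ w := by
      rintro rfl
      exact hij' (h.uniq i (j+1) u h1 hw)
    have hXt : P.tail X ≠ u ∧ P.head X ≠ u := by
      rcases hX with ⟨h3, h4⟩ | ⟨h3, h4⟩
      · exact ⟨by rw [h3]; exact huv.symm, by rw [h4]; exact huw.symm⟩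
      · exact ⟨by rw [h4]; exact huw.symm, by rw [h3]; exact huv.symm⟩
    constructor
    · rintro rfl
      rcases h2 _ hx with h3 | h3
      · exact hXt.1 h3
      · exact hXt.2 h3
    · rintro rfl
      rcases h2 _ hx with h3 | h3
      · exact hXt.2 h3
      · rw [P.tail_eq_head_inv] at h3; exact hXt.1 h3

/-- [QG-F2c] AT LEAST TWO VERTICES: route through the fans of angle at least `π`.
Start with the fans `W` of `blocked`. If the segment `j` is an edge `e = [y j, y (j+1)]` (both
vertices), the fan at `j` may end with a crossing of `e` and the fan at `j+1` may begin with one.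
Both or none do: the parity of the route at `e` is the number of these crossings (nothing else
crosses `e`, as `C` is simple), and it is the sum of the colours of the two ends, `2 (c₀ + 1) = 0`.
If both do, delete both crossings and let `G j` be the other face at `e`. Nonemptiness and the
angle: `fan_inner_cw, fan_inner_ccw` (the deleted parts have angle zero). Colours: `c₀ + 1` at all
visited vertices, as before at the others. -/
theorem exists_route_two (h : C.Nice) (hs : C.Simple) (h3 : 3 ≤ m) (hv : 2 ≤ C.vis.card) :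
    ∃ (ρ : Route C) (col : P.V → ZMod 2) (c₀ : ZMod 2), P.Col ρ.par col ∧
      (∀ j, ¬ P.NV (C.y j) → Real.pi ≤ ρ.ang j) ∧ (∀ v ∈ C.vis, col v = c₀ + 1) ∧
      P.K C.vis col c₀ ≤ 2 * Real.pi := by
  classical
  have two : ∀ x : ZMod 2, x + x = 0 := by decide
  obtain ⟨col, c₀, hcol, hb⟩ := blocked h hv
  -- data at the nodes
  have hN : ∀ j, ∃ (v : P.V) (a b : P.D) (W : List P.D),
      (¬ P.NV (C.y j) → C.y j = P.pos v ∧ P.tail a = v ∧ P.SF (C.F (j - 1)) a ∧
        P.SF (C.F j) b ∧ P.IsFan v (C.y (j - 1)) (C.y (j + 1)) a W b ∧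
        Real.pi ≤ P.fang v (C.y (j - 1)) W (C.y (j + 1)) ∧
        P.Col (fun e => C.par e + P.par (C.R j) e + P.par W e)
          (fun u => if u = v then c₀ + 1 else col u)) ∧
      (P.NV (C.y j) → W = C.R j) := by
    intro j
    by_cases hj : P.NV (C.y j)
    · exact ⟨P.tail (C.F j), C.F j, C.F j, C.R j, fun h => absurd hj h, fun _ => rfl⟩
    · have hj' : ∃ v, C.y j = P.pos v := by
        unfold Poly.NV at hj; push Not at hj; exact hj
      obtain ⟨v, hv⟩ := hj'
      obtain ⟨a, b, W, h1, h2, h3, h4, h5, h6, h7⟩ := hb j v hv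
      exact ⟨v, a, b, W, fun _ => ⟨hv, h1, h3, h4, h5, h6, h7⟩, fun h => absurd h hj⟩
  choose vv aa bb W hW hWn using hN
  have hX : ∀ j, ∃ X : P.D, ¬ P.NV (C.y j) → ¬ P.NV (C.y (j + 1)) → P.SF (C.F j) X ∧
      ((P.tail X = vv j ∧ P.head X = vv (j + 1)) ∨ (P.head X = vv j ∧ P.tail X = vv (j + 1))) := by
    intro j
    by_cases hj : P.NV (C.y j)
    · exact ⟨C.F j, fun h => absurd hj h⟩
    by_cases hj' : P.NV (C.y (j + 1))
    · exact ⟨C.F j, fun _ h => absurd hj' h⟩
    have h1 := (hW j hj).1
    have h2 := (hW (j + 1) hj').1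
    have h4 := C.mem_face j
    have hne : vv j ≠ vv (j + 1) := by
      intro h5
      apply C.ne j
      rw [h1, h2, h5]
    obtain ⟨e, he1, he2, he3⟩ := P.edge_of_two_vertices (d := C.F j) (by rw [← h1]; exact h4.1)
      (by rw [← h2]; exact h4.2.1) hne
    rcases he3 with he3 | he3
    · exact ⟨e, fun _ _ => ⟨he3, Or.inl ⟨he1, he2⟩⟩⟩
    · refine ⟨P.inv e, fun _ _ => ⟨he3, Or.inr ⟨?_, he2⟩⟩⟩
      rw [P.tail_eq_head_inv]; exact he1
  choose X hX using hX
  -- the colouring of the untrimmed route
  have hvis : ∀ u, u ∈ C.vis ↔ ∃ j, C.y j = P.pos u := by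
    intro u; simp [Cyc.vis]
  have hcol0 : P.Col (fun e => ∑ j, P.par (W j) e) (fun u => if u ∈ C.vis then c₀ + 1 else col u) := by
    intro e
    have hstep : ∀ j, P.par (W j) e + P.par (C.R j) e =
        (if ¬ P.NV (C.y j) ∧ P.tail e = vv j then c₀ + 1 + col (P.tail e) else 0) +
        (if ¬ P.NV (C.y j) ∧ P.head e = vv j then c₀ + 1 + col (P.head e) else 0) := by
      intro j
      by_cases hj : P.NV (C.y j)
      · rw [hWn j hj, if_neg (fun h => h.1 hj), if_neg (fun h => h.1 hj), two, add_zero]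
      · have h7 := (hW j hj).2.2.2.2.2.2 e
        have h8 := hcol e
        simp only at h7
        by_cases ht : P.tail e = vv j <;> by_cases hh : P.head e = vv j
        · exact absurd (ht.trans hh.symm) (P.tail_ne_head e)
        · rw [if_pos ht, if_neg hh] at h7
          rw [if_pos ⟨hj, ht⟩, if_neg (fun h => hh h.2), add_zero]
          linear_combination h8 - h7 - two (col (P.tail e))
        · rw [if_neg ht, if_pos hh] at h7
          rw [if_neg (fun h => ht h.2), if_pos ⟨hj, hh⟩, zero_add]
          linear_combination h8 - h7 - two (col (P.head e))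
        · rw [if_neg ht, if_neg hh] at h7
          rw [if_neg (fun h => ht h.2), if_neg (fun h => hh h.2), zero_add]
          linear_combination h8 - h7
    have hsum : ∀ u : P.V, ∑ j, (if ¬ P.NV (C.y j) ∧ u = vv j then c₀ + 1 + col u else 0) =
        if u ∈ C.vis then c₀ + 1 + col u else 0 := by
      intro u
      by_cases hu : u ∈ C.vis
      · rw [if_pos hu]
        obtain ⟨j, hj⟩ := (hvis u).1 hu
        have hnv : ¬ P.NV (C.y j) := by rw [hj]; exact P.not_NV_pos u
        have hvj : u = vv j := P.pos_inj (hj.symm.trans (hW j hnv).1)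
        rw [Finset.sum_eq_single j]
        · rw [if_pos ⟨hnv, hvj⟩]
        · intro i _ hi
          rw [if_neg]
          rintro ⟨h1, h2⟩
          exact hi (h.uniq i j u (by rw [h2]; exact (hW i h1).1) hj)
        · intro h; exact absurd (Finset.mem_univ j) h
      · rw [if_neg hu]
        apply Finset.sum_eq_zero
        intro i _
        rw [if_neg]
        rintro ⟨h1, h2⟩
        exact hu ((hvis u).2 ⟨i, by rw [h2]; exact (hW i h1).1⟩)
    have htot : ∑ j, P.par (W j) e + C.par e =
        (if P.tail e ∈ C.vis then c₀ + 1 + col (P.tail e) else 0) +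
        (if P.head e ∈ C.vis then c₀ + 1 + col (P.head e) else 0) := by
      rw [← hsum, ← hsum, ← Finset.sum_add_distrib]
      unfold Cyc.par
      rw [← Finset.sum_add_distrib]
      exact Finset.sum_congr rfl (fun j _ => hstep j)
    have h8 := hcol e
    show (if P.tail e ∈ C.vis then c₀ + 1 else col (P.tail e)) +
      (if P.head e ∈ C.vis then c₀ + 1 else col (P.head e)) = ∑ j, P.par (W j) e
    by_cases ht : P.tail e ∈ C.vis <;> by_cases hh : P.head e ∈ C.vis <;>
      simp only [ht, hh, if_true, if_false, add_zero, zero_add] at htot ⊢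
    · linear_combination h8 - htot + two (C.par e) - two (col (P.tail e)) - two (col (P.head e)) 
    · linear_combination h8 - htot + two (C.par e) - two (col (P.tail e))
    · linear_combination h8 - htot + two (C.par e) - two (col (P.head e))
    · linear_combination h8 - htot + two (C.par e)
  -- the two end edges are crossed by both or none of the neighbouring fans
  have hmem : ∀ j, ¬ P.NV (C.y j) → ∀ e ∈ W j, P.tail e = vv j ∨ P.head e = vv j := by
    intro j hj
    obtain ⟨h1, h2, h3, h4, h5, h6, h7⟩ := hW j hj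
    exact h5.mem P h2
  have : Fact (1 < m) := ⟨by omega⟩
  have hj1 : ∀ j : ZMod m, j ≠ j + 1 := by
    intro j h
    have : (1 : ZMod m) = 0 := by linear_combination -h
    exact one_ne_zero this
  have hpar : ∀ j, ¬ P.NV (C.y j) → ¬ P.NV (C.y (j + 1)) →
      P.par (W j) (X j) + P.par (W (j + 1)) (X j) = 0 := by
    intro j hj hj'
    obtain ⟨hX1, hX2⟩ := hX j hj hj'
    have h1 := (hW j hj).1
    have h2 := (hW (j + 1) hj').1
    have hc := hcol0 (X j)
    have hv1 : vv j ∈ C.vis := (hvis _).2 ⟨j, h1⟩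
    have hv2 : vv (j + 1) ∈ C.vis := (hvis _).2 ⟨j + 1, h2⟩
    have hs0 : ∑ i, P.par (W i) (X j) = 0 := by
      refine hc.symm.trans ?_
      rcases hX2 with ⟨h5, h6⟩ | ⟨h5, h6⟩
      · simp only [h5, h6, hv1, hv2, if_true, two]
      · simp only [h5, h6, hv1, hv2, if_true, two]
    rw [← hs0]
    have hsub : ∑ i ∈ ({j, j + 1} : Finset (ZMod m)), P.par (W i) (X j) =
        ∑ i, P.par (W i) (X j) := by
      apply Finset.sum_subset (Finset.subset_univ _)
      intro i _ hi
      simp only [Finset.mem_insert, Finset.mem_singleton, not_or] at hi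
      exact h.other_par hs h1 h2 hX2 hi.1 hi.2 (hWn i) (u := vv i)
        (fun hni => ⟨(hW i hni).1, hmem i hni⟩)
    rw [← hsub, Finset.sum_pair (hj1 j)]
  -- the segments whose crossings are deleted
  set fl : ZMod m → Prop := fun j => ¬ P.NV (C.y j) ∧ ¬ P.NV (C.y (j + 1)) ∧
    P.par (W j) (X j) = 1 with hfl
  have hfl1 : ∀ j, ¬ P.NV (C.y j) → ((¬ P.NV (C.y (j + 1)) ∧ P.par (W j) (X j) = 1) ↔ fl j) := by
    intro j hj
    exact ⟨fun h => ⟨hj, h.1, h.2⟩, fun h => ⟨h.2.1, h.2.2⟩⟩
  have hfl0 : ∀ j, ¬ P.NV (C.y j) →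
      ((¬ P.NV (C.y (j - 1)) ∧ P.par (W j) (X (j - 1)) = 1) ↔ fl (j - 1)) := by
    intro j hj
    have ej : j - 1 + 1 = j := by ring
    by_cases hj' : P.NV (C.y (j - 1))
    · exact ⟨fun h => absurd hj' h.1, fun h => absurd hj' h.1⟩
    · have hp := hpar (j - 1) hj' (by rw [ej]; exact hj)
      rw [ej] at hp
      have : P.par (W (j - 1)) (X (j - 1)) = P.par (W j) (X (j - 1)) := by
        linear_combination hp - two (P.par (W j) (X (j - 1)))
      rw [hfl]
      simp only [ej]
      rw [this]
      exact ⟨fun h => ⟨h.1, hj, h.2⟩, fun h => ⟨h.1, h.2.2⟩⟩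
  have hT : ∀ j, ∃ (s : Bool) (W' : List P.D), W' ≠ [] ∧
      P.DWalk (if fl (j - 1) then P.inv (X (j - 1)) else C.F (j - 1)) W'
        (if fl j then P.inv (X j) else C.F j) ∧
      (P.NV (C.y j) → W' = C.R j) ∧
      (¬ P.NV (C.y j) →
        (s = true → CwFan P (vv j) (C.y (j - 1)) (C.y (j + 1))
          (if fl (j - 1) then P.inv (X (j - 1)) else C.F (j - 1))
          (if fl j then P.inv (X j) else C.F j) W') ∧
        (s = false → CcwFan P (vv j) (C.y (j - 1)) (C.y (j + 1))
          (if fl (j - 1) then P.inv (X (j - 1)) else C.F (j - 1))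
          (if fl j then P.inv (X j) else C.F j) W') ∧
        Real.pi ≤ P.fang (vv j) (C.y (j - 1)) W' (C.y (j + 1))) ∧
      ∀ e, P.par W' e = P.par (W j) e + (if fl (j - 1) then P.par [X (j - 1)] e else 0) +
        (if fl j then P.par [X j] e else 0) := by
    intro j
    have ej : j - 1 + 1 = j := by ring
    by_cases hj : P.NV (C.y j)
    · have f0 : ¬ fl (j - 1) := by
        rintro ⟨-, h, -⟩
        rw [ej] at h; exact h hj
      have f1 : ¬ fl j := fun h => h.1 hj
      refine ⟨true, C.R j, C.R_ne j, ?_, fun _ => rfl, fun h => absurd hj h, fun e => ?_⟩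
      · rw [if_neg f0, if_neg f1]; exact C.walk j
      · rw [if_neg f0, if_neg f1, add_zero, add_zero, hWn j hj]
    · obtain ⟨h1, h2, h3', h4, h5, h6, h7⟩ := hW j hj
      have m0 := C.mem_face (j - 1)
      have m1 := C.mem_face j
      have hp : C.y (j - 1) ∈ P.tri (aa j) := by rw [← P.tri_SF h3']; exact m0.1
      have hq : C.y (j + 1) ∈ P.tri (bb j) := by rw [← P.tri_SF h4]; exact m1.2.1
      have hpv : C.y (j - 1) ≠ P.pos (vv j) := by
        have := C.ne (j - 1)
        rw [ej, h1] at this; exact this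
      have hqv : C.y (j + 1) ≠ P.pos (vv j) := by
        have := C.ne j
        rw [h1] at this; exact this.symm
      have hang := hs.angle_ne h3 h h1
      have hE : P.EndOK (vv j) (C.y (j - 1)) (C.F (j - 1)) (X (j - 1)) := by
        by_cases hj' : P.NV (C.y (j - 1))
        · exact Or.inl ⟨hj', h.end_nv hj' (Or.inr (by rw [ej, h1]))⟩
        · right
          obtain ⟨hX1, hX2⟩ := hX (j - 1) hj' (by rw [ej]; exact hj)
          rw [ej] at hX2
          have hw := (hW (j - 1) hj').1
          refine ⟨vv (j - 1), hw, ?_, hX1, ?_⟩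
          · intro h'; rw [hw, h'] at hpv; exact hpv rfl
          · rcases hX2 with ⟨h8, h9⟩ | ⟨h8, h9⟩
            · exact Or.inr ⟨h9, h8⟩
            · exact Or.inl ⟨h9, h8⟩
      have hE' : P.EndOK (vv j) (C.y (j + 1)) (C.F j) (X j) := by
        by_cases hj' : P.NV (C.y (j + 1))
        · exact Or.inl ⟨hj', h.end_nv hj' (Or.inl (by rw [add_sub_cancel_right, h1]))⟩
        · right
          obtain ⟨hX1, hX2⟩ := hX j hj hj'
          have hw := (hW (j + 1) hj').1
          refine ⟨vv (j + 1), hw, ?_, hX1, hX2⟩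
          intro h'; rw [hw, h'] at hqv; exact hqv rfl
      obtain ⟨s, W', g1, g2, g3, g4, g5, g6⟩ := node_trim h2 h3' h4 h5 h6 hp hq hpv hqv hang
        hE hE' (hfl0 j hj) (hfl1 j hj)
      exact ⟨s, W', g1, by convert g2, fun h => absurd h hj,
        fun _ => ⟨fun h => by convert g3 h, fun h => by convert g4 h, g5⟩,
        fun e => by convert g6 e⟩
  choose ss W' hT1 hT2 hT3 hT4 hT5 using hT
  let ρ : Route C :=
    { W := W'
      G := fun j => if fl j then P.inv (X j) else C.F j
      sense := ss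
      vtx := vv
      hvtx := fun j hj => (hW j hj).1
      W_ne := hT1
      walk := hT2
      inG := by
        intro j
        by_cases hf : fl j
        · simp only [if_pos hf]
          obtain ⟨hX1, hX2⟩ := hX j hf.1 hf.2.1
          have h1 := (hW j hf.1).1
          have h2 := (hW (j + 1) hf.2.1).1
          have hsX : P.seg (P.inv (X j)) = segment ℝ (C.y j) (C.y (j + 1)) := by
            rw [P.seg_inv, h1, h2]
            rcases hX2 with ⟨h3, h4⟩ | ⟨h3, h4⟩
            · rw [← h3, ← h4]; rfl
            · rw [← h3, ← h4, segment_symm]; rfl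
          constructor
          · apply P.seg_sub_tri; rw [hsX]; exact left_mem_segment ℝ _ _
          · apply P.seg_sub_tri; rw [hsX]; exact right_mem_segment ℝ _ _
        · simp only [if_neg hf]
          have := C.mem_face j
          exact ⟨this.1, this.2.1⟩
      nv := hT3
      cw := fun j hj => (hT4 j hj).1
      ccw := fun j hj => (hT4 j hj).2.1 }
  refine ⟨ρ, fun u => if u ∈ C.vis then c₀ + 1 else col u, c₀, ?_, fun j hj => (hT4 j hj).2.2,
    fun v hv => by simp only [if_pos hv], ?_⟩
  · have hρ : ρ.par = fun e => ∑ j, P.par (W j) e := by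
      funext e
      show ∑ j, P.par (W' j) e = _
      have e1 : ∑ j, P.par (W' j) e = ∑ j, P.par (W j) e +
          ∑ j, (if fl (j - 1) then P.par [X (j - 1)] e else 0) +
          ∑ j, (if fl j then P.par [X j] e else 0) := by
        rw [← Finset.sum_add_distrib, ← Finset.sum_add_distrib]
        exact Finset.sum_congr rfl (fun j _ => hT5 j e)
      have e2 : ∑ j, (if fl (j - 1) then P.par [X (j - 1)] e else 0) =
          ∑ j, (if fl j then P.par [X j] e else 0) :=
        Fintype.sum_equiv (Equiv.subRight (1 : ZMod m)) _ _ (fun j => rfl)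
      rw [e1, e2, add_assoc, two, add_zero]
    rw [hρ]
    exact hcol0
  · have hK : P.K C.vis (fun u => if u ∈ C.vis then c₀ + 1 else col u) c₀ = P.K C.vis col c₀ := by
      unfold Poly.K
      apply Finset.sum_congr _ (fun _ _ => rfl)
      ext u
      simp only [Finset.mem_filter, Finset.mem_univ, true_and]
      constructor
      · rintro ⟨h1, h2⟩
        rw [if_neg h1] at h2; exact ⟨h1, h2⟩
      · rintro ⟨h1, h2⟩
        rw [if_neg h1]; exact ⟨h1, h2⟩
    rw [hK]
    exact (P.Bal_iff hcol).1 h.bal c₀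

end Cyc

end QG6b
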