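import Pool.Agent.Lib_MP_6b5565.F2a
import Pool.Agent.Lib_MP_6b5565.F2b
import Pool.Agent.Lib_MP_6b5565.F1c

/-! [QG-F2c] auxiliary lemmas: trimming a fan at both ends -/

namespace QG6b

open EuclideanGeometry

theorem angList_cons_self {z p : E3} (hp : p ≠ z) (l : List E3) :
    angList z (p :: p :: l) = angList z (p :: l) := by
  have : ∠ p z p = 0 := EuclideanGeometry.angle_self_of_ne hp
  show ∠ p z p + angList z (p :: l) = _
  rw [this, zero_add]

theorem angList_append_self {z q : E3} (hq : q ≠ z) (l : List E3) :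
    angList z (l ++ [q, q]) = angList z (l ++ [q]) := by
  induction l with
  | nil =>
    show angList z (q :: q :: []) = _
    rw [angList_cons_self hq]; rfl
  | cons a l ih =>
    cases l with
    | nil =>
      show ∠ a z q + angList z (q :: q :: []) = ∠ a z q + angList z [q]
      rw [angList_cons_self hq]
    | cons b l =>
      show ∠ a z b + angList z ((b :: l) ++ [q, q]) = ∠ a z b + angList z ((b :: l) ++ [q])
      rw [ih]

namespace Poly

variable (P : Poly)

theorem cwD_add (a : P.D) (m n : ℕ) : P.cwD a (m + n) = P.cwD a m ++ P.cwD (P.cw^[m] a) n := by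
  induction m generalizing a with
  | zero => simp [cwD]
  | succ m ih =>
    rw [Nat.succ_add]
    show a :: P.cwD (P.cw a) (m + n) = (a :: P.cwD (P.cw a) m) ++ _
    rw [ih, Function.iterate_succ_apply]
    rfl

theorem ccwD_add (a : P.D) (m n : ℕ) :
    P.ccwD a (m + n) = P.ccwD a m ++ P.ccwD (P.rot^[m] a) n := by
  induction m generalizing a with
  | zero => simp [ccwD]
  | succ m ih =>
    rw [Nat.succ_add]
    show P.prev a :: P.ccwD (P.rot a) (m + n) = (P.prev a :: P.ccwD (P.rot a) m) ++ _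
    rw [ih, Function.iterate_succ_apply]
    rfl

theorem mem_cwD {a e : P.D} {k : ℕ} : e ∈ P.cwD a k ↔ ∃ t < k, e = P.cw^[t] a := by
  rw [List.mem_iff_getElem]
  constructor
  · rintro ⟨t, ht, rfl⟩
    exact ⟨t, by rwa [P.length_cwD] at ht, P.getElem_cwD a k t ht⟩
  · rintro ⟨t, ht, rfl⟩
    exact ⟨t, by rwa [P.length_cwD], P.getElem_cwD a k t _⟩

theorem mem_ccwD {a e : P.D} {k : ℕ} : e ∈ P.ccwD a k ↔ ∃ t < k, e = P.inv (P.rot^[t+1] a) := by
  rw [List.mem_iff_getElem]
  constructor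
  · rintro ⟨t, ht, rfl⟩
    exact ⟨t, by rwa [P.length_ccwD] at ht, P.getElem_ccwD a k t ht⟩
  · rintro ⟨t, ht, rfl⟩
    exact ⟨t, by rwa [P.length_ccwD], P.getElem_ccwD a k t _⟩

theorem tail_iterate_rot (a : P.D) (t : ℕ) : P.tail (P.rot^[t] a) = P.tail a := by
  induction t with
  | zero => rfl
  | succ t ih => rw [Function.iterate_succ_apply', tail_rot, ih]

theorem tail_iterate_cw (a : P.D) (t : ℕ) : P.tail (P.cw^[t] a) = P.tail a := by
  induction t with
  | zero => rfl
  | succ t ih => rw [Function.iterate_succ_apply', tail_cw, ih]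

theorem rot_cw_iterate (a : P.D) (t : ℕ) : P.rot^[t] (P.cw^[t] a) = a := by
  induction t with
  | zero => rfl
  | succ t ih => rw [Function.iterate_succ_apply, Function.iterate_succ_apply', rot_cw, ih]

theorem iterate_cw_inj {a : P.D} {v : P.V} (ha : P.tail a = v) {i j : ℕ} (hi : i < P.deg v)
    (hj : j < P.deg v) (h : P.cw^[i] a = P.cw^[j] a) : i = j := by
  have h1 := P.rot_cw_iterate a i
  have h2 := P.rot_cw_iterate a j
  rw [← h] at h2
  have ht : P.tail (P.cw^[i] a) = v := by rw [tail_iterate_cw, ha]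
  exact P.iterate_rot_inj (P.cw^[i] a) (by rwa [ht]) (by rwa [ht]) (h1.trans h2.symm)

theorem iterate_rot_inj' {a : P.D} {v : P.V} (ha : P.tail a = v) {i j : ℕ} (hi : i < P.deg v)
    (hj : j < P.deg v) (h : P.rot^[i] a = P.rot^[j] a) : i = j :=
  P.iterate_rot_inj a (by rwa [ha]) (by rwa [ha]) h

theorem iterate_cw_deg {a : P.D} {v : P.V} (ha : P.tail a = v) : P.cw^[P.deg v] a = a := by
  have := P.iterate_cw_rot a (k := P.deg v) (l := 0) (by rw [ha]; rfl)
  exact this

theorem iterate_rot_deg' {a : P.D} {v : P.V} (ha : P.tail a = v) : P.rot^[P.deg v] a = a := by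
  rw [← ha]; exact P.iterate_rot_deg a

theorem par_eq_zero {l : List P.D} {e : P.D} (h : ∀ x ∈ l, x ≠ e ∧ x ≠ P.inv e) :
    P.par l e = 0 := by
  unfold par
  have : l.countP (fun a => a = e ∨ a = P.inv e) = 0 := by
    rw [List.countP_eq_zero]
    intro x hx
    have := h x hx
    simp [this.1, this.2]
  rw [this]; rfl

theorem par_self (e : P.D) : P.par [e] e = 1 := by simp [par_singleton]

theorem par_self' (e : P.D) : P.par [e] (P.inv e) = 1 := by
  rw [par_inv]; exact P.par_self e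

theorem par_inv_singleton (d : P.D) : P.par [P.inv d] = P.par [d] := by
  funext e
  rw [par_singleton, par_singleton]
  have h1 : P.inv d = e ↔ d = P.inv e := by
    constructor
    · intro h; rw [← h, P.inv_inv]
    · intro h; rw [h, P.inv_inv]
  have h2 : P.inv d = P.inv e ↔ d = e := P.inv_injective.eq_iff
  simp only [h1, h2, or_comm]

theorem ne_of_tail {x e : P.D} {v : P.V} (hx : P.tail x = v) (he : P.tail e ≠ v) : x ≠ e := by
  rintro rfl; exact he hx

theorem ne_inv_of_tail {x e : P.D} {v : P.V} (hx : P.tail x = v) (he : P.tail e = v) :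
    x ≠ P.inv e := by
  rintro rfl
  exact P.tail_ne_head e (he.trans hx.symm)

/-- end condition of a vertex node: the neighbour `p` is not a vertex and not on an edge at `v`, or
it is a vertex and `E` is the half-edge of the face of `G` joining it with `v` -/
def EndOK (v : P.V) (p : E3) (G E : P.D) : Prop :=
  (P.NV p ∧ ∀ e, P.tail e = v → p ∉ P.seg e) ∨
  (∃ w, p = P.pos w ∧ w ≠ v ∧ P.SF G E ∧
    ((P.tail E = v ∧ P.head E = w) ∨ (P.head E = v ∧ P.tail E = w)))

theorem not_NV_pos (w : P.V) : ¬ P.NV (P.pos w) := fun h => h w rfl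

theorem B_not_mem_rot (a : P.D) : P.B a ∉ P.seg (P.rot a) := by
  intro h
  rcases P.eq_of_pos_mem_seg h with h | h
  · rw [tail_rot] at h; exact P.tail_ne_head a h.symm
  · rw [head_rot] at h; exact P.head_ne_prev a h

theorem B_rot_not_mem (a : P.D) : P.B (P.rot a) ∉ P.seg a := by
  intro h
  rcases P.eq_of_pos_mem_seg h with h | h
  · rw [head_rot] at h; exact P.tail_ne_prev a h.symm
  · rw [head_rot] at h; exact P.head_ne_prev a h.symm

theorem B_mem (a : P.D) : P.B a ∈ P.seg a := right_mem_segment ℝ _ _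

theorem A_mem (a : P.D) : P.A a ∈ P.seg a := left_mem_segment ℝ _ _

/-- the three cases at one end of a fan -/
theorem EndOK.cases {v : P.V} {p : E3} {G E a : P.D} (h : P.EndOK v p G E) (hG : P.SF G a)
    (ha : P.tail a = v) :
    (P.NV p ∧ p ∉ P.seg a ∧ p ∉ P.seg (P.rot a)) ∨
    (¬ P.NV p ∧ E = a ∧ p = P.B a) ∨ (¬ P.NV p ∧ E = P.prev a ∧ p = P.B (P.rot a)) := by
  rcases h with ⟨h1, h2⟩ | ⟨w, rfl, hw, hGE, hE⟩
  · exact Or.inl ⟨h1, h2 a ha, h2 _ (by rw [tail_rot, ha])⟩
  · right
    have hs : P.SF a E := P.SF_trans (P.SF_symm hG) hGE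
    rcases hE with ⟨h1, h2⟩ | ⟨h1, h2⟩
    · left
      have : a = E := P.SF_tail_inj hs (ha.trans h1.symm)
      subst this
      exact ⟨P.not_NV_pos w, rfl, by rw [← h2]; rfl⟩
    · right
      have h3 : P.tail (P.nxt E) = v := by rw [← head_eq, h1]
      have : a = P.nxt E := P.SF_tail_inj (P.SF_trans hs (P.SF_nxt E)) (ha.trans h3.symm)
      refine ⟨P.not_NV_pos w, ?_, ?_⟩
      · rw [this, prev_nxt]
      · rw [← h2, this]
        show P.pos (P.tail E) = P.pos (P.head (P.rot (P.nxt E)))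
        rw [head_rot, prev_nxt]

/-- two directions in one face at `v` with the same angle to `B a` -/
theorem ang_zero_of_eq {a : P.D} {v : P.V} (ha : P.tail a = v) {p q : E3} (hp : p ∈ P.tri a)
    (hq : q ∈ P.tri a) (hpv : p ≠ P.pos v) (hqv : q ≠ P.pos v)
    (h : ∠ p (P.pos v) (P.B a) = ∠ q (P.pos v) (P.B a)) : ∠ p (P.pos v) q = 0 := by
  subst ha
  have := P.ang_diff (d := a) (p := p) (q := q) hp hpv hq hqv
  show ∠ p (P.A a) q = 0
  rw [this]
  have h' : ∠ p (P.A a) (P.B a) = ∠ q (P.A a) (P.B a) := h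
  rw [h', sub_self, abs_zero]

theorem ang_le_of_mem {a : P.D} {v : P.V} (ha : P.tail a = v) {q : E3}
    (hq : q ∈ P.tri a) (hqv : q ≠ P.pos v) :
    ∠ q (P.pos v) (P.B a) ≤ ∠ (P.B (P.rot a)) (P.pos v) (P.B a) := by
  subst ha
  have h1 := P.ang_split (d := a) (p := q) hq hqv
  have h2 := P.ang_eq a
  have h3 : 0 ≤ ∠ q (P.A a) (P.B (P.rot a)) := EuclideanGeometry.angle_nonneg _ _ _
  show ∠ q (P.A a) (P.B a) ≤ ∠ (P.B (P.rot a)) (P.A a) (P.B a)
  rw [EuclideanGeometry.angle_comm (P.B (P.rot a)), h2]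
  linarith

end Poly

end QG6b
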