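import Pool.Agent.Lib_MP_6b5565.F2c_aux

/-! [QG-F2c] one vertex node: trimming the fan -/

namespace QG6b

open EuclideanGeometry

theorem CwFan.walk {P : Poly} {v : P.V} {p q : E3} {G G' : P.D} {W : List P.D}
    (h : CwFan P v p q G G' W) : P.DWalk G W G' ∧ W ≠ [] := by
  obtain ⟨a, k, -, hk, -, rfl, h1, h2, -⟩ := h
  refine ⟨P.DWalk_congr_left (P.SF_symm h1) (P.DWalk_congr_right (P.SF_symm h2) (P.DWalk_cwD a k)), ?_⟩
  intro h0
  have := P.length_cwD a k
  rw [h0] at this
  simp at this; omega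

theorem CcwFan.walk {P : Poly} {v : P.V} {p q : E3} {G G' : P.D} {W : List P.D}
    (h : CcwFan P v p q G G' W) : P.DWalk G W G' ∧ W ≠ [] := by
  obtain ⟨a, k, -, hk, -, rfl, h1, h2, -⟩ := h
  refine ⟨P.DWalk_congr_left (P.SF_symm h1) (P.DWalk_congr_right (P.SF_symm h2) (P.DWalk_ccwD a k)), ?_⟩
  intro h0
  have := P.length_ccwD a k
  rw [h0] at this
  simp at this; omega

namespace Poly

variable (P : Poly)

theorem far_of_tail {v : P.V} {x : P.D} (h : P.tail x = v) : P.far v x = P.B x := by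
  simp [far, h]

theorem far_of_head {v : P.V} {x : P.D} (h : P.head x = v) : P.far v x = P.A x := by
  have : P.tail x ≠ v := by rw [← h]; exact P.tail_ne_head x
  simp [far, this]

theorem fang_cons {v : P.V} {p q : E3} {x : P.D} {W : List P.D} (hp : p ≠ P.pos v)
    (hx : P.far v x = p) : P.fang v p (x :: W) q = P.fang v p W q := by
  unfold fang
  rw [List.map_cons, hx]
  exact angList_cons_self hp _

theorem fang_append {v : P.V} {p q : E3} {x : P.D} {W : List P.D} (hq : q ≠ P.pos v)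
    (hx : P.far v x = q) : P.fang v p (W ++ [x]) q = P.fang v p W q := by
  unfold fang
  rw [List.map_append, List.map_singleton, hx]
  have := angList_append_self (z := P.pos v) hq (p :: W.map (P.far v))
  simpa using this

section

variable {P} {v : P.V} {a : P.D} {k : ℕ} {p q : E3} {G G' E E' : P.D}

/-- first end of a clockwise fan -/
theorem cw_first (ha : P.tail a = v) (hk : 1 ≤ k) (hkd : k ≤ P.deg v) (hG : P.SF G a)
    (hp : p ∈ P.tri a) (hq : q ∈ P.tri (P.cw^[k] a)) (hpv : p ≠ P.pos v) (hqv : q ≠ P.pos v)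
    (hang : 0 < ∠ p (P.pos v) q)
    (hfull : k = P.deg v → ∠ p (P.pos v) (P.B a) ≤ ∠ q (P.pos v) (P.B a))
    (hE : P.EndOK v p G E) :
    (¬ (¬ P.NV p ∧ P.par (P.cwD a k) E = 1) ∧ p ∉ P.seg a) ∨
    ((¬ P.NV p ∧ P.par (P.cwD a k) E = 1) ∧ E = a ∧ p = P.B a) := by
  rcases hE.cases P hG ha with ⟨h1, h2, h3⟩ | ⟨h1, h2, h3⟩ | ⟨h1, h2, h3⟩
  · exact Or.inl ⟨fun h => h.1 h1, h2⟩
  · right
    refine ⟨⟨h1, ?_⟩, h2, h3⟩
    obtain ⟨n, rfl⟩ : ∃ n, k = 1 + n := ⟨k - 1, by omega⟩
    rw [P.cwD_add, P.par_append, h2]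
    have e1 : P.par (P.cwD (P.cw^[1] a) n) a = 0 := by
      apply P.par_eq_zero
      intro x hx
      obtain ⟨t, ht, rfl⟩ := P.mem_cwD.1 hx
      have ht' : P.tail (P.cw^[t] (P.cw^[1] a)) = v := by
        rw [P.tail_iterate_cw, P.tail_iterate_cw, ha]
      refine ⟨?_, P.ne_inv_of_tail ht' ha⟩
      rw [← Function.iterate_add_apply]
      intro h
      have := P.iterate_cw_inj ha (i := t + 1) (j := 0) (by omega) (by omega) h
      omega
    rw [e1, add_zero]
    exact P.par_self a
  · left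
    have hns : p ∉ P.seg a := by rw [h3]; exact P.B_rot_not_mem a
    refine ⟨?_, hns⟩
    rintro ⟨-, hpar⟩
    by_cases hkd' : k = P.deg v
    · have hf := hfull hkd'
      rw [hkd', P.iterate_cw_deg ha] at hq
      have h4 := P.ang_le_of_mem ha hq hqv
      rw [← h3] at h4
      have := P.ang_zero_of_eq ha hp hq hpv hqv (le_antisymm hf h4)
      rw [this] at hang
      exact lt_irrefl _ hang
    · have : P.par (P.cwD a k) E = 0 := by
        apply P.par_eq_zero
        intro x hx
        obtain ⟨t, ht, rfl⟩ := P.mem_cwD.1 hx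
        have ht' : P.tail (P.cw^[t] a) = v := by rw [P.tail_iterate_cw, ha]
        rw [h2]
        refine ⟨P.ne_of_tail ht' ?_, ?_⟩
        · rw [← ha]; exact (P.tail_ne_prev a).symm
        · intro h
          have h5 : P.cw^[t+1] a = P.cw^[0] a := by
            rw [Function.iterate_succ_apply', h]
            exact P.cw_rot a
          have := P.iterate_cw_inj ha (i := t + 1) (j := 0) (by omega) (by omega) h5
          omega
      rw [this] at hpar
      exact absurd hpar (by decide)

/-- last end of a clockwise fan -/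
theorem cw_last (ha : P.tail a = v) (hk : 1 ≤ k) (hkd : k ≤ P.deg v) (hG : P.SF G' (P.cw^[k] a))
    (_hp : p ∈ P.tri a) (hq : q ∈ P.tri (P.cw^[k] a)) (_hpv : p ≠ P.pos v) (hqv : q ≠ P.pos v)
    (hang : 0 < ∠ p (P.pos v) q)
    (hfull : k = P.deg v → ∠ p (P.pos v) (P.B a) ≤ ∠ q (P.pos v) (P.B a))
    (hE : P.EndOK v q G' E') :
    (¬ (¬ P.NV q ∧ P.par (P.cwD a k) E' = 1) ∧ q ∉ P.seg (P.cw^[k-1] a)) ∨
    ((¬ P.NV q ∧ P.par (P.cwD a k) E' = 1) ∧ E' = P.inv (P.cw^[k-1] a) ∧
      q = P.B (P.cw^[k-1] a)) := by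
  have htl : P.tail (P.cw^[k] a) = v := by rw [P.tail_iterate_cw, ha]
  have hrot : P.rot (P.cw^[k] a) = P.cw^[k-1] a := by
    obtain ⟨n, rfl⟩ : ∃ n, k = n + 1 := ⟨k - 1, by omega⟩
    rw [Function.iterate_succ_apply', P.rot_cw]; rfl
  have hprev : P.prev (P.cw^[k] a) = P.inv (P.cw^[k-1] a) := by
    rw [← hrot]
    show _ = P.inv (P.inv (P.prev _))
    rw [P.inv_inv]
  rcases hE.cases P hG htl with ⟨h1, h2, h3⟩ | ⟨h1, h2, h3⟩ | ⟨h1, h2, h3⟩
  · rw [hrot] at h3
    exact Or.inl ⟨fun h => h.1 h1, h3⟩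
  · left
    have hns : q ∉ P.seg (P.cw^[k-1] a) := by rw [← hrot, h3]; exact P.B_not_mem_rot _
    refine ⟨?_, hns⟩
    rintro ⟨-, hpar⟩
    by_cases hkd' : k = P.deg v
    · have hf := hfull hkd'
      rw [hkd', P.iterate_cw_deg ha] at hq h3
      rw [h3] at hf
      have h4 : ∠ (P.B a) (P.pos v) (P.B a) = 0 := by
        apply EuclideanGeometry.angle_self_of_ne
        rw [← h3]; exact hqv
      rw [h4] at hf
      have h5 : ∠ p (P.pos v) (P.B a) = 0 :=
        le_antisymm hf (EuclideanGeometry.angle_nonneg _ _ _)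
      rw [← h3] at h5
      rw [h5] at hang
      exact lt_irrefl _ hang
    · have : P.par (P.cwD a k) E' = 0 := by
        apply P.par_eq_zero
        intro x hx
        obtain ⟨t, ht, rfl⟩ := P.mem_cwD.1 hx
        have ht' : P.tail (P.cw^[t] a) = v := by rw [P.tail_iterate_cw, ha]
        rw [h2]
        refine ⟨?_, P.ne_inv_of_tail ht' htl⟩
        intro h
        have := P.iterate_cw_inj ha (i := t) (j := k) (by omega) (by omega) h
        omega
      rw [this] at hpar
      exact absurd hpar (by decide)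
  · right
    rw [hrot] at h3
    rw [hprev] at h2
    refine ⟨⟨h1, ?_⟩, h2, h3⟩
    obtain ⟨n, rfl⟩ : ∃ n, k = n + 1 := ⟨k - 1, by omega⟩
    rw [P.cwD_add, P.par_append, h2]
    have hn : n + 1 - 1 = n := rfl
    rw [hn]
    have htn : P.tail (P.cw^[n] a) = v := by rw [P.tail_iterate_cw, ha]
    have e1 : P.par (P.cwD a n) (P.inv (P.cw^[n] a)) = 0 := by
      apply P.par_eq_zero
      intro x hx
      obtain ⟨t, ht, rfl⟩ := P.mem_cwD.1 hx
      have ht' : P.tail (P.cw^[t] a) = v := by rw [P.tail_iterate_cw, ha]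
      rw [P.inv_inv]
      refine ⟨P.ne_inv_of_tail ht' htn, ?_⟩
      intro h
      have := P.iterate_cw_inj ha (i := t) (j := n) (by omega) (by omega) h
      omega
    rw [e1, zero_add]
    exact P.par_self' _

/-- first end of a counterclockwise fan -/
theorem ccw_first (ha : P.tail a = v) (hk : 1 ≤ k) (hkd : k ≤ P.deg v) (hG : P.SF G a)
    (hp : p ∈ P.tri a) (hq : q ∈ P.tri (P.rot^[k] a)) (hpv : p ≠ P.pos v) (hqv : q ≠ P.pos v)
    (hang : 0 < ∠ p (P.pos v) q)
    (hfull : k = P.deg v → ∠ q (P.pos v) (P.B a) ≤ ∠ p (P.pos v) (P.B a))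
    (hE : P.EndOK v p G E) :
    (¬ (¬ P.NV p ∧ P.par (P.ccwD a k) E = 1) ∧ p ∉ P.seg (P.rot a)) ∨
    ((¬ P.NV p ∧ P.par (P.ccwD a k) E = 1) ∧ E = P.prev a ∧ p = P.B (P.rot a)) := by
  rcases hE.cases P hG ha with ⟨h1, h2, h3⟩ | ⟨h1, h2, h3⟩ | ⟨h1, h2, h3⟩
  · exact Or.inl ⟨fun h => h.1 h1, h3⟩
  · left
    have hns : p ∉ P.seg (P.rot a) := by rw [h3]; exact P.B_not_mem_rot a
    refine ⟨?_, hns⟩
    rintro ⟨-, hpar⟩
    by_cases hkd' : k = P.deg v
    · have hf := hfull hkd'
      rw [h3] at hf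
      have h4 : ∠ (P.B a) (P.pos v) (P.B a) = 0 := by
        apply EuclideanGeometry.angle_self_of_ne
        rw [← h3]; exact hpv
      rw [h4] at hf
      have h5 : ∠ q (P.pos v) (P.B a) = 0 :=
        le_antisymm hf (EuclideanGeometry.angle_nonneg _ _ _)
      rw [← h3, EuclideanGeometry.angle_comm] at h5
      rw [h5] at hang
      exact lt_irrefl _ hang
    · have : P.par (P.ccwD a k) E = 0 := by
        apply P.par_eq_zero
        intro x hx
        obtain ⟨t, ht, rfl⟩ := P.mem_ccwD.1 hx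
        have ht' : P.tail (P.rot^[t+1] a) = v := by rw [P.tail_iterate_rot, ha]
        rw [h2]
        refine ⟨?_, ?_⟩
        · intro h
          exact P.ne_inv_of_tail ht' ha (by have := congrArg P.inv h; rwa [P.inv_inv] at this)
        · intro h
          have := P.iterate_rot_inj' ha (i := t + 1) (j := 0) (by omega) (by omega)
            (P.inv_injective h)
          omega
      rw [this] at hpar
      exact absurd hpar (by decide)
  · right
    refine ⟨⟨h1, ?_⟩, h2, h3⟩
    obtain ⟨n, rfl⟩ : ∃ n, k = 1 + n := ⟨k - 1, by omega⟩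
    rw [P.ccwD_add, P.par_append, h2]
    have e1 : P.par (P.ccwD (P.rot^[1] a) n) (P.prev a) = 0 := by
      apply P.par_eq_zero
      intro x hx
      obtain ⟨t, ht, rfl⟩ := P.mem_ccwD.1 hx
      have ht' : P.tail (P.rot^[t+1] (P.rot^[1] a)) = v := by
        rw [P.tail_iterate_rot, P.tail_iterate_rot, ha]
      refine ⟨?_, ?_⟩
      · intro h
        have h5 : P.rot^[t+1+1] a = P.rot^[1] a := by
          rw [Function.iterate_add_apply (P.rot) (t+1) 1]
          show _ = P.inv (P.prev a)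
          rw [← h, P.inv_inv]
        have h6 : P.rot^[t+1] a = P.rot^[0] a := by
          have := congrArg P.cw h5
          rw [Function.iterate_succ_apply', P.cw_rot] at this
          rw [this]
          exact P.cw_rot a
        have := P.iterate_rot_inj' ha (i := t + 1) (j := 0) (by omega) (by omega) h6
        omega
      · intro h
        have h7 := P.inv_injective h
        have : P.tail (P.prev a) = v := by rw [← h7]; exact ht'
        exact P.tail_ne_prev a (ha.trans this.symm)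
    rw [e1, add_zero]
    exact P.par_self _

/-- last end of a counterclockwise fan -/
theorem ccw_last (ha : P.tail a = v) (hk : 1 ≤ k) (hkd : k ≤ P.deg v) (hG : P.SF G' (P.rot^[k] a))
    (hp : p ∈ P.tri a) (hq : q ∈ P.tri (P.rot^[k] a)) (hpv : p ≠ P.pos v) (hqv : q ≠ P.pos v)
    (hang : 0 < ∠ p (P.pos v) q)
    (hfull : k = P.deg v → ∠ q (P.pos v) (P.B a) ≤ ∠ p (P.pos v) (P.B a))
    (hE : P.EndOK v q G' E') :
    (¬ (¬ P.NV q ∧ P.par (P.ccwD a k) E' = 1) ∧ q ∉ P.seg (P.rot^[k] a)) ∨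
    ((¬ P.NV q ∧ P.par (P.ccwD a k) E' = 1) ∧ E' = P.rot^[k] a ∧
      q = P.B (P.rot^[k] a)) := by
  have htl : P.tail (P.rot^[k] a) = v := by rw [P.tail_iterate_rot, ha]
  rcases hE.cases P hG htl with ⟨h1, h2, h3⟩ | ⟨h1, h2, h3⟩ | ⟨h1, h2, h3⟩
  · exact Or.inl ⟨fun h => h.1 h1, h2⟩
  · right
    refine ⟨⟨h1, ?_⟩, h2, h3⟩
    obtain ⟨n, rfl⟩ : ∃ n, k = n + 1 := ⟨k - 1, by omega⟩
    rw [P.ccwD_add, P.par_append, h2]
    have e1 : P.par (P.ccwD a n) (P.rot^[n+1] a) = 0 := by
      apply P.par_eq_zero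
      intro x hx
      obtain ⟨t, ht, rfl⟩ := P.mem_ccwD.1 hx
      have ht' : P.tail (P.rot^[t+1] a) = v := by rw [P.tail_iterate_rot, ha]
      refine ⟨?_, ?_⟩
      · intro h
        exact P.ne_inv_of_tail ht' htl (by rw [← h, P.inv_inv])
      · intro h
        have h5 := P.inv_injective h
        have h6 : P.rot^[t] a = P.rot^[n] a := by
          have := congrArg P.cw h5
          rwa [Function.iterate_succ_apply', P.cw_rot, Function.iterate_succ_apply',
            P.cw_rot] at this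
        have := P.iterate_rot_inj' ha (i := t) (j := n) (by omega) (by omega) h6
        omega
    have e2 : P.ccwD (P.rot^[n] a) 1 = [P.inv (P.rot^[n+1] a)] := by
      show [P.prev (P.rot^[n] a)] = _
      rw [Function.iterate_succ_apply']
      show _ = [P.inv (P.inv (P.prev _))]
      rw [P.inv_inv]
    rw [e1, zero_add, e2, P.par_inv_singleton]
    exact P.par_self _
  · left
    have hns : q ∉ P.seg (P.rot^[k] a) := by rw [h3]; exact P.B_rot_not_mem _
    refine ⟨?_, hns⟩
    rintro ⟨-, hpar⟩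
    by_cases hkd' : k = P.deg v
    · have hf := hfull hkd'
      rw [hkd', P.iterate_rot_deg' ha] at hq h3
      have h4 := P.ang_le_of_mem ha hp hpv
      rw [← h3] at h4
      have := P.ang_zero_of_eq ha hp hq hpv hqv (le_antisymm h4 hf)
      rw [this] at hang
      exact lt_irrefl _ hang
    · have : P.par (P.ccwD a k) E' = 0 := by
        apply P.par_eq_zero
        intro x hx
        obtain ⟨t, ht, rfl⟩ := P.mem_ccwD.1 hx
        have ht' : P.tail (P.rot^[t+1] a) = v := by rw [P.tail_iterate_rot, ha]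
        rw [h2]
        refine ⟨?_, ?_⟩
        · intro h
          have h5 : P.rot^[t] a = P.rot^[k] a := by
            have h6 : P.rot^[t+1] a = P.rot (P.rot^[k] a) := by
              show _ = P.inv (P.prev _)
              rw [← h, P.inv_inv]
            have := congrArg P.cw h6
            rwa [Function.iterate_succ_apply', P.cw_rot, P.cw_rot] at this
          have := P.iterate_rot_inj' ha (i := t) (j := k) (by omega) (by omega) h5
          omega
        · intro h
          have h7 := P.inv_injective h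
          have : P.tail (P.prev (P.rot^[k] a)) = v := by rw [← h7]; exact ht'
          exact P.tail_ne_prev _ (htl.trans this.symm)
      rw [this] at hpar
      exact absurd hpar (by decide)

/-- [QG-F2c] trimming a clockwise fan -/
theorem cw_node (ha : P.tail a = v) (hk : 1 ≤ k) (hkd : k ≤ P.deg v) (hG : P.SF G a)
    (hG' : P.SF G' (P.cw^[k] a))
    (hp : p ∈ P.tri a) (hq : q ∈ P.tri (P.cw^[k] a)) (hpv : p ≠ P.pos v) (hqv : q ≠ P.pos v)
    (hang : 0 < ∠ p (P.pos v) q)
    (hfull : k = P.deg v → ∠ p (P.pos v) (P.B a) ≤ ∠ q (P.pos v) (P.B a))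
    (hpi : Real.pi ≤ P.fang v p (P.cwD a k) q)
    (hE : P.EndOK v p G E) (hE' : P.EndOK v q G' E') :
    ∃ W', (open Classical in CwFan P v p q
        (if ¬ P.NV p ∧ P.par (P.cwD a k) E = 1 then P.inv E else G)
        (if ¬ P.NV q ∧ P.par (P.cwD a k) E' = 1 then P.inv E' else G') W') ∧
      Real.pi ≤ P.fang v p W' q ∧
      ∀ e, P.par W' e = P.par (P.cwD a k) e +
        (open Classical in if ¬ P.NV p ∧ P.par (P.cwD a k) E = 1 then P.par [E] e else 0) +
        (open Classical in if ¬ P.NV q ∧ P.par (P.cwD a k) E' = 1 then P.par [E'] e else 0) := by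
  have F := P.fan_inner_cw ha hk hp hq hpv hqv hpi
  have c1 := cw_first ha hk hkd hG hp hq hpv hqv hang hfull hE
  have c2 := cw_last ha hk hkd hG' hp hq hpv hqv hang hfull hE'
  have two : ∀ x : ZMod 2, x + x = 0 := by decide
  rcases c1 with ⟨d1, n1⟩ | ⟨d1, rfl, rfl⟩
  · rcases c2 with ⟨d2, n2⟩ | ⟨d2, rfl, rfl⟩
    · refine ⟨P.cwD a k, ?_, hpi, fun e => ?_⟩
      · rw [if_neg d1, if_neg d2]
        exact ⟨a, k, ha, hk, hkd, rfl, hG, hG', hp, hq, n1, n2, hfull⟩
      · rw [if_neg d1, if_neg d2, add_zero, add_zero]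
    · -- last crossing deleted
      have hk2 : 2 ≤ k := by
        by_contra h
        have hk1 : k = 1 := by omega
        subst hk1
        exact (F.1 rfl).2 (P.B_mem _)
      obtain ⟨n, rfl⟩ : ∃ n, k = n + 1 := ⟨k - 1, by omega⟩
      have hn : n + 1 - 1 = n := rfl
      rw [hn] at d2 hqv hang hfull hpi hE' F hq ⊢
      have hW : P.cwD a (n + 1) = P.cwD a n ++ [P.cw^[n] a] := by rw [P.cwD_add]; rfl
      have htn : P.tail (P.cw^[n] a) = v := by rw [P.tail_iterate_cw, ha]
      refine ⟨P.cwD a n, ?_, ?_, fun e => ?_⟩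
      · rw [if_neg d1, if_pos d2, P.inv_inv]
        refine ⟨a, n, ha, by omega, by omega, rfl, hG, P.SF_refl _, hp,
          P.seg_sub_tri _ (P.B_mem _), n1, ?_, fun h => absurd h (by omega)⟩
        obtain ⟨l, rfl⟩ : ∃ l, n = l + 1 := ⟨n - 1, by omega⟩
        have := P.B_not_mem_rot (P.cw^[l+1] a)
        have e0 : P.rot (P.cw^[l+1] a) = P.cw^[l] a := by
          rw [Function.iterate_succ_apply', P.rot_cw]
        rw [e0] at this
        exact this
      · rw [hW, P.fang_append hqv (P.far_of_tail htn)] at hpi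
        exact hpi
      · rw [if_neg d1, if_pos d2, add_zero, P.par_inv_singleton, hW, P.par_append, add_assoc,
          two, add_zero]
  · rcases c2 with ⟨d2, n2⟩ | ⟨d2, rfl, rfl⟩
    · -- first crossing deleted
      have hk2 : 2 ≤ k := by
        by_contra h
        have hk1 : k = 1 := by omega
        subst hk1
        exact (F.1 rfl).1 (P.B_mem _)
      obtain ⟨n, rfl⟩ : ∃ n, k = n + 1 := ⟨k - 1, by omega⟩
      have hW : P.cwD E (n + 1) = E :: P.cwD (P.cw E) n := rfl
      refine ⟨P.cwD (P.cw E) n, ?_, ?_, fun e => ?_⟩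
      · rw [if_pos d1, if_neg d2]
        refine ⟨P.cw E, n, by rw [P.tail_cw, ha], by omega, by omega, rfl, P.SF_nxt _, hG', ?_,
          hq, ?_, ?_, fun h => absurd h (by omega)⟩
        · have h0 : P.B E ∈ P.seg (P.inv E) := by rw [P.seg_inv]; exact P.B_mem _
          exact P.seg_sub_tri' (P.SF_symm (P.SF_nxt _)) h0
        · have := P.B_rot_not_mem (P.cw E)
          rwa [P.rot_cw] at this
        · obtain ⟨l, rfl⟩ : ∃ l, n = l + 1 := ⟨n - 1, by omega⟩
          exact n2
      · rw [hW, P.fang_cons hpv (P.far_of_tail ha)] at hpi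
        exact hpi
      · rw [if_pos d1, if_neg d2, add_zero, hW]
        have : P.par (E :: P.cwD (P.cw E) n) e = P.par [E] e + P.par (P.cwD (P.cw E) n) e :=
          P.par_append [E] _ e
        rw [this]
        linear_combination (-1 : ZMod 2) * two (P.par [E] e)
    · -- both deleted
      have hk3 : 3 ≤ k := by
        by_contra h
        have hk1 : k = 1 ∨ k = 2 := by omega
        rcases hk1 with hk1 | hk1
        · subst hk1
          exact (F.1 rfl).1 (P.B_mem _)
        · subst hk1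
          exact (F.2 rfl) ⟨P.B_mem _, P.B_mem _⟩
      obtain ⟨n, rfl⟩ : ∃ n, k = n + 1 + 1 := ⟨k - 2, by omega⟩
      have hn : n + 1 + 1 - 1 = n + 1 := rfl
      rw [hn] at d2 hqv hang hfull hpi hE' F hq ⊢
      have hW : P.cwD E (n + 1 + 1) = E :: (P.cwD (P.cw E) n ++ [P.cw^[n+1] E]) := by
        show E :: P.cwD (P.cw E) (n+1) = _
        rw [P.cwD_add]; rfl
      have htn : P.tail (P.cw^[n+1] E) = v := by rw [P.tail_iterate_cw, ha]
      refine ⟨P.cwD (P.cw E) n, ?_, ?_, fun e => ?_⟩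
      · rw [if_pos d1, if_pos d2, P.inv_inv]
        refine ⟨P.cw E, n, by rw [P.tail_cw, ha], by omega, by omega, rfl, P.SF_nxt _,
          P.SF_refl _, ?_, P.seg_sub_tri _ (P.B_mem _), ?_, ?_, fun h => absurd h (by omega)⟩
        · have h0 : P.B E ∈ P.seg (P.inv E) := by rw [P.seg_inv]; exact P.B_mem _
          exact P.seg_sub_tri' (P.SF_symm (P.SF_nxt _)) h0
        · have := P.B_rot_not_mem (P.cw E)
          rwa [P.rot_cw] at this
        · obtain ⟨l, rfl⟩ : ∃ l, n = l + 1 := ⟨n - 1, by omega⟩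
          have := P.B_not_mem_rot (P.cw^[l+1+1] E)
          rw [Function.iterate_succ_apply', P.rot_cw] at this
          rw [Function.iterate_succ_apply'] 
          exact this
      · rw [hW, P.fang_cons hpv (P.far_of_tail ha), P.fang_append hqv (P.far_of_tail htn)] at hpi
        exact hpi
      · rw [if_pos d1, if_pos d2, P.par_inv_singleton, hW]
        have : P.par (E :: (P.cwD (P.cw E) n ++ [P.cw^[n+1] E])) e =
            P.par [E] e + (P.par (P.cwD (P.cw E) n) e + P.par [P.cw^[n+1] E] e) := by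
          rw [← P.par_append]
          exact P.par_append [E] _ e
        rw [this]
        linear_combination (-1 : ZMod 2) * two (P.par [E] e) +
          (-1 : ZMod 2) * two (P.par [P.cw^[n+1] E] e)

theorem B_rot_mem_prev (a : P.D) : P.B (P.rot a) ∈ P.seg (P.prev a) := by
  have h : P.seg (P.rot a) = P.seg (P.prev a) := P.seg_inv (P.prev a)
  rw [← h]; exact P.B_mem _

theorem B_rot_eq_A_prev (a : P.D) : P.A (P.prev a) = P.B (P.rot a) := by
  show P.pos (P.tail (P.prev a)) = P.pos (P.head (P.rot a))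
  rw [P.head_rot]

theorem inv_rot (a : P.D) : P.inv (P.rot a) = P.prev a := P.inv_inv _

/-- [QG-F2c] trimming a counterclockwise fan -/
theorem ccw_node (ha : P.tail a = v) (hk : 1 ≤ k) (hkd : k ≤ P.deg v) (hG : P.SF G a)
    (hG' : P.SF G' (P.rot^[k] a))
    (hp : p ∈ P.tri a) (hq : q ∈ P.tri (P.rot^[k] a)) (hpv : p ≠ P.pos v) (hqv : q ≠ P.pos v)
    (hang : 0 < ∠ p (P.pos v) q)
    (hfull : k = P.deg v → ∠ q (P.pos v) (P.B a) ≤ ∠ p (P.pos v) (P.B a))
    (hpi : Real.pi ≤ P.fang v p (P.ccwD a k) q)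
    (hE : P.EndOK v p G E) (hE' : P.EndOK v q G' E') :
    ∃ W', (open Classical in CcwFan P v p q
        (if ¬ P.NV p ∧ P.par (P.ccwD a k) E = 1 then P.inv E else G)
        (if ¬ P.NV q ∧ P.par (P.ccwD a k) E' = 1 then P.inv E' else G') W') ∧
      Real.pi ≤ P.fang v p W' q ∧
      ∀ e, P.par W' e = P.par (P.ccwD a k) e +
        (open Classical in if ¬ P.NV p ∧ P.par (P.ccwD a k) E = 1 then P.par [E] e else 0) +
        (open Classical in if ¬ P.NV q ∧ P.par (P.ccwD a k) E' = 1 then P.par [E'] e else 0) := by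
  have F := P.fan_inner_ccw ha hk hp hq hpv hqv hpi
  have c1 := ccw_first ha hk hkd hG hp hq hpv hqv hang hfull hE
  have c2 := ccw_last ha hk hkd hG' hp hq hpv hqv hang hfull hE'
  have two : ∀ x : ZMod 2, x + x = 0 := by decide
  have hW2 : ∀ (b : P.D) (n : ℕ), P.ccwD b (n + 1) = P.ccwD b n ++ [P.inv (P.rot^[n+1] b)] := by
    intro b n
    rw [P.ccwD_add]
    show _ ++ [P.prev (P.rot^[n] b)] = _
    rw [Function.iterate_succ_apply', inv_rot]
  rcases c1 with ⟨d1, n1⟩ | ⟨d1, rfl, rfl⟩
  · rcases c2 with ⟨d2, n2⟩ | ⟨d2, rfl, rfl⟩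
    · refine ⟨P.ccwD a k, ?_, hpi, fun e => ?_⟩
      · rw [if_neg d1, if_neg d2]
        exact ⟨a, k, ha, hk, hkd, rfl, hG, hG', hp, hq, n1, n2, hfull⟩
      · rw [if_neg d1, if_neg d2, add_zero, add_zero]
    · -- last crossing deleted
      have hk2 : 2 ≤ k := by
        by_contra h
        have hk1 : k = 1 := by omega
        subst hk1
        exact (F.1 rfl).2 (P.B_mem _)
      obtain ⟨n, rfl⟩ : ∃ n, k = n + 1 := ⟨k - 1, by omega⟩
      have hfar : P.far v (P.inv (P.rot^[n+1] a)) = P.B (P.rot^[n+1] a) := by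
        rw [P.far_of_head]
        · rfl
        · rw [P.tail_eq_head_inv, P.tail_iterate_rot, ha]
      have hx : P.rot^[n+1] a = P.rot (P.rot^[n] a) := Function.iterate_succ_apply' _ _ _
      refine ⟨P.ccwD a n, ?_, ?_, fun e => ?_⟩
      · rw [if_neg d1, if_pos d2]
        refine ⟨a, n, ha, by omega, by omega, rfl, hG, ?_, hp, ?_, n1, ?_,
          fun h => absurd h (by omega)⟩
        · rw [hx, inv_rot]; exact P.SF_symm (P.SF_prev _)
        · rw [hx]; exact P.seg_sub_tri' (P.SF_prev _) (B_rot_mem_prev _)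
        · rw [hx]; exact P.B_rot_not_mem _
      · rw [hW2, P.fang_append hqv hfar] at hpi
        exact hpi
      · rw [if_neg d1, if_pos d2, add_zero, hW2, P.par_append, P.par_inv_singleton, add_assoc,
          two, add_zero]
  · rcases c2 with ⟨d2, n2⟩ | ⟨d2, rfl, rfl⟩
    · -- first crossing deleted
      have hk2 : 2 ≤ k := by
        by_contra h
        have hk1 : k = 1 := by omega
        subst hk1
        exact (F.1 rfl).1 (P.B_mem _)
      obtain ⟨n, rfl⟩ : ∃ n, k = n + 1 := ⟨k - 1, by omega⟩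
      have hfar : P.far v (P.prev a) = P.B (P.rot a) := by
        rw [P.far_of_head (by rw [P.head_prev, ha]), B_rot_eq_A_prev]
      have hW : P.ccwD a (n + 1) = P.prev a :: P.ccwD (P.rot a) n := rfl
      refine ⟨P.ccwD (P.rot a) n, ?_, ?_, fun e => ?_⟩
      · rw [if_pos d1, if_neg d2]
        exact ⟨P.rot a, n, by rw [P.tail_rot, ha], by omega, by omega, rfl, P.SF_refl _, hG',
          P.seg_sub_tri _ (P.B_mem _), hq, P.B_not_mem_rot _, n2, fun h => absurd h (by omega)⟩
      · rw [hW, P.fang_cons hpv hfar] at hpi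
        exact hpi
      · rw [if_pos d1, if_neg d2, add_zero, hW]
        have : P.par (P.prev a :: P.ccwD (P.rot a) n) e =
            P.par [P.prev a] e + P.par (P.ccwD (P.rot a) n) e := P.par_append [P.prev a] _ e
        rw [this]
        linear_combination (-1 : ZMod 2) * two (P.par [P.prev a] e)
    · -- both deleted
      have hk3 : 3 ≤ k := by
        by_contra h
        have hk1 : k = 1 ∨ k = 2 := by omega
        rcases hk1 with hk1 | hk1
        · subst hk1
          exact (F.1 rfl).1 (P.B_mem _)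
        · subst hk1
          exact (F.2 rfl) ⟨P.B_mem _, P.B_mem _⟩
      obtain ⟨n, rfl⟩ : ∃ n, k = n + 1 + 1 := ⟨k - 2, by omega⟩
      have hfar1 : P.far v (P.prev a) = P.B (P.rot a) := by
        rw [P.far_of_head (by rw [P.head_prev, ha]), B_rot_eq_A_prev]
      have hfar : P.far v (P.inv (P.rot^[n+1+1] a)) = P.B (P.rot^[n+1+1] a) := by
        rw [P.far_of_head]
        · rfl
        · rw [P.tail_eq_head_inv, P.tail_iterate_rot, ha]
      have hx : P.rot^[n+1+1] a = P.rot (P.rot^[n+1] a) := Function.iterate_succ_apply' _ _ _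
      have hW : P.ccwD a (n + 1 + 1) =
          P.prev a :: (P.ccwD (P.rot a) n ++ [P.inv (P.rot^[n+1+1] a)]) := by
        show P.prev a :: P.ccwD (P.rot a) (n + 1) = _
        rw [hW2]; rfl
      refine ⟨P.ccwD (P.rot a) n, ?_, ?_, fun e => ?_⟩
      · rw [if_pos d1, if_pos d2]
        refine ⟨P.rot a, n, by rw [P.tail_rot, ha], by omega, by omega, rfl, P.SF_refl _, ?_,
          P.seg_sub_tri _ (P.B_mem _), ?_, P.B_not_mem_rot _, ?_, fun h => absurd h (by omega)⟩
        · show P.SF _ (P.rot^[n+1] a)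
          rw [hx, inv_rot]; exact P.SF_symm (P.SF_prev _)
        · show _ ∈ P.tri (P.rot^[n+1] a)
          rw [hx]; exact P.seg_sub_tri' (P.SF_prev _) (B_rot_mem_prev _)
        · show _ ∉ P.seg (P.rot^[n+1] a)
          rw [hx]; exact P.B_rot_not_mem _
      · rw [hW, P.fang_cons hpv hfar1, P.fang_append hqv hfar] at hpi
        exact hpi
      · rw [if_pos d1, if_pos d2, hW]
        have : P.par (P.prev a :: (P.ccwD (P.rot a) n ++ [P.inv (P.rot^[n+1+1] a)])) e =
            P.par [P.prev a] e + (P.par (P.ccwD (P.rot a) n) e + P.par [P.rot^[n+1+1] a] e) := by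
          rw [← P.par_inv_singleton (P.rot^[n+1+1] a), ← P.par_append]
          exact P.par_append [P.prev a] _ e
        rw [this]
        linear_combination (-1 : ZMod 2) * two (P.par [P.prev a] e) +
          (-1 : ZMod 2) * two (P.par [P.rot^[n+1+1] a] e)

end

end Poly

end QG6b
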