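import Pool.Agent.Lib_MP_6b5565.F1a
import Pool.Agent.Lib_MP_6b5565.Fan

/-! [QG-F2d] -/

namespace QG6b

open EuclideanGeometry

private theorem f2d_angList_append (z : E3) (L : List E3) (a b : E3) :
    angList z (L ++ [a, b]) = angList z (L ++ [a]) + ∠ a z b := by
  induction L with
  | nil => simp [angList]
  | cons c L ih =>
    cases L with
    | nil => simp [angList]
    | cons d L =>
      simp only [List.cons_append] at ih ⊢
      simp only [angList]
      rw [ih]
      ring

private theorem f2d_angList_reverse (z : E3) (L : List E3) :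
    angList z L.reverse = angList z L := by
  induction L with
  | nil => rfl
  | cons c L ih =>
    cases L with
    | nil => rfl
    | cons d L =>
      have h1 : (c :: d :: L).reverse = L.reverse ++ [d, c] := by simp
      have h2 : (d :: L).reverse = L.reverse ++ [d] := by simp
      rw [h1, f2d_angList_append, ← h2, ih]
      show angList z (d :: L) + ∠ d z c = ∠ c z d + angList z (d :: L)
      rw [EuclideanGeometry.angle_comm d z c]
      ring

private theorem f2d_ccwD_succ (P : Poly) (b : P.D) (k : ℕ) :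
    P.ccwD b (k + 1) = P.ccwD b k ++ [P.prev (P.rot^[k] b)] := by
  induction k generalizing b with
  | zero => rfl
  | succ k ih =>
    show P.prev b :: P.ccwD (P.rot b) (k + 1) = _
    rw [ih (P.rot b), Function.iterate_succ_apply]
    rfl

private theorem f2d_cwD_succ (P : Poly) (b : P.D) (k : ℕ) :
    P.cwD b (k + 1) = P.cwD b k ++ [P.cw^[k] b] := by
  induction k generalizing b with
  | zero => rfl
  | succ k ih =>
    show b :: P.cwD (P.cw b) (k + 1) = _
    rw [ih (P.cw b), Function.iterate_succ_apply]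
    rfl

private theorem f2d_rot_cw (P : Poly) (a : P.D) (k : ℕ) : P.rot^[k] (P.cw^[k] a) = a := by
  have h1 : Function.LeftInverse P.rot P.cw := P.rot_cw
  exact (h1.iterate k) a

private theorem f2d_cw_rot (P : Poly) (a : P.D) (k : ℕ) : P.cw^[k] (P.rot^[k] a) = a := by
  have h1 : Function.LeftInverse P.cw P.rot := P.cw_rot
  exact (h1.iterate k) a

private theorem f2d_rev_cwD (P : Poly) (a : P.D) (k : ℕ) :
    ((P.cwD a k).map P.inv).reverse = P.ccwD (P.cw^[k] a) k := by
  induction k generalizing a with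
  | zero => rfl
  | succ k ih =>
    rw [f2d_ccwD_succ]
    show ((a :: P.cwD (P.cw a) k).map P.inv).reverse = _
    rw [List.map_cons, List.reverse_cons, ih (P.cw a), Function.iterate_succ_apply, f2d_rot_cw]
    have h1 : P.prev (P.cw a) = P.inv a := P.prev_nxt (P.inv a)
    rw [h1]

private theorem f2d_rev_ccwD (P : Poly) (a : P.D) (k : ℕ) :
    ((P.ccwD a k).map P.inv).reverse = P.cwD (P.rot^[k] a) k := by
  induction k generalizing a with
  | zero => rfl
  | succ k ih =>
    rw [f2d_cwD_succ]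
    show ((P.prev a :: P.ccwD (P.rot a) k).map P.inv).reverse = _
    rw [List.map_cons, List.reverse_cons, ih (P.rot a), Function.iterate_succ_apply, f2d_cw_rot]
    rfl

private theorem f2d_tail_cw (P : Poly) (a : P.D) (k : ℕ) : P.tail (P.cw^[k] a) = P.tail a := by
  induction k with
  | zero => rfl
  | succ k ih => rw [Function.iterate_succ_apply', P.tail_cw, ih]

private theorem f2d_tail_rot (P : Poly) (a : P.D) (k : ℕ) : P.tail (P.rot^[k] a) = P.tail a := by
  induction k with
  | zero => rfl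
  | succ k ih => rw [Function.iterate_succ_apply', P.tail_rot, ih]

private theorem f2d_deg_rot (P : Poly) {a : P.D} {v : P.V} {k : ℕ} (ha : P.tail a = v)
    (hk : k = P.deg v) : P.rot^[k] a = a := by
  subst ha
  rw [hk]
  exact P.iterate_rot_deg a

private theorem f2d_deg_cw (P : Poly) {a : P.D} {v : P.V} {k : ℕ} (ha : P.tail a = v)
    (hk : k = P.deg v) : P.cw^[k] a = a := by
  have h1 := f2d_cw_rot P a k
  rw [f2d_deg_rot P ha hk] at h1
  exact h1

private theorem f2d_rev_cw {P : Poly} {v : P.V} {p q : E3} {G G' : P.D} {W : List P.D}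
    (h : CwFan P v p q G G' W) : CcwFan P v q p G' G ((W.map P.inv).reverse) := by
  obtain ⟨a, k, ht, h1, h2, hW, hG, hG', hp, hq, hps, hqs, hk⟩ := h
  refine ⟨P.cw^[k] a, k, ?_, h1, h2, ?_, hG', ?_, hq, ?_, ?_, ?_, ?_⟩
  · rw [f2d_tail_cw, ht]
  · rw [hW, f2d_rev_cwD]
  · rw [f2d_rot_cw]; exact hG
  · rw [f2d_rot_cw]; exact hp
  · obtain ⟨l, rfl⟩ : ∃ l, k = l + 1 := ⟨k - 1, by omega⟩
    rw [Function.iterate_succ_apply', P.rot_cw]
    exact hqs
  · rw [f2d_rot_cw]; exact hps
  · intro hkd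
    rw [f2d_deg_cw P ht hkd]
    exact hk hkd

private theorem f2d_rev_ccw {P : Poly} {v : P.V} {p q : E3} {G G' : P.D} {W : List P.D}
    (h : CcwFan P v p q G G' W) : CwFan P v q p G' G ((W.map P.inv).reverse) := by
  obtain ⟨a, k, ht, h1, h2, hW, hG, hG', hp, hq, hps, hqs, hk⟩ := h
  refine ⟨P.rot^[k] a, k, ?_, h1, h2, ?_, hG', ?_, hq, ?_, hqs, ?_, ?_⟩
  · rw [f2d_tail_rot, ht]
  · rw [hW, f2d_rev_ccwD]
  · rw [f2d_cw_rot]; exact hG
  · rw [f2d_cw_rot]; exact hp
  · obtain ⟨l, rfl⟩ : ∃ l, k = l + 1 := ⟨k - 1, by omega⟩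
    rw [Function.iterate_succ_apply, Nat.add_sub_cancel, f2d_cw_rot]
    exact hps
  · intro hkd
    rw [f2d_deg_rot P ht hkd]
    exact hk hkd

private theorem f2d_far_inv (P : Poly) {v : P.V} {e : P.D}
    (h : P.tail e = v ∨ P.head e = v) : P.far v (P.inv e) = P.far v e := by
  unfold Poly.far
  have h1 : P.tail (P.inv e) = P.head e := rfl
  have h2 : P.head (P.inv e) = P.tail e := P.tail_eq_head_inv e
  have h3 := P.tail_ne_head e
  rcases h with h | h
  · have h4 : ¬ P.tail (P.inv e) = v := by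
      rw [h1, ← h]
      exact fun h5 => h3 h5.symm
    rw [if_neg h4, if_pos h]
    rfl
  · have h4 : ¬ P.tail e = v := by
      rw [← h]
      exact h3
    rw [if_pos (h1.trans h), if_neg h4]
    show P.pos (P.head (P.inv e)) = P.pos (P.tail e)
    rw [h2]

private theorem f2d_fang (P : Poly) {v : P.V} {p q : E3} {W : List P.D}
    (h : ∀ e ∈ W, P.tail e = v ∨ P.head e = v) :
    P.fang v q ((W.map P.inv).reverse) p = P.fang v p W q := by
  unfold Poly.fang
  rw [← f2d_angList_reverse (P.pos v) (p :: (W.map (P.far v) ++ [q]))]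
  congr 1
  rw [List.reverse_cons, List.reverse_append, List.map_reverse, List.map_map]
  have h1 : W.map (P.far v ∘ P.inv) = W.map (P.far v) :=
    List.map_congr_left (fun e he => f2d_far_inv P (h e he))
  rw [h1]
  rfl

private theorem f2d_mem_cw {P : Poly} {v : P.V} {p q : E3} {G G' : P.D} {W : List P.D}
    (h : CwFan P v p q G G' W) : ∀ e ∈ W, P.tail e = v ∨ P.head e = v := by
  obtain ⟨a, k, ht, h1, h2, hW, -, -, -, -, -, -, hk⟩ := h
  exact Poly.IsFan.mem P ht (Or.inr (Or.inl ⟨k, h1, h2, hW, rfl, hk⟩) :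
    P.IsFan v p q a W (P.cw^[k] a))

private theorem f2d_mem_ccw {P : Poly} {v : P.V} {p q : E3} {G G' : P.D} {W : List P.D}
    (h : CcwFan P v p q G G' W) : ∀ e ∈ W, P.tail e = v ∨ P.head e = v := by
  obtain ⟨a, k, ht, h1, h2, hW, -, -, -, -, -, -, hk⟩ := h
  exact Poly.IsFan.mem P ht (Or.inr (Or.inr ⟨k, h1, h2, hW, rfl, hk⟩) :
    P.IsFan v p q a W (P.rot^[k] a))

private theorem f2d_par (P : Poly) (W : List P.D) (e : P.D) :
    P.par ((W.map P.inv).reverse) e = P.par W e := by
  have h1 : P.par ((W.map P.inv).reverse) e = P.par (W.map P.inv) e := by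
    unfold Poly.par
    rw [List.countP_reverse]
  rw [h1, P.par_map_inv]

namespace Cyc

variable {P : Poly} {m : ℕ} [NeZero m] {C : Cyc P m}

/-- the reversed route -/
private def f2dRev (ρ : Route C) : Route C.rev where
  W := fun j => ((ρ.W (-j)).map P.inv).reverse
  G := fun j => ρ.G (-j - 1)
  sense := fun j => !ρ.sense (-j)
  vtx := fun j => ρ.vtx (-j)
  hvtx := fun j hj => ρ.hvtx (-j) hj
  W_ne := by intro j; simp [ρ.W_ne]
  walk := by
    intro j
    have h := P.DWalk_reverse (ρ.walk (-j))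
    have e : -(j - 1) - 1 = -j := by ring
    rw [e]
    exact h
  inG := by
    intro j
    have h := ρ.inG (-j - 1)
    have e : -j - 1 + 1 = -j := by ring
    have e' : -(j + 1) = -j - 1 := by ring
    rw [e] at h
    refine ⟨h.2, ?_⟩
    show C.y (-(j + 1)) ∈ _
    rw [e']
    exact h.1
  nv := by
    intro j hj
    show ((ρ.W (-j)).map P.inv).reverse = ((C.R (-j)).map P.inv).reverse
    rw [ρ.nv (-j) hj]
  cw := by
    intro j hj hs
    have hs' : ρ.sense (-j) = false := by simpa using hs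
    have h := f2d_rev_ccw (ρ.ccw (-j) hj hs')
    have e : -(j - 1) = -j + 1 := by ring
    have e' : -(j + 1) = -j - 1 := by ring
    have e'' : -(j - 1) - 1 = -j := by ring
    show CwFan P (ρ.vtx (-j)) (C.y (-(j - 1))) (C.y (-(j + 1))) (ρ.G (-(j - 1) - 1)) (ρ.G (-j - 1)) _
    rw [e'', e, e']
    exact h
  ccw := by
    intro j hj hs
    have hs' : ρ.sense (-j) = true := by simpa using hs
    have h := f2d_rev_cw (ρ.cw (-j) hj hs')
    have e : -(j - 1) = -j + 1 := by ring
    have e' : -(j + 1) = -j - 1 := by ring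
    have e'' : -(j - 1) - 1 = -j := by ring
    show CcwFan P (ρ.vtx (-j)) (C.y (-(j - 1))) (C.y (-(j + 1))) (ρ.G (-(j - 1) - 1)) (ρ.G (-j - 1)) _
    rw [e'', e, e']
    exact h

/-- [QG-F2d] the reversed route: sense reversed, same angles, same parity -/
theorem exists_route_rev (ρ : Route C) : ∃ ρ' : Route C.rev, (∀ j, ρ'.sense j = !ρ.sense (-j)) ∧
    (∀ j, ¬ P.NV (C.y (-j)) → ρ'.ang j = ρ.ang (-j)) ∧ ρ'.par = ρ.par := by
  refine ⟨f2dRev ρ, fun j => rfl, ?_, ?_⟩
  · intro j hj
    have hmem : ∀ e ∈ ρ.W (-j), P.tail e = ρ.vtx (-j) ∨ P.head e = ρ.vtx (-j) := by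
      cases hs : ρ.sense (-j) with
      | true => exact f2d_mem_cw (ρ.cw (-j) hj hs)
      | false => exact f2d_mem_ccw (ρ.ccw (-j) hj hs)
    have e : -(j - 1) = -j + 1 := by ring
    have e' : -(j + 1) = -j - 1 := by ring
    show P.fang (ρ.vtx (-j)) (C.y (-(j - 1))) (((ρ.W (-j)).map P.inv).reverse) (C.y (-(j + 1)))
      = P.fang (ρ.vtx (-j)) (C.y (-j - 1)) (ρ.W (-j)) (C.y (-j + 1))
    rw [e, e']
    exact f2d_fang P hmem
  · funext e
    show ∑ j, P.par (((ρ.W (-j)).map P.inv).reverse) e = ∑ j, P.par (ρ.W j) e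
    have h1 : ∀ j : ZMod m, P.par (((ρ.W (-j)).map P.inv).reverse) e = P.par (ρ.W (-j)) e :=
      fun j => f2d_par P _ e
    rw [Finset.sum_congr rfl (fun j _ => h1 j)]
    exact Equiv.sum_comp (Equiv.neg (ZMod m)) (fun j => P.par (ρ.W j) e)

end Cyc

end QG6b
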