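import Pool.Agent.Lib_MP_6b5565.C3a
import Pool.Agent.Lib_MP_6b5565.C3b
import Pool.Agent.Lib_MP_6b5565.C3c
import Pool.Agent.Lib_MP_6b5565.C4a
import Pool.Agent.Lib_MP_6b5565.C4b
import Pool.Agent.Lib_MP_6b5565.C5a
import Pool.Agent.Lib_MP_6b5565.C5b
import Pool.Agent.Lib_MP_6b5565.C5c
import Pool.Agent.Lib_MP_6b5565.C6a
import Pool.Agent.Lib_MP_6b5565.C6b
import Pool.Agent.Lib_MP_6b5565.C6c
import Pool.Agent.Lib_MP_6b5565.C7a
import Pool.Agent.Lib_MP_6b5565.C7b
import Pool.Agent.Lib_MP_6b5565.C7c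
import Pool.Agent.Lib_MP_6b5565.C8

/-! local properties of a shortest balanced track -/

namespace QG6b

open EuclideanGeometry

namespace Cyc

variable {P : Poly} {m : ℕ} [NeZero m] (C : Cyc P m)

variable {C}

theorem BestC.nice (h : C.BestC) (h2 : 2 ≤ m) : C.Nice where
  two := h2
  single := h.single h2
  along := h.along h2
  straight := h.straight h2
  uniq := h.uniq h2
  opt := h.opt h2
  double := h.double h2
  bal := h.bal
  push := fun j v hv W hW hWv ha col hc => h.push h2 j v hv W hW hWv ha col hc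
  min := h.min
  cross := h.cross h2

end Cyc

end QG6b
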