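import Pool.Agent.Lib_MP_6b5565.D2b
import Pool.Agent.Lib_MP_6b5565.D2c
import Pool.Agent.Lib_MP_6b5565.D2d
import Pool.Agent.Lib_MP_6b5565.D2e

/-! [QG-D2] a nice curve is simple or doubled -/

namespace QG6b

open EuclideanGeometry

namespace Cyc

variable {P : Poly} {m : ℕ} [NeZero m] {C : Cyc P m}

theorem Nice.simple_or_doubled (h : C.Nice) :
    (C.Simple ∧ 3 ≤ m ∧ Function.Injective C.y) ∨ C.Doubled := by
  by_cases hm : m = 2
  · exact Or.inr (h.doubled_of_two hm)
  have h3 : 3 ≤ m := by have := h.two; omega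
  by_cases hinj : Function.Injective C.y
  · left
    refine ⟨?_, h3, hinj⟩
    intro j k hjk p hj hk
    by_cases hv : ∃ v, p = P.pos v
    · obtain ⟨v, hv⟩ := hv
      exact h.meet_vertex h3 hinj hjk hj hk hv
    by_cases he : ∃ e, p ∈ P.seg e
    · obtain ⟨e, he⟩ := he
      exact h.meet_edge h3 hinj hjk hj hk (P.oseg_of_seg he (fun v hv' => hv ⟨v, hv'⟩))
    · exact (h.meet_face h3 hinj hjk hj hk (fun e he' => he ⟨e, he'⟩)).elim
  · right
    simp only [Function.Injective, not_forall] at hinj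
    obtain ⟨j, k, hy, hjk⟩ := hinj
    refine h.doubled_of_double j k hjk ?_ hy
    intro v hv
    exact hjk (h.uniq j k v hv (hy ▸ hv))

end Cyc

end QG6b
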