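import Pool.Agent.Lib_MP_6b5565.H6
import Pool.Agent.Lib_MP_6b5565.RouteE
import Pool.Agent.Lib_MP_6b5565.S2
import Pool.Agent.Lib_MP_6b5565.C4b
import Pool.Agent.Lib_MP_6b5565.Local

/-! [QG-Z1] -/

namespace QG6b

open EuclideanGeometry

namespace Cyc

variable {P : Poly} {m : ℕ} [NeZero m] {C : Cyc P m}

/-- a route of a nice curve with a vertex node cannot slide off all vertices -/
private theorem slide_false {C : Cyc P m} (h : C.Nice) {j : ZMod m} (hj : ¬ P.NV (C.y j))
    (ρ : Route C) (hs : ∀ j, ¬ P.NV (C.y j) → ρ.sense j = true)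
    (ha : ∀ j, ¬ P.NV (C.y j) → ρ.ang j = Real.pi) {col : P.V → ZMod 2} (hcol : P.Col ρ.par col)
    (hK : ∀ c, P.K ∅ col c ≤ 2 * Real.pi) : False := by
  obtain ⟨l, hl1, hl2, hl3, hl4, hl5⟩ := ρ.slide h hs ha
  have hg : P.Good l := by
    refine ⟨hl1, hl2, ?_⟩
    rw [hl4, hl5]
    exact ⟨col, hcol, hK⟩
  have h1 := (h.min l hg).2 hl3
  rw [hl5, Finset.card_empty] at h1
  have hv := ρ.hvtx j hj
  have h2 : ρ.vtx j ∈ C.vis := by
    unfold Cyc.vis
    simp only [Finset.mem_filter, Finset.mem_univ, true_and]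
    exact ⟨j, hv⟩
  have := Finset.card_pos.2 ⟨_, h2⟩
  omega

/-- [QG-Z1] a shortest curve visits at most one vertex. Otherwise take the route of
`exists_route_two`, colour `c₀ + 1` at all visited vertices, fan angles `≥ π`. By
`Route.gauss_bonnet` all senses are equal, and `∑ turn = 2π - K ∅ col lam`. Senses `true`: `lam = c₀`,
`∑ turn ≤ 0` and `K ∅ col c₀ = K vis col c₀ ≤ 2π`, so all fan angles are `π` and
`K ∅ col c₀ = 2π`; senses `false`: `lam = c₀ + 1`, `0 ≤ ∑ turn = K ∅ col c₀ - 2π ≤ 0`, same
conclusion. Slide (`Route.slide`, in the second case for the reversed curve, `exists_route_rev`,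
`rev_BestC`): the result is balanced (`2π` and `4π - 2π`), visits no vertex and has the same length:
against `BestC.min`. -/
theorem card_vis_le_one (hb : C.BestC) (h : C.Nice) (hs : C.Simple) (h3 : 3 ≤ m)
    (hi : Function.Injective C.y) : C.vis.card ≤ 1 := by
  by_contra hv
  push Not at hv
  obtain ⟨ρ, col, c₀, hcol, hang, hvis, hK⟩ := exists_route_two h hs h3 hv
  obtain ⟨lam, hl1, hl2, hsum⟩ := ρ.gauss_bonnet h hs h3 hi hcol
  have hc0 : c₀ + 1 ≠ c₀ := by
    intro h'
    exact one_ne_zero (left_eq_add.1 h'.symm)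
  have hc2 : c₀ + 1 + 1 = c₀ := by
    rw [add_assoc, show (1 : ZMod 2) + 1 = 0 from rfl, add_zero]
  have hvt : ∀ j, ¬ P.NV (C.y j) → col (ρ.vtx j) = c₀ + 1 := by
    intro j hj
    apply hvis
    unfold Cyc.vis
    simp only [Finset.mem_filter, Finset.mem_univ, true_and]
    exact ⟨j, ρ.hvtx j hj⟩
  have hKe : P.K ∅ col c₀ = P.K C.vis col c₀ := by
    unfold Poly.K
    congr 1
    ext v
    simp only [Finset.mem_filter, Finset.mem_univ, true_and, Finset.notMem_empty,
      not_false_eq_true]
    constructor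
    · intro h'
      refine ⟨fun hv' => ?_, h'⟩
      rw [hvis v hv'] at h'
      exact hc0 h'
    · exact fun h' => h'.2
  have hK1 : P.K ∅ col c₀ ≤ 2 * Real.pi := hKe ▸ hK
  have htot : P.K ∅ col c₀ + P.K ∅ col (c₀ + 1) = 4 * Real.pi := by
    have := P.K_add' ∅ col c₀
    rw [Finset.sum_empty, add_zero] at this
    exact this
  obtain ⟨v, hv'⟩ : ∃ v, v ∈ C.vis := by
    rw [← Finset.Nonempty, ← Finset.card_pos]
    omega
  obtain ⟨j₀, hj₀⟩ : ∃ j, C.y j = P.pos v := by
    unfold Cyc.vis at hv'
    simpa only [Finset.mem_filter, Finset.mem_univ, true_and] using hv'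
  have hj₀' : ¬ P.NV (C.y j₀) := fun h' => h' v hj₀
  have hlam : lam = c₀ ∨ lam = c₀ + 1 := by
    have : ∀ a b : ZMod 2, a = b ∨ a = b + 1 := by decide
    exact this lam c₀
  -- conclusion: all fan angles are `π` and `K ∅ col c₀ = 2π`
  rcases hlam with rfl | rfl
  · have hsense : ∀ j, ¬ P.NV (C.y j) → ρ.sense j = true := by
      intro j hj
      by_contra h'
      have h'' : ρ.sense j = false := by simpa using h'
      have := hl2 j hj h''
      rw [hvt j hj] at this
      exact hc0 this
    have hle : ∀ j, ρ.turn j ≤ 0 := by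
      intro j
      unfold Route.turn
      split_ifs with h1 h2
      · exact le_refl _
      · linarith [hang j h1]
      · exact absurd (hsense j h1) h2
    have hs0 : ∑ j, ρ.turn j = 0 := by
      apply le_antisymm (Finset.sum_nonpos fun j _ => hle j)
      rw [hsum]
      linarith
    have hz : ∀ j, ρ.turn j = 0 := by
      intro j
      exact (Finset.sum_eq_zero_iff_of_nonpos (fun j _ => hle j)).1 hs0 j (Finset.mem_univ _)
    have hpi : ∀ j, ¬ P.NV (C.y j) → ρ.ang j = Real.pi := by
      intro j hj
      have := hz j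
      unfold Route.turn at this
      rw [if_neg hj, if_pos (hsense j hj)] at this
      linarith
    refine slide_false h hj₀' ρ hsense hpi hcol ?_
    intro c
    rw [hs0] at hsum
    have : ∀ a b : ZMod 2, a = b ∨ a = b + 1 := by decide
    rcases this c lam with rfl | rfl
    · exact hK1
    · linarith
  · have hsense : ∀ j, ¬ P.NV (C.y j) → ρ.sense j = false := by
      intro j hj
      by_contra h'
      have h'' : ρ.sense j = true := by simpa using h'
      have := hl1 j hj h''
      rw [hvt j hj, hc2] at this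
      exact hc0 this
    have hle : ∀ j, 0 ≤ ρ.turn j := by
      intro j
      unfold Route.turn
      split_ifs with h1 h2
      · exact le_refl _
      · rw [hsense j h1] at h2
        exact absurd h2 (by simp)
      · linarith [hang j h1]
    have hs0 : ∑ j, ρ.turn j = 0 := by
      apply le_antisymm _ (Finset.sum_nonneg fun j _ => hle j)
      rw [hsum]
      linarith
    have hz : ∀ j, ρ.turn j = 0 := by
      intro j
      exact (Finset.sum_eq_zero_iff_of_nonneg (fun j _ => hle j)).1 hs0 j (Finset.mem_univ _)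
    have hpi : ∀ j, ¬ P.NV (C.y j) → ρ.ang j = Real.pi := by
      intro j hj
      have := hz j
      unfold Route.turn at this
      rw [if_neg hj, if_neg (by rw [hsense j hj]; simp)] at this
      linarith
    obtain ⟨ρ', h1, h2, h3'⟩ := exists_route_rev ρ
    have hn : C.rev.Nice := (C.rev_BestC hb).nice h.two
    have hj1 : ¬ P.NV (C.rev.y (-j₀)) := by
      show ¬ P.NV (C.y (- -j₀))
      rw [neg_neg]
      exact hj₀'
    refine slide_false hn hj1 ρ' ?_ ?_ (col := col) (by rw [h3']; exact hcol) ?_
    · intro j hj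
      rw [h1 j, hsense (-j) hj]
      rfl
    · intro j hj
      rw [h2 j hj]
      exact hpi (-j) hj
    · intro c
      rw [hs0] at hsum
      have : ∀ a b : ZMod 2, a = b ∨ a = b + 1 := by decide
      rcases this c c₀ with rfl | rfl
      · exact hK1
      · linarith

end Cyc

end QG6b
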