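import Pool.Agent.Lib_MP_6b5565.H6
import Pool.Agent.Lib_MP_6b5565.RouteE
import Pool.Agent.Lib_MP_6b5565.F1c

/-! [QG-Z2] -/

namespace QG6b

open EuclideanGeometry

namespace Cyc

variable {P : Poly} {m : ℕ} [NeZero m] {C : Cyc P m}

private theorem tail_it (P : Poly) (a : P.D) (k : ℕ) : P.tail (P.rot^[k] a) = P.tail a := by
  induction k with
  | zero => rfl
  | succ k ih => rw [Function.iterate_succ_apply', P.tail_rot, ih]

private theorem sum_rot (P : Poly) (a : P.D) :
    ∑ j ∈ Finset.range (P.deg (P.tail a)), P.ang (P.rot^[j] a) = P.tot (P.tail a) := by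
  unfold Poly.tot
  refine Finset.sum_bij (fun j _ => P.rot^[j] a) ?_ ?_ ?_ ?_
  · intro j _
    rw [Finset.mem_filter]
    exact ⟨Finset.mem_univ _, tail_it P a j⟩
  · intro i hi j hj hij
    rw [Finset.mem_range] at hi hj
    exact P.iterate_rot_inj a hi hj hij
  · intro d hd
    rw [Finset.mem_filter] at hd
    obtain ⟨k, hk, hk'⟩ := P.exists_iterate_rot a d hd.2.symm
    exact ⟨k, Finset.mem_range.2 hk, hk'⟩
  · intro j _
    rfl

private theorem sum_split (P : Poly) (a : P.D) : P.ang a +
    ∑ j ∈ Finset.Ico 1 (P.deg (P.tail a)), P.ang (P.rot^[j] a) = P.tot (P.tail a) := by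
  have h3 := P.three_le_deg (P.tail a)
  rw [← sum_rot P a, Finset.range_eq_Ico,
    ← Finset.sum_Ico_consecutive _ (by omega : 0 ≤ 1) (by omega : 1 ≤ P.deg (P.tail a))]
  simp

private theorem side_ccw (P : Poly) {a : P.D} {k : ℕ} {p q : E3} (hk : 1 ≤ k)
    (hk' : k ≤ P.deg (P.tail a)) (hp : p ∈ P.tri a) (hq : q ∈ P.tri (P.rot^[k] a))
    (hpv : p ≠ P.pos (P.tail a)) (hqv : q ≠ P.pos (P.tail a))
    (hf : k = P.deg (P.tail a) → ∠ q (P.pos (P.tail a)) (P.B a) ≤ ∠ p (P.pos (P.tail a)) (P.B a)) :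
    ∃ α, P.Side (P.tail a) p q α ∧ (α = P.fang (P.tail a) p (P.ccwD a k) q ∨
      α = P.tot (P.tail a) - P.fang (P.tail a) p (P.ccwD a k) q) := by
  rcases lt_or_eq_of_le hk' with hlt | heq
  · refine ⟨_, Or.inr ⟨a, k, rfl, hk, hlt, hp, hq, rfl⟩, Or.inl ?_⟩
    rw [P.fang_ccwD rfl k hk]
  · have h1 := hf heq
    have hr : P.rot^[k] a = a := by rw [heq]; exact P.iterate_rot_deg a
    rw [hr] at hq
    refine ⟨_, Or.inl ⟨a, rfl, hp, hq, rfl⟩, Or.inr ?_⟩
    rw [P.fang_ccwD rfl k hk, hr, heq]
    have h2 := sum_split P a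
    have h3 := P.ang_split hp (show p ≠ P.A a from hpv)
    have h4 := P.ang_diff hp (show p ≠ P.A a from hpv) hq (show q ≠ P.A a from hqv)
    have h5 : P.A a = P.pos (P.tail a) := rfl
    rw [h5] at h3 h4
    rw [h4, abs_of_nonneg (by linarith), EuclideanGeometry.angle_comm (P.B a) (P.pos (P.tail a)) q]
    linarith

private theorem side_cw (P : Poly) {a : P.D} {k : ℕ} {p q : E3} (hk : 1 ≤ k)
    (hk' : k ≤ P.deg (P.tail a)) (hp : p ∈ P.tri a) (hq : q ∈ P.tri (P.cw^[k] a))
    (hpv : p ≠ P.pos (P.tail a)) (hqv : q ≠ P.pos (P.tail a))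
    (hf : k = P.deg (P.tail a) → ∠ p (P.pos (P.tail a)) (P.B a) ≤ ∠ q (P.pos (P.tail a)) (P.B a)) :
    ∃ α, P.Side (P.tail a) p q α ∧ (α = P.fang (P.tail a) p (P.cwD a k) q ∨
      α = P.tot (P.tail a) - P.fang (P.tail a) p (P.cwD a k) q) := by
  have h2 := sum_split P a
  have h3 := P.ang_split hp (show p ≠ P.A a from hpv)
  have h5 : P.A a = P.pos (P.tail a) := rfl
  rw [h5] at h3
  have hsum : ∑ j ∈ Finset.Ico 1 k, P.ang (P.cw^[j] a) =
      ∑ j ∈ Finset.Ico (P.deg (P.tail a) + 1 - k) (P.deg (P.tail a)), P.ang (P.rot^[j] a) := by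
    have := Finset.sum_Ico_reflect (fun j => P.ang (P.rot^[j] a)) 1
      (m := k) (n := P.deg (P.tail a)) (by omega)
    rw [Nat.add_sub_cancel] at this
    rw [← this]
    apply Finset.sum_congr rfl
    intro j hj
    rw [Finset.mem_Ico] at hj
    have : P.cw^[j] a = P.rot^[P.deg (P.tail a) - j] a := P.iterate_cw_rot a (by omega)
    rw [this]
  rcases lt_or_eq_of_le hk' with hlt | heq
  · obtain ⟨l, hl⟩ : ∃ l, k + l = P.deg (P.tail a) := ⟨P.deg (P.tail a) - k, by omega⟩
    have hr : P.cw^[k] a = P.rot^[l] a := P.iterate_cw_rot a hl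
    have hr1 : P.cw^[k - 1] a = P.rot (P.rot^[l] a) := by
      rw [← Function.iterate_succ_apply' P.rot l a]
      exact P.iterate_cw_rot a (by omega)
    rw [hr] at hq
    refine ⟨_, Or.inr ⟨a, l, rfl, by omega, by omega, hp, hq, rfl⟩, Or.inr ?_⟩
    rw [P.fang_cwD rfl k hk, hr1, hsum]
    have hAb : P.A (P.rot^[l] a) = P.pos (P.tail a) := by
      unfold Poly.A
      rw [tail_it]
    have h6 := P.ang_split hq (by rw [hAb]; exact hqv)
    rw [hAb] at h6
    have h7 : ∑ j ∈ Finset.Ico 1 (P.deg (P.tail a)), P.ang (P.rot^[j] a) =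
        ∑ j ∈ Finset.Ico 1 l, P.ang (P.rot^[j] a) + P.ang (P.rot^[l] a) +
        ∑ j ∈ Finset.Ico (P.deg (P.tail a) + 1 - k) (P.deg (P.tail a)), P.ang (P.rot^[j] a) := by
      have e1 : P.deg (P.tail a) + 1 - k = l + 1 := by omega
      rw [e1, ← Finset.sum_Ico_succ_top (by omega : 1 ≤ l),
        Finset.sum_Ico_consecutive _ (by omega) (by omega)]
    rw [EuclideanGeometry.angle_comm (P.B (P.rot^[l] a)) (P.pos (P.tail a)) q,
      EuclideanGeometry.angle_comm (P.B (P.rot (P.rot^[l] a))) (P.pos (P.tail a)) q]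
    linarith
  · have h1 := hf heq
    have hr : P.cw^[k] a = a := by
      have : P.cw^[k] a = P.rot^[0] a := P.iterate_cw_rot a (by omega)
      exact this
    have hr1 : P.cw^[k - 1] a = P.rot a := by
      have : P.cw^[k - 1] a = P.rot^[1] a := P.iterate_cw_rot a (by omega)
      exact this
    rw [hr] at hq
    refine ⟨_, Or.inl ⟨a, rfl, hp, hq, rfl⟩, Or.inr ?_⟩
    rw [P.fang_cwD rfl k hk, hr1, hsum, heq]
    have h4 := P.ang_diff hp (show p ≠ P.A a from hpv) hq (show q ≠ P.A a from hqv)
    have h6 := P.ang_split hq (show q ≠ P.A a from hqv)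
    rw [h5] at h4 h6
    have e1 : P.deg (P.tail a) + 1 - P.deg (P.tail a) = 1 := by omega
    rw [h4, abs_of_nonpos (by linarith), e1,
      EuclideanGeometry.angle_comm (P.B (P.rot a)) (P.pos (P.tail a)) q]
    linarith

/-- [QG-Z2] quasigeodesic at the vertex node: one visited vertex `v`, route of `exists_route_one`,
fan angle `A`. Gauss-Bonnet: `K vis col (colour of the region of the fan) = π + A`, so `A ≤ π`, and
`tot v - A = K (other colour) - π ≤ π`. The fan gives `Side v (y (j-1)) (y (j+1)) α` with `α = A`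
(counterclockwise fan with `k < deg v`), `α = tot v - A` (clockwise, `k < deg v`: `fang_cwD`,
`ang_split`, the complementary fan) or `α = ∠` (full fan, `k = deg v`, both neighbours in one
face, `A = tot v - ∠`). -/
theorem quasi_vertex (h : C.Nice) (hs : C.Simple) (h3 : 3 ≤ m) (hi : Function.Injective C.y)
    (hv : C.vis.card = 1) {j : ZMod m} {v : P.V} (hj : C.y j = P.pos v) :
    P.Quasi (C.y (j - 1)) (C.y j) (C.y (j + 1)) := by
  have hjN : ¬ P.NV (C.y j) := fun h' => h' v hj
  obtain ⟨ρ, -⟩ := exists_route_one h hs h3 hv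
  have hvj : ρ.vtx j = v := P.pos_inj ((ρ.hvtx j hjN).symm.trans hj)
  have hvv : v ∈ C.vis := by
    unfold Cyc.vis
    simp only [Finset.mem_filter, Finset.mem_univ, true_and]
    exact ⟨j, hj⟩
  have hvis : C.vis = {v} := by
    obtain ⟨w, hw⟩ := Finset.card_eq_one.1 hv
    rw [hw, Finset.mem_singleton] at hvv
    rw [hw, hvv]
  have hother : ∀ i, i ≠ j → P.NV (C.y i) := by
    intro i hij w hw
    have hw' : w ∈ C.vis := by
      unfold Cyc.vis
      simp only [Finset.mem_filter, Finset.mem_univ, true_and]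
      exact ⟨i, hw⟩
    rw [hvis, Finset.mem_singleton] at hw'
    subst hw'
    exact hij (h.uniq i j w hw hj)
  -- the colouring of the route
  obtain ⟨col, hcol, hK, hcol'⟩ : ∃ col : P.V → ZMod 2, P.Col ρ.par col ∧
      (∀ c, P.K C.vis col c ≤ 2 * Real.pi) ∧ True := by
    obtain ⟨s, hs1, hs2⟩ := ρ.par_diff h
    obtain ⟨c0, hc0, hc1⟩ := h.bal
    rw [hvis, Finset.subset_singleton_iff] at hs1
    rcases hs1 with rfl | rfl
    · refine ⟨c0, ?_, hc1, trivial⟩
      intro d
      rw [hs2 d, Finset.sum_empty, add_zero]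
      exact hc0 d
    · refine ⟨fun u => c0 u + if u = v then 1 else 0, ?_, ?_, trivial⟩
      · intro d
        have h1 := P.Col_add hc0 (P.Col_star v) d
        rw [hs2 d, Finset.sum_singleton]
        exact h1
      · intro c
        refine le_trans (le_of_eq ?_) (hc1 c)
        unfold Poly.K
        congr 1
        ext u
        simp only [Finset.mem_filter, Finset.mem_univ, true_and]
        constructor
        · rintro ⟨h1, h2⟩
          refine ⟨h1, ?_⟩
          rw [hvis, Finset.mem_singleton] at h1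
          rw [if_neg h1, add_zero] at h2
          exact h2
        · rintro ⟨h1, h2⟩
          refine ⟨h1, ?_⟩
          rw [hvis, Finset.mem_singleton] at h1
          rw [if_neg h1, add_zero]
          exact h2
  obtain ⟨lam, hl1, hl2, hsum⟩ := ρ.gauss_bonnet h hs h3 hi hcol
  have hturn : ∑ i, ρ.turn i = ρ.turn j := by
    apply Finset.sum_eq_single_of_mem j (Finset.mem_univ _)
    intro i _ hij
    unfold Route.turn
    rw [if_pos (hother i hij)]
  rw [hturn] at hsum
  have htot : P.K ∅ col lam + P.K ∅ col (lam + 1) = 4 * Real.pi := by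
    have := P.K_add' ∅ col lam
    rw [Finset.sum_empty, add_zero] at this
    exact this
  -- the visited vertex counts for its own colour
  have hK1 : ∀ c, col v ≠ c → P.K ∅ col c ≤ 2 * Real.pi := by
    intro c hc
    refine le_trans (le_of_eq ?_) (hK c)
    unfold Poly.K
    congr 1
    ext u
    simp only [Finset.mem_filter, Finset.mem_univ, true_and, Finset.notMem_empty,
      not_false_eq_true]
    constructor
    · intro h'
      refine ⟨?_, h'⟩
      rw [hvis, Finset.mem_singleton]
      rintro rfl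
      exact hc h'
    · exact fun h' => h'.2
  have hK2 : ∀ c, col v = c → P.K ∅ col c ≤ 2 * Real.pi + P.kap v := by
    intro c hc
    have e1 : P.K ∅ col c = P.K C.vis col c + P.kap v := by
      unfold Poly.K
      rw [add_comm, ← Finset.sum_insert]
      · congr 1
        ext u
        simp only [Finset.mem_filter, Finset.mem_univ, true_and, Finset.notMem_empty,
          not_false_eq_true, Finset.mem_insert]
        constructor
        · intro h'
          by_cases huv : u = v
          · exact Or.inl huv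
          · refine Or.inr ⟨?_, h'⟩
            rw [hvis, Finset.mem_singleton]
            exact huv
        · rintro (rfl | h')
          · exact hc
          · exact h'.2
      · rw [Finset.mem_filter]
        rintro ⟨-, h1, -⟩
        exact h1 hvv
    rw [e1]
    linarith [hK c]
  have hkap : P.kap v = 2 * Real.pi - P.tot v := rfl
  have hlne : lam + 1 ≠ lam := by
    intro h'
    exact one_ne_zero (left_eq_add.1 h'.symm)
  -- the two angle bounds
  have hA : ρ.ang j ≤ Real.pi ∧ P.tot v - ρ.ang j ≤ Real.pi := by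
    unfold Route.turn at hsum
    rw [if_neg hjN] at hsum
    split_ifs at hsum with h1
    · have e1 : col v = lam + 1 := by rw [← hvj]; exact hl1 j hjN h1
      have e2 := hK1 lam (by rw [e1]; exact hlne)
      have e3 := hK2 (lam + 1) e1
      constructor <;> linarith
    · have h1' : ρ.sense j = false := by simpa using h1
      have e1 : col v = lam := by rw [← hvj]; exact hl2 j hjN h1'
      have e2 := hK1 (lam + 1) (by rw [e1]; exact hlne.symm)
      have e3 := hK2 lam e1
      constructor <;> linarith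
  have np : C.y (j - 1) ≠ P.pos v := by
    have := C.ne (j - 1)
    rw [sub_add_cancel] at this
    rw [← hj]
    exact this
  have nq : C.y (j + 1) ≠ P.pos v := by
    rw [← hj]
    exact (C.ne j).symm
  have hang : ρ.ang j = P.fang v (C.y (j - 1)) (ρ.W j) (C.y (j + 1)) := by
    unfold Route.ang
    rw [hvj]
  have key : ∃ α, P.Side v (C.y (j - 1)) (C.y (j + 1)) α ∧
      (α = ρ.ang j ∨ α = P.tot v - ρ.ang j) := by
    rw [hang]
    rcases hsn : ρ.sense j with _ | _
    · obtain ⟨a, k, ha, hk, hk', hW, -, -, hp, hq, -, -, hf⟩ := ρ.ccw j hjN hsn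
      rw [hvj] at ha hk' hf
      subst ha
      rw [hW]
      exact side_ccw P hk hk' hp hq np nq hf
    · obtain ⟨a, k, ha, hk, hk', hW, -, -, hp, hq, -, -, hf⟩ := ρ.cw j hjN hsn
      rw [hvj] at ha hk' hf
      subst ha
      rw [hW]
      exact side_cw P hk hk' hp hq np nq hf
  obtain ⟨α, hS, hα⟩ := key
  refine Or.inr ⟨v, α, hj, hS, ?_, ?_⟩
  · rcases hα with rfl | rfl
    · exact hA.1
    · exact hA.2
  · rcases hα with rfl | rfl
    · exact hA.2
    · linarith [hA.1]

end Cyc

end QG6b
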