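import Pool.Agent.Lib_MP_6b5565.D2f
import Pool.Agent.Lib_MP_6b5565.CyDefs

/-! [QG-Z3] -/

namespace QG6b

open EuclideanGeometry

namespace Cyc

variable {P : Poly} {m : ℕ} [NeZero m] {C : Cyc P m}

/-- [QG-Z3] quasigeodesic at a non-vertex node: straightness (both side sums are `π`) -/
theorem quasi_nv (h : C.Nice) {j : ZMod m} (hj : P.NV (C.y j)) :
    P.Quasi (C.y (j - 1)) (C.y j) (C.y (j + 1)) := by
  obtain ⟨d, hd, hy⟩ := h.single j hj
  obtain ⟨f1, f2⟩ := C.face_single hd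
  have m1 := (C.mem_face (j - 1)).1
  rw [P.tri_SF f1] at m1
  have m2 := (C.mem_face j).2.1
  rw [P.tri_SF f2] at m2
  have hs := h.straight j d hj hd
  have n1 : C.y (j - 1) ≠ C.y j := by
    have := C.ne (j - 1)
    rwa [sub_add_cancel] at this
  have n2 : C.y (j + 1) ≠ C.y j := (C.ne j).symm
  have a1 := P.angle_oseg hy n1
  have a2 := P.angle_oseg hy n2
  refine Or.inl ⟨d, hy, m1, m2, hs.le, ?_⟩
  rw [EuclideanGeometry.angle_comm (P.A d) (C.y j) (C.y (j + 1))]
  rw [EuclideanGeometry.angle_comm (P.B d) (C.y j) (C.y (j + 1))] at hs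
  linarith

end Cyc

end QG6b
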