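import Pool.Agent.Lib_MP_6b5565.D2f
import Pool.Agent.Lib_MP_6b5565.CyDefs

/-! [QG-Z4] -/

namespace QG6b

open EuclideanGeometry

namespace Cyc

variable {P : Poly} {m : ℕ} [NeZero m] {C : Cyc P m}

/-- [QG-Z4] number of nodes: every non-vertex node is inside one of the `|D|/2 = 3 nV - 6` edges -/
theorem card_le (h : C.Nice) (hv : C.vis.card ≤ 1) : m ≤ 3 * P.nV ^ 2 := by
  classical
  have heu : 6 * P.nV = Fintype.card P.D + 12 := P.euler
  have hpos : 2 ≤ P.nV := by omega
  set S : Finset (ZMod m) := Finset.univ.filter (fun j => P.NV (C.y j)) with hS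
  set T : Finset (ZMod m) := Finset.univ.filter (fun j => ¬ P.NV (C.y j)) with hT
  have hm : S.card + T.card = m := by
    rw [hS, hT, Finset.card_filter_add_card_filter_not, Finset.card_univ, ZMod.card]
  have hT1 : T.card ≤ 1 := by
    rw [Finset.card_le_one]
    intro a ha b hb
    rw [hT, Finset.mem_filter] at ha hb
    have ha' : ∃ v, C.y a = P.pos v := by
      have := ha.2
      unfold Poly.NV at this
      push Not at this
      exact this
    have hb' : ∃ v, C.y b = P.pos v := by
      have := hb.2
      unfold Poly.NV at this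
      push Not at this
      exact this
    obtain ⟨v, hv1⟩ := ha'
    obtain ⟨w, hw1⟩ := hb'
    have mv : v ∈ C.vis := by
      unfold Cyc.vis
      simp only [Finset.mem_filter, Finset.mem_univ, true_and]
      exact ⟨a, hv1⟩
    have mw : w ∈ C.vis := by
      unfold Cyc.vis
      simp only [Finset.mem_filter, Finset.mem_univ, true_and]
      exact ⟨b, hw1⟩
    have : v = w := Finset.card_le_one.1 hv v mv w mw
    subst this
    exact h.uniq a b v hv1 hw1
  have hcr : ∀ d : P.D, (Finset.univ.filter (fun j : ZMod m => C.y j ∈ P.oseg d)).card ≤ P.nV := by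
    intro d
    have h1 := h.cross hv d
    have h2 : {j | C.y j ∈ P.oseg d}.ncard =
        (Finset.univ.filter (fun j : ZMod m => C.y j ∈ P.oseg d)).card := by
      rw [← Set.ncard_coe_finset]
      congr 1
      ext j
      simp
    omega
  have hsum : ∑ d : P.D, (Finset.univ.filter (fun j : ZMod m => C.y j ∈ P.oseg d)).card ≤
      Fintype.card P.D * P.nV := by
    calc _ ≤ ∑ _d : P.D, P.nV := Finset.sum_le_sum (fun d _ => hcr d)
      _ = _ := by rw [Finset.sum_const, Finset.card_univ, smul_eq_mul]
  have hdc : ∑ d : P.D, (Finset.univ.filter (fun j : ZMod m => C.y j ∈ P.oseg d)).card =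
      ∑ j : ZMod m, (Finset.univ.filter (fun d : P.D => C.y j ∈ P.oseg d)).card := by
    simp only [Finset.card_filter]
    exact Finset.sum_comm
  have h2S : 2 * S.card ≤ ∑ j : ZMod m,
      (Finset.univ.filter (fun d : P.D => C.y j ∈ P.oseg d)).card := by
    calc 2 * S.card = ∑ _j ∈ S, 2 := by rw [Finset.sum_const, smul_eq_mul, mul_comm]
      _ ≤ ∑ j ∈ S, (Finset.univ.filter (fun d : P.D => C.y j ∈ P.oseg d)).card := by
          apply Finset.sum_le_sum
          intro j hj
          rw [hS, Finset.mem_filter] at hj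
          obtain ⟨d, hd, hy⟩ := h.single j hj.2
          have hne : d ≠ P.inv d := (P.inv_ne d).symm
          rw [← Finset.card_pair hne]
          apply Finset.card_le_card
          intro x hx
          rw [Finset.mem_insert, Finset.mem_singleton] at hx
          rw [Finset.mem_filter]
          rcases hx with rfl | rfl
          · exact ⟨Finset.mem_univ _, hy⟩
          · exact ⟨Finset.mem_univ _, by rw [P.oseg_inv]; exact hy⟩
      _ ≤ _ := Finset.sum_le_sum_of_subset (Finset.subset_univ _)
  have key : 2 * S.card ≤ Fintype.card P.D * P.nV := by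
    rw [hdc] at hsum
    exact h2S.trans hsum
  have hD : Fintype.card P.D = 6 * P.nV - 12 := by omega
  obtain ⟨n, hn⟩ : ∃ n, P.nV = n + 2 := ⟨P.nV - 2, by omega⟩
  have hD' : Fintype.card P.D = 6 * n := by omega
  rw [hD', hn] at key
  rw [hn]
  nlinarith

end Cyc

end QG6b
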