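import Pool.Agent.Lib_MP_6b5565.D2f
import Pool.Agent.Lib_MP_6b5565.CyDefs

/-! [QG-Z5] -/

namespace QG6b

open EuclideanGeometry

namespace Cyc

variable {P : Poly} {m : ℕ} [NeZero m] {C : Cyc P m}

/-- [QG-Z5] injective parametrisation from `Simple` -/
theorem inj_param (h : C.Nice) (hs : C.Simple) (h3 : 3 ≤ m) (hi : Function.Injective C.y) :
    ∀ (i j : ZMod m) (s t : ℝ), 0 ≤ s → s < 1 → 0 ≤ t → t < 1 →
      AffineMap.lineMap (C.y i) (C.y (i + 1)) s = (AffineMap.lineMap (C.y j) (C.y (j + 1)) t : E3) →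
      i = j ∧ s = t := by
  intro i j s t hs0 hs1 ht0 ht1 heq
  have hi1 : Function.Injective (AffineMap.lineMap (C.y i) (C.y (i + 1)) : ℝ → E3) :=
    AffineMap.lineMap_injective ℝ (C.ne i)
  have hj1 : Function.Injective (AffineMap.lineMap (C.y j) (C.y (j + 1)) : ℝ → E3) :=
    AffineMap.lineMap_injective ℝ (C.ne j)
  rcases eq_or_ne i j with rfl | hij
  · exact ⟨rfl, hi1 heq⟩
  · exfalso
    have m1 : (AffineMap.lineMap (C.y i) (C.y (i + 1)) s : E3) ∈
        segment ℝ (C.y i) (C.y (i + 1)) := by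
      rw [segment_eq_image_lineMap]
      exact ⟨s, ⟨hs0, hs1.le⟩, rfl⟩
    have m2 : (AffineMap.lineMap (C.y i) (C.y (i + 1)) s : E3) ∈
        segment ℝ (C.y j) (C.y (j + 1)) := by
      rw [heq, segment_eq_image_lineMap]
      exact ⟨t, ⟨ht0, ht1.le⟩, rfl⟩
    rcases hs i j hij _ m1 m2 with ⟨e1, e2⟩ | ⟨e1, e2⟩
    · have : (AffineMap.lineMap (C.y i) (C.y (i + 1)) s : E3) =
          AffineMap.lineMap (C.y i) (C.y (i + 1)) (1 : ℝ) := by
        rw [AffineMap.lineMap_apply_one, e2, e1]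
      exact absurd (hi1 this) hs1.ne
    · have : (AffineMap.lineMap (C.y j) (C.y (j + 1)) t : E3) =
          AffineMap.lineMap (C.y j) (C.y (j + 1)) (1 : ℝ) := by
        rw [← heq, AffineMap.lineMap_apply_one, e2, e1]
      exact absurd (hj1 this) ht1.ne

end Cyc

end QG6b
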