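import Pool.Agent.Lib_MP_6b5565.Exist
import Pool.Agent.Lib_MP_6b5565.Local
import Pool.Agent.Lib_MP_6b5565.Simple
import Pool.Agent.Lib_MP_6b5565.Doubled
import Pool.Agent.Lib_MP_6b5565.Z1
import Pool.Agent.Lib_MP_6b5565.Z2
import Pool.Agent.Lib_MP_6b5565.Z3
import Pool.Agent.Lib_MP_6b5565.Z4
import Pool.Agent.Lib_MP_6b5565.Z5

/-! final assembly -/

namespace QG6b

open EuclideanGeometry

/-- THE THEOREM -/
theorem short_scq (P : Poly) : P.ShortSCQ := by
  obtain ⟨l, hl⟩ := P.exists_best
  obtain ⟨m, hm, C, h2, hb⟩ := hl.exists_cyc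
  have h := hb.nice h2
  rcases h.simple_or_doubled with ⟨hs, h3, hi⟩ | hd
  · have hv := Cyc.card_vis_le_one hb h hs h3 hi
    refine ⟨m, hm, C.y, C.F, Cyc.card_le h hv, ?_, Cyc.inj_param h hs h3 hi, ?_, ?_, ?_⟩
    · intro i
      exact ⟨(C.mem_face i).1, (C.mem_face i).2.1⟩
    · intro i
      by_cases hn : P.NV (C.y i)
      · exact Cyc.quasi_nv h hn
      · simp only [Poly.NV, not_forall, not_not] at hn
        obtain ⟨v, hv'⟩ := hn
        refine Cyc.quasi_vertex h hs h3 hi ?_ hv'
        have : v ∈ C.vis := by simp only [Cyc.vis, Finset.mem_filter]; exact ⟨Finset.mem_univ _, i, hv'⟩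
        have := Finset.card_pos.2 ⟨v, this⟩
        omega
    · intro i j v w hi' hj'
      have hvi : v ∈ C.vis := by simp only [Cyc.vis, Finset.mem_filter]; exact ⟨Finset.mem_univ _, i, hi'⟩
      have hwj : w ∈ C.vis := by simp only [Cyc.vis, Finset.mem_filter]; exact ⟨Finset.mem_univ _, j, hj'⟩
      have hvw : v = w := Finset.card_le_one.1 hv v hvi w hwj
      subst hvw
      exact h.uniq i j v hi' hj'
    · intro d
      have h1 := h.cross hv d
      have hn : 1 ≤ P.nV := by
        have := P.euler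
        unfold Poly.nV
        omega
      omega
  · exact (h.not_doubled hd).elim

end QG6b
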