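import Pool.Agent.Lib_MP_6b5565.GenDefs
import Pool.Agent.Lib_MP_6b5565.Tri
import Pool.Agent.Lib_MP_6b5565.GBIndex

/-! [QG-G1] -/

namespace QG6b

open EuclideanGeometry

noncomputable section

namespace Gen

variable {P : Poly} {ι : Type} [Fintype ι] [DecidableEq ι] (g : Gen P ι)

/-- distances from the corner on the previous edge -/
theorem dist_corner_iff (c : P.D) {p q : E3} (hp : p ∈ P.oseg (P.prev c))
    (hq : q ∈ P.oseg (P.prev c)) :
    dist p (P.A c) < dist q (P.A c) ↔ P.prm (P.prev c) q < P.prm (P.prev c) p := by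
  have h1 : P.A (P.inv (P.prev c)) = P.A c := by rw [P.A_inv, P.B_prev]
  rw [← h1, ← P.prm_lt_iff, P.prm_inv hp, P.prm_inv hq]
  constructor <;> intro h <;> linarith

omit [Fintype ι] [DecidableEq ι] in
/-- [QG-G1] PLANE GEOMETRY. In the face of `c` (vertices `v = A c`, `B c`, `A (prev c)`): a segment
from `b` inside the edge of `c` to `b'` inside the edge of `prev c`, and a segment from `a` inside
the edge of `c`, nearer to `v` than `b`, to a point `a'` which is inside one of the other two edges;
if they are disjoint, then `a'` is inside the edge of `prev c` and nearer to `v` than `b'`.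
(Affine function of the plane of the face vanishing on `b, b'`, negative at `v`: it is negative at
`a`, and nonnegative at `a'` otherwise; the zero on `[a, a']` is on the line `b b'` and in the face,
so in `[b, b']`.) -/
theorem corner_disjoint (c : P.D) {a a' b b' : E3} (hb : b ∈ P.oseg c) (hb' : b' ∈ P.oseg (P.prev c))
    (ha : a ∈ P.oseg c) (hab : dist a (P.A c) < dist b (P.A c))
    (ha' : a' ∈ P.oseg (P.prev c) ∨ a' ∈ P.oseg (P.nxt c))
    (hd : Disjoint (segment ℝ a a') (segment ℝ b b')) :
    a' ∈ P.oseg (P.prev c) ∧ dist a' (P.A c) < dist b' (P.A c) := by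
  rcases ha' with ha' | ha'
  · refine ⟨ha', ?_⟩
    rw [dist_corner_iff c ha' hb']
    exact P.disjoint_same ha ha' hb hb' hd (P.prm_lt_iff.2 hab)
  · exfalso
    have h1 := P.disjoint_adj hb hb' ha ha' hd.symm
    exact absurd (P.prm_lt_iff.1 h1) (not_lt.2 hab.le)

omit [Fintype ι] [DecidableEq ι] in
/-- the same with the roles of the two edges at the corner exchanged -/
theorem corner_disjoint' (c : P.D) {a a' b b' : E3} (hb : b ∈ P.oseg (P.prev c))
    (hb' : b' ∈ P.oseg c) (ha : a ∈ P.oseg (P.prev c)) (hab : dist a (P.A c) < dist b (P.A c))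
    (ha' : a' ∈ P.oseg c ∨ a' ∈ P.oseg (P.nxt c))
    (hd : Disjoint (segment ℝ a a') (segment ℝ b b')) :
    a' ∈ P.oseg c ∧ dist a' (P.A c) < dist b' (P.A c) := by
  rw [dist_corner_iff c ha hb] at hab
  rcases ha' with ha' | ha'
  · refine ⟨ha', ?_⟩
    by_contra hcon
    rw [not_lt, ← P.prm_le_iff] at hcon
    have hd' : Disjoint (segment ℝ b' b) (segment ℝ a' a) := by
      rw [segment_symm ℝ b' b, segment_symm ℝ a' a]
      exact hd.symm
    rcases lt_or_eq_of_le hcon with h1 | h1
    · have h2 := P.disjoint_same hb' hb ha' ha hd' h1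
      exact absurd h2 (not_lt.2 hab.le)
    · have h2 : b' = a' := P.prm_inj hb' ha' h1
      exact Set.disjoint_left.1 hd' (left_mem_segment ℝ b' b) (h2 ▸ left_mem_segment ℝ a' a)
  · exfalso
    have h3 : P.oseg (P.prev (P.prev c)) = P.oseg (P.nxt c) := by rw [P.prev_prev]
    have h4 : P.oseg (P.nxt (P.prev c)) = P.oseg c := by rw [P.nxt_prev]
    have h1 := P.disjoint_adj (d := P.prev c) (a := a) (a' := a') (b := b) (b' := b') ha
      (h3 ▸ ha') hb (h4 ▸ hb') hd
    exact absurd h1 (not_lt.2 hab.le)

end Gen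

end

end QG6b
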