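import Pool.Agent.Lib_MP_6b5565.CyDefs

/-! [QG-H3c] -/

namespace QG6b

open EuclideanGeometry Filter Topology

namespace Route

variable {P : Poly} {m : ℕ} [NeZero m] {C : Cyc P m} (ρ : Route C)

/-- [QG-H3c] plane geometry of the exceptional pair. Face with vertices `v, u, w`; `p, q` inside
`[u, w]`, `p` nearer to `u` (i.e. `∠ p v u < ∠ q v u`): the segment from `p` to a point of
`(v, u)` and the segment from `q` to a point of `(v, w)` are disjoint. -/
theorem exceptional (v u w p q a b : E3) (hind : AffineIndependent ℝ ![v, u, w])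
    (hp : p ∈ openSegment ℝ u w) (hq : q ∈ openSegment ℝ u w) (hpq : dist p u < dist q u)
    (ha : a ∈ openSegment ℝ v u) (hb : b ∈ openSegment ℝ v w) :
    Disjoint (segment ℝ p a) (segment ℝ b q) := by
  rw [Set.disjoint_left]
  intro x hx1 hx2
  rw [openSegment_eq_image_lineMap] at hp hq ha hb
  rw [segment_eq_image_lineMap] at hx1 hx2
  obtain ⟨s, ⟨hs0, hs1⟩, rfl⟩ := hp
  obtain ⟨t, ⟨ht0, ht1⟩, rfl⟩ := hq
  obtain ⟨α, ⟨hα0, hα1⟩, rfl⟩ := ha
  obtain ⟨β, ⟨hβ0, hβ1⟩, rfl⟩ := hb
  obtain ⟨l, ⟨hl0, hl1⟩, hl⟩ := hx1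
  obtain ⟨n, ⟨hn0, hn1⟩, hn⟩ := hx2
  have hst : s < t := by
    rw [dist_lineMap_left, dist_lineMap_left, Real.norm_of_nonneg hs0.le, Real.norm_of_nonneg ht0.le] at hpq
    by_contra h
    push Not at h
    have := mul_le_mul_of_nonneg_right h (dist_nonneg (x := u) (y := w))
    linarith
  have heq := hl.trans hn.symm
  simp only [AffineMap.lineMap_apply_module] at heq
  rw [affineIndependent_iff] at hind
  have h0 := hind Finset.univ
    ![l * (1 - α) - (1 - n) * (1 - β), (1 - l) * (1 - s) + l * α - n * (1 - t),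
      (1 - l) * s - ((1 - n) * β + n * t)]
    (by
      rw [Fin.sum_univ_three]
      simp only [Matrix.cons_val_zero, Matrix.cons_val_one, Matrix.cons_val_two, Matrix.head_cons, Matrix.tail_cons]
      ring)
    (by
      rw [Fin.sum_univ_three]
      simp only [Matrix.cons_val_zero, Matrix.cons_val_one, Matrix.cons_val_two, Matrix.head_cons, Matrix.tail_cons]
      rw [← sub_eq_zero] at heq
      rw [← heq]
      module)
  have hu := h0 1 (Finset.mem_univ _)
  have hw := h0 2 (Finset.mem_univ _)
  simp only [Matrix.cons_val_zero, Matrix.cons_val_one, Matrix.cons_val_two, Matrix.head_cons, Matrix.tail_cons] at hu hw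
  -- the linear form `w (1 - s) - u s` separates
  have h1 : ((1 - l) * s) * (1 - s) - ((1 - l) * (1 - s) + l * α) * s = -(l * α * s) := by ring
  have h2 : ((1 - n) * β + n * t) * (1 - s) - (n * (1 - t)) * s = (1 - n) * (β * (1 - s)) + n * (t - s) := by ring
  have h3 : 0 ≤ l * α * s := by positivity
  have h4 : 0 < (1 - n) * (β * (1 - s)) + n * (t - s) := by
    have h5 : 0 < β * (1 - s) := mul_pos hβ0 (by linarith)
    rcases hn0.lt_or_eq with h | h
    · have : 0 < n * (t - s) := mul_pos h (by linarith)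
      have : 0 ≤ (1 - n) * (β * (1 - s)) := mul_nonneg (by linarith) h5.le
      linarith
    · rw [← h]
      simpa using h5
  have h6 : (1 - l) * s = (1 - n) * β + n * t := by linarith
  have h7 : (1 - l) * (1 - s) + l * α = n * (1 - t) := by linarith
  rw [← h6, ← h7, h1] at h2
  linarith

end Route

end QG6b
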