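import Pool.Agent.Lib_MP_6b5565.H3a
import Pool.Agent.Lib_MP_6b5565.H3b
import Pool.Agent.Lib_MP_6b5565.H3c
import Pool.Agent.Lib_MP_6b5565.H1x

/-! [QG-H3d] -/

namespace QG6b

open EuclideanGeometry Filter Topology
open scoped NNReal

private theorem h3d_span {x y z : E3} (hy : y ≠ 0) {β γ : ℝ} (hβ : 0 ≤ β) (hγ : 0 ≤ γ)
    (h : y = β • x + γ • z) : InnerProductGeometry.angle x z =
      InnerProductGeometry.angle x y + InnerProductGeometry.angle y z := by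
  apply InnerProductGeometry.angle_eq_angle_add_add_angle_add_of_mem_span hy
  rw [Submodule.mem_span_pair]
  exact ⟨⟨β, hβ⟩, ⟨γ, hγ⟩, h.symm⟩

private theorem h3d_aux {x z p q : E3} (hp : p ≠ 0) (hq : q ≠ 0) {β₁ γ₁ β₂ γ₂ : ℝ} (hβ₁ : 0 ≤ β₁)
    (hγ₁ : 0 ≤ γ₁) (hβ₂ : 0 ≤ β₂) (hγ₂ : 0 ≤ γ₂) (h1 : p = β₁ • x + γ₁ • z)
    (h2 : q = β₂ • x + γ₂ • z) (hc : β₁ * γ₂ < β₂ * γ₁) :
    InnerProductGeometry.angle x p = InnerProductGeometry.angle x q
      + InnerProductGeometry.angle q p := by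
  have h0 : 0 < γ₁ := by
    rcases eq_or_lt_of_le hγ₁ with h0 | h0
    · rw [← h0, mul_zero] at hc
      exact absurd hc (not_lt.2 (by positivity))
    · exact h0
  refine h3d_span hq (β := β₂ - β₁ * γ₂ / γ₁) (γ := γ₂ / γ₁) ?_ (by positivity) ?_
  · rw [sub_nonneg, div_le_iff₀ h0]
    exact hc.le
  · rw [h1, h2]
    have e1 : (γ₂ / γ₁) • (β₁ • x + γ₁ • z) = (β₁ * γ₂ / γ₁) • x + γ₂ • z := by
      rw [smul_add, smul_smul, smul_smul]
      congr 2
      · ring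
      · field_simp
    rw [e1, sub_smul]
    abel

/-- coordinates with respect to a triangle are unique -/
private theorem h3d_indep {O X Y : E3} (hind : AffineIndependent ℝ ![O, X, Y]) {β γ : ℝ}
    (h : β • (X - O) + γ • (Y - O) = 0) : β = 0 ∧ γ = 0 := by
  rw [affineIndependent_iff] at hind
  have h0 := hind Finset.univ ![-β - γ, β, γ]
    (by
      rw [Fin.sum_univ_three]
      simp only [Matrix.cons_val_zero, Matrix.cons_val_one, Matrix.cons_val_two, Matrix.head_cons, Matrix.tail_cons]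
      ring)
    (by
      rw [Fin.sum_univ_three]
      simp only [Matrix.cons_val_zero, Matrix.cons_val_one, Matrix.cons_val_two, Matrix.head_cons, Matrix.tail_cons]
      rw [← h]
      module)
  exact ⟨h0 1 (Finset.mem_univ _), h0 2 (Finset.mem_univ _)⟩

/-- the smaller angle has the smaller slope -/
private theorem h3d_slope {O X Y p q : E3} (hind : AffineIndependent ℝ ![O, X, Y])
    {β₁ γ₁ β₂ γ₂ : ℝ} (hp : p ≠ O) (hq : q ≠ O) (hβ₁ : 0 ≤ β₁) (hγ₁ : 0 ≤ γ₁) (hβ₂ : 0 ≤ β₂) (hγ₂ : 0 ≤ γ₂)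
    (h1 : p - O = β₁ • (X - O) + γ₁ • (Y - O)) (h2 : q - O = β₂ • (X - O) + γ₂ • (Y - O))
    (h : ∠ p O X ≤ ∠ q O X) : β₂ * γ₁ ≤ β₁ * γ₂ := by
  by_contra hc
  push Not at hc
  have h3 := h3d_aux (sub_ne_zero.2 hp) (sub_ne_zero.2 hq) hβ₁ hγ₁ hβ₂ hγ₂ h1 h2 hc
  have e1 : ∠ p O X = InnerProductGeometry.angle (X - O) (p - O) := by
    rw [EuclideanGeometry.angle_comm]
    rfl
  have e2 : ∠ q O X = InnerProductGeometry.angle (X - O) (q - O) := by
    rw [EuclideanGeometry.angle_comm]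
    rfl
  rw [e1, e2, h3] at h
  have h4 : InnerProductGeometry.angle (q - O) (p - O) = 0 :=
    le_antisymm (by linarith) (InnerProductGeometry.angle_nonneg _ _)
  obtain ⟨-, r, -, h5⟩ := InnerProductGeometry.angle_eq_zero_iff.1 h4
  rw [h1, h2] at h5
  have h6 : (β₁ - r * β₂) • (X - O) + (γ₁ - r * γ₂) • (Y - O) = 0 := by
    rw [sub_smul, sub_smul, mul_smul, mul_smul]
    have h7 : β₁ • (X - O) + γ₁ • (Y - O) - r • (β₂ • (X - O) + γ₂ • (Y - O)) = 0 := sub_eq_zero.2 h5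
    rw [← h7, smul_add]
    abel
  obtain ⟨h7, h8⟩ := h3d_indep hind h6
  have h9 : β₁ = r * β₂ := by linarith
  have h10 : γ₁ = r * γ₂ := by linarith
  rw [h9, h10] at hc
  linarith [hc, show r * β₂ * γ₂ = β₂ * (r * γ₂) by ring]

namespace Route

variable {P : Poly} {m : ℕ} [NeZero m] {C : Cyc P m} (ρ : Route C)

/-- positions of a point on the boundary of a face -/
private theorem h3d_pos {a : P.D} {p : E3} (hp : ∃ e, p ∈ P.oseg e) (ht : p ∈ P.tri a) :
    (∃ s : ℝ, 0 < s ∧ s < 1 ∧ p - P.A a = s • (P.A (P.nxt a) - P.A a) + (0 : ℝ) • (P.A (P.prev a) - P.A a) ∧ p ∈ P.seg a) ∨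
    (∃ s : ℝ, 0 < s ∧ s < 1 ∧ p - P.A a = (1 - s) • (P.A (P.nxt a) - P.A a) + s • (P.A (P.prev a) - P.A a) ∧
      p = AffineMap.lineMap (P.A (P.nxt a)) (P.A (P.prev a)) s) ∨
    (∃ s : ℝ, 0 < s ∧ s < 1 ∧ p - P.A a = (0 : ℝ) • (P.A (P.nxt a) - P.A a) + s • (P.A (P.prev a) - P.A a) ∧
      p ∈ P.seg (P.prev a)) := by
  obtain ⟨e, he⟩ := hp
  have h1 : ∃ e', P.SF a e' ∧ p ∈ P.oseg e' := by
    rcases P.face_of_oseg he ht with h | h
    · exact ⟨e, h, he⟩
    · exact ⟨P.inv e, h, by rw [P.oseg_inv]; exact he⟩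
  obtain ⟨e', h2, h3⟩ := h1
  rcases h2 with rfl | rfl | rfl
  · left
    have h4 := openSegment_subset_segment ℝ _ _ h3
    unfold Poly.oseg at h3
    rw [openSegment_eq_image_lineMap] at h3
    obtain ⟨s, ⟨hs0, hs1⟩, h5⟩ := h3
    refine ⟨s, hs0, hs1, ?_, h4⟩
    have h6 : P.B e' = P.A (P.nxt e') := by unfold Poly.A Poly.B; rw [P.head_eq]
    rw [← h5, h6, AffineMap.lineMap_apply_module]
    module
  · right; left
    unfold Poly.oseg at h3
    rw [openSegment_eq_image_lineMap] at h3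
    obtain ⟨s, ⟨hs0, hs1⟩, h5⟩ := h3
    have h6 : P.B (P.nxt a) = P.A (P.prev a) := by unfold Poly.A Poly.B; rw [P.head_nxt]
    rw [h6] at h5
    refine ⟨s, hs0, hs1, ?_, h5.symm⟩
    rw [← h5, AffineMap.lineMap_apply_module]
    module
  · right; right
    have h4 := openSegment_subset_segment ℝ _ _ h3
    unfold Poly.oseg at h3
    rw [openSegment_eq_image_lineMap] at h3
    obtain ⟨s, ⟨hs0, hs1⟩, h5⟩ := h3
    have h6 : P.B (P.prev a) = P.A a := by unfold Poly.A Poly.B; rw [P.head_prev]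
    rw [h6] at h5
    refine ⟨1 - s, by linarith, by linarith, ?_, h4⟩
    rw [← h5, AffineMap.lineMap_apply_module]
    module

/-- the exceptional position -/
private theorem h3d_exc {a : P.D} {p q : E3} (hp : ∃ e, p ∈ P.oseg e) (hq : ∃ e, q ∈ P.oseg e)
    (hpt : p ∈ P.tri a) (hqt : q ∈ P.tri a) (hpq : p ≠ q) (hpa : p ∉ P.seg a) (hqa : q ∉ P.seg (P.prev a))
    (h : ∠ p (P.A a) (P.B a) ≤ ∠ q (P.A a) (P.B a)) :
    p ∈ openSegment ℝ (P.A (P.nxt a)) (P.A (P.prev a)) ∧ q ∈ openSegment ℝ (P.A (P.nxt a)) (P.A (P.prev a)) ∧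
      dist p (P.A (P.nxt a)) < dist q (P.A (P.nxt a)) ∧ dist q (P.A (P.prev a)) < dist p (P.A (P.prev a)) := by
  have hind : AffineIndependent ℝ ![P.A a, P.A (P.nxt a), P.A (P.prev a)] := P.indep a
  have h6 : P.B a = P.A (P.nxt a) := by unfold Poly.A Poly.B; rw [P.head_eq]
  rw [h6] at h
  have hNVp : p ≠ P.A a := by
    obtain ⟨e, he⟩ := hp
    exact P.NV_of_oseg he _
  have hNVq : q ≠ P.A a := by
    obtain ⟨e, he⟩ := hq
    exact P.NV_of_oseg he _
  have hXY : P.A (P.nxt a) ≠ P.A (P.prev a) := by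
    intro h0
    apply P.head_ne_prev a
    rw [P.head_eq]
    exact P.pos_inj h0
  have hd : 0 < dist (P.A (P.nxt a)) (P.A (P.prev a)) := dist_pos.2 hXY
  rcases h3d_pos hp hpt with ⟨s, -, -, -, h1⟩ | ⟨s, s0, s1, hs, hs'⟩ | ⟨s, s0, s1, hs, -⟩
  · exact absurd h1 hpa
  · rcases h3d_pos hq hqt with ⟨t, t0, t1, ht, -⟩ | ⟨t, t0, t1, ht, ht'⟩ | ⟨t, -, -, -, h1⟩
    · have h7 := h3d_slope hind hNVp hNVq (by linarith) s0.le t0.le le_rfl hs ht h
      have : 0 < t * s := mul_pos t0 s0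
      linarith
    · have h7 := h3d_slope hind hNVp hNVq (by linarith) s0.le (by linarith) t0.le hs ht h
      have h8 : s ≤ t := by nlinarith
      have h9 : s < t := by
        refine lt_of_le_of_ne h8 fun h0 => hpq ?_
        rw [hs', ht', h0]
      refine ⟨?_, ?_, ?_, ?_⟩
      · rw [openSegment_eq_image_lineMap]
        exact ⟨s, ⟨s0, s1⟩, hs'.symm⟩
      · rw [openSegment_eq_image_lineMap]
        exact ⟨t, ⟨t0, t1⟩, ht'.symm⟩
      · rw [hs', ht', dist_lineMap_left, dist_lineMap_left, Real.norm_of_nonneg s0.le, Real.norm_of_nonneg t0.le]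
        exact mul_lt_mul_of_pos_right h9 hd
      · rw [hs', ht', dist_lineMap_right, dist_lineMap_right, Real.norm_of_nonneg (by linarith : (0 : ℝ) ≤ 1 - t),
          Real.norm_of_nonneg (by linarith : (0 : ℝ) ≤ 1 - s)]
        exact mul_lt_mul_of_pos_right (by linarith) hd
    · exact absurd h1 hqa
  · rcases h3d_pos hq hqt with ⟨t, t0, t1, ht, -⟩ | ⟨t, t0, t1, ht, ht'⟩ | ⟨t, -, -, -, h1⟩
    · have h7 := h3d_slope hind hNVp hNVq le_rfl s0.le t0.le le_rfl hs ht h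
      have : 0 < t * s := mul_pos t0 s0
      linarith
    · have h7 := h3d_slope hind hNVp hNVq le_rfl s0.le (by linarith) t0.le hs ht h
      have : 0 < (1 - t) * s := mul_pos (by linarith) s0
      linarith
    · exact absurd h1 hqa

private theorem h3d_lim (i : ρ.Idx) : ρ.xx 0 i = C.y i.1 := by
  unfold xx
  split_ifs
  · rfl
  · rw [zero_smul, add_zero]

private theorem h3d_cont (i : ρ.Idx) : ContinuousAt (fun ε => ρ.xx ε i) 0 := by
  by_cases h : P.NV (C.y i.1)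
  · have : (fun ε => ρ.xx ε i) = fun _ => C.y i.1 := by
      funext ε
      unfold xx
      rw [if_pos h]
    rw [this]
    exact continuousAt_const
  · have : (fun ε => ρ.xx ε i) = fun ε => C.y i.1 + ε • (P.far (ρ.vtx i.1) (ρ.dd i) - C.y i.1) := by
      funext ε
      unfold xx
      rw [if_neg h]
    rw [this]
    fun_prop

private theorem h3d_open {z w : E3} {ε : ℝ} (h0 : 0 < ε) (h1 : ε < 1) : z + ε • (w - z) ∈ openSegment ℝ z w := by
  rw [openSegment_eq_image_lineMap]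
  refine ⟨ε, ⟨h0, h1⟩, ?_⟩
  rw [AffineMap.lineMap_apply_module]
  module

/-- the exceptional pair -/
private theorem h3d_pair (h : C.Nice) (h3 : 3 ≤ m) (hi : Function.Injective C.y)
    (nx : Equiv.Perm ρ.Idx)
    (h1 : ∀ (j : ZMod m) (t : ℕ) (h : t + 1 < (ρ.W j).length),
        nx ⟨j, ⟨t, by omega⟩⟩ = ⟨j, ⟨t + 1, h⟩⟩)
    (h2 : ∀ (j : ZMod m) (t : ℕ) (h : t + 1 = (ρ.W j).length),
        nx ⟨j, ⟨t, by omega⟩⟩ = ⟨j + 1, ⟨0, List.length_pos_iff.2 (ρ.W_ne (j + 1))⟩⟩)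
    (i k : ρ.Idx) (j : ZMod m) (hj : ¬ P.NV (C.y j)) (hdeg : (ρ.W j).length = P.deg (ρ.vtx j))
    (hj1 : P.NV (C.y (j - 1))) (hj2 : P.NV (C.y (j + 1)))
    (hik : i = nx.symm ⟨j, ⟨0, List.length_pos_iff.2 (ρ.W_ne j)⟩⟩) (hk : k.1 = j) (hk' : (nx k).1 = j + 1) :
    ∀ᶠ ε in 𝓝[>] (0 : ℝ),
      Disjoint (segment ℝ (ρ.xx ε i) (ρ.xx ε (nx i))) (segment ℝ (ρ.xx ε k) (ρ.xx ε (nx k))) := by
  have hnxi : nx i = ⟨j, ⟨0, List.length_pos_iff.2 (ρ.W_ne j)⟩⟩ := by
    rw [hik, Equiv.apply_symm_apply]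
  have hi1 : i.1 = j - 1 := by
    obtain ⟨i1, ⟨t, ht⟩⟩ := i
    rcases Nat.lt_or_ge (t + 1) (ρ.W i1).length with h4 | h4
    · rw [h1 i1 t h4] at hnxi
      have h5 : i1 = j := congrArg Sigma.fst hnxi
      subst h5
      have h6 := eq_of_heq (Sigma.mk.inj hnxi).2
      have h7 := congrArg Fin.val h6
      simp at h7
    · rw [h2 i1 t (by omega)] at hnxi
      have h5 : i1 + 1 = j := congrArg Sigma.fst hnxi
      rw [← h5]
      show i1 = i1 + 1 - 1
      ring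
  have h10 : (1 : ZMod m) ≠ 0 := by
    intro h0
    have h4 : ((1 : ℕ) : ZMod m) = 0 := by rw [Nat.cast_one]; exact h0
    rw [ZMod.natCast_eq_zero_iff] at h4
    have := Nat.le_of_dvd one_pos h4
    omega
  have hkl : ∃ ht : (ρ.W j).length - 1 < (ρ.W j).length, k = ⟨j, ⟨(ρ.W j).length - 1, ht⟩⟩ := by
    obtain ⟨k1, ⟨t, ht⟩⟩ := k
    have hk1 : k1 = j := hk
    subst hk1
    have h4 : t + 1 = (ρ.W k1).length := by
      by_contra h4
      have h5 : t + 1 < (ρ.W k1).length := by omega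
      rw [h1 k1 t h5] at hk'
      have h6 : k1 = k1 + 1 := hk'
      exact h10 (left_eq_add.1 h6)
    refine ⟨by omega, ?_⟩
    have h5 : t = (ρ.W k1).length - 1 := by omega
    subst h5
    rfl
  obtain ⟨hlt, hkeq⟩ := hkl
  -- the four points
  have x1 : ∀ ε, ρ.xx ε i = C.y (j - 1) := by
    intro ε
    unfold xx
    rw [hi1, if_pos hj1]
  have x4 : ∀ ε, ρ.xx ε (nx k) = C.y (j + 1) := by
    intro ε
    unfold xx
    rw [hk', if_pos hj2]
  have x2 : ∀ ε, ρ.xx ε (nx i) = C.y j + ε • (P.far (ρ.vtx j) ((ρ.W j)[0]'(List.length_pos_iff.2 (ρ.W_ne j))) - C.y j) := by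
    intro ε
    rw [hnxi]
    unfold xx
    rw [if_neg hj]
    rfl
  have x3 : ∀ ε, ρ.xx ε k = C.y j + ε • (P.far (ρ.vtx j) ((ρ.W j)[(ρ.W j).length - 1]'hlt) - C.y j) := by
    intro ε
    rw [hkeq]
    unfold xx
    rw [if_neg hj]
    rfl
  have hv := ρ.hvtx j hj
  obtain ⟨d1, -, hd1⟩ := h.single _ hj1
  obtain ⟨d2, -, hd2⟩ := h.single _ hj2
  have hpq : C.y (j - 1) ≠ C.y (j + 1) := by
    intro h0
    have h4 := hi h0
    have h5 : ((2 : ℕ) : ZMod m) = 0 := by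
      push_cast
      linear_combination -h4
    rw [ZMod.natCast_eq_zero_iff] at h5
    have := Nat.le_of_dvd two_pos h5
    omega
  have hind : ∀ a : P.D, AffineIndependent ℝ ![P.A a, P.A (P.nxt a), P.A (P.prev a)] := fun a => P.indep a
  have hB : ∀ a, P.B a = P.A (P.nxt a) := by
    intro a
    unfold Poly.A Poly.B
    rw [P.head_eq]
  have hR : ∀ a, P.B (P.rot a) = P.A (P.prev a) := by
    intro a
    unfold Poly.A Poly.B
    rw [P.head_rot]
  have hsr : ∀ a, P.seg (P.rot a) = P.seg (P.prev a) := by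
    intro a
    show P.seg (P.inv (P.prev a)) = _
    exact P.seg_inv _
  have hIoo : ∀ᶠ ε in 𝓝[>] (0 : ℝ), 0 < ε ∧ ε < 1 := Ioo_mem_nhdsGT one_pos
  cases hsense : ρ.sense j
  · -- counterclockwise
    obtain ⟨a, l, ha, hl1, hl2, hW, -, -, hp, hq, hpa, hqa, hang⟩ := ρ.ccw j hj hsense
    have hlen : (ρ.W j).length = l := by rw [hW, P.length_ccwD]
    have hld : l = P.deg (ρ.vtx j) := hlen.symm.trans hdeg
    have hang' := hang hld
    have hiter : P.rot^[l] a = a := by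
      rw [hld, ← ha]
      exact P.iterate_rot_deg a
    rw [hiter] at hq hqa
    rw [hsr] at hpa
    have hvA : C.y j = P.A a := by rw [hv, ← ha]; rfl
    have hvA' : P.pos (ρ.vtx j) = P.A a := by rw [← ha]; rfl
    rw [hvA'] at hang'
    obtain ⟨m1, m2, m3, m4⟩ := h3d_exc ⟨d2, hd2⟩ ⟨d1, hd1⟩ hq hp hpq.symm hqa hpa hang'
    have f1 : P.far (ρ.vtx j) ((ρ.W j)[0]'(List.length_pos_iff.2 (ρ.W_ne j))) = P.A (P.prev a) := by
      have e1 : (ρ.W j)[0]'(List.length_pos_iff.2 (ρ.W_ne j)) = P.inv (P.rot a) := by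
        simp only [hW]
        rw [P.getElem_ccwD]
        rfl
      rw [e1]
      unfold Poly.far
      rw [if_neg, ← hR]
      · rfl
      · show ¬ P.head (P.rot a) = ρ.vtx j
        rw [← ha, ← P.tail_rot a]
        exact (P.tail_ne_head _).symm
    have f2 : P.far (ρ.vtx j) ((ρ.W j)[(ρ.W j).length - 1]'hlt) = P.A (P.nxt a) := by
      have e1 : (ρ.W j)[(ρ.W j).length - 1]'hlt = P.inv a := by
        simp only [hW]
        rw [P.getElem_ccwD, P.length_ccwD, show l - 1 + 1 = l by omega, hiter]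
      rw [e1]
      unfold Poly.far
      rw [if_neg, ← hB]
      · rfl
      · show ¬ P.head a = ρ.vtx j
        rw [← ha]
        exact (P.tail_ne_head _).symm
    filter_upwards [hIoo] with ε hε
    rw [x1, x2, x3, x4, f1, f2, hvA]
    refine exceptional _ _ _ _ _ _ _ ?_ ?_ ?_ m4 (h3d_open hε.1 hε.2) (h3d_open hε.1 hε.2)
    · have h5 := (hind a).comp_embedding (Equiv.swap (1 : Fin 3) 2).toEmbedding
      convert h5 using 1
      funext x
      fin_cases x <;> rfl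
    · rw [openSegment_symm]; exact m2
    · rw [openSegment_symm]; exact m1
  · -- clockwise
    obtain ⟨a, l, ha, hl1, hl2, hW, -, -, hp, hq, hpa, hqa, hang⟩ := ρ.cw j hj hsense
    have hlen : (ρ.W j).length = l := by rw [hW, P.length_cwD]
    have hld : l = P.deg (ρ.vtx j) := hlen.symm.trans hdeg
    have hang' := hang hld
    have hiter : P.cw^[l] a = a := by
      have := P.iterate_cw_rot a (k := l) (l := 0) (by rw [ha, add_zero]; exact hld)
      exact this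
    have hiter' : P.cw^[l - 1] a = P.rot a := by
      have := P.iterate_cw_rot a (k := l - 1) (l := 1) (by rw [ha]; omega)
      exact this
    rw [hiter] at hq
    rw [hiter', hsr] at hqa
    have hvA : C.y j = P.A a := by rw [hv, ← ha]; rfl
    have hvA' : P.pos (ρ.vtx j) = P.A a := by rw [← ha]; rfl
    rw [hvA'] at hang'
    obtain ⟨m1, m2, m3, m4⟩ := h3d_exc ⟨d1, hd1⟩ ⟨d2, hd2⟩ hp hq hpq hpa hqa hang'
    have f1 : P.far (ρ.vtx j) ((ρ.W j)[0]'(List.length_pos_iff.2 (ρ.W_ne j))) = P.A (P.nxt a) := by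
      have e1 : (ρ.W j)[0]'(List.length_pos_iff.2 (ρ.W_ne j)) = a := by
        simp only [hW]
        rw [P.getElem_cwD]
        rfl
      rw [e1]
      unfold Poly.far
      rw [if_pos ha, hB]
    have f2 : P.far (ρ.vtx j) ((ρ.W j)[(ρ.W j).length - 1]'hlt) = P.A (P.prev a) := by
      have e1 : (ρ.W j)[(ρ.W j).length - 1]'hlt = P.rot a := by
        simp only [hW]
        rw [P.getElem_cwD, P.length_cwD, hiter']
      rw [e1]
      unfold Poly.far
      rw [if_pos (by rw [P.tail_rot, ha]), hR]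
    filter_upwards [hIoo] with ε hε
    rw [x1, x2, x3, x4, f1, f2, hvA]
    exact exceptional _ _ _ _ _ _ _ (hind a) m1 m2 m3 (h3d_open hε.1 hε.2) (h3d_open hε.1 hε.2)

/-- [QG-H3d] for small `ε` segments in the same face are disjoint -/
theorem xx_disj (h : C.Nice) (hs : C.Simple) (h3 : 3 ≤ m) (hi : Function.Injective C.y)
    (nx : Equiv.Perm ρ.Idx)
    (h1 : ∀ (j : ZMod m) (t : ℕ) (h : t + 1 < (ρ.W j).length),
        nx ⟨j, ⟨t, by omega⟩⟩ = ⟨j, ⟨t + 1, h⟩⟩)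
    (h2 : ∀ (j : ZMod m) (t : ℕ) (h : t + 1 = (ρ.W j).length),
        nx ⟨j, ⟨t, by omega⟩⟩ = ⟨j + 1, ⟨0, List.length_pos_iff.2 (ρ.W_ne (j + 1))⟩⟩) :
    ∀ᶠ ε in 𝓝[>] (0 : ℝ), ∀ i k, i ≠ k → P.SF (P.inv (ρ.dd i)) (P.inv (ρ.dd k)) →
      Disjoint (segment ℝ (ρ.xx ε i) (ρ.xx ε (nx i))) (segment ℝ (ρ.xx ε k) (ρ.xx ε (nx k))) := by
  have hfin : Finite ρ.Idx := by
    unfold Idx
    infer_instance
  rw [eventually_all]
  intro i
  rw [eventually_all]
  intro k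
  by_cases hik : i = k
  · exact Eventually.of_forall fun _ h0 => absurd hik h0
  by_cases hF : P.SF (P.inv (ρ.dd i)) (P.inv (ρ.dd k))
  swap
  · exact Eventually.of_forall fun _ _ h0 => absurd h0 hF
  have key : ∀ᶠ ε in 𝓝[>] (0 : ℝ),
      Disjoint (segment ℝ (ρ.xx ε i) (ρ.xx ε (nx i))) (segment ℝ (ρ.xx ε k) (ρ.xx ε (nx k))) := by
    by_cases hd : Disjoint (segment ℝ (C.y i.1) (C.y (nx i).1)) (segment ℝ (C.y k.1) (C.y (nx k).1))
    · refine eventually_disjoint _ _ _ _ (ρ.h3d_cont i) (ρ.h3d_cont (nx i)) (ρ.h3d_cont k) (ρ.h3d_cont (nx k)) ?_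
      rw [ρ.h3d_lim, ρ.h3d_lim, ρ.h3d_lim, ρ.h3d_lim]
      exact hd
    · obtain ⟨j, hj, hdeg, hj1, hj2, h4 | h4⟩ := ρ.touching h hs h3 hi nx h1 h2 i k hik hF hd
      · exact ρ.h3d_pair h h3 hi nx h1 h2 i k j hj hdeg hj1 hj2 h4.1 h4.2.1 h4.2.2
      · exact (ρ.h3d_pair h h3 hi nx h1 h2 k i j hj hdeg hj1 hj2 h4.1 h4.2.1 h4.2.2).mono fun _ h5 => h5.symm
  exact key.mono fun _ h5 _ _ => h5

end Route

end QG6b
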