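import Pool.Agent.Lib_MP_6b5565.Gen
import Pool.Agent.Lib_MP_6b5565.F1b
import Pool.Agent.Lib_MP_6b5565.H1x
import Pool.Agent.Lib_MP_6b5565.H2
import Pool.Agent.Lib_MP_6b5565.H3d
import Pool.Agent.Lib_MP_6b5565.H4
import Pool.Agent.Lib_MP_6b5565.H5a
import Pool.Agent.Lib_MP_6b5565.H5b
import Pool.Agent.Lib_MP_6b5565.H5c

/-! [QG-H6] -/

namespace QG6b

open EuclideanGeometry Filter Topology

namespace Route

variable {P : Poly} {m : ℕ} [NeZero m] {C : Cyc P m} (ρ : Route C)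

/-- [QG-H6] GAUSS-BONNET FOR ROUTES. Assembly of H1-H5 with `Gen.gauss_bonnet` (the colour `lam`
takes one value for arbitrarily small `ε`: pick a sequence, or note that the left side colour is
determined by the vertex nodes / by the sum). -/
theorem gauss_bonnet (h : C.Nice) (hs : C.Simple) (h3 : 3 ≤ m) (hi : Function.Injective C.y)
    {col : P.V → ZMod 2} (hcol : P.Col ρ.par col) :
    ∃ lam : ZMod 2,
      (∀ j, ¬ P.NV (C.y j) → ρ.sense j = true → col (ρ.vtx j) = lam + 1) ∧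
      (∀ j, ¬ P.NV (C.y j) → ρ.sense j = false → col (ρ.vtx j) = lam) ∧
      ∑ j, ρ.turn j = 2 * Real.pi - P.K ∅ col lam := by
  obtain ⟨nx, h1, h2, htr, -⟩ := ρ.exists_cy
  have hpos : ∀ j, 0 < (ρ.W j).length := fun j => List.length_pos_iff.2 (ρ.W_ne j)
  have : Nonempty ρ.Idx := ⟨⟨0, ⟨0, hpos 0⟩⟩⟩
  -- the statement for small `ε`
  set Q : ℝ → ZMod 2 → Prop := fun ε lam =>
    (∀ j, ¬ P.NV (C.y j) → ρ.sense j = true → col (ρ.vtx j) = lam + 1) ∧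
    (∀ j, ¬ P.NV (C.y j) → ρ.sense j = false → col (ρ.vtx j) = lam) ∧
    ∑ j, ∑ t : Fin (ρ.W j).length,
      (Real.pi - ∠ (ρ.xx ε (nx.symm ⟨j, t⟩)) (ρ.xx ε ⟨j, t⟩) (P.B (ρ.dd ⟨j, t⟩)) -
        ∠ (ρ.xx ε (nx ⟨j, t⟩)) (ρ.xx ε ⟨j, t⟩) (P.B (ρ.dd ⟨j, t⟩))) =
      2 * Real.pi - P.K ∅ col lam with hQ
  have hev : ∀ᶠ ε in 𝓝[>] (0 : ℝ), ∃ lam, Q ε lam := by
    filter_upwards [ρ.xx_op h, ρ.xx_inj h hs h3 hi, ρ.xx_disj h hs h3 hi nx h1 h2,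
      ρ.xx_nearest h hs h3 hi] with ε e1 e2 e3 e4
    let g : Gen P ρ.Idx :=
      { nx := nx
        trans := htr
        d := ρ.dd
        x := ρ.xx ε
        op := e1
        turn := fun i => (ρ.turn_cases h nx h1 h2 i).1
        inj := e2
        disj := e3 }
    have hc : P.Col g.par col := by
      intro d
      have h4 : g.par d = ρ.par d := (ρ.par_eq d).symm
      rw [h4]
      exact hcol d
    obtain ⟨lam, g1, g2, g3⟩ := g.gauss_bonnet hc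
    refine ⟨lam, fun j hj hsj => ?_, fun j hj hsj => ?_, ?_⟩
    · have ht := ρ.tail_of_cw (i := ⟨j, ⟨0, hpos j⟩⟩) hj hsj
      have h4 := g2 ⟨j, ⟨0, hpos j⟩⟩ (fun k hk => by
        have h5 := e4 ⟨j, ⟨0, hpos j⟩⟩ k hj hk
        have h6 : P.A (g.d ⟨j, ⟨0, hpos j⟩⟩) = C.y j := by
          show P.pos (P.tail (ρ.dd ⟨j, ⟨0, hpos j⟩⟩)) = _
          rw [ht, ρ.hvtx j hj]
        rw [h6]
        exact h5)
      have h5 : P.tail (g.d ⟨j, ⟨0, hpos j⟩⟩) = ρ.vtx j := ht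
      rwa [h5] at h4
    · have ht := ρ.head_of_ccw (i := ⟨j, ⟨0, hpos j⟩⟩) hj hsj
      have h4 := g1 ⟨j, ⟨0, hpos j⟩⟩ (fun k hk => by
        have h5 := e4 ⟨j, ⟨0, hpos j⟩⟩ k hj hk
        have h6 : P.B (g.d ⟨j, ⟨0, hpos j⟩⟩) = C.y j := by
          show P.pos (P.head (ρ.dd ⟨j, ⟨0, hpos j⟩⟩)) = _
          rw [ht, ρ.hvtx j hj]
        rw [h6]
        exact h5)
      have h5 : P.head (g.d ⟨j, ⟨0, hpos j⟩⟩) = ρ.vtx j := ht
      rwa [h5] at h4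
    · rw [← g3, ← Fintype.sum_sigma']
  -- one value of `lam` for arbitrarily small `ε`
  have hfr : ∃ lam, ∃ᶠ ε in 𝓝[>] (0 : ℝ), Q ε lam := by
    by_contra hcon
    push Not at hcon
    have h4 : ∀ᶠ ε in 𝓝[>] (0 : ℝ), ∀ lam, ¬ Q ε lam := by
      rw [eventually_all]
      intro lam
      exact hcon lam
    obtain ⟨ε, ⟨lam, h5⟩, h6⟩ := (hev.and h4).exists
    exact h6 lam h5
  obtain ⟨lam, hlam⟩ := hfr
  obtain ⟨ε0, q1, q2, -⟩ := hlam.exists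
  refine ⟨lam, q1, q2, ?_⟩
  -- the limit
  have hlim : Tendsto (fun ε => ∑ j, ∑ t : Fin (ρ.W j).length,
      (Real.pi - ∠ (ρ.xx ε (nx.symm ⟨j, t⟩)) (ρ.xx ε ⟨j, t⟩) (P.B (ρ.dd ⟨j, t⟩)) -
        ∠ (ρ.xx ε (nx ⟨j, t⟩)) (ρ.xx ε ⟨j, t⟩) (P.B (ρ.dd ⟨j, t⟩)))) (𝓝[>] 0)
      (𝓝 (∑ j, ρ.turn j)) := by
    refine tendsto_finsetSum _ fun j _ => ?_
    by_cases hj : P.NV (C.y j)
    · exact ρ.lim_nv h nx h1 h2 j hj
    · rcases hsj : ρ.sense j with _ | _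
      · exact ρ.lim_ccw h nx h1 h2 j hj hsj
      · exact ρ.lim_cw h nx h1 h2 j hj hsj
  have h4 : ∑ j, ρ.turn j ∈ ({2 * Real.pi - P.K ∅ col lam} : Set ℝ) := by
    refine isClosed_singleton.mem_of_frequently_of_tendsto ?_ hlim
    exact hlam.mono fun ε hε => hε.2.2
  exact h4

end Route

end QG6b
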