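import Pool.Agent.Lib_MP_6b5565.CyDefs

/-! [QG-S1a] SLIDE LEMMA (metric part). Moving every crossing point towards the left (towards the head of the crossed half-edge) by `t / sin ψ` leaves the length of a straight closed track unchanged. -/

namespace QG6b

open EuclideanGeometry

namespace Cy

variable {P : Poly} {ι : Type} [Fintype ι] [DecidableEq ι]

/-- [QG-S1a] a segment from `x` to `y`, directions `u`, `w` (unit) on the same side in one plane:
`u = - cos ψ e + sin ψ n`, `w = - cos χ e + sin χ n` with `e` the direction of the segment and `n`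
orthogonal to `e`. Then the segment from `x + (t / sin ψ) u` to `y + (t / sin χ) w` has length
`dist x y + t (cot ψ - cot χ)`, as long as this is nonnegative. -/
theorem slide_segment (x y e n u w : E3) (ψ χ t ℓ : ℝ) (he : ‖e‖ = 1) (hn : ‖n‖ = 1)
    (hen : inner ℝ e n = 0) (hxy : y - x = ℓ • e) (hℓ : 0 ≤ ℓ)
    (hψ : 0 < Real.sin ψ) (hχ : 0 < Real.sin χ)
    (hu : u = (-Real.cos ψ) • e + Real.sin ψ • n) (hw : w = (-Real.cos χ) • e + Real.sin χ • n)
    (ht : 0 ≤ ℓ + t * (Real.cos ψ / Real.sin ψ - Real.cos χ / Real.sin χ)) :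
    dist (x + (t / Real.sin ψ) • u) (y + (t / Real.sin χ) • w) =
      dist x y + t * (Real.cos ψ / Real.sin ψ - Real.cos χ / Real.sin χ) := by
  have hd : dist x y = ℓ := by
    rw [dist_comm, dist_eq_norm, hxy, norm_smul, he, mul_one, Real.norm_of_nonneg hℓ]
  have h1 : (t / Real.sin ψ) • u = (-(t * (Real.cos ψ / Real.sin ψ))) • e + t • n := by
    rw [hu, smul_add, smul_smul, smul_smul]
    congr 2
    · ring
    · field_simp
  have h2 : (t / Real.sin χ) • w = (-(t * (Real.cos χ / Real.sin χ))) • e + t • n := by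
    rw [hw, smul_add, smul_smul, smul_smul]
    congr 2
    · ring
    · field_simp
  have h3 : (y + (t / Real.sin χ) • w) - (x + (t / Real.sin ψ) • u) =
      (ℓ + t * (Real.cos ψ / Real.sin ψ - Real.cos χ / Real.sin χ)) • e := by
    have : (y + (t / Real.sin χ) • w) - (x + (t / Real.sin ψ) • u) =
        (y - x) + ((t / Real.sin χ) • w - (t / Real.sin ψ) • u) := by abel
    rw [this, hxy, h1, h2]
    module
  rw [dist_comm, dist_eq_norm, h3, norm_smul, he, mul_one, Real.norm_of_nonneg ht, hd]

end Cy

end QG6b
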