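import Pool.Agent.Lib_MP_6b5565.Basic

/-! walks, proved basics -/

namespace QG6b

namespace Poly

variable (P : Poly)

theorem DWalk_congr_left {F F' G : P.D} {l : List P.D} (h : P.SF F F') (w : P.DWalk F l G) :
    P.DWalk F' l G := by
  cases l with
  | nil => exact P.SF_trans (P.SF_symm h) w
  | cons d l => exact ⟨P.SF_trans (P.SF_symm h) w.1, w.2⟩

theorem DWalk_congr_right {F G G' : P.D} {l : List P.D} (h : P.SF G G') (w : P.DWalk F l G) :
    P.DWalk F l G' := by
  induction l generalizing F with
  | nil => exact P.SF_trans w h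
  | cons d l ih => exact ⟨w.1, ih w.2⟩

theorem par_nil (e : P.D) : P.par [] e = 0 := by simp [par]

theorem par_append (l₁ l₂ : List P.D) (e : P.D) :
    P.par (l₁ ++ l₂) e = P.par l₁ e + P.par l₂ e := by
  simp [par, List.countP_append]

theorem par_comm (l₁ l₂ : List P.D) : P.par (l₁ ++ l₂) = P.par (l₂ ++ l₁) := by
  funext e; rw [par_append, par_append, add_comm]

theorem par_singleton (d e : P.D) : P.par [d] e = if d = e ∨ d = P.inv e then 1 else 0 := by
  by_cases h : d = e ∨ d = P.inv e <;> simp [par, h]

theorem par_reverse (l : List P.D) : P.par l.reverse = P.par l := by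
  funext e; simp [par]

theorem par_inv (l : List P.D) (e : P.D) : P.par l (P.inv e) = P.par l e := by
  unfold par
  congr 2
  funext a
  simp only [P.inv_inv, or_comm]

theorem par_perm {l₁ l₂ : List P.D} (h : l₁.Perm l₂) : P.par l₁ = P.par l₂ := by
  funext e; simp [par, h.countP_eq]

theorem length_cwD (a : P.D) (k : ℕ) : (P.cwD a k).length = k := by
  induction k generalizing a with
  | zero => rfl
  | succ k ih => simp [cwD, ih]

theorem length_ccwD (a : P.D) (k : ℕ) : (P.ccwD a k).length = k := by
  induction k generalizing a with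
  | zero => rfl
  | succ k ih => simp [ccwD, ih]

end Poly

end QG6b
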